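import Pool.Agent.MP_c6eade_gt.H41.A2

/-! From the absence of one-defect spherical diagrams to a group with injective factors. -/

set_option autoImplicit false

namespace Pool.Agent.MP_c6eade_gt.H41.B1x

open Equiv

section paths
variable {D : Type}

/-- `f` runs along the list and then goes to `e` -/
def Pth (f : D → D) : List D → D → Prop
  | [], _ => True
  | a :: l, e => f a = l.headD e ∧ Pth f l e

theorem pth_append (f : D → D) (A B : List D) (e : D) :
    Pth f (A ++ B) e ↔ Pth f A (B.headD e) ∧ Pth f B e := by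
  induction A with
  | nil => simp [Pth]
  | cons a A ih =>
    rw [List.cons_append, Pth, Pth, ih, and_assoc]
    cases A <;> simp

theorem pth_same {f : Perm D} : ∀ (l : List D) (a e : D), Pth f (a :: l) e → f.SameCycle a e
  | [], a, e, h => by
    have : f a = e := h.1
    exact ⟨1, by simpa using this⟩
  | b :: l, a, e, h => by
    have h1 : f a = b := h.1
    exact Perm.SameCycle.trans ⟨1, by simpa using h1⟩ (pth_same l b e h.2)

theorem pth_pre {f : D → D} : ∀ (l : List D) (a e : D), Pth f (a :: l) e →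
    ∀ b, b ∈ l ∨ b = e → ∃ c ∈ a :: l, f c = b
  | [], a, e, h, b, hb => by
    have : f a = e := h.1
    rcases hb with hb | hb
    · simp at hb
    · exact ⟨a, by simp, hb ▸ this⟩
  | c :: l, a, e, h, b, hb => by
    have h1 : f a = c := h.1
    by_cases hc : b = c
    · exact ⟨a, by simp, hc ▸ h1⟩
    · obtain ⟨d, hd, e'⟩ := pth_pre l c e h.2 b (by simpa [hc] using hb)
      exact ⟨d, List.mem_cons_of_mem _ hd, e'⟩

theorem pth_swap {f σ : D → D} : ∀ (l : List D) (a e : D), Pth f (a :: l) e →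
    (∀ b ∈ l, σ b = b) → Pth (fun x => σ (f x)) (a :: l) (σ e)
  | [], a, e, h, _ => by
    have : f a = e := h.1
    exact ⟨by simp [this], trivial⟩
  | c :: l, a, e, h, hb => by
    have h1 : f a = c := h.1
    refine ⟨?_, pth_swap l c e h.2 fun b hb' => hb b (List.mem_cons_of_mem _ hb')⟩
    simp only [h1, List.headD_cons]
    exact hb c (by simp)

theorem pth_map {D' : Type} {f : D → D} {F : D' → D'} {i : D → D'} (hi : ∀ x, F (i x) = i (f x)) :
    ∀ (l : List D) (e : D), Pth f l e → Pth F (l.map i) (i e)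
  | [], _, _ => trivial
  | a :: l, e, h => by
    refine ⟨?_, pth_map hi l e h.2⟩
    rw [hi, h.1]
    cases l <;> simp

end paths

variable {Row Kind Om : Type} [Group Om]

/-- walks: every dart `(row, in, out)` is followed by a link -/
def Wk (L : Row × Om → Row × Om → Prop) : Row × Om → List (Row × Om × Om) → Row × Om → Prop
  | a, [], b => a = b
  | a, d :: l, b => a = (d.1, d.2.1) ∧ ∃ a', L (d.1, d.2.2) a' ∧ Wk L a' l b

/-- the letter of a dart -/
def lt (kind : Row → Kind) (d : Row × Om × Om) : Kind × Om := (kind d.1, d.2.1⁻¹ * d.2.2)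

/-- the reversed walk -/
def rv (l : List (Row × Om × Om)) : List (Row × Om × Om) :=
  (l.map fun d => (d.1, d.2.2, d.2.1)).reverse

/-- the inverse word -/
def bar (w : List (Kind × Om)) : List (Kind × Om) := (w.map fun x => (x.1, x.2⁻¹)).reverse

variable {L : Row × Om → Row × Om → Prop} {kind : Row → Kind}

omit [Group Om] in
theorem wk_append : ∀ (l l' : List (Row × Om × Om)) (a b c : Row × Om), Wk L a l b → Wk L b l' c →
    Wk L a (l ++ l') c
  | [], l', a, b, c, h, h' => by
    have : a = b := h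
    exact this ▸ h'
  | d :: l, l', a, b, c, h, h' => by
    obtain ⟨h1, a', h2, h3⟩ := h
    exact ⟨h1, a', h2, wk_append l l' a' b c h3 h'⟩

omit [Group Om] in
theorem wk_rv (hs : ∀ a b, L a b → L b a) : ∀ (l : List (Row × Om × Om)) (a b c : Row × Om),
    Wk L a l b → L c a → ∃ d, L d b ∧ Wk L d (rv l) c
  | [], a, b, c, h, h' => by
    have : a = b := h
    exact ⟨c, this ▸ h', rfl⟩
  | d :: l, a, b, c, h, h' => by
    obtain ⟨h1, a', h2, h3⟩ := h
    obtain ⟨e, e1, e2⟩ := wk_rv hs l a' b _ h3 h2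
    refine ⟨e, e1, ?_⟩
    have : rv (d :: l) = rv l ++ [(d.1, d.2.2, d.2.1)] := by simp [rv]
    rw [this]
    exact wk_append _ _ _ _ _ e2 ⟨rfl, c, hs _ _ (h1 ▸ h'), rfl⟩

theorem lt_rv (l : List (Row × Om × Om)) : (rv l).map (lt kind) = bar (l.map (lt kind)) := by
  simp [rv, bar, lt, List.map_reverse, Function.comp_def]

/-- words of closed walks -/
def Face (L : Row × Om → Row × Om → Prop) (kind : Row → Kind) (w : List (Kind × Om)) : Prop :=
  ∃ a l, Wk L a l a ∧ w = l.map (lt kind)

theorem Face.bar (hs : ∀ a b, L a b → L b a) {w : List (Kind × Om)} (h : Face L kind w) :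
    Face L kind (bar w) := by
  obtain ⟨a, l, h, rfl⟩ := h
  rw [← lt_rv]
  cases l with
  | nil => exact ⟨a, [], rfl, rfl⟩
  | cons d l =>
    obtain ⟨h1, a', h2, h3⟩ := h
    obtain ⟨e, e1, e2⟩ := wk_rv hs l a' a _ h3 h2
    refine ⟨e, _, ?_, rfl⟩
    have : rv (d :: l) = rv l ++ [(d.1, d.2.2, d.2.1)] := by simp [rv]
    rw [this]
    exact wk_append _ _ _ _ _ e2 ⟨rfl, e, hs _ _ (h1 ▸ e1), rfl⟩

/-- existence of the row elements in a group in which all closed walks are trivial -/
theorem exists_rows (hr : ∀ a, L a a) (hs : ∀ a b, L a b → L b a) {H : Type} [Group H]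
    (io : Kind → Om →* H)
    (hF : ∀ w, Face L kind w → (w.map fun x => io x.1 x.2).prod = 1) :
    ∃ g : Row → H, ∀ a b, L a b → g a.1 * io (kind a.1) a.2 = g b.1 * io (kind b.1) b.2 := by
  obtain ⟨W, hW⟩ : ∃ W : List (Row × Om × Om) → H,
      ∀ l, W l = ((l.map (lt kind)).map fun x => io x.1 x.2).prod := ⟨_, fun _ => rfl⟩
  have W0 : W [] = 1 := by simp [hW]
  have W1 : ∀ d l, W (d :: l) = io (kind d.1) (d.2.1⁻¹ * d.2.2) * W l := by simp [hW, lt]
  have W2 : ∀ l l', W (l ++ l') = W l * W l' := by simp [hW]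
  have W3 : ∀ l, W (rv l) = (W l)⁻¹ := by
    intro l
    induction l with
    | nil => simp [rv, W0]
    | cons d l ih =>
      have : rv (d :: l) = rv l ++ [(d.1, d.2.2, d.2.1)] := by simp [rv]
      rw [this, W2, ih, W1, W1, W0]
      simp
  obtain ⟨E, hE⟩ : ∃ E : Row → Row → H → Prop,
      ∀ r r' c, E r r' c ↔ ∃ l, Wk L (r, 1) l (r', 1) ∧ W l = c := ⟨_, fun _ _ _ => Iff.rfl⟩
  have E0 : ∀ r, E r r 1 := fun r => (hE _ _ _).2 ⟨[], rfl, W0⟩
  have E1 : ∀ r r' r'' c c', E r r' c → E r' r'' c' → E r r'' (c * c') := by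
    intro r r' r'' c c' h h'
    obtain ⟨l, h1, rfl⟩ := (hE _ _ _).1 h
    obtain ⟨l', h2, rfl⟩ := (hE _ _ _).1 h'
    exact (hE _ _ _).2 ⟨_, wk_append _ _ _ _ _ h1 h2, W2 _ _⟩
  have E2 : ∀ r r' c, E r r' c → E r' r c⁻¹ := by
    intro r r' c h
    obtain ⟨l, h1, rfl⟩ := (hE _ _ _).1 h
    obtain ⟨d, d1, d2⟩ := wk_rv hs l _ _ _ h1 (hr _)
    refine (hE _ _ _).2 ⟨(r', 1, 1) :: rv l, ⟨rfl, d, hs _ _ d1, d2⟩, ?_⟩
    rw [W1, W3]
    simp
  have E3 : ∀ r c, E r r c → c = 1 := by
    intro r c h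
    obtain ⟨l, h1, rfl⟩ := (hE _ _ _).1 h
    rw [hW]
    exact hF _ ⟨_, l, h1, rfl⟩
  let S : Setoid Row := ⟨fun r r' => ∃ c, E r r' c, fun r => ⟨1, E0 r⟩,
    fun ⟨c, h⟩ => ⟨_, E2 _ _ c h⟩, fun ⟨c, h⟩ ⟨c', h'⟩ => ⟨_, E1 _ _ _ c c' h h'⟩⟩
  have hb : ∀ r, ∃ c, E (Quotient.mk S r).out r c := fun r => Quotient.mk_out (s := S) r
  choose g hg using hb
  refine ⟨g, fun a b hab => ?_⟩
  have h1 : E a.1 b.1 (io (kind a.1) a.2 * (io (kind b.1) b.2)⁻¹) := by
    refine (hE _ _ _).2 ⟨[(a.1, 1, a.2), (b.1, b.2, 1)],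
      ⟨rfl, b, hab, rfl, (b.1, 1), hr _, rfl⟩, ?_⟩
    rw [W1, W1, W0]
    simp
  have h2 : Quotient.mk S a.1 = Quotient.mk S b.1 := Quotient.sound ⟨_, h1⟩
  have h3 := hg b.1
  rw [← h2] at h3
  have h4 := E3 _ _ (E1 _ _ _ _ _ (E1 _ _ _ _ _ (hg a.1) h1) (E2 _ _ _ h3))
  rw [mul_inv_eq_one, ← mul_assoc, mul_inv_eq_iff_eq_mul] at h4
  exact h4

variable {Q : ∀ (D : Type) [Fintype D] [DecidableEq D], Perm D → Perm D → Prop}

/-- words that bound a diagram -/
def Bd (Q : ∀ (D : Type) [Fintype D] [DecidableEq D], Perm D → Perm D → Prop)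
    (L : Row × Om → Row × Om → Prop) (kind : Row → Kind) (w : List (Kind × Om)) : Prop :=
  ∃ (D : Type) (_ : Fintype D) (_ : DecidableEq D) (f h : Perm D) (κ : D → Kind) (s t : D → Om)
    (r : D → Row) (u : D → Om) (l : List D), Q D f h ∧ l.Nodup ∧
    l.map (fun x => (κ x, (s x)⁻¹ * t x)) = w ∧ (∀ e, l.head? = some e → Pth f l e) ∧
    (∀ x ∉ l, kind (r x) = κ x ∧
      L (r x, (u x)⁻¹ * t x) (r (f x), (u (f x))⁻¹ * s (f x))) ∧
    ∀ x, κ (h x) = κ x ∧ s x = t (h x)

theorem bd_rot1 {x : Kind × Om} {w : List (Kind × Om)} (hw : Bd Q L kind (x :: w)) :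
    Bd Q L kind (w ++ [x]) := by
  obtain ⟨D, _, _, f, h, κ, s, t, r, u, l, h1, h2, h3, h4, h5, h6⟩ := hw
  obtain ⟨a, l', rfl, e1, e2⟩ := List.map_eq_cons_iff.1 h3
  refine ⟨D, _, _, f, h, κ, s, t, r, u, l' ++ [a], h1, ?_, by simp [e1, e2], ?_, ?_, h6⟩
  · exact (List.perm_append_singleton a l').nodup_iff.2 h2
  · have h7 := h4 a rfl
    cases l' with
    | nil => simpa using h7
    | cons b l' =>
      intro e he
      obtain rfl : b = e := by simpa using he
      rw [pth_append]
      exact ⟨h7.2, h7.1, trivial⟩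
  · intro x hx
    exact h5 x (by simpa [or_comm] using hx)

theorem bd_rot : ∀ (A B : List (Kind × Om)), Bd Q L kind (A ++ B) → Bd Q L kind (B ++ A)
  | [], B, h => by simpa using h
  | x :: A, B, h => by
    have h1 := bd_rot1 (x := x) (w := A ++ B) h
    rw [List.append_assoc] at h1
    simpa using bd_rot A _ h1

theorem retag {D : Type} [DecidableEq D] (κ : D → Kind) (s t : D → Om) (r : D → Row)
    (u : D → Om) : ∀ (R : List D) (lw : List (Row × Om × Om)), R.Nodup →
      R.map (fun x => (κ x, (s x)⁻¹ * t x)) = lw.map (lt kind) →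
      ∃ (r' : D → Row) (u' : D → Om), (∀ x ∉ R, r' x = r x ∧ u' x = u x) ∧
        R.map (fun x => (r' x, (u' x)⁻¹ * s x, (u' x)⁻¹ * t x)) = lw ∧
        ∀ x ∈ R, kind (r' x) = κ x
  | [], lw, _, h => ⟨r, u, fun _ _ => ⟨rfl, rfl⟩, by simpa using h.symm, by simp⟩
  | a :: R, [], _, h => by simp at h
  | a :: R, d :: lw, hn, h => by
    rw [List.map_cons, List.map_cons, List.cons.injEq] at h
    rw [List.nodup_cons] at hn
    obtain ⟨r1, u1, a1, a2, a3⟩ := retag κ s t r u R lw hn.2 h.2
    have h1 : κ a = kind d.1 := congrArg Prod.fst h.1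
    have h2 : (s a)⁻¹ * t a = d.2.1⁻¹ * d.2.2 := congrArg Prod.snd h.1
    have hne : ∀ x ∈ R, x ≠ a := fun x hx e => hn.1 (e ▸ hx)
    refine ⟨Function.update r1 a d.1, Function.update u1 a (s a * d.2.1⁻¹), fun x hx => ?_, ?_,
      fun x hx => ?_⟩
    · rw [List.mem_cons, not_or] at hx
      rw [Function.update_of_ne hx.1, Function.update_of_ne hx.1]
      exact a1 x hx.2
    · rw [List.map_cons, ← a2]
      congr 1
      · simp only [Function.update_self, mul_inv_rev, inv_inv, mul_assoc, h2]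
        simp
      · exact List.map_congr_left fun x hx => by
          rw [Function.update_of_ne (hne x hx), Function.update_of_ne (hne x hx)]
    · rcases List.mem_cons.1 hx with rfl | hx
      · rw [Function.update_self, h1]
      · rw [Function.update_of_ne (hne x hx)]
        exact a3 x hx

omit [Group Om] in
theorem links {D : Type} {f : D → D} (r : D → Row) (y z : D → Om) (e : D) :
    ∀ (R : List D) (a : Row × Om), Pth f R e →
      Wk L a (R.map fun x => (r x, y x, z x)) (r e, y e) →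
      ∀ x ∈ R, L (r x, z x) (r (f x), y (f x))
  | [], _, _, _, x, hx => by simp at hx
  | c :: R, a, hp, hw, x, hx => by
    obtain ⟨-, a', h2, h3⟩ := hw
    rcases List.mem_cons.1 hx with rfl | hx
    · rw [hp.1]
      cases R with
      | nil =>
        have : a' = (r e, y e) := h3
        exact this ▸ h2
      | cons c' R =>
        have : a' = (r c', y c') := h3.1
        exact this ▸ h2
    · exact links r y z e R a' hp.2 h3 x hx

theorem bd_cut (hsp : ∀ (D : Type) [Fintype D] [DecidableEq D] (f h : Perm D) (a b : D),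
      Q D f h → f.SameCycle a b → a ≠ b → Q D (swap a b * f) h)
    {W B : List (Kind × Om)} (hW : Face L kind W) (hw : Bd Q L kind (W ++ B)) :
    Bd Q L kind B := by
  obtain ⟨a, lw, hwk, rfl⟩ := hW
  obtain ⟨D, _, _, f, h, κ, s, t, r, u, l, h1, h2, h3, h4, h5, h6⟩ := hw
  obtain ⟨R, l2, rfl, e1, e2⟩ := List.map_eq_append_iff.1 h3
  cases R with
  | nil => exact ⟨D, _, _, f, h, κ, s, t, r, u, l2, h1, h2, e2, h4, h5, h6⟩
  | cons x0 R =>
    obtain ⟨n1, n2, n3⟩ := List.nodup_append.1 h2
    obtain ⟨r', u', a1, a2, a3⟩ := retag (kind := kind) κ s t r u _ lw n1 e1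
    have hp := h4 x0 rfl
    have hpre := pth_pre (R ++ l2) x0 x0 hp
    rw [pth_append] at hp
    have hout : ∀ x, x ∉ x0 :: R ++ l2 → f x ∉ x0 :: R ++ l2 := by
      intro x hx hfx
      obtain ⟨c, hc, e⟩ := hpre (f x) (by simpa [or_comm, or_assoc] using hfx)
      exact hx (f.injective e ▸ hc)
    have hm : l2.headD x0 ∈ x0 :: R ++ l2 := by cases l2 <;> simp
    have hR : ∀ b ∈ R, swap x0 (l2.headD x0) b = b := by
      intro b hb
      refine swap_apply_of_ne_of_ne (fun e => (List.nodup_cons.1 n1).1 (e ▸ hb)) ?_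
      cases l2 with
      | nil => exact fun e => (List.nodup_cons.1 n1).1 (by simpa [e] using hb)
      | cons m l2 => exact n3 b (List.mem_cons_of_mem _ hb) m (by simp)
    have hp1 := pth_swap R x0 _ hp.1 hR
    rw [swap_apply_right] at hp1
    refine ⟨D, inferInstance, inferInstance, swap x0 (l2.headD x0) * f, h, κ, s, t, r', u', l2,
      ?_, n2, e2, ?_, ?_, h6⟩
    · cases l2 with
      | nil =>
        rw [List.headD_nil, swap_self]
        exact h1
      | cons m l2 => exact hsp D f h _ _ h1 (pth_same R x0 _ hp.1) (n3 x0 (by simp) m (by simp))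
    · intro e he
      cases l2 with
      | nil => simp at he
      | cons m l2 =>
        obtain rfl : m = e := by simpa using he
        have := pth_swap (σ := swap x0 m) l2 m x0 hp.2 fun b hb => swap_apply_of_ne_of_ne
          (n3 x0 (by simp) b (List.mem_cons_of_mem _ hb)).symm
          (fun e => (List.nodup_cons.1 n2).1 (e ▸ hb))
        rw [swap_apply_left] at this
        exact this
    · intro x hx
      by_cases hxR : x ∈ x0 :: R
      · refine ⟨a3 x hxR, ?_⟩
        rw [← a2] at hwk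
        have ha : a = (r' x0, (u' x0)⁻¹ * s x0) := hwk.1
        rw [ha] at hwk
        exact links r' (fun x => (u' x)⁻¹ * s x) (fun x => (u' x)⁻¹ * t x) x0 _ _ hp1 hwk x hxR
      · have hxl : x ∉ x0 :: R ++ l2 := by
          rw [List.mem_append, not_or]
          exact ⟨hxR, hx⟩
        have hf := hout x hxl
        have e : (swap x0 (l2.headD x0) * f) x = f x :=
          swap_apply_of_ne_of_ne (fun e => hf (by simp [e])) (fun e => hf (e ▸ hm))
        have hf' : f x ∉ x0 :: R := fun h => hf (List.mem_append_left _ h)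
        rw [e, (a1 x hxR).1, (a1 x hxR).2, (a1 _ hf').1, (a1 _ hf').2]
        exact h5 x hxl

theorem bd_ins [Nonempty Row]
    (hadd : ∀ (D : Type) [Fintype D] [DecidableEq D] (f h : Perm D), Q D f h →
      Q (D ⊕ Bool) (Perm.sumCongr f (swap false true)) (Perm.sumCongr h (swap false true)))
    (hjoin : ∀ (D : Type) [Fintype D] [DecidableEq D] (f h : Perm D) (m : D), Q D f h →
      Q (D ⊕ Bool) (swap (Sum.inl m) (Sum.inr false) * Perm.sumCongr f (swap false true))
        (Perm.sumCongr h (swap false true)))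
    (x : Kind × Om) {B : List (Kind × Om)} (hw : Bd Q L kind B) :
    Bd Q L kind (x :: (x.1, x.2⁻¹) :: B) := by
  obtain ⟨D, _, _, f, h, κ, s, t, r, u, l, h1, h2, h3, h4, h5, h6⟩ := hw
  obtain ⟨r0⟩ := ‹Nonempty Row›
  have key : ∀ F : Perm (D ⊕ Bool), Q (D ⊕ Bool) F (Perm.sumCongr h (swap false true)) →
      Pth F (Sum.inr false :: Sum.inr true :: l.map Sum.inl) (Sum.inr false) →
      (∀ y ∉ l, F (Sum.inl y) = Sum.inl (f y)) → Bd Q L kind (x :: (x.1, x.2⁻¹) :: B) := by
    intro F q1 q2 q3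
    refine ⟨D ⊕ Bool, _, _, F, _, Sum.elim κ fun _ => x.1,
      Sum.elim s fun b => if b then x.2 else 1, Sum.elim t fun b => if b then 1 else x.2,
      Sum.elim r fun _ => r0, Sum.elim u fun _ => 1,
      Sum.inr false :: Sum.inr true :: l.map Sum.inl, q1, ?_, ?_, ?_, ?_, ?_⟩
    · simpa using h2.map Sum.inl_injective
    · simp [← h3, Function.comp_def]
    · intro e he
      obtain rfl : Sum.inr false = e := by simpa using he
      exact q2
    · rintro (y | b) hy
      · have hy' : y ∉ l := by simpa using hy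
        rw [q3 y hy']
        exact h5 y hy'
      · cases b <;> simp at hy
    · rintro (y | b)
      · exact h6 y
      · cases b <;> simp
  cases l with
  | nil => exact key _ (hadd D f h h1) ⟨by simp, by simp, trivial⟩ fun y _ => by simp
  | cons m l =>
    have hp := h4 m rfl
    have hp1 := pth_map (F := Perm.sumCongr f (swap false true)) (i := Sum.inl)
      (fun _ => by simp) _ _ hp
    have hp2 := pth_swap (σ := swap (Sum.inl m) (Sum.inr false)) (l.map Sum.inl) _ _ hp1
      (fun b hb => by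
        obtain ⟨c, hc, rfl⟩ := List.mem_map.1 hb
        refine swap_apply_of_ne_of_ne (fun e => (List.nodup_cons.1 h2).1 ?_) (by simp)
        exact Sum.inl_injective e ▸ hc)
    rw [swap_apply_left] at hp2
    refine key _ (hjoin D f h m h1) ⟨?_, by simp, hp2⟩ fun y hy => ?_
    · simp [swap_apply_of_ne_of_ne]
    · obtain ⟨c, hc, e⟩ := pth_pre l m m hp m (Or.inr rfl)
      have : f y ≠ m := fun e' => hy (f.injective (e.trans e'.symm) ▸ hc)
      simp [swap_apply_of_ne_of_ne, this]

/-- spherical diagrams with exactly one defect -/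
def Bad (Q : ∀ (D : Type) [Fintype D] [DecidableEq D], Perm D → Perm D → Prop)
    (L : Row × Om → Row × Om → Prop) (kind : Row → Kind) : Prop :=
  ∃ (D : Type) (_ : Fintype D) (_ : DecidableEq D) (f h : Perm D) (r : D → Row) (y z u : D → Om)
    (x0 : D), Q D f h ∧ (∀ x, L (r x, z x) (r (f x), y (f x))) ∧
    (∀ x, kind (r (h x)) = kind (r x)) ∧ ∀ x, (u x * y x = u (h x) * z (h x) ↔ x ≠ x0)

theorem bad_of_bd (hr : ∀ a, L a a) (hk : Function.Surjective kind) {a : Kind} {k : Om}
    (hk1 : k ≠ 1) (hw : Bd Q L kind [(a, k)]) : Bad Q L kind := by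
  obtain ⟨D, _, _, f, h, κ, s, t, r, u, l, h1, h2, h3, h4, h5, h6⟩ := hw
  obtain ⟨x0, l', rfl, e1, e2⟩ := List.map_eq_cons_iff.1 h3
  obtain rfl : l' = [] := by simpa using e2
  have hf : f x0 = x0 := (h4 x0 rfl).1
  have e3 : (s x0)⁻¹ * t x0 = k := congrArg Prod.snd e1
  obtain ⟨r0, hr0⟩ := hk (κ x0)
  have hκ : ∀ x, kind (Function.update r x0 r0 x) = κ x := by
    intro x
    by_cases hx : x = x0
    · rw [hx, Function.update_self, hr0]
    · rw [Function.update_of_ne hx]
      exact (h5 x (by simpa using hx)).1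
  refine ⟨D, _, _, f, h, Function.update r x0 r0,
    fun x => (u x)⁻¹ * if x = x0 then t x else s x, fun x => (u x)⁻¹ * t x, u, x0, h1,
    fun x => ?_, fun x => by rw [hκ, hκ, (h6 x).1], fun x => ?_⟩
  · dsimp only
    by_cases hx : x = x0
    · rw [hx, hf, if_pos rfl]
      exact hr _
    · have hx' : f x ≠ x0 := fun e => hx (f.injective (e.trans hf.symm))
      rw [Function.update_of_ne hx, Function.update_of_ne hx', if_neg hx']
      exact (h5 x (by simpa using hx)).2
  · simp only [mul_inv_cancel_left, ← (h6 x).2]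
    by_cases hx : x = x0
    · rw [if_pos hx, hx]
      simp only [ne_eq, not_true, iff_false]
      intro e
      exact hk1 (by rw [← e3, e, inv_mul_cancel])
    · simp [hx]

theorem main (hr : ∀ a, L a a) (hs : ∀ a b, L a b → L b a) (hk : Function.Surjective kind)
    (h0 : Q Empty 1 1)
    (hadd : ∀ (D : Type) [Fintype D] [DecidableEq D] (f h : Perm D), Q D f h →
      Q (D ⊕ Bool) (Perm.sumCongr f (swap false true)) (Perm.sumCongr h (swap false true)))
    (hjoin : ∀ (D : Type) [Fintype D] [DecidableEq D] (f h : Perm D) (m : D), Q D f h →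
      Q (D ⊕ Bool) (swap (Sum.inl m) (Sum.inr false) * Perm.sumCongr f (swap false true))
        (Perm.sumCongr h (swap false true)))
    (hsp : ∀ (D : Type) [Fintype D] [DecidableEq D] (f h : Perm D) (a b : D),
      Q D f h → f.SameCycle a b → a ≠ b → Q D (swap a b * f) h)
    (hno : ¬ Bad Q L kind) :
    ∃ (H : Type) (_ : Group H) (io : Kind → Om →* H) (g : Row → H),
      (∀ a, Function.Injective (io a)) ∧
      ∀ a b, L a b → g a.1 * io (kind a.1) a.2 = g b.1 * io (kind b.1) b.2 := by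
  rcases isEmpty_or_nonempty Row with hR | hR
  · have : IsEmpty Kind := ⟨fun a => (hk a).elim fun r _ => hR.elim r⟩
    exact ⟨Unit, inferInstance, fun _ => 1, fun _ => 1, fun a => this.elim a, fun _ _ _ => rfl⟩
  have cut : ∀ W, Face L kind W → ∀ A B, Bd Q L kind (A ++ W ++ B) → Bd Q L kind (A ++ B) := by
    intro W hW A B h
    rw [List.append_assoc] at h
    have h1 := bd_rot _ _ h
    rw [List.append_assoc] at h1
    exact bd_rot _ _ (bd_cut hsp hW h1)
  have ins : ∀ W A B, Bd Q L kind (A ++ B) → Bd Q L kind (A ++ W ++ bar W ++ B) := by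
    intro W
    induction W with
    | nil => intro A B h; simpa [bar] using h
    | cons x W ih =>
      intro A B h
      have h1 := bd_ins hadd hjoin x (bd_rot _ _ h)
      have h2 := bd_rot (x :: (x.1, x.2⁻¹) :: B) A h1
      have h3 := ih (A ++ [x]) ((x.1, x.2⁻¹) :: B) (by simpa using h2)
      simpa [bar] using h3
  let ρ : FreeMonoid (Kind × Om) → FreeMonoid (Kind × Om) → Prop :=
    fun w w' => Face L kind w.toList ∧ w' = 1
  have inv : ∀ w w', ConGen.Rel ρ w w' → ∀ A B,
      (Bd Q L kind (A ++ w.toList ++ B) ↔ Bd Q L kind (A ++ w'.toList ++ B)) := by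
    intro w w' h
    induction h with
    | of w w' h =>
      intro A B
      obtain ⟨h, rfl⟩ := h
      rw [FreeMonoid.toList_one, List.append_nil]
      exact ⟨cut _ h A B, fun h' => cut _ (h.bar hs) _ B (ins _ A B h')⟩
    | refl w => exact fun _ _ => Iff.rfl
    | symm _ ih => exact fun A B => (ih A B).symm
    | trans _ _ ih ih' => exact fun A B => (ih A B).trans (ih' A B)
    | @mul w x y z _ _ ih ih' =>
      intro A B
      have a1 := ih A (y.toList ++ B)
      have a2 := ih' (A ++ x.toList) B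
      simp only [FreeMonoid.toList_mul, List.append_assoc] at a1 a2 ⊢
      exact a1.trans a2
  obtain ⟨π, hπ⟩ : ∃ π : FreeMonoid (Kind × Om) →* (conGen ρ).Quotient,
      ∀ w w', π w = π w' ↔ ConGen.Rel ρ w w' := ⟨(conGen ρ).mk', fun _ _ => (conGen ρ).eq⟩
  have hface : ∀ w, Face L kind w → (w.map fun x => π (FreeMonoid.of x)).prod = 1 := by
    intro w hw
    have h1 : π (FreeMonoid.ofList w) = π 1 := (hπ _ _).2 (ConGen.Rel.of _ _ ⟨hw, rfl⟩)
    rw [map_one] at h1
    rw [← h1]
    clear h1 hw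
    induction w with
    | nil => simp
    | cons x w ih => rw [List.map_cons, List.prod_cons, ih, FreeMonoid.ofList_cons, map_mul]
  have m1 : ∀ a : Kind, π (FreeMonoid.of (a, 1)) = 1 := by
    intro a
    obtain ⟨r, rfl⟩ := hk a
    simpa [lt] using hface _ ⟨(r, 1), [(r, 1, 1)], ⟨rfl, _, hr _, rfl⟩, rfl⟩
  have m2 : ∀ (a : Kind) (k k' : Om), π (FreeMonoid.of (a, k * k')) =
      π (FreeMonoid.of (a, k)) * π (FreeMonoid.of (a, k')) := by
    intro a k k'
    obtain ⟨r, rfl⟩ := hk a
    have a1 := hface _ ⟨(r, 1), [(r, 1, k), (r, k, k * k'), (r, k * k', 1)],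
      ⟨rfl, _, hr _, rfl, _, hr _, rfl, _, hr _, rfl⟩, rfl⟩
    have a2 := hface _ ⟨(r, k * k'), [(r, k * k', 1), (r, 1, k * k')],
      ⟨rfl, _, hr _, rfl, _, hr _, rfl⟩, rfl⟩
    simp only [lt, List.map_cons, List.map_nil, List.prod_cons, List.prod_nil, mul_one, inv_one,
      one_mul, inv_mul_cancel_left] at a1 a2
    have a3 := congrArg (fun c => c * π (FreeMonoid.of (kind r, k * k'))) a1
    simp only [mul_assoc, a2, mul_one, one_mul] at a3
    exact a3.symm
  let j : Kind → Om →* (conGen ρ).Quotient :=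
    fun a => ⟨⟨fun k => π (FreeMonoid.of (a, k)), m1 a⟩, m2 a⟩
  obtain ⟨g, hg⟩ := exists_rows (kind := kind) hr hs (fun a => (j a).toHomUnits) (by
    intro w hw
    apply Units.ext
    rw [Units.val_one, ← hface w hw, ← Units.coeHom_apply, map_list_prod, List.map_map]
    rfl)
  refine ⟨_, inferInstance, fun a => (j a).toHomUnits, g,
    fun a => (injective_iff_map_eq_one _).2 fun k hk' => ?_, hg⟩
  by_contra hk1
  have h1 : π (FreeMonoid.of (a, k)) = π 1 := by
    rw [map_one]
    exact congrArg Units.val hk'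
  have h2 := (inv _ _ ((hπ _ _).1 h1) [] []).2
    ⟨Empty, _, _, 1, 1, Empty.elim, Empty.elim, Empty.elim, Empty.elim, Empty.elim, [], h0,
      List.nodup_nil, rfl, by simp, fun x => x.elim, fun x => x.elim⟩
  exact hno (bad_of_bd hr hk hk1 (by simpa using h2))

theorem swap_irrel {D : Type} (i j : DecidableEq D) (a b : D) :
    @swap D i a b = @swap D j a b := by
  rw [Subsingleton.elim i j]

theorem orb_inv {D β : Type} {f h : Perm D} (φ : D → β) (h1 : ∀ x, φ (f x) = φ x)
    (h2 : ∀ x, φ (h x) = φ x) {x y : D} (ho : Orb f h x y) : φ x = φ y := by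
  induction ho with
  | rel x y hxy =>
    rcases hxy with rfl | rfl
    · exact (h1 x).symm
    · exact (h2 x).symm
  | refl x => rfl
  | symm _ _ _ ih => exact ih.symm
  | trans _ _ _ _ _ ih ih' => exact ih.trans ih'

theorem gen_add {D : Type} [Fintype D] [DecidableEq D] (f h : Perm D) :
    gen (Perm.sumCongr f (swap false true)) (Perm.sumCongr h (swap false true)) ≤ gen f h := by
  have a1 := gen_h_join (f := f.sumCongr (1 : Perm Bool)) (h := h.sumCongr (1 : Perm Bool))
    (x := Sum.inr false) (y := Sum.inr true) (fun ho => by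
      have := orb_inv (Sum.elim (fun _ => false) id) (by rintro (x | x) <;> rfl)
        (by rintro (x | x) <;> rfl) ho
      simp at this)
  rw [gen_sum, swap_irrel _ inferInstance] at a1
  have e1 : swap (Sum.inr false) (Sum.inr true) * h.sumCongr (1 : Perm Bool) =
      Perm.sumCongr h (swap false true) := by
    ext (x | b)
    · simp [swap_apply_of_ne_of_ne]
    · cases b <;> simp
  rw [e1] at a1
  have a2 := gen_f_vsplit (f := f.sumCongr (1 : Perm Bool)) (h := h.sumCongr (swap false true))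
    (x := Sum.inr false) (y := Sum.inr true) ⟨1, by simp⟩
  rw [swap_irrel _ inferInstance (Sum.inr false)] at a2
  have e2 : f.sumCongr (1 : Perm Bool) * swap (Sum.inr false) (Sum.inr true) =
      Perm.sumCongr f (swap false true) := by
    ext (x | b)
    · simp [swap_apply_of_ne_of_ne]
    · cases b <;> simp
  rw [e2] at a2
  exact a2.trans a1

theorem gen_join {D : Type} [Fintype D] [DecidableEq D] (f h : Perm D) (m : D) :
    gen (swap (Sum.inl m) (Sum.inr false) * Perm.sumCongr f (swap false true))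
      (Perm.sumCongr h (swap false true)) ≤ gen f h := by
  have a1 := gen_f_join (f := f.sumCongr (swap false true)) (h := h.sumCongr (swap false true))
    (x := Sum.inl (f⁻¹ m)) (y := Sum.inr true) (fun ho => by
      have := orb_inv Sum.isLeft (by rintro (x | x) <;> rfl) (by rintro (x | x) <;> rfl) ho
      simp at this)
  rw [swap_irrel _ inferInstance (Sum.inl (f⁻¹ m)), mul_swap_eq_swap_mul] at a1
  simpa using a1.trans (gen_add f h)

end Pool.Agent.MP_c6eade_gt.H41.B1x

namespace Pool.Agent.MP_c6eade_gt.H41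

open Equiv Finset
open scoped Classical

theorem pre_of_not_sol {R E Kd Ω : Type} [Group Ω] {row : E → R} {kind : R → Kd} {σ : E → E}
    {P : E → Ω} (hσ : ∀ e, σ (σ e) = e) (hs : Function.Surjective kind)
    (h : ¬ Sol row kind σ P) :
    ∃ (D : Type) (_ : Fintype D), Nonempty (Pre row kind σ P D) := by
  have hb : B1x.Bad (fun D _ _ f h => gen f h ≤ 0) (fun a b : R × Ω => a = b ∨
      ∃ e, σ e ≠ e ∧ a = (row e, P e) ∧ b = (row (σ e), P (σ e))) kind := by
    by_contra hno
    obtain ⟨H, _, io, g, h1, h2⟩ := B1x.main (fun _ => Or.inl rfl) (by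
        rintro a b (e | ⟨e, e1, e2, e3⟩)
        · exact Or.inl e.symm
        · exact Or.inr ⟨σ e, by rw [hσ]; exact e1.symm, e3, by rw [hσ]; exact e2⟩) hs
      (by
        have : orb (1 : Perm Empty) 1 = 0 := Nat.card_of_isEmpty
        simp only [gen, this, Nat.card_of_isEmpty]
        omega)
      (fun D _ _ f h h0 => (B1x.gen_add f h).trans h0)
      (fun D _ _ f h m h0 => (B1x.gen_join f h m).trans h0)
      (fun D _ _ f h a b h0 hs _ => by
        rw [B1x.swap_irrel _ (fun a b => Classical.propDecidable (a = b))]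
        exact (gen_f_split' hs).trans h0) hno
    exact h ⟨H, _, io, g, h1, fun e he => h2 _ _ (Or.inr ⟨e, he, rfl, rfl⟩)⟩
  obtain ⟨D, _, _, f, h, r, y, z, u, x0, h1, h2, h3, h4⟩ := hb
  have hl : ∀ x, ∃ o : Option E, (o = none → r (f x) = r x ∧ y (f x) = z x) ∧ ∀ e, o = some e →
      σ e ≠ e ∧ row e = r x ∧ P e = z x ∧ row (σ e) = r (f x) ∧ P (σ e) = y (f x) := by
    intro x
    rcases h2 x with e | ⟨e, e1, e2, e3⟩
    · rw [Prod.mk.injEq] at e
      exact ⟨none, fun _ => ⟨e.1.symm, e.2.symm⟩, by simp⟩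
    · rw [Prod.mk.injEq] at e2 e3
      refine ⟨some e, by simp, fun e' he' => ?_⟩
      obtain rfl : e = e' := by simpa using he'
      exact ⟨e1, e2.1.symm, e2.2.symm, e3.1.symm, e3.2.symm⟩
  choose lk l1 l2 using hl
  exact ⟨D, inferInstance, ⟨⟨f, h, univ, r, z, y, u, lk, x0, h1, by simp, by simp, fun x _ => l1 x,
    fun x _ => l2 x, fun x _ => h3 x, fun x _ => h4 x⟩⟩⟩

end Pool.Agent.MP_c6eade_gt.H41
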