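import Pool.Agent.MP_c6eade_gt.H41.Basic

namespace Pool.Agent.MP_c6eade_gt.H41

open Equiv Finset
open scoped Classical

namespace Wx

theorem shift {R E : Type} {row : E → R} {σ : E → E} {p : ℕ → E} {k : ℕ}
    (hp : NBW row σ p (k + 1)) : NBW row σ (fun i => p (i + 1)) k :=
  ⟨fun i hi => hp.1 (i + 1) (by omega), fun i hi => hp.2 (i + 1) (by omega)⟩

theorem head_eq {R E : Type} {row : E → R} {σ : E → E} (hσ : ∀ e, σ (σ e) = e) {g : ℕ}
    (hg : Girth row σ g) {p q : ℕ → E} {k l : ℕ} (hp : NBW row σ p (k + 1))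
    (hq : NBW row σ q (l + 1)) (hkl : k + l + 2 < g) (h0 : row (p 0) = row (q 0))
    (h1 : row (σ (p k)) = row (σ (q l))) : p 0 = q 0 := by
  by_contra hne
  have hw : NBW row σ (fun i => if i ≤ k then σ (p (k - i)) else q (i - (k + 1)))
      (k + l + 1 + 1) := by
    refine ⟨fun i hi => ?_, fun i hi => ?_⟩
    · by_cases h : i ≤ k
      · simp only [h, if_true, hσ]
        exact (hp.1 (k - i) (by omega)).symm
      · simp only [h, if_false]
        exact hq.1 _ (by omega)
    · by_cases h : i + 1 ≤ k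
      · have h' : i ≤ k := by omega
        simp only [h, h', if_true, hσ]
        have e1 : k - i = k - (i + 1) + 1 := by omega
        have := hp.2 (k - (i + 1)) (by omega)
        rw [e1]
        exact ⟨this.1.symm, this.2.symm⟩
      · by_cases h' : i ≤ k
        · have e1 : i = k := by omega
          subst e1
          simp only [h, h', if_true, if_false, hσ, Nat.sub_self]
          exact ⟨h0.symm, fun hh => hne hh.symm⟩
        · simp only [h, h', if_false]
          have e1 : i + 1 - (k + 1) = i - (k + 1) + 1 := by omega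
          rw [e1]
          exact hq.2 _ (by omega)
  have := hg _ (k + l + 1) (by omega) hw
  have e1 : ¬ (k + l + 1 ≤ k) := by omega
  have e2 : k + l + 1 - (k + 1) = l := by omega
  simp only [e1, if_false, e2, Nat.zero_le, if_true, Nat.sub_zero] at this
  exact this h1.symm

theorem no_ret {R E : Type} {row : E → R} {σ : E → E} {g : ℕ}
    (hg : Girth row σ g) {q : ℕ → E} {l : ℕ} (hq : NBW row σ q (l + 1 + 1)) (hl : l + 1 < g) :
    row (σ (q (l + 1))) ≠ row (σ (q 0)) := by
  have := hg _ l hl (shift hq)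
  rw [← (hq.2 0 (by omega)).1]
  exact this

/-- Rows within distance `k`. -/
noncomputable def nr {K : Type} (F : Fr K) (σ : F.E → F.E) (k : ℕ) (r : F.R) : Finset F.R :=
  {r' : F.R | Near F.row σ k r r'}

theorem nr_zero {K : Type} (F : Fr K) (σ : F.E → F.E) (r : F.R) : #(nr F σ 0 r) ≤ 1 := by
  refine card_le_one.mpr fun a ha b hb => ?_
  simp only [nr, Near, mem_filter, mem_univ, true_and] at ha hb
  rw [ha, hb]

theorem nr_succ {K : Type} (F : Fr K) (σ : F.E → F.E) (k : ℕ) (r : F.R) :
    #(nr F σ (k + 1) r) ≤ #(nr F σ k r) + #{e : F.E | Near F.row σ k r (F.row e)} := by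
  have hs : nr F σ (k + 1) r ⊆ nr F σ k r ∪
      ({e : F.E | Near F.row σ k r (F.row e)} : Finset F.E).image fun e => F.row (σ e) := by
    intro a ha
    simp only [nr, Near, mem_filter, mem_univ, true_and, mem_union, mem_image] at ha ⊢
    rcases ha with ha | ⟨e, he, rfl⟩
    · exact Or.inl ha
    · exact Or.inr ⟨e, he, rfl⟩
  exact (card_le_card hs).trans ((card_union_le _ _).trans (Nat.add_le_add_left card_image_le _))

theorem he_le {K : Type} (F : Fr K) (σ : F.E → F.E) {Δ : ℕ}
    (hΔ : ∀ r, r ≠ F.room → #{e : F.E | F.row e = r} ≤ Δ) (k : ℕ) (r : F.R) :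
    #{e : F.E | Near F.row σ k r (F.row e) ∧ F.row e ≠ F.room} ≤ Δ * #(nr F σ k r) := by
  refine card_le_mul_card_image_of_maps_to (f := F.row) (fun e he => ?_) Δ (fun b _ => ?_)
  · simp only [nr, mem_filter, mem_univ, true_and] at he ⊢
    exact he.1
  · by_cases hb : b = F.room
    · refine le_trans (le_of_eq (card_eq_zero.mpr ?_)) (Nat.zero_le _)
      refine filter_eq_empty_iff.mpr fun e he h => ?_
      simp only [mem_filter, mem_univ, true_and] at he
      exact he.2 (h.trans hb)
    · refine le_trans (card_le_card fun e he => ?_) (hΔ b hb)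
      simp only [mem_filter, mem_univ, true_and] at he ⊢
      exact he.2

theorem he_le' {K : Type} (F : Fr K) (σ : F.E → F.E) {Δ A : ℕ}
    (hΔ : ∀ r, r ≠ F.room → #{e : F.E | F.row e = r} ≤ Δ)
    (hA : #{e : F.E | F.row e = F.room} ≤ A) (k : ℕ) (r : F.R) :
    #{e : F.E | Near F.row σ k r (F.row e)} ≤ Δ * #(nr F σ k r) + A := by
  have hs : ({e : F.E | Near F.row σ k r (F.row e)} : Finset F.E) ⊆
      ({e : F.E | Near F.row σ k r (F.row e) ∧ F.row e ≠ F.room} : Finset F.E) ∪
        ({e : F.E | F.row e = F.room} : Finset F.E) := by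
    intro e he
    simp only [mem_filter, mem_univ, true_and, mem_union] at he ⊢
    by_cases h : F.row e = F.room
    · exact Or.inr h
    · exact Or.inl ⟨he, h⟩
  exact (card_le_card hs).trans
    ((card_union_le _ _).trans (Nat.add_le_add (he_le F σ hΔ k r) hA))

end Wx

theorem walk_unique {R E : Type} {row : E → R} {σ : E → E} (hσ : ∀ e, σ (σ e) = e) {g : ℕ}
    (hg : Girth row σ g) {p q : ℕ → E} {k l : ℕ} (hp : NBW row σ p (k + 1))
    (hq : NBW row σ q (l + 1)) (hkl : k + l + 2 < g) (h0 : row (p 0) = row (q 0))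
    (h1 : row (σ (p k)) = row (σ (q l))) : k = l ∧ ∀ i, i ≤ k → p i = q i := by
  induction k generalizing p q l with
  | zero =>
    have e0 := Wx.head_eq hσ hg hp hq hkl h0 h1
    cases l with
    | zero =>
      refine ⟨rfl, fun i hi => ?_⟩
      obtain rfl : i = 0 := by omega
      exact e0
    | succ l =>
      refine (Wx.no_ret hg hq (by omega) ?_).elim
      rw [← h1, e0]
  | succ k ih =>
    have e0 := Wx.head_eq hσ hg hp hq hkl h0 h1
    cases l with
    | zero =>
      refine (Wx.no_ret hg hp (by omega) ?_).elim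
      rw [h1, e0]
    | succ l =>
      have h0' : row (p (0 + 1)) = row (q (0 + 1)) := by
        rw [(hp.2 0 (by omega)).1, (hq.2 0 (by omega)).1, e0]
      obtain ⟨h2, h3⟩ := ih (Wx.shift hp) (Wx.shift hq) (by omega) h0' h1
      refine ⟨by omega, fun i hi => ?_⟩
      cases i with
      | zero => exact e0
      | succ i => exact h3 i (by omega)

theorem ball_le {K : Type} (F : Fr K) (σ : F.E → F.E) {Δ A : ℕ} (h1 : 1 ≤ Δ)
    (hΔ : ∀ r, r ≠ F.room → #{e : F.E | F.row e = r} ≤ Δ)
    (hA : #{e : F.E | F.row e = F.room} ≤ A) (k : ℕ) (r : F.R) :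
    #{e : F.E | Near F.row σ k r (F.row e)} ≤ (Δ + 1) ^ (k + 1) * (A + 1) := by
  have key : ∀ j, #(Wx.nr F σ j r) + A ≤ (Δ + 1) ^ j * (A + 1) := by
    intro j
    induction j with
    | zero =>
      have := Wx.nr_zero F σ r
      simp only [pow_zero, one_mul]
      omega
    | succ j ih =>
      have h2 := Wx.nr_succ F σ j r
      have h3 := Wx.he_le' F σ hΔ hA j r
      have h4 : (Δ + 1) * (#(Wx.nr F σ j r) + A) ≤ (Δ + 1) * ((Δ + 1) ^ j * (A + 1)) :=
        Nat.mul_le_mul_left _ ih
      have h5 : 1 * A ≤ Δ * A := Nat.mul_le_mul_right _ h1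
      have h6 : (Δ + 1) ^ (j + 1) * (A + 1) = (Δ + 1) * ((Δ + 1) ^ j * (A + 1)) := by ring
      rw [h6]
      nlinarith
  have h3 := Wx.he_le' F σ hΔ hA k r
  have h4 : (Δ + 1) * (#(Wx.nr F σ k r) + A) ≤ (Δ + 1) * ((Δ + 1) ^ k * (A + 1)) :=
    Nat.mul_le_mul_left _ (key k)
  have h6 : (Δ + 1) ^ (k + 1) * (A + 1) = (Δ + 1) * ((Δ + 1) ^ k * (A + 1)) := by ring
  rw [h6]
  nlinarith [Nat.zero_le (Δ * A), Nat.zero_le (#(Wx.nr F σ k r))]

theorem ball_low {K : Type} (F : Fr K) {σ : F.E → F.E} (hσ : F.Semi σ) {Δ : ℕ} {B h1 : ℤ}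
    (hΔ : ∀ r, r ≠ F.room → #{e : F.E | F.row e = r} ≤ Δ)
    (hB : ∀ e e', F.row e = F.row e' → F.row e ≠ F.room → F.ht e' ≤ F.ht e + B)
    (hr : ∀ e, F.row e = F.room → h1 ≤ F.ht e) (k : ℕ) (e : F.E)
    (he : F.ht e + (k + 1) * B < h1) (hB0 : 0 ≤ B) :
    #{e' : F.E | Near F.row σ k (F.row e) (F.row e')} ≤ (Δ + 1) ^ (k + 1) := by
  have inv : ∀ j : ℕ, j ≤ k → ∀ e', Near F.row σ j (F.row e) (F.row e') →
      F.ht e' ≤ F.ht e + (j + 1) * B := by
    intro j
    induction j with
    | zero =>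
      intro _ e' h
      have h2 : F.row e' = F.row e := h
      have h3 : F.row e ≠ F.room := fun hh => by
        have h4 := hr e hh
        have h5 : 0 ≤ ((k : ℤ) + 1) * B := by positivity
        omega
      have := hB e e' h2.symm h3
      simpa using this
    | succ j ih =>
      intro hj e' h
      have hjk : ((j : ℤ) + 1) * B ≤ ((k : ℤ) + 1) * B :=
        mul_le_mul_of_nonneg_right (by omega) hB0
      have e1 : (((j + 1 : ℕ) : ℤ) + 1) * B = ((j : ℤ) + 1) * B + B := by
        push_cast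
        ring
      rw [e1]
      rcases h with h | ⟨a, ha, h⟩
      · have := ih (by omega) e' h
        omega
      · have h2 := ih (by omega) a ha
        have h3 := hσ.2.1 a
        have h4 : F.row (σ a) ≠ F.room := fun hh => by
          have := hr _ hh
          omega
        have := hB (σ a) e' h.symm h4
        omega
  have nroom : ∀ j : ℕ, j ≤ k → #{e' : F.E | Near F.row σ j (F.row e) (F.row e')} ≤
      Δ * #(Wx.nr F σ j (F.row e)) := by
    intro j hj
    refine le_trans (card_le_card fun a ha => ?_) (Wx.he_le F σ hΔ j (F.row e))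
    simp only [mem_filter, mem_univ, true_and] at ha ⊢
    refine ⟨ha, fun hh => ?_⟩
    have h2 := inv j hj a ha
    have h3 := hr a hh
    have hjk : ((j : ℤ) + 1) * B ≤ ((k : ℤ) + 1) * B :=
      mul_le_mul_of_nonneg_right (by omega) hB0
    omega
  have key : ∀ j, j ≤ k → #(Wx.nr F σ j (F.row e)) ≤ (Δ + 1) ^ j := by
    intro j
    induction j with
    | zero => intro _; simpa using Wx.nr_zero F σ (F.row e)
    | succ j ih =>
      intro hj
      have h2 := Wx.nr_succ F σ j (F.row e)
      have h3 := nroom j (by omega)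
      have h4 : (Δ + 1) * #(Wx.nr F σ j (F.row e)) ≤ (Δ + 1) * (Δ + 1) ^ j :=
        Nat.mul_le_mul_left _ (ih (by omega))
      rw [pow_succ']
      nlinarith
  have h3 := nroom k le_rfl
  have h4 : (Δ + 1) * #(Wx.nr F σ k (F.row e)) ≤ (Δ + 1) * (Δ + 1) ^ k :=
    Nat.mul_le_mul_left _ (key k le_rfl)
  rw [pow_succ']
  nlinarith [Nat.zero_le (#(Wx.nr F σ k (F.row e)))]

end Pool.Agent.MP_c6eade_gt.H41
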