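import Pool.Agent.MP_c6eade_gt.H41.A2
import Pool.Agent.MP_c6eade_gt.H41.W

namespace Pool.Agent.MP_c6eade_gt.H41

open Equiv Finset
open scoped Classical

namespace D1x

theorem mem_step {D : Type} {T : Finset D} {f : Perm D} (hd : ∀ x, x ∉ T → f x = x) {x : D}
    (hx : x ∈ T) : f x ∈ T := by
  by_contra h
  exact h ((f.injective (hd _ h)).symm ▸ hx)

theorem mem_inv {D : Type} {T : Finset D} {f : Perm D} (hd : ∀ x, x ∉ T → f x = x) {x : D}
    (hx : x ∈ T) : f⁻¹ x ∈ T := by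
  by_contra h
  have := hd _ h
  have e : f (f⁻¹ x) = x := by simp
  exact h ((e.symm.trans this) ▸ hx)

theorem mem_pow {D : Type} {T : Finset D} {f : Perm D} (hd : ∀ x, x ∉ T → f x = x) {x : D}
    (hx : x ∈ T) (i : ℕ) : (f ^ i) x ∈ T := by
  induction i with
  | zero => exact hx
  | succ i ih => rw [pow_succ', Perm.mul_apply]; exact mem_step hd ih

theorem pow_cancel {D : Type} {f : Perm D} {x y : D} {i j : ℕ} (hij : i ≤ j)
    (h : (f ^ i) x = (f ^ j) y) : x = (f ^ (j - i)) y := by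
  apply (f ^ i).injective
  rw [h, ← Perm.mul_apply, ← pow_add, Nat.add_sub_cancel' hij]

theorem spacing {D : Type} {T Q : Finset D} {f : Perm D} (hd : ∀ x, x ∉ T → f x = x) (hQ : Q ⊆ T)
    {m : ℕ} (h : ∀ x ∈ Q, ∀ i, 0 < i → i < m → (f ^ i) x ∉ Q) : m * #Q ≤ #T := by
  rw [← card_range m, ← card_product]
  refine card_le_card_of_injOn (fun c => (f ^ c.1) c.2) (fun c hc => ?_) ?_
  · exact mem_pow hd (hQ (mem_product.1 hc).2) _
  · have aux : ∀ a ∈ range m ×ˢ Q, ∀ b ∈ range m ×ˢ Q, a.1 ≤ b.1 →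
        (f ^ a.1) a.2 = (f ^ b.1) b.2 → a = b := by
      rintro ⟨i, x⟩ ha ⟨j, y⟩ hb hij e
      obtain ⟨-, hx⟩ := mem_product.1 ha
      obtain ⟨hj, hy⟩ := mem_product.1 hb
      have e' := pow_cancel hij e
      have hj' := mem_range.1 hj
      dsimp only at hij hj' e' hx hy
      have : j - i = 0 := by
        by_contra h0
        exact h y hy (j - i) (by omega) (by omega) (e' ▸ hx)
      rw [this] at e'
      exact Prod.ext (by dsimp only; omega) e'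
    intro a ha b hb e
    rcases le_total a.1 b.1 with h1 | h1
    · exact aux a ha b hb h1 e
    · exact (aux b hb a ha h1 e.symm).symm

theorem charge {D : Type} {S S' Z : Finset D} {f : Perm D} (hS : S' ⊆ S)
    (h : ∀ x ∈ S', ∃ i, (f ^ i) x ∈ Z ∧ ∀ l, 0 < l → l ≤ i → (f ^ l) x ∉ S) : #S' ≤ #Z := by
  choose! i h1 h2 using h
  refine card_le_card_of_injOn (fun x => (f ^ i x) x) (fun x hx => h1 x hx) ?_
  have aux : ∀ a ∈ S', ∀ b ∈ S', i a ≤ i b → (f ^ i a) a = (f ^ i b) b → a = b := by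
    intro a ha b hb hab e
    have e' := pow_cancel hab e
    have : i b - i a = 0 := by
      by_contra h0
      exact h2 b hb (i b - i a) (by omega) (by omega) (e' ▸ hS ha)
    rwa [this] at e'
  intro a ha b hb e
  rcases le_total (i a) (i b) with h1 | h1
  · exact aux a ha b hb h1 e
  · exact (aux b hb a ha h1 e.symm).symm

end D1x

variable {K Ω D : Type} [Group K] [Group Ω] [Fintype D] {F : Fr K} {σ : F.E → F.E} {P : F.E → Ω}

theorem bad_count (hσ : F.Semi σ) {w : ℕ} (hw : 1 ≤ w) (hg : Girth F.row σ (4 * w))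
    {j : K →* Ω} (hj : Function.Injective j) (hP : ∀ e, F.row e ≠ F.room → P e = j (F.pos e))
    (X : Red F.row F.kind σ P D) :
    (∀ x ∈ X.T, ∀ i, 0 < i → i < 4 * w → (X.f ^ i) x ≠ x) ∧
    ∃ Bad : Finset D, w * #Bad ≤ 100 * #X.T ∧ ∀ x ∈ X.T, x ∉ Bad →
      x ≠ X.d ∧ X.h x ≠ X.d ∧ X.h (X.h x) = x ∧ F.row (X.o x) ≠ F.room ∧
        F.row (X.o (X.h x)) ≠ F.row (X.o x) := by
  have df : ∀ x, x ∉ X.T → X.f x = x := fun x hx => (X.dead x hx).1
  have dh : ∀ x, x ∉ X.T → X.h x = x := fun x hx => (X.dead x hx).2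
  have ps : ∀ i x, (X.f ^ (i + 1)) x = X.f ((X.f ^ i) x) := fun i x => by
    rw [pow_succ', Perm.mul_apply]
  have nbw : ∀ x ∈ X.T, ∀ k, NBW F.row σ (fun i => X.o ((X.f ^ i) x)) k := fun x hx k =>
    ⟨fun i _ => (X.cross _ (D1x.mem_pow df hx i)).1, fun i _ => by
      simp only [ps]
      exact (X.cross _ (D1x.mem_pow df hx i)).2⟩
  have hrow : ∀ x ∈ X.T, ∀ i, 0 < i → i < 4 * w → F.row (X.o ((X.f ^ i) x)) ≠ F.row (X.o x) := by
    intro x hx i h0 h1
    obtain ⟨k, rfl⟩ : ∃ k, i = k + 1 := ⟨i - 1, by omega⟩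
    rw [ps, (X.cross _ (D1x.mem_pow df hx k)).2.1]
    exact hg _ k h1 (nbw x hx _)
  have h1 : ∀ x ∈ X.T, ∀ i, 0 < i → i < 4 * w → (X.f ^ i) x ≠ x := fun x hx i a b e =>
    hrow x hx i a b (by rw [e])
  refine ⟨h1, ?_⟩
  have hin : ∀ x ∈ X.T, F.row (X.o x) = F.row (σ (X.o (X.f⁻¹ x))) ∧ X.o x ≠ σ (X.o (X.f⁻¹ x)) :=
    fun x hx => by simpa using (X.cross _ (D1x.mem_inv df hx)).2
  have hv : ∀ x ∈ X.T, X.h (X.f x) ≠ x := fun x hx e => by
    have k1 := X.kind_eq _ (D1x.mem_step df hx)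
    have k2 := hrow x hx 1 one_pos (by omega)
    rw [pow_one] at k2
    rw [e] at k1
    by_cases hr : F.row (X.o x) = F.room
    · exact k2 ((F.hroom _ (by rw [← k1, hr])).trans hr.symm)
    · rw [(X.cross x hx).2.1] at k1
      exact (hσ.2.2 _ (X.cross x hx).1).2 (F.hkd _ _ k1 hr).symm
  have hfix : ∀ x ∈ X.T, X.h x = x → x = X.d ∨ F.row (X.o x) = F.room := fun x hx e => by
    by_contra hn
    rw [not_or] at hn
    have k1 := X.rel x hx hn.1
    rw [e, mul_right_inj, hP _ hn.2, hP _ ((hin x hx).1 ▸ hn.2)] at k1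
    exact (hin x hx).2 (F.hpos _ _ (hin x hx).1 hn.2 (hj k1).symm)
  obtain ⟨Rm, hRm⟩ : ∃ Rm, Rm = {x ∈ X.T | F.row (X.o x) = F.room} := ⟨_, rfl⟩
  have c1 : 4 * w * #Rm ≤ #X.T := D1x.spacing df (hRm ▸ filter_subset _ _) fun x hx i a b hy => by
    rw [hRm, mem_filter] at hx hy
    exact hrow x hx.1 i a b (hy.2.trans hx.2.symm)
  have c2 : 4 * w * #({X.d} : Finset D) ≤ #X.T :=
    D1x.spacing df (singleton_subset_iff.2 X.d_mem) fun x hx i a b hy => by
      rw [mem_singleton] at hx hy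
      exact h1 x (hx ▸ X.d_mem) i a b (hy.trans hx.symm)
  rw [card_singleton, mul_one] at c2
  have c3 : #{x ∈ X.T | X.h x = x} ≤ #Rm + 1 := by
    refine (card_le_card fun x hx => ?_).trans (card_insert_le X.d Rm)
    rw [mem_filter] at hx
    rw [mem_insert, hRm, mem_filter]
    exact (hfix x hx.1 hx.2).imp id fun h => ⟨hx.1, h⟩
  have c4 := euler_count X.T (4 * w) X.planar X.dead h1 hv
  obtain ⟨Nh, hNh⟩ : ∃ N, N = {x ∈ X.T | X.h (X.h x) ≠ x} := ⟨_, rfl⟩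
  obtain ⟨Nv, hNv⟩ : ∃ N, N = {x ∈ X.T | X.h (X.f (X.h (X.f x))) ≠ x} := ⟨_, rfl⟩
  rw [← hNh, ← hNv] at c4
  obtain ⟨S, hS⟩ : ∃ S, S = {x ∈ X.T | F.row (X.o (X.h x)) = F.row (X.o x) ∧ X.h x ≠ x ∧
    X.h x ≠ X.d} := ⟨_, rfl⟩
  have key : ∀ x ∈ S, ∀ m, m + 1 < w → (X.f ^ (m + 1)) x ∈ S →
      ∃ i ≤ m, (X.f ^ i) x ∈ Nh ∪ Nv := by
    intro x hx m hm hy
    by_contra hn
    rw [hS, mem_filter] at hx hy
    obtain ⟨hx, r0, n0, n1⟩ := hx
    have t : ∀ i ≤ m, X.h (X.h ((X.f ^ i) x)) = (X.f ^ i) x ∧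
        X.h (X.f (X.h (X.f ((X.f ^ i) x)))) = (X.f ^ i) x := fun i hi => by
      have := D1x.mem_pow df hx i
      constructor <;> by_contra h
      · exact hn ⟨i, hi, mem_union_left _ (by rw [hNh, mem_filter]; exact ⟨this, h⟩)⟩
      · exact hn ⟨i, hi, mem_union_right _ (by rw [hNv, mem_filter]; exact ⟨this, h⟩)⟩
    have st : ∀ i ≤ m, X.f (X.h ((X.f ^ (i + 1)) x)) = X.h ((X.f ^ i) x) := fun i hi =>
      X.h.injective (by rw [ps, (t i hi).1, (t i hi).2])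
    have mT : ∀ i, X.h ((X.f ^ i) x) ∈ X.T := fun i => D1x.mem_step dh (D1x.mem_pow df hx i)
    have cr : ∀ i ≤ m, F.row (X.o (X.h ((X.f ^ i) x))) = F.row (σ (X.o (X.h ((X.f ^ (i + 1)) x)))) ∧
        X.o (X.h ((X.f ^ i) x)) ≠ σ (X.o (X.h ((X.f ^ (i + 1)) x))) := fun i hi => by
      have := (X.cross _ (mT (i + 1))).2
      rwa [st i hi] at this
    have hq : NBW F.row σ (fun i => σ (X.o (X.h ((X.f ^ (i + 1)) x)))) (m + 1) :=
      ⟨fun i _ => by
        simp only [hσ.1]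
        exact (X.cross _ (mT _)).1.symm, fun i hi => by
        simp only [hσ.1]
        exact ⟨(cr (i + 1) (by omega)).1.symm, (cr (i + 1) (by omega)).2.symm⟩⟩
    have e := (walk_unique hσ.1 hg (nbw x hx (m + 1)) hq (by omega)
      (by
        have := (cr 0 (by omega)).1
        simp only [pow_zero, Perm.one_apply] at this ⊢
        exact r0.symm.trans this)
      (by
        simp only [hσ.1]
        rw [hy.2.1, ps, (X.cross _ (D1x.mem_pow df hx m)).2.1])).2 0 (by omega)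
    have s0 := st 0 (by omega)
    have t0 := (t 0 (by omega)).1
    simp only [pow_zero, Perm.one_apply] at e s0 t0
    have k1 := X.rel _ (D1x.mem_step dh hx) n1
    rw [t0, show X.f⁻¹ (X.h x) = _ from Perm.inv_eq_iff_eq.2 s0.symm, ← e, mul_left_inj] at k1
    exact X.red x hx _ (D1x.mem_step dh hx) ⟨1, by simp⟩ n0.symm r0.symm k1.symm
  have c5 : w * #{x ∈ S | ∀ i, 0 < i → i < w → (X.f ^ i) x ∉ S} ≤ #X.T :=
    D1x.spacing df ((filter_subset _ _).trans (hS ▸ filter_subset _ _)) fun x hx i a b hy =>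
      (mem_filter.1 hx).2 i a b (mem_filter.1 hy).1
  have c6 : #{x ∈ S | ¬ ∀ i, 0 < i → i < w → (X.f ^ i) x ∉ S} ≤ #(Nh ∪ Nv) :=
    D1x.charge (f := X.f) (filter_subset _ _) fun x hx => by
      obtain ⟨hx, h⟩ := mem_filter.1 hx
      have ex : ∃ i, i + 1 < w ∧ (X.f ^ (i + 1)) x ∈ S := by
        by_contra hn
        refine h fun i a b c => hn ⟨i - 1, by omega, ?_⟩
        rwa [Nat.sub_add_cancel a]
      obtain ⟨a, b⟩ := Nat.find_spec ex
      obtain ⟨i, hi, hz⟩ := key x hx _ a b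
      refine ⟨i, hz, fun l l0 l1 hl => Nat.find_min ex (m := l - 1) (by omega) ⟨by omega, ?_⟩⟩
      rwa [Nat.sub_add_cancel l0]
  have c7 := card_filter_add_card_filter_not (s := S) fun x => ∀ i, 0 < i → i < w → (X.f ^ i) x ∉ S
  have c8 := card_union_le Nh Nv
  refine ⟨insert X.d (insert (X.h⁻¹ X.d) (Nh ∪ (Rm ∪ S))), ?_, fun x hx hb => ?_⟩
  · have b1 := card_insert_le X.d (insert (X.h⁻¹ X.d) (Nh ∪ (Rm ∪ S)))
    have b2 := card_insert_le (X.h⁻¹ X.d) (Nh ∪ (Rm ∪ S))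
    have b3 := card_union_le Nh (Rm ∪ S)
    have b4 := card_union_le Rm S
    have b5 := Nat.mul_le_mul_left w (show #(insert X.d (insert (X.h⁻¹ X.d) (Nh ∪ (Rm ∪ S)))) ≤
      2 * (#Nh + #Nv) + #Rm + #{x ∈ S | ∀ i, 0 < i → i < w → (X.f ^ i) x ∉ S} + 2 by omega)
    have b6 := Nat.mul_le_mul_left (3 * (4 * w)) c3
    nlinarith
  · simp only [mem_insert, mem_union, not_or, hNh, hRm, hS, mem_filter, hx, true_and, not_not,
      not_and] at hb
    obtain ⟨a, b, c, d, e⟩ := hb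
    have b' : X.h x ≠ X.d := fun h => b (Perm.eq_inv_iff_eq.2 h)
    exact ⟨a, b', c, d, fun h => b' (e h fun h' => (hfix x hx h').elim a d)⟩

end Pool.Agent.MP_c6eade_gt.H41
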