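import Mathlib

/-! Genus calculus for pairs of permutations of a finite set. -/

set_option autoImplicit false

open Equiv Equiv.Perm Finset
open scoped BigOperators

noncomputable section
namespace Pool.Agent.MP_c6eade_gt.H41.A1x

variable {D : Type*}

/-- The number of classes. -/
def nc (r : Setoid D) : ℕ := Nat.card (Quotient r)

/-- The cycles of a permutation, fixed points included. -/
abbrev sc (f : Perm D) : Setoid D := SameCycle.setoid f

/-- The number of cycles, fixed points included. -/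
def cyc (f : Perm D) : ℕ := nc (sc f)

/-- The orbits of the group generated by two permutations. -/
def orb (f h : Perm D) : Setoid D := sc f ⊔ sc h

/-- Twice the total genus of the pair. -/
def gen [Fintype D] (f h : Perm D) : ℤ :=
  (Fintype.card D : ℤ) + 2 * (nc (orb f h) : ℤ) - cyc f - cyc h - cyc (h * f)

theorem sc_iff {f : Perm D} {x y : D} : sc f x y ↔ f.SameCycle x y := Iff.rfl

theorem sc_le {f : Perm D} {r : Setoid D} : sc f ≤ r ↔ ∀ x, r x (f x) := by
  constructor
  · intro H x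
    exact H (show f.SameCycle x (f x) from ⟨1, by simp⟩)
  · rintro H x y ⟨i, rfl⟩
    have H' : ∀ x, r x (f⁻¹ x) := fun x => by
      have := H (f⁻¹ x)
      simp only [Perm.coe_inv, apply_symm_apply] at this
      exact r.symm this
    induction i using Int.induction_on with
    | zero => exact r.refl x
    | succ n ih =>
      rw [add_comm, zpow_add, zpow_one, Perm.mul_apply]
      exact r.trans ih (H _)
    | pred n ih =>
      rw [sub_eq_add_neg, add_comm, zpow_add, zpow_neg_one, Perm.mul_apply]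
      exact r.trans ih (H' _)

theorem sc_step (f : Perm D) (x : D) : sc f x (f x) := sc_le.1 le_rfl x

theorem sc_inv (f : Perm D) : sc f⁻¹ = sc f := by
  ext x y
  exact sameCycle_inv

theorem sc_mul_le {f g : Perm D} {r : Setoid D} (hf : sc f ≤ r) (hg : sc g ≤ r) :
    sc (f * g) ≤ r :=
  sc_le.2 fun x => r.trans (sc_le.1 hg x) (sc_le.1 hf _)

theorem sc_le_of_mul_left {f g : Perm D} {r : Setoid D} (hf : sc f ≤ r) (hg : sc (f * g) ≤ r) :
    sc g ≤ r := by
  have := sc_mul_le (f := f⁻¹) (by rw [sc_inv]; exact hf) hg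
  rwa [inv_mul_cancel_left] at this

theorem sc_le_of_mul_right {f g : Perm D} {r : Setoid D} (hg : sc g ≤ r) (hf : sc (f * g) ≤ r) :
    sc f ≤ r := by
  have := sc_mul_le (g := g⁻¹) hf (by rw [sc_inv]; exact hg)
  rwa [mul_inv_cancel_right] at this

theorem orb_left (f h : Perm D) : sc f ≤ orb f h := le_sup_left

theorem orb_right (f h : Perm D) : sc h ≤ orb f h := le_sup_right

theorem orb_mul (f h : Perm D) : sc (h * f) ≤ orb f h :=
  sc_mul_le (orb_right f h) (orb_left f h)

theorem orb_f (f h : Perm D) (x : D) : orb f h x (f x) := sc_le.1 (orb_left f h) x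

theorem orb_h (f h : Perm D) (x : D) : orb f h x (h x) := sc_le.1 (orb_right f h) x

theorem orb_le {f h : Perm D} {r : Setoid D} (h1 : ∀ x, r x (f x)) (h2 : ∀ x, r x (h x)) :
    orb f h ≤ r := sup_le (sc_le.2 h1) (sc_le.2 h2)

/-- A predicate that is invariant under both permutations is constant on orbits. -/
theorem orb_inv {f h : Perm D} {p : D → Prop} (h1 : ∀ x, p (f x) ↔ p x)
    (h2 : ∀ x, p (h x) ↔ p x) {x y : D} (H : orb f h x y) : p x ↔ p y := by
  have : orb f h ≤ Setoid.ker p :=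
    orb_le (fun x => Setoid.ker_def.2 (propext (h1 x).symm))
      (fun x => Setoid.ker_def.2 (propext (h2 x).symm))
  exact Iff.of_eq (Setoid.ker_def.1 (this H))

theorem orb_comm (f h : Perm D) : orb f h = orb h f := sup_comm _ _

theorem orb_eq_left (f h : Perm D) : orb f h = sc f ⊔ sc (h * f) :=
  le_antisymm (sup_le le_sup_left (sc_le_of_mul_right le_sup_left le_sup_right))
    (sup_le (orb_left f h) (orb_mul f h))

theorem orb_eq_right (f h : Perm D) : orb f h = sc h ⊔ sc (h * f) :=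
  le_antisymm (sup_le (sc_le_of_mul_left le_sup_left le_sup_right) le_sup_left)
    (sup_le (orb_right f h) (orb_mul f h))

section
variable [DecidableEq D]

theorem sc_swap_le {r : Setoid D} {x y : D} : sc (swap x y) ≤ r ↔ r x y := by
  rw [sc_le]
  constructor
  · intro H
    simpa using H x
  · intro H a
    rw [swap_apply_def]
    split_ifs with h1 h2
    · rw [h1]; exact H
    · rw [h2]; exact r.symm H
    · exact r.refl a

theorem sup_swap_iff (r : Setoid D) (x y a b : D) :
    (r ⊔ sc (swap x y)) a b ↔ r a b ∨ (r a x ∧ r b y) ∨ (r a y ∧ r b x) := by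
  let s : Setoid D := ⟨fun a b => r a b ∨ (r a x ∧ r b y) ∨ (r a y ∧ r b x),
    fun a => Or.inl (r.refl a), by
      rintro a b (h | h | h)
      · exact Or.inl (r.symm h)
      · exact Or.inr (Or.inr ⟨h.2, h.1⟩)
      · exact Or.inr (Or.inl ⟨h.2, h.1⟩), by
      rintro a b c (h | h | h) (k | k | k)
      · exact Or.inl (r.trans h k)
      · exact Or.inr (Or.inl ⟨r.trans h k.1, k.2⟩)
      · exact Or.inr (Or.inr ⟨r.trans h k.1, k.2⟩)
      · exact Or.inr (Or.inl ⟨h.1, r.trans (r.symm k) h.2⟩)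
      · exact Or.inr (Or.inl ⟨h.1, k.2⟩)
      · exact Or.inl (r.trans h.1 (r.symm k.2))
      · exact Or.inr (Or.inr ⟨h.1, r.trans (r.symm k) h.2⟩)
      · exact Or.inl (r.trans h.1 (r.symm k.2))
      · exact Or.inr (Or.inr ⟨h.1, k.2⟩)⟩
  have h1 : r ⊔ sc (swap x y) ≤ s :=
    sup_le (fun a b h => Or.inl h) (sc_swap_le.2 (Or.inr (Or.inl ⟨r.refl x, r.refl y⟩)))
  have hr : r ≤ r ⊔ sc (swap x y) := le_sup_left
  have ht : (r ⊔ sc (swap x y)) x y := sc_swap_le.1 le_sup_right
  refine ⟨fun h => h1 h, ?_⟩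
  rintro (h | h | h)
  · exact hr h
  · exact Setoid.trans' _ (hr h.1) (Setoid.trans' _ ht (Setoid.symm' _ (hr h.2)))
  · exact Setoid.trans' _ (hr h.1) (Setoid.trans' _ (Setoid.symm' _ ht) (Setoid.symm' _ (hr h.2)))

theorem sup_swap_of {r : Setoid D} {x y : D} (h : r x y) : r ⊔ sc (swap x y) = r :=
  sup_eq_left.2 (sc_swap_le.2 h)

theorem nc_sup_swap [Finite D] {r : Setoid D} {x y : D} (h : ¬ r x y) :
    nc (r ⊔ sc (swap x y)) + 1 = nc r := by
  classical
  have hr : r ≤ r ⊔ sc (swap x y) := le_sup_left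
  let φ : {q : Quotient r // q ≠ Quotient.mk r y} → Quotient (r ⊔ sc (swap x y)) :=
    fun q => Quotient.map' id (fun a b h => hr h) q.1
  have hφ : Function.Bijective φ := by
    constructor
    · rintro ⟨a, ha⟩ ⟨b, hb⟩ H
      induction a using Quotient.inductionOn with | _ a => ?_
      induction b using Quotient.inductionOn with | _ b => ?_
      have H' : (r ⊔ sc (swap x y)) a b := Quotient.exact H
      rcases (sup_swap_iff r x y a b).1 H' with k | k | k
      · exact Subtype.ext (Quotient.sound k)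
      · exact absurd (Quotient.sound k.2) hb
      · exact absurd (Quotient.sound k.1) ha
    · intro q
      induction q using Quotient.inductionOn with | _ a => ?_
      by_cases k : r a y
      · refine ⟨⟨Quotient.mk r x, fun e => h (Quotient.exact e)⟩, Quotient.sound ?_⟩
        exact (sup_swap_iff r x y x a).2 (Or.inr (Or.inl ⟨r.refl x, k⟩))
      · exact ⟨⟨Quotient.mk r a, fun e => k (Quotient.exact e)⟩, rfl⟩
  unfold nc
  rw [← Nat.card_eq_of_bijective φ hφ]
  have := Fintype.ofFinite (Quotient r)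
  rw [Nat.card_eq_fintype_card, Nat.card_eq_fintype_card, Fintype.card_subtype_compl,
    Fintype.card_subtype_eq]
  have : 0 < Fintype.card (Quotient r) := Fintype.card_pos_iff.2 ⟨Quotient.mk r x⟩
  omega

theorem sup_mul_swap (f : Perm D) (x y : D) :
    sc (f * swap x y) ⊔ sc (swap x y) = sc f ⊔ sc (swap x y) :=
  le_antisymm (sup_le (sc_mul_le le_sup_left le_sup_right) le_sup_right)
    (sup_le (sc_le_of_mul_right le_sup_right le_sup_left) le_sup_right)

theorem sup_swap_mul (f : Perm D) (x y : D) :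
    sc (swap x y * f) ⊔ sc (swap x y) = sc f ⊔ sc (swap x y) :=
  le_antisymm (sup_le (sc_mul_le le_sup_right le_sup_left) le_sup_right)
    (sup_le (sc_le_of_mul_left le_sup_right le_sup_left) le_sup_right)

theorem walk_swap {f : Perm D} {x y : D} {k : ℕ}
    (H : ∀ i, 0 < i → i ≤ k → (f ^ i) x ≠ x ∧ (f ^ i) x ≠ y) :
    ((f * swap x y) ^ (k + 1)) y = (f ^ (k + 1)) x := by
  induction k with
  | zero => simp
  | succ k ih =>
    rw [pow_succ' _ (k + 1), Perm.mul_apply, ih fun i h1 h2 => H i h1 (by omega), Perm.mul_apply,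
      swap_apply_of_ne_of_ne (H (k + 1) (by omega) le_rfl).1 (H (k + 1) (by omega) le_rfl).2,
      pow_succ' _ (k + 1), Perm.mul_apply]

theorem same_mul_swap [Finite D] {f : Perm D} {x y : D} (hxy : x ≠ y) :
    (f * swap x y).SameCycle x y ↔ ¬ f.SameCycle x y := by
  classical
  have ex : ∃ k : ℕ, (f ^ (k + 1)) x = x ∨ (f ^ (k + 1)) x = y := by
    refine ⟨orderOf f - 1, Or.inl ?_⟩
    rw [Nat.sub_add_cancel (orderOf_pos f), pow_orderOf_eq_one]
    rfl
  have hk := Nat.find_spec ex
  set k := Nat.find ex with kk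
  have H : ∀ i, 0 < i → i ≤ k → (f ^ i) x ≠ x ∧ (f ^ i) x ≠ y := fun i h1 h2 => by
    have := Nat.find_min ex (m := i - 1) (by omega)
    rw [Nat.sub_add_cancel h1] at this
    exact not_or.1 this
  have per : ∀ (g : Perm D) (a b : D), (g ^ (k + 1)) a = a → g.SameCycle a b →
      ∃ i, i ≤ k ∧ (g ^ i) a = b := fun g a b h1 h2 => by
    obtain ⟨i, hi⟩ := h2.exists_nat_pow_eq
    refine ⟨i % (k + 1), Nat.lt_succ_iff.1 (Nat.mod_lt _ (Nat.succ_pos k)), ?_⟩
    rw [← hi]
    conv_rhs => rw [← Nat.mod_add_div i (k + 1), pow_add, pow_mul, Perm.mul_apply,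
      Perm.pow_apply_eq_self_of_apply_eq_self h1]
  have W := walk_swap H
  rcases hk with hk | hk
  · refine iff_of_true (SameCycle.symm ⟨(k + 1 : ℕ), by rw [zpow_natCast, W, hk]⟩) fun c => ?_
    obtain ⟨i, h1, h2⟩ := per f x y hk c
    rcases Nat.eq_zero_or_pos i with rfl | h0
    · exact hxy h2
    · exact (H i h0 h1).2 h2
  · refine iff_of_false (fun c => ?_) (not_not.2 ⟨(k + 1 : ℕ), by rw [zpow_natCast, hk]⟩)
    obtain ⟨i, h1, h2⟩ := per _ y x (W.trans hk) c.symm
    rcases i with _ | i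
    · exact hxy h2.symm
    · rw [walk_swap fun j a b => H j a (by omega)] at h2
      exact (H (i + 1) (by omega) h1).1 h2

theorem same_swap_mul [Finite D] {f : Perm D} {x y : D} (hxy : x ≠ y) :
    (swap x y * f).SameCycle x y ↔ ¬ f.SameCycle x y := by
  rw [← sameCycle_inv, mul_inv_rev, swap_inv, same_mul_swap hxy, sameCycle_inv]

/-- `a'` is `a` multiplied by the transposition on one of the two sides. -/
def Tw (x y : D) (a a' : Perm D) : Prop := a' = a * swap x y ∨ a' = swap x y * a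

theorem Tw.symm {x y : D} {a a' : Perm D} (h : Tw x y a a') : Tw x y a' a := by
  rcases h with rfl | rfl
  · left; rw [mul_assoc, swap_mul_self, mul_one]
  · right; rw [← mul_assoc, swap_mul_self, one_mul]

theorem Tw.sup {x y : D} {a a' : Perm D} (h : Tw x y a a') :
    sc a' ⊔ sc (swap x y) = sc a ⊔ sc (swap x y) := by
  rcases h with rfl | rfl
  exacts [sup_mul_swap a x y, sup_swap_mul a x y]

theorem Tw.same [Finite D] {x y : D} {a a' : Perm D} (h : Tw x y a a') (hxy : x ≠ y) :
    a'.SameCycle x y ↔ ¬ a.SameCycle x y := by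
  rcases h with rfl | rfl
  exacts [same_mul_swap hxy, same_swap_mul hxy]

/-- A transposition inside a cycle splits it. -/
theorem Tw.split [Finite D] {x y : D} {a a' : Perm D} (h : Tw x y a a') (hxy : x ≠ y)
    (hs : a.SameCycle x y) : sc a = sc a' ⊔ sc (swap x y) ∧ cyc a' = cyc a + 1 := by
  have e : sc a = sc a' ⊔ sc (swap x y) := by rw [h.sup, sup_swap_of hs]
  refine ⟨e, ?_⟩
  unfold cyc
  rw [e, nc_sup_swap fun c => (h.same hxy).1 c hs]

/-- A transposition between two cycles merges them. -/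
theorem Tw.merge [Finite D] {x y : D} {a a' : Perm D} (h : Tw x y a a') (hxy : x ≠ y)
    (hs : ¬ a.SameCycle x y) : sc a' = sc a ⊔ sc (swap x y) ∧ cyc a = cyc a' + 1 :=
  h.symm.split hxy ((h.same hxy).2 hs)

theorem Tw.le_of_split [Finite D] {x y : D} {a a' : Perm D} (h : Tw x y a a') (hxy : x ≠ y)
    (hs : a.SameCycle x y) : sc a' ≤ sc a := by
  rw [(h.split hxy hs).1]; exact le_sup_left

theorem move_core [Finite D] {x y : D} {a a' b b' e : Perm D} (ha : Tw x y a a')
    (hb : Tw x y b b') (hxy : x ≠ y) (hs : a.SameCycle x y) (hb' : sc b' ≤ sc a' ⊔ sc e) :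
    cyc a' = cyc a + 1 ∧
      (((sc a' ⊔ sc e) x y ∧ nc (sc a' ⊔ sc e) = nc (sc a ⊔ sc e) ∧
          (b.SameCycle x y ∧ cyc b' = cyc b + 1 ∨ ¬ b.SameCycle x y ∧ cyc b = cyc b' + 1)) ∨
        (¬ (sc a' ⊔ sc e) x y ∧ nc (sc a' ⊔ sc e) = nc (sc a ⊔ sc e) + 1 ∧ b.SameCycle x y ∧
          cyc b' = cyc b + 1)) := by
  obtain ⟨e1, e2⟩ := ha.split hxy hs
  have e3 : sc a ⊔ sc e = (sc a' ⊔ sc e) ⊔ sc (swap x y) := by rw [e1, sup_right_comm]
  refine ⟨e2, ?_⟩
  by_cases c : (sc a' ⊔ sc e) x y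
  · refine Or.inl ⟨c, by rw [e3, sup_swap_of c], ?_⟩
    by_cases k : b.SameCycle x y
    · exact Or.inl ⟨k, (hb.split hxy k).2⟩
    · exact Or.inr ⟨k, (hb.merge hxy k).2⟩
  · have k : b.SameCycle x y := by
      by_contra k
      exact c (hb' ((hb.same hxy).2 k))
    exact Or.inr ⟨c, by rw [e3, nc_sup_swap c], k, (hb.split hxy k).2⟩

/-- The symmetric form of the genus. -/
def gen3 [Fintype D] (a b e : Perm D) : ℤ :=
  (Fintype.card D : ℤ) + 2 * (nc (sc a ⊔ sc e) : ℤ) - cyc a - cyc b - cyc e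

omit [DecidableEq D] in
theorem gen_f_h [Fintype D] (f h : Perm D) : gen f h = gen3 f h (h * f) := by
  unfold gen gen3; rw [orb_eq_left]

omit [DecidableEq D] in
theorem gen_h_f [Fintype D] (f h : Perm D) : gen f h = gen3 h f (h * f) := by
  unfold gen gen3; rw [orb_eq_right]; ring

omit [DecidableEq D] in
theorem gen_f_p [Fintype D] (f h : Perm D) : gen f h = gen3 f (h * f) h := by
  unfold gen gen3 orb; ring

omit [DecidableEq D] in
theorem gen_p_f [Fintype D] (f h : Perm D) : gen f h = gen3 (h * f) f h := by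
  unfold gen gen3; rw [orb_eq_right, sup_comm]; ring

omit [DecidableEq D] in
theorem gen_h_p [Fintype D] (f h : Perm D) : gen f h = gen3 h (h * f) f := by
  unfold gen gen3 orb; rw [sup_comm]; ring

omit [DecidableEq D] in
theorem gen_p_h [Fintype D] (f h : Perm D) : gen f h = gen3 (h * f) h f := by
  unfold gen gen3; rw [orb_eq_left, sup_comm]; ring

theorem gen3_le [Fintype D] {x y : D} {a a' b b' e : Perm D} (ha : Tw x y a a')
    (hb : Tw x y b b') (hxy : x ≠ y) (hs : a.SameCycle x y) (hb' : sc b' ≤ sc a' ⊔ sc e) :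
    gen3 a' b' e ≤ gen3 a b e ∧
      (b.SameCycle x y → (sc a' ⊔ sc e) x y → gen3 a' b' e + 2 = gen3 a b e) := by
  obtain ⟨e1, ⟨c, e2, ⟨k, e3⟩ | ⟨k, e3⟩⟩ | ⟨c, e2, k, e3⟩⟩ := move_core ha hb hxy hs hb' <;>
    unfold gen3 <;> rw [e1, e2, e3] <;> push_cast
  · exact ⟨by omega, fun _ _ => by omega⟩
  · exact ⟨by omega, fun k' _ => absurd k' k⟩
  · exact ⟨by omega, fun _ c' => absurd c' c⟩

theorem mul_mv (f h : Perm D) (x y : D) : h * swap x y * (swap x y * f) = h * f := by
  rw [mul_assoc, ← mul_assoc (swap x y), swap_mul_self, one_mul]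

/-- Move on `h` and `h * f`, splitting a cycle of `h`. -/
theorem gen_H_of_h [Fintype D] {f h : Perm D} {x y : D} (hxy : x ≠ y) (hs : h.SameCycle x y) :
    gen f (swap x y * h) ≤ gen f h := by
  rw [gen_h_p, gen_h_p f h]
  exact (gen3_le (Or.inr rfl) (Or.inr (mul_assoc _ _ _)) hxy hs
    (sc_mul_le le_sup_left le_sup_right)).1

theorem gen_nonneg [Fintype D] (f h : Perm D) : 0 ≤ gen f h := by
  induction hn : h.support.card using Nat.strong_induction_on generalizing h with
  | _ n ih =>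
    by_cases h1 : h = 1
    · subst h1
      have e1 : orb f 1 = sc f := sup_eq_left.2 (sc_le.2 fun x => (sc f).refl x)
      have e2 : cyc (1 : Perm D) = Fintype.card D := by
        unfold cyc nc
        rw [← Nat.card_eq_fintype_card]
        refine (Nat.card_eq_of_bijective (Quotient.mk _) ⟨fun a b c => ?_, Quotient.mk_surjective⟩).symm
        exact sameCycle_one.1 (Quotient.exact c)
      unfold gen
      rw [e1, e2, one_mul]
      unfold cyc
      omega
    · obtain ⟨x, hx⟩ : ∃ x, h x ≠ x := by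
        by_contra c
        exact h1 (Perm.ext fun x => by_contra fun k => c ⟨x, k⟩)
      exact (ih _ (hn ▸ card_support_swap_mul hx) _ rfl).trans
        (gen_H_of_h hx.symm (sc_step h x))

theorem gen3_zero [Fintype D] {x y : D} {a a' b b' e : Perm D} (ha : Tw x y a a')
    (hb : Tw x y b b') (hxy : x ≠ y) (hs : a.SameCycle x y) (hb' : sc b' ≤ sc a' ⊔ sc e)
    (h0 : gen3 a b e = 0) (h1 : 0 ≤ gen3 a' b' e) :
    gen3 a' b' e = 0 ∧ (b.SameCycle x y → ¬ (sc a' ⊔ sc e) x y) := by
  obtain ⟨k1, k2⟩ := gen3_le ha hb hxy hs hb'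
  exact ⟨by omega, fun k c => by have := k2 k c; omega⟩

/-- Move M (`h * f` is kept). -/
theorem zero_M [Fintype D] {f h : Perm D} {x y : D} (h0 : gen f h = 0) (hxy : x ≠ y)
    (hs : f.SameCycle x y ∨ h.SameCycle x y) :
    gen (swap x y * f) (h * swap x y) = 0 ∧ (f.SameCycle x y → h.SameCycle x y →
      ¬ orb (swap x y * f) (h * swap x y) x y) := by
  have n := gen_nonneg (swap x y * f) (h * swap x y)
  rcases hs with hs | hs
  · rw [gen_f_h] at h0 n ⊢
    rw [orb_eq_left]
    rw [mul_mv] at n ⊢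
    obtain ⟨k1, k2⟩ := gen3_zero (Or.inr rfl) (Or.inl rfl) hxy hs
      (sc_le_of_mul_right le_sup_left (by rw [mul_mv]; exact le_sup_right)) h0 n
    exact ⟨k1, fun _ => k2⟩
  · rw [gen_h_f] at h0 n ⊢
    rw [orb_eq_right]
    rw [mul_mv] at n ⊢
    obtain ⟨k1, k2⟩ := gen3_zero (Or.inl rfl) (Or.inr rfl) hxy hs
      (sc_le_of_mul_left le_sup_left (by rw [mul_mv]; exact le_sup_right)) h0 n
    exact ⟨k1, fun k _ => k2 k⟩

/-- Move F (`h` is kept). -/
theorem zero_F [Fintype D] {f h : Perm D} {x y : D} (h0 : gen f h = 0) (hxy : x ≠ y)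
    (hs : f.SameCycle x y ∨ (h * f).SameCycle x y) :
    gen (f * swap x y) h = 0 ∧ (f.SameCycle x y → (h * f).SameCycle x y →
      ¬ orb (f * swap x y) h x y) := by
  have n := gen_nonneg (f * swap x y) h
  rcases hs with hs | hs
  · rw [gen_f_p] at h0 n ⊢
    obtain ⟨k1, k2⟩ := gen3_zero (Or.inl rfl) (Or.inl (mul_assoc _ _ _).symm) hxy hs
      (sc_mul_le le_sup_right le_sup_left) h0 n
    exact ⟨k1, fun _ => k2⟩
  · rw [gen_p_f] at h0 n ⊢
    rw [orb_eq_right, sup_comm]
    obtain ⟨k1, k2⟩ := gen3_zero (Or.inl (mul_assoc _ _ _).symm) (Or.inl rfl) hxy hs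
      (sc_le_of_mul_left le_sup_right le_sup_left) h0 n
    exact ⟨k1, fun k _ => k2 k⟩

/-- Move H (`f` is kept). -/
theorem zero_H [Fintype D] {f h : Perm D} {x y : D} (h0 : gen f h = 0) (hxy : x ≠ y)
    (hs : h.SameCycle x y ∨ (h * f).SameCycle x y) :
    gen f (swap x y * h) = 0 ∧ (h.SameCycle x y → (h * f).SameCycle x y →
      ¬ orb f (swap x y * h) x y) := by
  have n := gen_nonneg f (swap x y * h)
  rcases hs with hs | hs
  · rw [gen_h_p] at h0 n ⊢
    rw [orb_comm]
    obtain ⟨k1, k2⟩ := gen3_zero (Or.inr rfl) (Or.inr (mul_assoc _ _ _)) hxy hs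
      (sc_mul_le le_sup_left le_sup_right) h0 n
    exact ⟨k1, fun _ => k2⟩
  · rw [gen_p_h] at h0 n ⊢
    rw [orb_eq_left, sup_comm]
    obtain ⟨k1, k2⟩ := gen3_zero (Or.inr (mul_assoc _ _ _)) (Or.inr rfl) hxy hs
      (sc_le_of_mul_right le_sup_right le_sup_left) h0 n
    exact ⟨k1, fun k _ => k2 k⟩

/-- Making `x` a fixed point of `h`. -/
theorem zero_fix_h [Fintype D] {f h : Perm D} (h0 : gen f h = 0) (x : D) :
    gen f (swap x (h x) * h) = 0 := by
  by_cases hx : x = h x
  · rw [← hx, swap_self, ← Perm.one_def, one_mul]; exact h0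
  · exact (zero_H h0 hx (Or.inl (sc_step h x))).1

/-- Making `x` a fixed point of `f`. -/
theorem zero_fix_f [Fintype D] {f h : Perm D} (h0 : gen f h = 0) (x : D) :
    gen (swap x (f x) * f) h = 0 := by
  have e : swap x (f x) * f = f * swap (f⁻¹ x) x := by
    rw [mul_swap_eq_swap_mul]; simp
  by_cases hx : f⁻¹ x = x
  · rw [e, hx, swap_self, ← Perm.one_def, mul_one]; exact h0
  · rw [e]
    refine (zero_F h0 hx (Or.inl ?_)).1
    exact ⟨1, by simp⟩

/-- Removing a point from its cycle does not change the cycles on the other points. -/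
theorem same_fix [Finite D] {f : Perm D} {x a b : D} (ha : a ≠ x) (hb : b ≠ x) :
    (swap x (f x) * f).SameCycle a b ↔ f.SameCycle a b := by
  by_cases hx : x = f x
  · rw [← hx, swap_self, ← Perm.one_def, one_mul]
  · have e := (Tw.split (a := f) (Or.inr rfl) hx (sc_step f x)).1
    have fx : (swap x (f x) * f) x = x := by simp
    have k : ∀ c, c ≠ x → ¬ sc (swap x (f x) * f) c x := fun c hc k =>
      hc (SameCycle.eq_of_right k fx)
    rw [← sc_iff (f := f), e, sup_swap_iff]
    exact ⟨Or.inl, fun c => c.elim id fun c => c.elim (fun c => absurd c.1 (k a ha))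
      fun c => absurd c.2 (k b hb)⟩

end

section
open scoped Classical
variable [Fintype D]

/-- The size of the class of `x`. -/
def len (r : Setoid D) (x : D) : ℕ := #{y | r x y}

theorem len_pos (r : Setoid D) (x : D) : 0 < len r x :=
  card_pos.2 ⟨x, by simp⟩

theorem len_congr {r : Setoid D} {x y : D} (h : r x y) : len r x = len r y := by
  unfold len
  congr 1
  ext z
  simp only [mem_filter, mem_univ, true_and]
  exact ⟨r.trans (r.symm h), r.trans h⟩

theorem le_len {r : Setoid D} {x : D} {s : Finset D} (h : ∀ y ∈ s, r x y) : #s ≤ len r x :=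
  card_le_card fun y hy => by simpa using h y hy

theorem len_le {r : Setoid D} {x : D} {s : Finset D} (h : ∀ y, r x y → y ∈ s) : len r x ≤ #s :=
  card_le_card fun y hy => h y (by simpa using hy)

theorem nc_eq_sum (r : Setoid D) : (nc r : ℚ) = ∑ x, (1 : ℚ) / len r x := by
  rw [← sum_fiberwise (s := univ) (g := Quotient.mk r), nc, Nat.card_eq_fintype_card,
    Fintype.card_eq_sum_ones]
  push_cast
  refine sum_congr rfl fun q _ => ?_
  induction q using Quotient.inductionOn with | _ a => ?_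
  have e : ∀ x ∈ ({x | Quotient.mk r x = Quotient.mk r a} : Finset D),
      (1 : ℚ) / len r x = 1 / len r a := fun x hx => by
    rw [len_congr (Quotient.exact (mem_filter.1 hx).2)]
  have e2 : #({x | Quotient.mk r x = Quotient.mk r a} : Finset D) = len r a := by
    unfold len
    congr 1
    ext z
    simp only [mem_filter, mem_univ, true_and]
    exact ⟨fun c => r.symm (Quotient.exact c), fun c => Quotient.sound (r.symm c)⟩
  rw [sum_congr rfl e, sum_const, e2, nsmul_eq_mul, mul_one_div_cancel]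
  exact_mod_cast (len_pos r a).ne'

/-- The local contribution to the genus. -/
def loc (f h : Perm D) (x : D) : ℚ := 1 + 2 / len (orb f h) x - 1 / len (sc f) x -
  1 / len (sc h) x - 1 / len (sc (h * f)) x

theorem gen_eq_sum (f h : Perm D) : (gen f h : ℚ) = ∑ x, loc f h x := by
  unfold gen loc cyc
  push_cast
  rw [nc_eq_sum, nc_eq_sum, nc_eq_sum, nc_eq_sum, mul_sum]
  simp only [sum_sub_distrib, sum_add_distrib, sum_const, card_univ, nsmul_eq_mul, mul_one,
    mul_one_div]

theorem len_fixed {f : Perm D} {x : D} (hx : f x = x) : len (sc f) x = 1 :=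
  le_antisymm ((len_le (s := {x}) fun _ hy =>
    mem_singleton.2 (SameCycle.eq_of_left hy hx).symm).trans (card_singleton x).le) (len_pos _ _)

theorem two_le_len {f : Perm D} {x : D} (hx : f x ≠ x) : 2 ≤ len (sc f) x := by
  rw [← card_pair hx]
  refine le_len fun y hy => ?_
  rcases mem_insert.1 hy with rfl | hy
  · exact sc_step f x
  · rw [mem_singleton.1 hy]

theorem three_le_len {f : Perm D} {x : D} (h1 : f x ≠ x) (h2 : f (f x) ≠ x) :
    3 ≤ len (sc f) x := by
  have : #({f (f x), f x, x} : Finset D) = 3 := by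
    rw [card_insert_of_notMem, card_pair h1]
    simp only [mem_insert, mem_singleton, not_or]
    exact ⟨fun c => h1 (f.injective c), h2⟩
  rw [← this]
  refine le_len fun y hy => ?_
  simp only [mem_insert, mem_singleton] at hy
  rcases hy with rfl | rfl | rfl
  · exact (sc f).trans (sc_step f x) (sc_step f _)
  · exact sc_step f x
  · exact (sc f).refl _

omit [Fintype D] in
theorem orb_fixed {f h : Perm D} {x y : D} (h1 : f x = x) (h2 : h x = x) (H : orb f h x y) :
    y = x :=
  (orb_inv (p := fun z => z = x)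
    (fun z => ⟨fun c => f.injective (c.trans h1.symm), fun c => by rw [c, h1]⟩)
    (fun z => ⟨fun c => h.injective (c.trans h2.symm), fun c => by rw [c, h2]⟩) H).1 rfl

theorem loc_fixed {f h : Perm D} {x : D} (h1 : f x = x) (h2 : h x = x) : loc f h x = 0 := by
  have e : len (orb f h) x = 1 :=
    le_antisymm ((len_le (s := {x}) fun y hy => mem_singleton.2 (orb_fixed h1 h2 hy)).trans
      (card_singleton x).le) (len_pos _ _)
  unfold loc
  rw [e, len_fixed h1, len_fixed h2, len_fixed (show (h * f) x = x by rw [Perm.mul_apply, h1, h2])]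
  norm_num

theorem len_map {E : Type*} [Fintype E] {φ : D → E} (hφ : Function.Injective φ) {r : Setoid D}
    {s : Setoid E} (H : ∀ x y, s (φ x) y ↔ ∃ z, φ z = y ∧ r x z) (x : D) :
    len s (φ x) = len r x := by
  unfold len
  rw [← card_image_of_injective _ hφ]
  congr 1
  ext y
  simp only [mem_filter, mem_univ, true_and, mem_image, H, and_comm]

omit [Fintype D] in
theorem orb_map {E : Type*} {φ : D → E} {f h : Perm D}
    {f' h' : Perm E} (h1 : ∀ x, f' (φ x) = φ (f x)) (h2 : ∀ x, h' (φ x) = φ (h x)) (x : D)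
    (y : E) : orb f' h' (φ x) y ↔ ∃ z, φ z = y ∧ orb f h x z := by
  constructor
  · intro H
    have key : ∀ (g : Perm D) (g' : Perm E), (∀ x, g' (φ x) = φ (g x)) →
        (∀ x, orb f h x (g x)) → ∀ w, (∃ z, φ z = g' w ∧ orb f h x z) ↔
          ∃ z, φ z = w ∧ orb f h x z := fun g g' e o w => by
      constructor
      · rintro ⟨z, a, b⟩
        refine ⟨g⁻¹ z, g'.injective (by rw [e, ← a]; simp), (orb f h).trans b ?_⟩
        have := o (g⁻¹ z)
        simp only [Perm.coe_inv, apply_symm_apply] at this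
        exact (orb f h).symm this
      · rintro ⟨z, rfl, b⟩
        exact ⟨g z, (e z).symm, (orb f h).trans b (o z)⟩
    exact (orb_inv (p := fun w => ∃ z, φ z = w ∧ orb f h x z) (key f f' h1 (orb_f f h))
      (key h h' h2 (orb_h f h)) H).1 ⟨x, rfl, (orb f h).refl x⟩
  · rintro ⟨z, rfl, H⟩
    have : orb f h ≤ (orb f' h').comap φ :=
      orb_le (fun a => show orb f' h' (φ a) (φ (f a)) from h1 a ▸ orb_f f' h' _)
        (fun a => show orb f' h' (φ a) (φ (h a)) from h2 a ▸ orb_h f' h' _)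
    exact this H

omit [Fintype D] in
theorem sc_map {E : Type*} {φ : D → E} {f : Perm D}
    {f' : Perm E} (h1 : ∀ x, f' (φ x) = φ (f x)) (x : D) (y : E) :
    sc f' (φ x) y ↔ ∃ z, φ z = y ∧ sc f x z := by
  have := orb_map h1 h1 x y
  unfold orb at this
  rwa [sup_idem, sup_idem] at this

theorem loc_map {E : Type*} [Fintype E] {φ : D → E} (hφ : Function.Injective φ) {f h : Perm D}
    {f' h' : Perm E} (h1 : ∀ x, f' (φ x) = φ (f x)) (h2 : ∀ x, h' (φ x) = φ (h x)) (x : D) :
    loc f' h' (φ x) = loc f h x := by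
  unfold loc
  rw [len_map hφ (orb_map h1 h2), len_map hφ (sc_map h1), len_map hφ (sc_map h2),
    len_map hφ (sc_map (f := h * f) (f' := h' * f') fun x => by
      rw [Perm.mul_apply, Perm.mul_apply, h1, h2])]

/-- Additivity over two complementary invariant parts. -/
theorem gen_add {A E : Type*} [Fintype A] [Fintype E] {φ : D → E} {ψ : A → E}
    (hφ : Function.Injective φ) (hψ : Function.Injective ψ) (hd : ∀ x a, φ x ≠ ψ a)
    (hs : ∀ y, (∃ x, φ x = y) ∨ ∃ a, ψ a = y) {f h : Perm D} {f₂ h₂ : Perm A} {f' h' : Perm E}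
    (h1 : ∀ x, f' (φ x) = φ (f x)) (h2 : ∀ x, h' (φ x) = φ (h x))
    (h3 : ∀ x, f' (ψ x) = ψ (f₂ x)) (h4 : ∀ x, h' (ψ x) = ψ (h₂ x)) :
    gen f' h' = gen f h + gen f₂ h₂ := by
  have b : Function.Bijective (Sum.elim φ ψ) :=
    ⟨hφ.sumElim hψ hd, fun y => (hs y).elim (fun ⟨x, e⟩ => ⟨Sum.inl x, e⟩)
      fun ⟨x, e⟩ => ⟨Sum.inr x, e⟩⟩
  have : (gen f' h' : ℚ) = gen f h + gen f₂ h₂ := by
    rw [gen_eq_sum, gen_eq_sum, gen_eq_sum, ← b.sum_comp, Fintype.sum_sum_type]
    simp only [Sum.elim_inl, Sum.elim_inr, loc_map hφ h1 h2, loc_map hψ h3 h4]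
  exact_mod_cast this

/-- Extension by points that both permutations fix (and transport along a bijection). -/
theorem gen_ext {E : Type*} [Fintype E] {φ : D → E} (hφ : Function.Injective φ) {f h : Perm D}
    {f' h' : Perm E} (h1 : ∀ x, f' (φ x) = φ (f x)) (h2 : ∀ x, h' (φ x) = φ (h x))
    (h3 : ∀ y, (∀ x, φ x ≠ y) → f' y = y ∧ h' y = y) : gen f' h' = gen f h := by
  have : (gen f' h' : ℚ) = gen f h := by
    rw [gen_eq_sum, gen_eq_sum, ← sum_subset (subset_univ (univ.image φ)) fun y _ hy => ?_,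
      sum_image fun a _ b _ c => hφ c]
    · simp only [loc_map hφ h1 h2]
    · have := h3 y fun x c => hy (mem_image.2 ⟨x, mem_univ x, c⟩)
      exact loc_fixed this.1 this.2
  exact_mod_cast this

/-- An invariant part of a pair of genus zero has genus zero. -/
theorem zero_part {E : Type*} [Fintype E] {φ : D → E} (hφ : Function.Injective φ) {f h : Perm D}
    {f' h' : Perm E} (h1 : ∀ x, f' (φ x) = φ (f x)) (h2 : ∀ x, h' (φ x) = φ (h x))
    (h0 : gen f' h' = 0) : gen f h = 0 := by
  have key : ∀ (g : Perm D) (g' : Perm E), (∀ x, g' (φ x) = φ (g x)) →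
      ∀ w, (¬ ∃ z, φ z = g' w) ↔ ¬ ∃ z, φ z = w := fun g g' e w => by
    refine not_congr ⟨?_, ?_⟩
    · rintro ⟨z, a⟩
      exact ⟨g⁻¹ z, g'.injective (by rw [e, ← a]; simp)⟩
    · rintro ⟨z, rfl⟩
      exact ⟨g z, (e z).symm⟩
  have := gen_add (ψ := (Subtype.val : {w // ¬ ∃ z, φ z = w} → E)) hφ Subtype.val_injective
    (fun x a c => a.2 ⟨x, c⟩)
    (fun y => (em (∃ z, φ z = y)).imp id fun c => ⟨⟨y, c⟩, rfl⟩)
    (f₂ := f'.subtypePerm (key f f' h1)) (h₂ := h'.subtypePerm (key h h' h2)) h1 h2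
    (fun _ => rfl) (fun _ => rfl)
  have n1 := gen_nonneg f h
  have n2 := gen_nonneg (D := {w // ¬ ∃ z, φ z = w}) (f'.subtypePerm (key f f' h1))
    (h'.subtypePerm (key h h' h2))
  omega

theorem zero_subtype {f h : Perm D} {p : D → Prop} [Fintype {x // p x}]
    (h1 : ∀ x, p (f x) ↔ p x) (h2 : ∀ x, p (h x) ↔ p x) (h0 : gen f h = 0) :
    gen (f.subtypePerm h1) (h.subtypePerm h2) = 0 :=
  zero_part Subtype.val_injective (fun _ => rfl) (fun _ => rfl) h0

theorem gen_sumCongr {A : Type*} [Fintype A] (f h : Perm D) (f₂ h₂ : Perm A) :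
    gen (Perm.sumCongr f f₂) (Perm.sumCongr h h₂) = gen f h + gen f₂ h₂ :=
  gen_add Sum.inl_injective Sum.inr_injective (fun _ _ => Sum.inl_ne_inr)
    (fun y => by rcases y with y | y; exacts [Or.inl ⟨y, rfl⟩, Or.inr ⟨y, rfl⟩])
    (fun _ => rfl) (fun _ => rfl) (fun _ => rfl) (fun _ => rfl)

theorem gen_one (f : Perm D) : gen f 1 = 0 := by
  have : (gen f 1 : ℚ) = 0 := by
    rw [gen_eq_sum]
    refine sum_eq_zero fun x _ => ?_
    have e1 : orb f 1 = sc f := sup_eq_left.2 (sc_le.2 fun x => (sc f).refl x)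
    unfold loc
    rw [e1, one_mul, len_fixed (f := 1) rfl]
    ring
  exact_mod_cast this

theorem gen_one_left (h : Perm D) : gen 1 h = 0 := by
  have := gen_one h
  unfold gen at this ⊢
  rw [orb_comm, mul_one]
  rw [one_mul] at this
  omega

theorem gen_inv (f : Perm D) : gen f f⁻¹ = 0 := by
  have := gen_one f
  unfold gen orb cyc at this ⊢
  rw [inv_mul_cancel, sc_inv, sup_idem]
  rw [one_mul, sup_eq_left.2 (sc_le.2 fun x => (sc f).refl x)] at this
  omega

end

end Pool.Agent.MP_c6eade_gt.H41.A1x
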