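import Pool.Agent.MP_c6eade_gt.H41.Basic
import Pool.Agent.MP_c6eade_gt.H41.A1_a

namespace Pool.Agent.MP_c6eade_gt.H41

open Equiv Finset
open scoped Classical

namespace A1x

theorem cyc_eq {D : Type} (σ : Perm D) : H41.cyc σ = cyc σ := rfl

theorem setoid_eq {D : Type} (f h : Perm D) :
    (Relation.EqvGen.setoid fun x y : D => y = f x ∨ y = h x) = orb f h := by
  apply le_antisymm
  · refine Setoid.eqvGen_le ?_
    rintro x y (rfl | rfl)
    exacts [orb_f f h x, orb_h f h x]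
  · exact orb_le (fun x => Relation.EqvGen.rel _ _ (Or.inl rfl))
      fun x => Relation.EqvGen.rel _ _ (Or.inr rfl)

theorem Orb_iff {D : Type} {f h : Perm D} {x y : D} : Orb f h x y ↔ orb f h x y := by
  rw [← setoid_eq]; rfl

theorem gen_eq {D : Type} [Fintype D] (f h : Perm D) : H41.gen f h = gen f h := by
  unfold H41.gen gen H41.orb nc
  rw [setoid_eq, Nat.card_eq_fintype_card]
  rfl

theorem join_core {D : Type} [Fintype D] {x y : D} {a a' b b' e : Perm D} (ha : Tw x y a a')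
    (hb : Tw x y b b') (hs : ¬ (sc a ⊔ sc e) x y) (hb' : sc b ≤ sc a ⊔ sc e) :
    gen3 a' b' e ≤ gen3 a b e := by
  have hxy : x ≠ y := fun c => hs (c ▸ (sc a ⊔ sc e).refl x)
  have k1 : ¬ a.SameCycle x y := fun c => hs ((le_sup_left : sc a ≤ sc a ⊔ sc e) c)
  obtain ⟨e1, ⟨c, -⟩ | ⟨-, e2, -, e3⟩⟩ :=
    move_core ha.symm hb.symm hxy ((ha.same hxy).2 k1) hb'
  · exact absurd c hs
  · unfold gen3
    rw [e1, e2, e3]
    push_cast
    omega

end A1x

section A1
variable {D : Type} [Fintype D] {σ f h : Perm D} {x y : D}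

theorem cyc_split (hxy : x ≠ y) (hs : σ.SameCycle x y) :
    cyc (σ * swap x y) = cyc σ + 1 ∧ ¬ (σ * swap x y).SameCycle x y :=
  ⟨(A1x.Tw.split (Or.inl rfl) hxy hs).2, fun c => (A1x.same_mul_swap hxy).1 c hs⟩

theorem cyc_merge (hs : ¬ σ.SameCycle x y) :
    cyc (σ * swap x y) + 1 = cyc σ ∧ (σ * swap x y).SameCycle x y := by
  have hxy : x ≠ y := fun c => hs (c ▸ Perm.SameCycle.refl σ x)
  exact ⟨(A1x.Tw.merge (Or.inl rfl) hxy hs).2.symm, (A1x.same_mul_swap hxy).2 hs⟩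

theorem cyc_split' (hxy : x ≠ y) (hs : σ.SameCycle x y) :
    cyc (swap x y * σ) = cyc σ + 1 ∧ ¬ (swap x y * σ).SameCycle x y :=
  ⟨(A1x.Tw.split (Or.inr rfl) hxy hs).2, fun c => (A1x.same_swap_mul hxy).1 c hs⟩

theorem cyc_merge' (hs : ¬ σ.SameCycle x y) :
    cyc (swap x y * σ) + 1 = cyc σ ∧ (swap x y * σ).SameCycle x y := by
  have hxy : x ≠ y := fun c => hs (c ▸ Perm.SameCycle.refl σ x)
  exact ⟨(A1x.Tw.merge (Or.inr rfl) hxy hs).2.symm, (A1x.same_swap_mul hxy).2 hs⟩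

theorem gen_f_split (hs : f.SameCycle x y) : gen (f * swap x y) h ≤ gen f h := by
  by_cases hxy : x = y
  · rw [hxy, swap_self, ← Perm.one_def, mul_one]
  · rw [A1x.gen_eq, A1x.gen_eq, A1x.gen_f_p, A1x.gen_f_p f h]
    exact (A1x.gen3_le (Or.inl rfl) (Or.inl (mul_assoc _ _ _).symm) hxy hs
      (A1x.sc_mul_le le_sup_right le_sup_left)).1

theorem gen_f_split' (hs : f.SameCycle x y) : gen (swap x y * f) h ≤ gen f h := by
  have e : swap x y * f = f * swap (f⁻¹ x) (f⁻¹ y) := by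
    rw [mul_swap_eq_swap_mul]; simp
  rw [e]
  exact gen_f_split (by simpa using hs)

theorem gen_f_vsplit (hs : (h * f).SameCycle x y) : gen (f * swap x y) h ≤ gen f h := by
  by_cases hxy : x = y
  · rw [hxy, swap_self, ← Perm.one_def, mul_one]
  · rw [A1x.gen_eq, A1x.gen_eq, A1x.gen_p_f, A1x.gen_p_f f h]
    exact (A1x.gen3_le (Or.inl (mul_assoc _ _ _).symm) (Or.inl rfl) hxy hs
      (A1x.sc_le_of_mul_left le_sup_right le_sup_left)).1

theorem gen_h_split (hs : h.SameCycle x y) : gen f (swap x y * h) ≤ gen f h := by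
  by_cases hxy : x = y
  · rw [hxy, swap_self, ← Perm.one_def, one_mul]
  · rw [A1x.gen_eq, A1x.gen_eq]
    exact A1x.gen_H_of_h hxy hs

theorem gen_h_split' (hs : h.SameCycle x y) : gen f (h * swap x y) ≤ gen f h := by
  rw [mul_swap_eq_swap_mul]
  exact gen_h_split (by simpa using hs)

theorem gen_h_vsplit (hs : (h * f).SameCycle x y) : gen f (swap x y * h) ≤ gen f h := by
  by_cases hxy : x = y
  · rw [hxy, swap_self, ← Perm.one_def, one_mul]
  · rw [A1x.gen_eq, A1x.gen_eq, A1x.gen_p_h, A1x.gen_p_h f h]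
    exact (A1x.gen3_le (Or.inr (mul_assoc _ _ _)) (Or.inr rfl) hxy hs
      (A1x.sc_le_of_mul_right le_sup_right le_sup_left)).1

theorem gen_both (hs : h.SameCycle x y) : gen (swap x y * f) (h * swap x y) ≤ gen f h := by
  by_cases hxy : x = y
  · rw [hxy, swap_self, ← Perm.one_def, one_mul, mul_one]
  · rw [A1x.gen_eq, A1x.gen_eq, A1x.gen_h_f, A1x.gen_h_f f h, A1x.mul_mv]
    exact (A1x.gen3_le (Or.inl rfl) (Or.inr rfl) hxy hs
      (A1x.sc_le_of_mul_left le_sup_left (by rw [A1x.mul_mv]; exact le_sup_right))).1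

theorem gen_f_join (hs : ¬ Orb f h x y) : gen (f * swap x y) h ≤ gen f h := by
  rw [A1x.gen_eq, A1x.gen_eq, A1x.gen_f_p, A1x.gen_f_p f h]
  exact A1x.join_core (Or.inl rfl) (Or.inl (mul_assoc _ _ _).symm)
    (fun c => hs (A1x.Orb_iff.2 c)) (A1x.orb_mul f h)

theorem gen_h_join (hs : ¬ Orb f h x y) : gen f (swap x y * h) ≤ gen f h := by
  rw [A1x.gen_eq, A1x.gen_eq, A1x.gen_h_p, A1x.gen_h_p f h]
  refine A1x.join_core (Or.inr rfl) (Or.inr (mul_assoc _ _ _))
    (fun c => hs (A1x.Orb_iff.2 ?_)) (A1x.sc_mul_le le_sup_left le_sup_right)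
  rwa [A1x.orb_comm]

theorem gen_nonneg (f h : Perm D) : 0 ≤ gen f h := by
  rw [A1x.gen_eq]; exact A1x.gen_nonneg f h

theorem gen_h_double (h0 : gen f h ≤ 0) (hxy : x ≠ y) (hv : (h * f).SameCycle x y)
    (hh : h.SameCycle x y) : ¬ Orb f (swap x y * h) x y := by
  have z : A1x.gen f h = 0 := by
    rw [← A1x.gen_eq]; exact le_antisymm h0 (gen_nonneg f h)
  exact fun c => (A1x.zero_H z hxy (Or.inl hh)).2 hh hv (A1x.Orb_iff.1 c)

end A1


end Pool.Agent.MP_c6eade_gt.H41
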