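import Pool.Agent.MP_c6eade_gt.H41.A1

namespace Pool.Agent.MP_c6eade_gt.H41

open Equiv Finset
open scoped Classical

namespace A2x
variable {D : Type} [Fintype D]

/-- The size of the class of `x`. -/
noncomputable def len (r : Setoid D) (x : D) : ℕ := #{y | r x y}

theorem len_pos (r : Setoid D) (x : D) : 0 < len r x :=
  card_pos.2 ⟨x, by simp⟩

theorem len_congr {r : Setoid D} {x y : D} (h : r x y) : len r x = len r y := by
  unfold len
  congr 1
  ext z
  simp only [mem_filter, mem_univ, true_and]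
  exact ⟨r.trans (r.symm h), r.trans h⟩

theorem le_len {r : Setoid D} {x : D} {s : Finset D} (h : ∀ y ∈ s, r x y) : #s ≤ len r x :=
  card_le_card fun y hy => by simpa using h y hy

theorem len_one {r : Setoid D} {x : D} (h : ∀ y, r x y → y = x) : len r x = 1 :=
  le_antisymm ((card_le_card (t := {x}) fun y hy =>
    mem_singleton.2 (h y (by simpa using hy))).trans (card_singleton x).le) (len_pos _ _)

theorem nc_eq_sum (r : Setoid D) : (Nat.card (Quotient r) : ℚ) = ∑ x, (1 : ℚ) / len r x := by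
  rw [← sum_fiberwise (s := univ) (g := Quotient.mk r), Nat.card_eq_fintype_card,
    Fintype.card_eq_sum_ones]
  push_cast
  refine sum_congr rfl fun q _ => ?_
  induction q using Quotient.inductionOn with | _ a => ?_
  have e : ∀ x ∈ ({x | Quotient.mk r x = Quotient.mk r a} : Finset D),
      (1 : ℚ) / len r x = 1 / len r a := fun x hx => by
    rw [len_congr (Quotient.exact (mem_filter.1 hx).2)]
  have e2 : #({x | Quotient.mk r x = Quotient.mk r a} : Finset D) = len r a := by
    unfold len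
    congr 1
    ext z
    simp only [mem_filter, mem_univ, true_and]
    exact ⟨fun c => r.symm (Quotient.exact c), fun c => Quotient.sound (r.symm c)⟩
  rw [sum_congr rfl e, sum_const, e2, nsmul_eq_mul, mul_one_div_cancel]
  exact_mod_cast (len_pos r a).ne'

/-- The orbits of two permutations. -/
abbrev os {D : Type} (f h : Perm D) : Setoid D :=
  Relation.EqvGen.setoid fun x y : D => y = f x ∨ y = h x

/-- The cycles of a permutation. -/
abbrev sc {D : Type} (f : Perm D) : Setoid D := Perm.SameCycle.setoid f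

/-- The local contribution to the genus. -/
noncomputable def loc (f h : Perm D) (x : D) : ℚ := 1 + 2 / len (os f h) x - 1 / len (sc f) x -
  1 / len (sc h) x - 1 / len (sc (h * f)) x

theorem gen_eq_sum (f h : Perm D) : (gen f h : ℚ) = ∑ x, loc f h x := by
  unfold gen loc cyc orb
  push_cast
  rw [nc_eq_sum, nc_eq_sum, nc_eq_sum, nc_eq_sum, mul_sum, Nat.card_eq_fintype_card]
  simp only [sum_sub_distrib, sum_add_distrib, sum_const, card_univ, nsmul_eq_mul, mul_one,
    mul_one_div]

omit [Fintype D] in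
theorem os_inv {f h : Perm D} {p : D → Prop} (h1 : ∀ x, p (f x) ↔ p x)
    (h2 : ∀ x, p (h x) ↔ p x) {x y : D} (H : os f h x y) : p x ↔ p y := by
  have H' : Relation.EqvGen (fun x y : D => y = f x ∨ y = h x) x y := H
  clear H
  induction H' with
  | rel a b c =>
    rcases c with rfl | rfl
    · exact (h1 a).symm
    · exact (h2 a).symm
  | refl a => exact Iff.rfl
  | symm a b _ ih => exact ih.symm
  | trans a b c _ _ i1 i2 => exact i1.trans i2

omit [Fintype D] in
theorem os_f (f h : Perm D) (x : D) : os f h x (f x) := Relation.EqvGen.rel _ _ (Or.inl rfl)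

omit [Fintype D] in
theorem os_h (f h : Perm D) (x : D) : os f h x (h x) := Relation.EqvGen.rel _ _ (Or.inr rfl)

omit [Fintype D] in
theorem os_map {E : Type} {φ : D → E} {f h : Perm D}
    {f' h' : Perm E} (h1 : ∀ x, f' (φ x) = φ (f x)) (h2 : ∀ x, h' (φ x) = φ (h x)) (x : D)
    (y : E) : os f' h' (φ x) y ↔ ∃ z, φ z = y ∧ os f h x z := by
  constructor
  · intro H
    have key : ∀ (g : Perm D) (g' : Perm E), (∀ x, g' (φ x) = φ (g x)) →
        (∀ x, os f h x (g x)) → ∀ w, (∃ z, φ z = g' w ∧ os f h x z) ↔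
          ∃ z, φ z = w ∧ os f h x z := fun g g' e o w => by
      constructor
      · rintro ⟨z, a, b⟩
        refine ⟨g⁻¹ z, g'.injective (by rw [e, ← a]; simp), (os f h).trans b ?_⟩
        have := o (g⁻¹ z)
        simp only [Perm.coe_inv, apply_symm_apply] at this
        exact (os f h).symm this
      · rintro ⟨z, rfl, b⟩
        exact ⟨g z, (e z).symm, (os f h).trans b (o z)⟩
    exact (os_inv (p := fun w => ∃ z, φ z = w ∧ os f h x z) (key f f' h1 (os_f f h))
      (key h h' h2 (os_h f h)) H).1 ⟨x, rfl, (os f h).refl x⟩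
  · rintro ⟨z, rfl, H⟩
    have H' : Relation.EqvGen (fun x y : D => y = f x ∨ y = h x) x z := H
    clear H
    induction H' with
    | rel a b c =>
      rcases c with rfl | rfl
      · exact h1 a ▸ os_f f' h' _
      · exact h2 a ▸ os_h f' h' _
    | refl a => exact (os f' h').refl _
    | symm a b _ ih => exact (os f' h').symm ih
    | trans a b c _ _ i1 i2 => exact (os f' h').trans i1 i2

omit [Fintype D] in
theorem zpow_map {E : Type} {φ : D → E} {f : Perm D}
    {f' : Perm E} (h1 : ∀ x, f' (φ x) = φ (f x)) (i : ℤ) (x : D) :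
    (f' ^ i) (φ x) = φ ((f ^ i) x) := by
  have h2 : ∀ x, f'⁻¹ (φ x) = φ (f⁻¹ x) := fun x => by
    apply f'.injective
    rw [h1]
    simp
  induction i using Int.induction_on with
  | zero => simp
  | succ n ih =>
    rw [add_comm, zpow_add, zpow_one, Perm.mul_apply, ih, h1, zpow_add, zpow_one, Perm.mul_apply]
  | pred n ih =>
    rw [sub_eq_add_neg, add_comm, zpow_add, zpow_neg_one, Perm.mul_apply, ih, h2, zpow_add,
      zpow_neg_one, Perm.mul_apply]

omit [Fintype D] in
theorem sc_map {E : Type} {φ : D → E} {f : Perm D}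
    {f' : Perm E} (h1 : ∀ x, f' (φ x) = φ (f x)) (x : D) (y : E) :
    sc f' (φ x) y ↔ ∃ z, φ z = y ∧ sc f x z := by
  constructor
  · rintro ⟨i, rfl⟩
    exact ⟨(f ^ i) x, (zpow_map h1 i x).symm, i, rfl⟩
  · rintro ⟨z, rfl, i, rfl⟩
    exact ⟨i, zpow_map h1 i x⟩

theorem len_map {E : Type} [Fintype E] {φ : D → E} (hφ : Function.Injective φ) {r : Setoid D}
    {s : Setoid E} (H : ∀ x y, s (φ x) y ↔ ∃ z, φ z = y ∧ r x z) (x : D) :
    len s (φ x) = len r x := by
  unfold len
  rw [← card_image_of_injective _ hφ]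
  congr 1
  ext y
  simp only [mem_filter, mem_univ, true_and, mem_image, H, and_comm]

theorem loc_map {E : Type} [Fintype E] {φ : D → E} (hφ : Function.Injective φ) {f h : Perm D}
    {f' h' : Perm E} (h1 : ∀ x, f' (φ x) = φ (f x)) (h2 : ∀ x, h' (φ x) = φ (h x)) (x : D) :
    loc f' h' (φ x) = loc f h x := by
  unfold loc
  rw [len_map hφ (os_map h1 h2), len_map hφ (sc_map h1), len_map hφ (sc_map h2),
    len_map hφ (sc_map (f := h * f) (f' := h' * f') fun x => by
      rw [Perm.mul_apply, Perm.mul_apply, h1, h2])]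

theorem len_fixed {f : Perm D} {x : D} (hx : f x = x) : len (sc f) x = 1 :=
  len_one fun _ hy => (Perm.SameCycle.eq_of_left hy hx).symm

theorem loc_fixed {f h : Perm D} {x : D} (h1 : f x = x) (h2 : h x = x) : loc f h x = 0 := by
  have e : len (os f h) x = 1 := len_one fun y H =>
    (os_inv (p := fun z => z = x)
      (fun z => ⟨fun c => f.injective (c.trans h1.symm), fun c => by rw [c, h1]⟩)
      (fun z => ⟨fun c => h.injective (c.trans h2.symm), fun c => by rw [c, h2]⟩) H).1 rfl
  unfold loc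
  rw [e, len_fixed h1, len_fixed h2, len_fixed (show (h * f) x = x by rw [Perm.mul_apply, h1, h2])]
  norm_num

omit [Fintype D] in
theorem sc_step (f : Perm D) (x : D) : sc f x (f x) := ⟨1, by simp⟩

theorem two_le_len {f : Perm D} {x : D} (hx : f x ≠ x) : 2 ≤ len (sc f) x := by
  rw [← card_pair hx]
  refine le_len fun y hy => ?_
  rcases mem_insert.1 hy with rfl | hy
  · exact sc_step f x
  · rw [mem_singleton.1 hy]

theorem three_le_len {f : Perm D} {x : D} (h2 : f (f x) ≠ x) : 3 ≤ len (sc f) x := by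
  have h1 : f x ≠ x := fun c => h2 (by rw [c, c])
  have : #({f (f x), f x, x} : Finset D) = 3 := by
    rw [card_insert_of_notMem, card_pair h1]
    simp only [mem_insert, mem_singleton, not_or]
    exact ⟨fun c => h1 (f.injective c), h2⟩
  rw [← this]
  refine le_len fun y hy => ?_
  simp only [mem_insert, mem_singleton] at hy
  rcases hy with rfl | rfl | rfl
  · exact (sc f).trans (sc_step f x) (sc_step f _)
  · exact sc_step f x
  · exact (sc f).refl _

theorem g_le_len {f : Perm D} {x : D} {g : ℕ} (hg : ∀ i, 0 < i → i < g → (f ^ i) x ≠ x) :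
    g ≤ len (sc f) x := by
  have key : ∀ i j, i < j → j < g → (f ^ i) x ≠ (f ^ j) x := fun i j hij hj c => by
    refine hg (j - i) (by omega) (by omega) ((f ^ i).injective ?_)
    rw [← Perm.mul_apply, ← pow_add, Nat.add_sub_cancel' hij.le, c]
  have : #((range g).image fun i => (f ^ i) x) = g := by
    rw [card_image_of_injOn, card_range]
    intro i hi j hj c
    rcases lt_trichotomy i j with k | k | k
    · exact absurd c (key i j k (mem_range.1 (mem_coe.1 hj)))
    · exact k
    · exact absurd c.symm (key j i k (mem_range.1 (mem_coe.1 hi)))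
  rw [← this]
  refine le_len fun y hy => ?_
  obtain ⟨i, -, rfl⟩ := mem_image.1 hy
  exact ⟨(i : ℕ), by rw [zpow_natCast]⟩

theorem inv_len_le {r : Setoid D} {x : D} {k : ℕ} (hk : 0 < k) (h : k ≤ len r x) :
    (1 : ℚ) / len r x ≤ 1 / k :=
  one_div_le_one_div_of_le (by exact_mod_cast hk) (by exact_mod_cast h)

theorem inv_len_sc (f : Perm D) (x : D) : (1 : ℚ) / len (sc f) x ≤
    1 / 2 + (1 / 2) * (if f x = x then 1 else 0) - (1 / 6) * (if f (f x) ≠ x then 1 else 0) := by
  by_cases c1 : f x = x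
  · have c2 : ¬ f (f x) ≠ x := fun c => c (by rw [c1, c1])
    rw [if_pos c1, if_neg c2, len_fixed c1]
    norm_num
  · by_cases c2 : f (f x) ≠ x
    · rw [if_neg c1, if_pos c2]
      have := inv_len_le (by norm_num) (three_le_len c2)
      push_cast at this
      linarith
    · rw [if_neg c1, if_neg c2]
      have := inv_len_le (by norm_num) (two_le_len c1)
      push_cast at this
      linarith

omit [Fintype D] in
theorem mem_iff {C : Finset D} {f : Perm D} (hC : ∀ x ∈ C, f x ∈ C) (x : D) :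
    f x ∈ C ↔ x ∈ C := by
  refine ⟨fun c => ?_, hC x⟩
  have e : C.image f = C := eq_of_subset_of_card_le
    (fun y hy => by obtain ⟨z, hz, rfl⟩ := mem_image.1 hy; exact hC z hz)
    (card_image_of_injective C f.injective).ge
  rw [← e] at c
  obtain ⟨z, hz, k⟩ := mem_image.1 c
  exact f.injective k ▸ hz

end A2x

open A2x

section A2
variable {D : Type} [Fintype D] {f h : Perm D}

theorem gen_kill (C : Finset D) {f' h' : Perm D} (hC : ∀ x ∈ C, f x ∈ C ∧ h x ∈ C)
    (h1 : ∀ x ∈ C, f' x = f x ∧ h' x = h x) (h2 : ∀ x, x ∉ C → f' x = x ∧ h' x = x) :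
    gen f' h' ≤ gen f h := by
  have a1 : ∀ x, f x ∈ C ↔ x ∈ C := mem_iff fun x hx => (hC x hx).1
  have a2 : ∀ x, h x ∈ C ↔ x ∈ C := mem_iff fun x hx => (hC x hx).2
  have b1 : ∀ x, f x ∉ C ↔ x ∉ C := fun x => not_congr (a1 x)
  have b2 : ∀ x, h x ∉ C ↔ x ∉ C := fun x => not_congr (a2 x)
  have e1 : ∀ x ∈ C, loc f' h' x = loc f h x := fun x hx => by
    have k1 := loc_map (φ := (Subtype.val : {x // x ∈ C} → D)) Subtype.val_injective
      (f := f.subtypePerm a1) (h := h.subtypePerm a2) (f' := f') (h' := h')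
      (fun y => (h1 y.1 y.2).1) (fun y => (h1 y.1 y.2).2) ⟨x, hx⟩
    have k2 := loc_map (φ := (Subtype.val : {x // x ∈ C} → D)) Subtype.val_injective
      (f := f.subtypePerm a1) (h := h.subtypePerm a2) (f' := f) (h' := h)
      (fun y => rfl) (fun y => rfl) ⟨x, hx⟩
    exact k1.trans k2.symm
  have e2 : (0 : ℚ) ≤ ∑ x ∈ Cᶜ, loc f h x := by
    have n := gen_nonneg (D := {x // x ∉ C}) (f.subtypePerm b1) (h.subtypePerm b2)
    have n' : (0 : ℚ) ≤ gen (D := {x // x ∉ C}) (f.subtypePerm b1) (h.subtypePerm b2) := by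
      exact_mod_cast n
    rw [gen_eq_sum] at n'
    rw [sum_subtype (p := fun x => x ∉ C) Cᶜ (fun x => mem_compl)]
    refine n'.trans_eq (sum_congr rfl fun x _ => ?_)
    exact (loc_map (φ := (Subtype.val : {x // x ∉ C} → D)) Subtype.val_injective
      (f := f.subtypePerm b1) (h := h.subtypePerm b2) (f' := f) (h' := h)
      (fun y => rfl) (fun y => rfl) x).symm
  have e3 : ∑ x ∈ Cᶜ, loc f' h' x = 0 := sum_eq_zero fun x hx =>
    loc_fixed (h2 x (mem_compl.1 hx)).1 (h2 x (mem_compl.1 hx)).2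
  have : (gen f' h' : ℚ) ≤ gen f h := by
    rw [gen_eq_sum, gen_eq_sum, ← sum_add_sum_compl C, ← sum_add_sum_compl C (loc f h), e3,
      sum_congr rfl e1]
    linarith
  exact_mod_cast this

theorem gen_sum (D' : Type) [Fintype D'] (f h : Perm D) :
    gen (f.sumCongr (1 : Perm D')) (h.sumCongr (1 : Perm D')) = gen f h := by
  have : (gen (f.sumCongr (1 : Perm D')) (h.sumCongr (1 : Perm D')) : ℚ) = gen f h := by
    rw [gen_eq_sum, gen_eq_sum, Fintype.sum_sum_type]
    have e1 : ∀ x : D, loc (f.sumCongr (1 : Perm D')) (h.sumCongr (1 : Perm D')) (Sum.inl x) =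
        loc f h x := loc_map Sum.inl_injective (fun _ => rfl) (fun _ => rfl)
    have e2 : ∀ x : D', loc (f.sumCongr (1 : Perm D')) (h.sumCongr (1 : Perm D')) (Sum.inr x) =
        0 := fun x => loc_fixed rfl rfl
    simp only [e1, e2, sum_const_zero, add_zero]
  exact_mod_cast this

theorem euler_count (T : Finset D) (g : ℕ) (h0 : gen f h ≤ 0)
    (hd : ∀ x, x ∉ T → f x = x ∧ h x = x)
    (hg : ∀ x ∈ T, ∀ i, 0 < i → i < g → (f ^ i) x ≠ x) (hv : ∀ x ∈ T, h (f x) ≠ x) :
    g * (#{x ∈ T | h (h x) ≠ x} + #{x ∈ T | h (f (h (f x))) ≠ x}) ≤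
      6 * #T + 3 * g * #{x ∈ T | h x = x} := by
  rcases Nat.eq_zero_or_pos g with rfl | gp
  · simp
  have gq : (0 : ℚ) < g := by exact_mod_cast gp
  have e0 : ∑ x ∈ T, loc f h x ≤ 0 := by
    have : (gen f h : ℚ) ≤ 0 := by exact_mod_cast h0
    rw [gen_eq_sum, ← sum_add_sum_compl T, sum_eq_zero (s := Tᶜ) fun x hx =>
      loc_fixed (hd x (mem_compl.1 hx)).1 (hd x (mem_compl.1 hx)).2, add_zero] at this
    exact this
  have e1 : ∀ x ∈ T, -(1 / (g : ℚ)) - (1 / 2) * (if h x = x then 1 else 0) +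
      (1 / 6) * (if h (h x) ≠ x then 1 else 0) +
      (1 / 6) * (if h (f (h (f x))) ≠ x then 1 else 0) ≤ loc f h x := fun x hx => by
    have k1 := inv_len_le gp (g_le_len (hg x hx))
    have k2 := inv_len_sc h x
    have k3 := inv_len_sc (h * f) x
    simp only [Perm.mul_apply] at k3
    rw [if_neg (hv x hx)] at k3
    have k4 : (0 : ℚ) ≤ 2 / len (os f h) x := by positivity
    unfold loc
    split_ifs at k2 k3 ⊢ <;> linarith
  have e2 := (sum_le_sum e1).trans e0
  simp only [sum_add_distrib, sum_sub_distrib, sum_neg_distrib, ← mul_sum, sum_boole, sum_const,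
    nsmul_eq_mul] at e2
  have e3 := mul_le_mul_of_nonneg_left e2 gq.le
  have e4 : (g : ℚ) * (#T * (1 / g)) = #T := by field_simp
  have : (g : ℚ) * (#{x ∈ T | h (h x) ≠ x} + #{x ∈ T | h (f (h (f x))) ≠ x}) ≤
      6 * #T + 3 * g * #{x ∈ T | h x = x} := by
    nlinarith [e3, e4]
  exact_mod_cast this

end A2

end Pool.Agent.MP_c6eade_gt.H41
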