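import Pool.Agent.MP_c6eade_gt.H41.A1

namespace Pool.Agent.MP_c6eade_gt.H41

open Equiv Finset
open scoped Classical

namespace A3x

variable {D : Type} {f φ : Perm D} {s : D} {n : ℕ}

/-- The cycle of `φ` through `s` is the arc `s, f s, …` of length `n`. -/
def Arc (f φ : Perm D) (s : D) (n : ℕ) : Prop :=
  (∀ i j, i < n → j < n → (f ^ i) s = (f ^ j) s → i = j) ∧
    (∀ i, i + 1 < n → φ ((f ^ i) s) = (f ^ (i + 1)) s) ∧ φ ((f ^ (n - 1)) s) = s

theorem Arc.same (h : Arc f φ s n) : ∀ i, i < n → φ.SameCycle s ((f ^ i) s)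
  | 0, _ => by simpa using Perm.SameCycle.refl φ s
  | i + 1, hi => by
    rw [← h.2.1 i hi]
    exact (h.same i (by omega)).apply_right

theorem Arc.iff [Finite D] (h : Arc f φ s n) {i : ℕ} (hi : i < n) (y : D) :
    φ.SameCycle ((f ^ i) s) y ↔ ∃ j, j < n ∧ y = (f ^ j) s := by
  constructor
  · intro c
    obtain ⟨k, -, rfl⟩ := c.exists_pow_eq'
    clear c
    induction k with
    | zero => exact ⟨i, hi, by simp⟩
    | succ k ih =>
      obtain ⟨j, hj, e⟩ := ih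
      rw [pow_succ', Perm.mul_apply, e]
      by_cases c : j + 1 < n
      · exact ⟨j + 1, c, h.2.1 j c⟩
      · obtain rfl : j = n - 1 := by omega
        exact ⟨0, by omega, by simpa using h.2.2⟩
  · rintro ⟨j, hj, rfl⟩
    exact (h.same i hi).symm.trans (h.same j hj)

/-- Every point of `T` lies on an arc. -/
def Inv (f : Perm D) (T : Finset D) (w L : ℕ) (φ : Perm D) : Prop :=
  ∀ x ∈ T, ∃ s ∈ T, ∃ n i, i < n ∧ x = (f ^ i) s ∧ w ≤ n ∧ Arc f φ s n ∧
    (φ ((f ^ (n - 1)) s) ≠ f ((f ^ (n - 1)) s) → L ≤ n)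

theorem pow_mem {T : Finset D} (hd : ∀ x, x ∉ T → f x = x) (hs : s ∈ T) (i : ℕ) :
    (f ^ i) s ∈ T := by
  induction i with
  | zero => simpa using hs
  | succ i ih =>
    rw [pow_succ', Perm.mul_apply]
    by_contra c
    exact c ((f.injective (hd _ c)).symm ▸ ih)

theorem inv_self [Finite D] {T : Finset D} {w L : ℕ}
    (hg : ∀ x ∈ T, ∀ i, 0 < i → i < w → (f ^ i) x ≠ x) : Inv f T w L f := by
  intro x hx
  have h0 : 0 < Function.minimalPeriod f x :=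
    Function.minimalPeriod_pos_of_mem_periodicPts (f.injective.mem_periodicPts x)
  have h1 : (f ^ Function.minimalPeriod f x) x = x := by
    rw [Perm.coe_pow]
    exact Function.isPeriodicPt_minimalPeriod f x
  refine ⟨x, hx, _, 0, h0, by simp, ?_, ⟨fun i j hi hj e => ?_, fun i _ => ?_, ?_⟩, fun c =>
    absurd rfl c⟩
  · by_contra c
    exact hg x hx _ h0 (by omega) h1
  · rw [Perm.coe_pow, Perm.coe_pow] at e
    exact Function.iterate_injOn_Iio_minimalPeriod hi hj e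
  · rw [pow_succ', Perm.mul_apply]
  · rw [← Perm.mul_apply, ← pow_succ', Nat.sub_add_cancel h0, h1]

theorem inv_split [Finite D] {T : Finset D} {w L : ℕ} (hw : 0 < w) (hL : w ≤ L)
    (hd : ∀ x, x ∉ T → f x = x) (hI : Inv f T w L φ) (hs : s ∈ T) (hA : Arc f φ s n)
    (hn : 2 * L ≤ n) : Inv f T w L (φ * swap ((f ^ (L - 1)) s) ((f ^ (n - 1)) s)) := by
  have sw : ∀ i, i < n → i ≠ L - 1 → i ≠ n - 1 →
      (φ * swap ((f ^ (L - 1)) s) ((f ^ (n - 1)) s)) ((f ^ i) s) = φ ((f ^ i) s) := by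
    intro i hi h1 h2
    rw [Perm.mul_apply, swap_apply_of_ne_of_ne (fun e => h1 (hA.1 _ _ hi (by omega) e))
      fun e => h2 (hA.1 _ _ hi (by omega) e)]
  have pw : ∀ i, (f ^ i) ((f ^ L) s) = (f ^ (i + L)) s := fun i => by
    rw [pow_add, Perm.mul_apply]
  intro x hx
  by_cases c : ∃ j, j < n ∧ x = (f ^ j) s
  · obtain ⟨j, hj, rfl⟩ := c
    by_cases c : j < L
    · refine ⟨s, hs, L, j, c, rfl, hL, ⟨fun i j hi hj e => hA.1 i j (by omega) (by omega) e,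
        fun i hi => ?_, ?_⟩, fun _ => le_rfl⟩
      · rw [sw i (by omega) (by omega) (by omega), hA.2.1 i (by omega)]
      · rw [Perm.mul_apply, swap_apply_left, hA.2.2]
    · refine ⟨(f ^ L) s, pow_mem hd hs L, n - L, j - L, by omega, ?_, by omega,
        ⟨fun i j hi hj e => ?_, fun i hi => ?_, ?_⟩, fun _ => by omega⟩
      · rw [pw, Nat.sub_add_cancel (by omega)]
      · rw [pw, pw] at e
        have := hA.1 _ _ (by omega) (by omega) e
        omega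
      · rw [pw, pw, sw _ (by omega) (by omega) (by omega), hA.2.1 _ (by omega),
          show i + L + 1 = i + 1 + L by omega]
      · rw [pw, show n - L - 1 + L = n - 1 by omega, Perm.mul_apply, swap_apply_right,
          hA.2.1 _ (by omega), show L - 1 + 1 = L by omega]
  · obtain ⟨s', hs', n', i, hi, rfl, hw', hA', hl⟩ := hI x hx
    have ne : ∀ j, j < n' → ∀ k, k < n → (f ^ j) s' ≠ (f ^ k) s := fun j hj k hk e =>
      c ((hA.iff hk _).1 (e ▸ (hA'.iff hj _).2 ⟨i, hi, rfl⟩))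
    have sw' : ∀ j, j < n' →
        (φ * swap ((f ^ (L - 1)) s) ((f ^ (n - 1)) s)) ((f ^ j) s') = φ ((f ^ j) s') := by
      intro j hj
      rw [Perm.mul_apply, swap_apply_of_ne_of_ne (ne j hj _ (by omega)) (ne j hj _ (by omega))]
    refine ⟨s', hs', n', i, hi, rfl, hw', ⟨hA'.1, fun j hj => ?_, ?_⟩, ?_⟩
    · rw [sw' j (by omega), hA'.2.1 j hj]
    · rw [sw' _ (by omega), hA'.2.2]
    · rw [sw' _ (by omega)]
      exact hl

end A3x

variable {D : Type} [Fintype D] {f h : Perm D}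

theorem atoms (T : Finset D) (w L : ℕ) (hw : 0 < w) (hL : w ≤ L) (h0 : gen f h ≤ 0)
    (hd : ∀ x, x ∉ T → f x = x) (hg : ∀ x ∈ T, ∀ i, 0 < i → i < w → (f ^ i) x ≠ x) :
    ∃ f' : Perm D, gen f' h ≤ 0 ∧ (∀ x, x ∉ T → f' x = x) ∧
      ∀ x ∈ T, ∃ s ∈ T, ∃ n, w ≤ n ∧ n < 2 * L ∧
        (∀ y, f'.SameCycle x y ↔ ∃ i, i < n ∧ y = (f ^ i) s) ∧
        (∀ i j, i < n → j < n → (f ^ i) s = (f ^ j) s → i = j) ∧
        (∀ i, i + 1 < n → f' ((f ^ i) s) = (f ^ (i + 1)) s) ∧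
        (f' ((f ^ (n - 1)) s) ≠ f ((f ^ (n - 1)) s) → L ≤ n) := by
  obtain ⟨φ, hφ, hm⟩ := exists_max_image
    ({φ : Perm D | gen φ h ≤ 0 ∧ (∀ x, x ∉ T → φ x = x) ∧ A3x.Inv f T w L φ} : Finset _) cyc
    ⟨f, by simpa using ⟨h0, hd, A3x.inv_self hg⟩⟩
  simp only [mem_filter, mem_univ, true_and] at hφ hm
  refine ⟨φ, hφ.1, hφ.2.1, fun x hx => ?_⟩
  obtain ⟨s, hs, n, i, hi, rfl, hw', hA, hl⟩ := hφ.2.2 x hx
  refine ⟨s, hs, n, hw', ?_, hA.iff hi, hA.1, hA.2.1, hl⟩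
  by_contra c
  have sc : φ.SameCycle ((f ^ (L - 1)) s) ((f ^ (n - 1)) s) :=
    (hA.iff (by omega) _).2 ⟨n - 1, by omega, rfl⟩
  have ne : (f ^ (L - 1)) s ≠ (f ^ (n - 1)) s := fun e => by
    have := hA.1 _ _ (by omega) (by omega) e
    omega
  have := hm _ ⟨(gen_f_split sc).trans hφ.1, fun y hy => ?_,
    A3x.inv_split hw hL hd hφ.2.2 hs hA (by omega)⟩
  · rw [(cyc_split ne sc).1] at this
    omega
  · have nm : ∀ k, y ≠ (f ^ k) s := fun k e => hy (e ▸ A3x.pow_mem hd hs k)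
    rw [Perm.mul_apply, swap_apply_of_ne_of_ne (nm _) (nm _), hφ.2.1 y hy]

end Pool.Agent.MP_c6eade_gt.H41
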