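import Pool.Agent.MP_c6eade_gt.H41.A2

namespace Pool.Agent.MP_c6eade_gt.H41.B2x

open Equiv Finset
open scoped Classical

variable {R E Kd Ω : Type} [Group Ω] {row : E → R} {kind : R → Kd} {σ : E → E} {P : E → Ω}
  {D : Type} [Fintype D]

omit [Fintype D] in
theorem mem_of_dead {φ : Perm D} {T : Finset D} (hd : ∀ x, x ∉ T → φ x = x) {x : D}
    (hx : x ∈ T) : φ x ∈ T := by
  by_contra h
  have h1 := φ.injective (hd _ h)
  exact h (h1.symm ▸ hx)

omit [Fintype D] in
theorem pre_mem {φ : Perm D} {T : Finset D} (hd : ∀ x, x ∉ T → φ x = x) {x w : D}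
    (hx : x ∈ T) (hw : φ w = x) : w ∈ T := by
  by_contra h
  have h1 := hd _ h
  rw [hw] at h1
  exact h (h1 ▸ hx)

omit [Fintype D] in
theorem f_mem (X : Pre row kind σ P D) {x : D} (hx : x ∈ X.T) : X.f x ∈ X.T :=
  mem_of_dead (fun x h => (X.dead x h).1) hx

omit [Fintype D] in
theorem h_mem (X : Pre row kind σ P D) {x : D} (hx : x ∈ X.T) : X.h x ∈ X.T :=
  mem_of_dead (fun x h => (X.dead x h).2) hx

omit [Fintype D] in
theorem cut_apply (φ : Perm D) {p n : D} (hp : φ p = n) (x : D) :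
    (φ * swap p n) x = if x = n then n else if x = p then φ n else φ x := by
  rw [Perm.mul_apply]
  split_ifs with h1 h2
  · rw [h1, swap_apply_right, hp]
  · rw [h2, swap_apply_left]
  · rw [swap_apply_of_ne_of_ne h2 h1]

omit [Fintype D] in
theorem same_step (φ : Perm D) {p n : D} (hp : φ p = n) : φ.SameCycle p n :=
  ⟨1, by simpa using hp⟩

/-- Deleting a dart; the out data of its predecessor in the face are replaced. -/
theorem erase (X : Pre row kind σ P D) {n p w : D} (hn : n ∈ X.T) (hp : X.f p = n)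
    (hw : X.h w = n) (z' : Ω) (l : Option E) (d' : D) (hd' : d' ∈ X.T) (hdn : d' ≠ n)
    (hst : p ≠ n → l = none → X.r (X.f n) = X.r p ∧ X.y (X.f n) = z')
    (hcr : p ≠ n → ∀ e, l = some e → σ e ≠ e ∧ row e = X.r p ∧ P e = z' ∧
      row (σ e) = X.r (X.f n) ∧ P (σ e) = X.y (X.f n))
    (hrel : ∀ x ∈ X.T, x ≠ n → (X.u x * X.y x = X.u (if x = w then X.h n else X.h x) *
      Function.update X.z p z' (if x = w then X.h n else X.h x) ↔ x ≠ d')) :
    ∃ X' : Pre row kind σ P D, #X'.T < #X.T := by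
  have hf' := cut_apply X.f hp
  have hh' := cut_apply X.h hw
  have hpT : p ∈ X.T := pre_mem (fun x h => (X.dead x h).1) hn hp
  have hwT : w ∈ X.T := pre_mem (fun x h => (X.dead x h).2) hn hw
  refine ⟨
    { f := X.f * swap p n, h := X.h * swap w n, T := X.T.erase n, r := X.r
      z := Function.update X.z p z', y := X.y, u := X.u, lk := Function.update X.lk p l, d := d'
      planar := (gen_h_split' (same_step X.h hw)).trans
        ((gen_f_split (same_step X.f hp)).trans X.planar)
      dead := ?_, d_mem := Finset.mem_erase.2 ⟨hdn, hd'⟩, stay := ?_, cross := ?_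
      kind_eq := ?_, rel := ?_ }, Finset.card_erase_lt_of_mem hn⟩
  · intro x hx
    rw [hf', hh']
    by_cases h1 : x = n
    · simp [h1]
    · have hxT : x ∉ X.T := fun h => hx (Finset.mem_erase.2 ⟨h1, h⟩)
      rw [if_neg h1, if_neg h1, if_neg (fun h : x = p => hxT (h ▸ hpT)),
        if_neg (fun h : x = w => hxT (h ▸ hwT))]
      exact X.dead x hxT
  · intro x hx hl
    rw [Finset.mem_erase] at hx
    rw [hf', if_neg hx.1]
    by_cases h1 : x = p
    · subst h1
      rw [Function.update_self] at hl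
      rw [if_pos rfl, Function.update_self]
      exact hst hx.1 hl
    · rw [Function.update_of_ne h1] at hl
      rw [if_neg h1, Function.update_of_ne h1]
      exact X.stay x hx.2 hl
  · intro x hx e hl
    rw [Finset.mem_erase] at hx
    rw [hf', if_neg hx.1]
    by_cases h1 : x = p
    · subst h1
      rw [Function.update_self] at hl
      rw [if_pos rfl, Function.update_self]
      exact hcr hx.1 e hl
    · rw [Function.update_of_ne h1] at hl
      rw [if_neg h1, Function.update_of_ne h1]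
      exact X.cross x hx.2 e hl
  · intro x hx
    rw [Finset.mem_erase] at hx
    rw [hh', if_neg hx.1]
    split_ifs with h1
    · rw [X.kind_eq n hn, h1, ← hw, X.kind_eq w hwT]
    · exact X.kind_eq x hx.2
  · intro x hx
    rw [Finset.mem_erase] at hx
    rw [hh', if_neg hx.1]
    exact hrel x hx.2 hx.1

/-- Deleting a dart that enters and leaves at the same position. -/
theorem del (X : Pre row kind σ P D) {n p : D} (hn : n ∈ X.T) (hp : X.f p = n)
    (hyz : X.y n = X.z n) (hst : p ≠ n → X.r (X.f n) = X.r p ∧ X.y (X.f n) = X.z p) :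
    ∃ X' : Pre row kind σ P D, #X'.T < #X.T := by
  obtain ⟨w, hw⟩ := X.h.surjective n
  have hwT : w ∈ X.T := pre_mem (fun x h => (X.dead x h).2) hn hw
  have r1 := X.rel n hn
  have r2 := X.rel w hwT
  rw [hw, ← hyz] at r2
  have hwn : n = X.d → w ≠ n := fun hd h => by
    rw [h] at r2
    exact (r2.1 rfl) hd
  refine erase X hn hp hw (X.z p) none (if X.d = n then w else X.d) ?_ ?_ (fun h _ => hst h)
    (fun _ e he => by simp at he) ?_
  · split_ifs
    · exact hwT
    · exact X.d_mem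
  · split_ifs with h
    · exact hwn h.symm
    · exact h
  · intro x hx hxn
    rw [Function.update_eq_self]
    by_cases h1 : x = w
    · rw [if_pos h1, h1]
      by_cases h2 : X.d = n
      · rw [if_pos h2]
        have h3 : w ≠ X.d := fun h => hxn (h1.trans (h.trans h2))
        rw [r2.2 h3]
        simp only [ne_eq, not_true_eq_false, iff_false]
        exact fun h => (r1.1 h) h2.symm
      · rw [if_neg h2, ← r1.2 fun h => h2 h.symm]
        exact r2
    · rw [if_neg h1, X.rel x hx]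
      split_ifs with h2
      · exact ⟨fun _ => h1, fun _ h => hxn (h.trans h2)⟩
      · exact Iff.rfl

/-- Folding a stay link whose two darts are adjacent in their hub. -/
theorem fold (X : Pre row kind σ P D) {n p : D} (hp : p ∈ X.T) (hf : X.f p = n) (hpn : p ≠ n)
    (hl : X.lk p = none) (hh : X.h n = p) : ∃ X' : Pre row kind σ P D, #X'.T < #X.T := by
  have hn : n ∈ X.T := hf ▸ f_mem X hp
  obtain ⟨w, hw⟩ := X.h.surjective n
  have hwT : w ∈ X.T := pre_mem (fun x h => (X.dead x h).2) hn hw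
  have hwn : w ≠ n := fun h => hpn (by rw [← hh, ← h, hw, h])
  have hs := X.stay p hp hl
  rw [hf] at hs
  have r1 := X.rel n hn
  have r2 := X.rel w hwT
  rw [hh, hs.2, mul_left_inj] at r1
  rw [hw] at r2
  refine erase X hn hf hw (X.z n) (X.lk n) (if X.d = n then w else X.d) ?_ ?_
    (fun _ h => ?_) (fun _ e he => ?_) ?_
  · split_ifs
    · exact hwT
    · exact X.d_mem
  · split_ifs with h
    · exact hwn
    · exact h
  · rw [← hs.1]; exact X.stay n hn h
  · rw [← hs.1]; exact X.cross n hn e he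
  · intro x hx hxn
    by_cases h1 : x = w
    · rw [if_pos h1, h1, hh, Function.update_self]
      by_cases h2 : X.d = n
      · rw [if_pos h2, r2.2 fun h => hwn (h.trans h2), mul_left_inj]
        simp only [ne_eq, not_true_eq_false, iff_false]
        exact fun h => (r1.1 h) h2.symm
      · rw [if_neg h2, ← r1.2 fun h => h2 h.symm]
        exact r2
    · have h3 : X.h x ≠ p := fun h => hxn (X.h.injective (h.trans hh.symm))
      rw [if_neg h1, Function.update_of_ne h3, X.rel x hx]
      split_ifs with h2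
      · exact ⟨fun _ => h1, fun _ h => hxn (h.trans h2)⟩
      · exact Iff.rfl

/-- Restriction to an orbit after a change of the hubs. -/
theorem restrict (X : Pre row kind σ P D) (h₁ : Perm D) (h0 : gen X.f h₁ ≤ 0)
    (hd : ∀ x, x ∉ X.T → h₁ x = x) (hk : ∀ x ∈ X.T, kind (X.r (h₁ x)) = kind (X.r x))
    {c b : D} (hc : c ∈ X.T) (hb : b ∈ X.T) (hcb : ¬ Orb X.f h₁ c b)
    (hrel : ∀ x ∈ X.T, Orb X.f h₁ c x →
      (X.u x * X.y x = X.u (h₁ x) * X.z (h₁ x) ↔ x ≠ c)) :
    ∃ X' : Pre row kind σ P D, #X'.T < #X.T := by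
  set C : Finset D := {x ∈ X.T | Orb X.f h₁ c x} with hC
  have hCm : ∀ x, x ∈ C ↔ x ∈ X.T ∧ Orb X.f h₁ c x := fun x => Finset.mem_filter
  have hcl : ∀ x ∈ C, X.f x ∈ C ∧ h₁ x ∈ C := fun x hx => by
    rw [hCm] at hx
    exact ⟨(hCm _).2 ⟨f_mem X hx.1, hx.2.trans _ _ _ (Relation.EqvGen.rel _ _ (Or.inl rfl))⟩,
      (hCm _).2 ⟨mem_of_dead hd hx.1, hx.2.trans _ _ _ (Relation.EqvGen.rel _ _ (Or.inr rfl))⟩⟩
  have key : ∀ φ : Perm D, (∀ x ∈ C, φ x ∈ C) →
      ∃ ψ : Perm D, (∀ x ∈ C, ψ x = φ x) ∧ ∀ x, x ∉ C → ψ x = x := fun φ hφ => by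
    have h1 : ∀ x, φ x ∈ C ↔ x ∈ C := fun x => ⟨fun hx => by
      have h2 : Set.SurjOn φ C C := Finset.surjOn_of_injOn_of_card_le φ hφ φ.injective.injOn le_rfl
      obtain ⟨y, hy, he⟩ := h2 hx
      exact φ.injective he ▸ hy, hφ x⟩
    exact ⟨Perm.ofSubtype (φ.subtypePerm h1), fun x hx => Perm.ofSubtype_apply_of_mem _ hx,
      fun x hx => Perm.ofSubtype_apply_of_not_mem _ hx⟩
  obtain ⟨f', hf1, hf2⟩ := key X.f fun x hx => (hcl x hx).1
  obtain ⟨h', hh1, hh2⟩ := key h₁ fun x hx => (hcl x hx).2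
  refine ⟨
    { f := f', h := h', T := C, r := X.r, z := X.z, y := X.y, u := X.u, lk := X.lk, d := c
      planar := (gen_kill C hcl (fun x hx => ⟨hf1 x hx, hh1 x hx⟩)
        fun x hx => ⟨hf2 x hx, hh2 x hx⟩).trans h0
      dead := fun x hx => ⟨hf2 x hx, hh2 x hx⟩
      d_mem := (hCm c).2 ⟨hc, Relation.EqvGen.refl _⟩
      stay := fun x hx => by rw [hf1 x hx]; exact X.stay x ((hCm x).1 hx).1
      cross := fun x hx => by rw [hf1 x hx]; exact X.cross x ((hCm x).1 hx).1
      kind_eq := fun x hx => by rw [hh1 x hx]; exact hk x ((hCm x).1 hx).1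
      rel := fun x hx => by rw [hh1 x hx]; exact hrel x ((hCm x).1 hx).1 ((hCm x).1 hx).2 },
    Finset.card_lt_card ⟨Finset.filter_subset _ _, fun h => hcb ((hCm b).1 (h hb)).2⟩⟩

/-- Translating a hub. -/
noncomputable def shift (X : Pre row kind σ P D) (n : D) (c : Ω) : Pre row kind σ P D :=
  { X with
    u := fun x => if X.h.SameCycle n x then c * X.u x else X.u x
    rel := fun x hx => by
      rw [← X.rel x hx]
      simp only [Perm.sameCycle_apply_right]
      split_ifs
      · rw [mul_assoc, mul_assoc, mul_right_inj]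
      · exact Iff.rfl }

omit [Fintype D] in
theorem turn_apply (φ : Perm D) {p n a : D} (ha : φ a = p) (x : D) :
    (swap p (φ n) * φ) x = if x = n then p else if x = a then φ n else φ x := by
  rw [Perm.mul_apply]
  split_ifs with h1 h2
  · rw [h1, swap_apply_right]
  · rw [h2, ha, swap_apply_left]
  · exact swap_apply_of_ne_of_ne (fun h => h2 (φ.injective (h.trans ha.symm)))
      fun h => h1 (φ.injective h)

/-- A stay link between darts with the same shift. -/
theorem stay_eq (X : Pre row kind σ P D) {n p : D} (hp : p ∈ X.T) (hf : X.f p = n) (hpn : p ≠ n)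
    (hl : X.lk p = none) (hu : X.u n = X.u p) : ∃ X' : Pre row kind σ P D, #X'.T < #X.T := by
  by_cases hh : X.h n = p
  · exact fold X hp hf hpn hl hh
  have hn : n ∈ X.T := hf ▸ f_mem X hp
  obtain ⟨a, ha⟩ := X.h.surjective p
  have haT : a ∈ X.T := pre_mem (fun x h => (X.dead x h).2) hp ha
  have han : a ≠ n := fun h => hh (h ▸ ha)
  have ht := turn_apply X.h (n := n) ha
  have hs := X.stay p hp hl
  rw [hf] at hs
  have r1 := X.rel n hn
  have r2 := X.rel a haT
  rw [ha, ← hs.2, ← hu] at r2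
  let Y : Pre row kind σ P D :=
    { X with
      h := swap p (X.h n) * X.h
      d := if X.d = n then a else X.d
      planar := (gen_h_vsplit (same_step _ (by rw [Perm.mul_apply, hf]))).trans X.planar
      dead := fun x hx => ⟨(X.dead x hx).1, by
        rw [ht, if_neg (fun h : x = n => hx (h ▸ hn)), if_neg (fun h : x = a => hx (h ▸ haT))]
        exact (X.dead x hx).2⟩
      d_mem := by
        split_ifs
        · exact haT
        · exact X.d_mem
      kind_eq := fun x hx => by
        rw [ht]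
        split_ifs with h1 h2
        · rw [h1, hs.1]
        · rw [X.kind_eq n hn, hs.1, h2, ← ha, X.kind_eq a haT]
        · exact X.kind_eq x hx
      rel := fun x hx => by
        rw [ht]
        by_cases h1 : x = n
        · rw [if_pos h1, h1, hu, hs.2]
          refine ⟨fun _ => ?_, fun _ => rfl⟩
          split_ifs with h2
          · exact han.symm
          · exact fun h => h2 h.symm
        rw [if_neg h1]
        by_cases h2 : x = a
        · rw [if_pos h2, h2]
          by_cases h3 : X.d = n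
          · rw [if_pos h3, r2.2 fun h => han (h.trans h3)]
            simp only [ne_eq, not_true_eq_false, iff_false]
            exact fun h => (r1.1 h) h3.symm
          · rw [if_neg h3, ← r1.2 fun h => h3 h.symm]
            exact r2
        · rw [if_neg h2, X.rel x hx]
          split_ifs with h3
          · exact ⟨fun _ => h2, fun _ h => h1 (h.trans h3)⟩
          · exact Iff.rfl }
  exact fold Y hp hf hpn hl (by change (swap p (X.h n) * X.h) n = p; rw [ht, if_pos rfl])

/-- Stay links can be removed. -/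
theorem r1 (X : Pre row kind σ P D) {p : D} (hp : p ∈ X.T) (hl : X.lk p = none) :
    ∃ X' : Pre row kind σ P D, #X'.T < #X.T := by
  obtain ⟨n, hf⟩ : ∃ n, X.f p = n := ⟨_, rfl⟩
  have hn : n ∈ X.T := hf ▸ f_mem X hp
  have hs := X.stay p hp hl
  rw [hf] at hs
  by_cases hpn : p = n
  · subst hpn
    exact del X hp hf hs.2 fun h => absurd rfl h
  by_cases hsc : X.h.SameCycle n p
  swap
  · refine stay_eq (shift X n (X.u p * (X.u n)⁻¹)) hp hf hpn hl ?_
    change (if X.h.SameCycle n n then _ else _) = if X.h.SameCycle n p then _ else _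
    rw [if_pos (Perm.SameCycle.refl _ _), if_neg hsc, inv_mul_cancel_right]
  by_cases hu : X.u n = X.u p
  · exact stay_eq X hp hf hpn hl hu
  by_cases hh : X.h n = p
  · exact fold X hp hf hpn hl hh
  obtain ⟨a, ha⟩ := X.h.surjective p
  have haT : a ∈ X.T := pre_mem (fun x h => (X.dead x h).2) hp ha
  have han : a ≠ n := fun h => hh (h ▸ ha)
  have ht := turn_apply X.h (n := n) ha
  have hv : (X.h * X.f).SameCycle p (X.h n) := same_step _ (by rw [Perm.mul_apply, hf])
  have hno := gen_h_double X.planar (fun h => hh h.symm) hv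
    (Perm.sameCycle_apply_right.2 hsc.symm)
  set h₁ := swap p (X.h n) * X.h with hh₁
  have h0 : gen X.f h₁ ≤ 0 := (gen_h_vsplit hv).trans X.planar
  have hd : ∀ x, x ∉ X.T → h₁ x = x := fun x hx => by
    rw [ht, if_neg (fun h : x = n => hx (h ▸ hn)), if_neg (fun h : x = a => hx (h ▸ haT))]
    exact (X.dead x hx).2
  have hk : ∀ x ∈ X.T, kind (X.r (h₁ x)) = kind (X.r x) := fun x hx => by
    rw [ht]
    split_ifs with h1 h2
    · rw [h1, hs.1]
    · rw [X.kind_eq n hn, hs.1, h2, ← ha, X.kind_eq a haT]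
    · exact X.kind_eq x hx
  have o1 : Orb X.f h₁ p n := Relation.EqvGen.rel _ _ (Or.inl hf.symm)
  have o2 : Orb X.f h₁ a (X.h n) :=
    Relation.EqvGen.rel _ _ (Or.inr (by rw [ht, if_neg han, if_pos rfl]))
  have hna : ¬ Orb X.f h₁ n a := fun h => hno ((o1.trans _ _ _ h).trans _ _ _ o2)
  by_cases hc : Orb X.f h₁ n X.d ∧ X.d ≠ n
  · refine restrict X h₁ h0 hd hk haT hn (fun h => hna (h.symm _ _)) fun x hx hox => ?_
    have hxn : x ≠ n := fun h => hna (Relation.EqvGen.symm _ _ (h ▸ hox))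
    have hxd : x ≠ X.d := fun h => hna (hc.1.trans _ _ _ (Relation.EqvGen.symm _ _ (h ▸ hox)))
    rw [ht, if_neg hxn]
    by_cases h2 : x = a
    · have had : a ≠ X.d := h2 ▸ hxd
      rw [if_pos h2, h2, (X.rel a haT).2 had, ha, ← (X.rel n hn).2 hc.2.symm, hs.2, mul_left_inj]
      simp only [ne_eq, not_true_eq_false, iff_false]
      exact fun h => hu h.symm
    · rw [if_neg h2, X.rel x hx]
      exact ⟨fun _ => h2, fun _ => hxd⟩
  · refine restrict X h₁ h0 hd hk hn haT hna fun x hx hox => ?_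
    rw [ht]
    by_cases h1 : x = n
    · rw [if_pos h1, h1, hs.2, mul_left_inj]
      simp only [ne_eq, not_true_eq_false, iff_false]
      exact hu
    · have h2 : x ≠ a := fun h => hna (h ▸ hox)
      rw [if_neg h1, if_neg h2, X.rel x hx]
      exact ⟨fun _ => h1, fun _ h => hc ⟨h ▸ hox, h ▸ h1⟩⟩

/-- Backtracking can be removed. -/
theorem r2 (hσ : ∀ e, σ (σ e) = e) (X : Pre row kind σ P D) {p : D} (hp : p ∈ X.T) {e : E}
    (h1 : X.lk p = some e) (h2 : X.lk (X.f p) = some (σ e)) :
    ∃ X' : Pre row kind σ P D, #X'.T < #X.T := by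
  have c1 := X.cross p hp e h1
  have c2 := X.cross _ (f_mem X hp) _ h2
  rw [hσ] at c2
  exact del X (f_mem X hp) rfl (c1.2.2.2.2.symm.trans c2.2.2.1)
    fun _ => ⟨c2.2.2.2.1.symm.trans c1.2.1, c2.2.2.2.2.symm.trans c1.2.2.1⟩

/-- Two darts of one hub with the same row and shift: the hub can be split. -/
theorem r3 (X : Pre row kind σ P D) {a b : D} (ha : a ∈ X.T) (hb : b ∈ X.T)
    (hs : X.h.SameCycle a b) (hab : a ≠ b) (hr : X.r a = X.r b) (hu : X.u a = X.u b) :
    ∃ X' : Pre row kind σ P D, X'.T = X.T ∧ cyc X.h < cyc X'.h := by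
  have hT : ∀ x, swap a b x ∈ X.T ↔ x ∈ X.T := fun x => by
    rw [swap_apply_def]
    split_ifs with h1 h2
    · rw [h1]; exact iff_of_true hb ha
    · rw [h2]; exact iff_of_true ha hb
    · exact Iff.rfl
  have hr' : ∀ x, X.r (swap a b x) = X.r x := fun x => by
    rw [swap_apply_def]
    split_ifs with h1 h2
    · rw [h1, hr]
    · rw [h2, hr]
    · rfl
  have hu' : ∀ x, X.u (swap a b x) = X.u x := fun x => by
    rw [swap_apply_def]
    split_ifs with h1 h2
    · rw [h1, hu]
    · rw [h2, hu]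
    · rfl
  refine ⟨
    { f := swap a b * X.f, h := X.h * swap a b, T := X.T, r := X.r, z := X.z
      y := fun x => X.y (swap a b x), u := X.u, lk := X.lk, d := swap a b X.d
      planar := (gen_both hs).trans X.planar
      dead := fun x hx => ?_, d_mem := (hT _).2 X.d_mem, stay := fun x hx hl => ?_
      cross := fun x hx e hl => ?_, kind_eq := fun x hx => ?_, rel := fun x hx => ?_ }, rfl, ?_⟩
  · have h1 : swap a b x = x :=
      swap_apply_of_ne_of_ne (fun h => hx (h ▸ ha)) fun h => hx (h ▸ hb)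
    rw [Perm.mul_apply, Perm.mul_apply, (X.dead x hx).1, h1, (X.dead x hx).2]
    exact ⟨rfl, rfl⟩
  · rw [Perm.mul_apply, hr', swap_apply_self]
    exact X.stay x hx hl
  · rw [Perm.mul_apply, hr', swap_apply_self]
    exact X.cross x hx e hl
  · rw [Perm.mul_apply, X.kind_eq _ ((hT x).2 hx), hr']
  · rw [Perm.mul_apply, ← hu' x, X.rel _ ((hT x).2 hx)]
    exact not_congr (swap_apply_eq_iff)
  · change cyc X.h < cyc (X.h * swap a b)
    rw [(cyc_split hab hs).1]
    exact Nat.lt_succ_self _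

theorem cyc_le (φ : Perm D) : cyc φ ≤ Nat.card D :=
  Nat.card_le_card_of_surjective _ Quotient.mk_surjective

theorem exists_min (X : Pre row kind σ P D) : ∃ Y : Pre row kind σ P D,
    (∀ Z : Pre row kind σ P D, #Y.T ≤ #Z.T) ∧
      ∀ Z : Pre row kind σ P D, Z.T = Y.T → cyc Z.h ≤ cyc Y.h := by
  have : Nonempty (Pre row kind σ P D) := ⟨X⟩
  let Y₀ := Function.argmin fun Z : Pre row kind σ P D => #Z.T
  have : Nonempty {Z : Pre row kind σ P D // Z.T = Y₀.T} := ⟨⟨Y₀, rfl⟩⟩
  let Y := Function.argmin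
    fun Z : {Z : Pre row kind σ P D // Z.T = Y₀.T} => Nat.card D - cyc Z.1.h
  refine ⟨Y.1, fun Z => ?_, fun Z hZ => ?_⟩
  · rw [Y.2]
    exact Function.argmin_le (fun Z : Pre row kind σ P D => #Z.T) Z
  · have h1 : Nat.card D - cyc Y.1.h ≤ Nat.card D - cyc Z.h := Function.argmin_le
      (fun Z : {Z : Pre row kind σ P D // Z.T = Y₀.T} => Nat.card D - cyc Z.1.h) ⟨Z, hZ.trans Y.2⟩
    have h2 := cyc_le Z.h
    omega

end Pool.Agent.MP_c6eade_gt.H41.B2x

namespace Pool.Agent.MP_c6eade_gt.H41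

open Equiv Finset
open scoped Classical

theorem red_of_pre {R E Kd Ω : Type} [Group Ω] {row : E → R} {kind : R → Kd} {σ : E → E}
    {P : E → Ω} (hσ : ∀ e, σ (σ e) = e) {D : Type} [Fintype D] (X : Pre row kind σ P D) :
    Nonempty (Red row kind σ P D) := by
  obtain ⟨Y, h1, h2⟩ := B2x.exists_min X
  have hlk : ∀ x ∈ Y.T, ∃ e, Y.lk x = some e := fun x hx => by
    rcases h : Y.lk x with _ | e
    · obtain ⟨Z, hZ⟩ := B2x.r1 Y hx h
      exact absurd (h1 Z) (not_le.2 hZ)
    · exact ⟨e, rfl⟩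
  obtain ⟨e₀, -⟩ := hlk _ Y.d_mem
  have ho : ∀ x ∈ Y.T, Y.lk x = some ((Y.lk x).getD e₀) := fun x hx => by
    obtain ⟨e, he⟩ := hlk x hx
    rw [he, Option.getD_some]
  have hc := fun x hx => Y.cross x hx _ (ho x hx)
  refine ⟨
    { f := Y.f, h := Y.h, T := Y.T, o := fun x => (Y.lk x).getD e₀, u := Y.u, d := Y.d
      planar := Y.planar, dead := Y.dead, d_mem := Y.d_mem, cross := fun x hx => ?_
      kind_eq := fun x hx => ?_, rel := fun x hx hd => ?_, red := fun x hx y hy hs hxy hr hu => ?_ }⟩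
  · refine ⟨(hc x hx).1, (hc _ (B2x.f_mem Y hx)).2.1.trans (hc x hx).2.2.2.1.symm, fun h => ?_⟩
    obtain ⟨Z, hZ⟩ := B2x.r2 hσ Y hx (ho x hx) (h ▸ ho _ (B2x.f_mem Y hx))
    exact absurd (h1 Z) (not_le.2 hZ)
  · rw [(hc x hx).2.1, (hc _ (B2x.h_mem Y hx)).2.1]
    exact Y.kind_eq x hx
  · have hx' : Y.f (Y.f⁻¹ x) = x := by simp
    have h3 := (hc _ (B2x.pre_mem (fun x h => (Y.dead x h).1) hx hx')).2.2.2.2
    rw [hx'] at h3
    rw [h3, (hc _ (B2x.h_mem Y hx)).2.2.1]
    exact (Y.rel x hx).2 hd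
  · rw [(hc x hx).2.1, (hc y hy).2.1] at hr
    obtain ⟨Z, hZ, hlt⟩ := B2x.r3 Y hx hy hs hxy hr hu
    exact absurd (h2 Z hZ) (not_le.2 hlt)

end Pool.Agent.MP_c6eade_gt.H41
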