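import Mathlib

/-!
Definitions for the counterexample to approximation along normal chains.
-/

namespace Pool.Agent.MP_c6eade_gt.H41

open Equiv Finset
open scoped Classical

/-! ### Permutation maps -/

/-- Number of cycles, fixed points included. -/
noncomputable def cyc {D : Type} (σ : Perm D) : ℕ :=
  Nat.card (Quotient (Perm.SameCycle.setoid σ))

/-- Same orbit under the group generated by `f` and `h`. -/
def Orb {D : Type} (f h : Perm D) : D → D → Prop :=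
  Relation.EqvGen fun x y => y = f x ∨ y = h x

/-- Number of orbits of the group generated by `f` and `h`. -/
noncomputable def orb {D : Type} (f h : Perm D) : ℕ :=
  Nat.card (Quotient (Relation.EqvGen.setoid fun x y : D => y = f x ∨ y = h x))

/-- Twice the genus of the map with faces `f`, hubs `h` and vertices `h * f`. -/
noncomputable def gen {D : Type} (f h : Perm D) : ℤ :=
  (Nat.card D : ℤ) + 2 * (orb f h : ℤ) - (cyc f : ℤ) - (cyc h : ℤ) - (cyc (h * f) : ℤ)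

/-- A model of the complete graph on five vertices as a minor. -/
def K5 {V : Type} (G : SimpleGraph V) : Prop :=
  ∃ β : V → Option (Fin 5),
    (∀ i x y, β x = some i → β y = some i →
      Relation.ReflTransGen (fun a b => G.Adj a b ∧ β a = some i ∧ β b = some i) x y) ∧
    ∀ i j, i ≠ j → ∃ x y, G.Adj x y ∧ β x = some i ∧ β y = some j

/-! ### Graphs given by half-edges -/

section walks
variable {R E : Type}

/-- `p 0, …, p (k-1)` are the outgoing half-edges of a non-backtracking walk of length `k`. -/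
def NBW (row : E → R) (σ : E → E) (p : ℕ → E) (k : ℕ) : Prop :=
  (∀ i, i < k → σ (p i) ≠ p i) ∧
    ∀ i, i + 1 < k → row (p (i + 1)) = row (σ (p i)) ∧ p (i + 1) ≠ σ (p i)

/-- No non-backtracking walk of length in `[1, g)` returns to its start. -/
def Girth (row : E → R) (σ : E → E) (g : ℕ) : Prop :=
  ∀ p k, k + 1 < g → NBW row σ p (k + 1) → row (σ (p k)) ≠ row (p 0)

/-- Distance at most `k`. -/
def Near (row : E → R) (σ : E → E) : ℕ → R → R → Prop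
  | 0, r, r' => r' = r
  | k + 1, r, r' => Near row σ k r r' ∨ ∃ e, Near row σ k r (row e) ∧ r' = row (σ e)

end walks

/-! ### Diagrams -/

section diagrams
variable {R E Kd Ω : Type} [Group Ω]

/-- A genus zero diagram with exactly one defect; links may stay in a row. -/
structure Pre (row : E → R) (kind : R → Kd) (σ : E → E) (P : E → Ω) (D : Type) where
  f : Perm D
  h : Perm D
  T : Finset D
  r : D → R
  z : D → Ω
  y : D → Ω
  u : D → Ω
  lk : D → Option E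
  d : D
  planar : gen f h ≤ 0
  dead : ∀ x, x ∉ T → f x = x ∧ h x = x
  d_mem : d ∈ T
  stay : ∀ x ∈ T, lk x = none → r (f x) = r x ∧ y (f x) = z x
  cross : ∀ x ∈ T, ∀ e, lk x = some e →
    σ e ≠ e ∧ row e = r x ∧ P e = z x ∧ row (σ e) = r (f x) ∧ P (σ e) = y (f x)
  kind_eq : ∀ x ∈ T, kind (r (h x)) = kind (r x)
  rel : ∀ x ∈ T, (u x * y x = u (h x) * z (h x) ↔ x ≠ d)

/-- A reduced genus zero diagram; `o x` is the outgoing half-edge of the dart `x`, the incoming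
one is `σ (o (f⁻¹ x))`. -/
structure Red (row : E → R) (kind : R → Kd) (σ : E → E) (P : E → Ω) (D : Type) where
  f : Perm D
  h : Perm D
  T : Finset D
  o : D → E
  u : D → Ω
  d : D
  planar : gen f h ≤ 0
  dead : ∀ x, x ∉ T → f x = x ∧ h x = x
  d_mem : d ∈ T
  cross : ∀ x ∈ T, σ (o x) ≠ o x ∧ row (o (f x)) = row (σ (o x)) ∧ o (f x) ≠ σ (o x)
  kind_eq : ∀ x ∈ T, kind (row (o (h x))) = kind (row (o x))
  rel : ∀ x ∈ T, x ≠ d → u x * P (σ (o (f⁻¹ x))) = u (h x) * P (o (h x))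
  red : ∀ x ∈ T, ∀ y ∈ T, h.SameCycle x y → x ≠ y → row (o x) = row (o y) → u x ≠ u y

/-- A group in which the edges of the graph are closed up and all kinds embed. -/
def Sol (row : E → R) (kind : R → Kd) (σ : E → E) (P : E → Ω) : Prop :=
  ∃ (H : Type) (_ : Group H) (ι : Kd → (Ω →* H)) (gr : R → H),
    (∀ a, Function.Injective (ι a)) ∧
    ∀ e, σ e ≠ e →
      gr (row e) * ι (kind (row e)) (P e) = gr (row (σ e)) * ι (kind (row (σ e))) (P (σ e))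

end diagrams

/-! ### Frames -/

/-- Rows, half-edges, kinds, heights and sides. -/
structure Fr (K : Type) where
  R : Type
  E : Type
  Kd : Type
  fR : Fintype R
  fE : Fintype E
  row : E → R
  kind : R → Kd
  room : R
  pos : E → K
  ht : E → ℤ
  sd : E → Bool
  hroom : ∀ r, kind r = kind room → r = room
  hkd : ∀ e e', kind (row e) = kind (row e') → row e ≠ room → sd e = sd e'
  hpos : ∀ e e', row e = row e' → row e ≠ room → pos e = pos e' → e = e'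
  hsurj : Function.Surjective kind

attribute [instance] Fr.fR Fr.fE

namespace Fr
variable {K : Type} (F : Fr K)

/-- Matchings that respect heights and sides, possibly incomplete. -/
def Semi (σ : F.E → F.E) : Prop :=
  (∀ e, σ (σ e) = e) ∧ (∀ e, F.ht (σ e) = F.ht e) ∧
    ∀ e, σ e ≠ e → 0 ≤ F.ht e ∧ F.sd (σ e) ≠ F.sd e

/-- Complete matchings: exactly the half-edges of negative height are unmatched. -/
def Adm (σ : F.E → F.E) : Prop := F.Semi σ ∧ ∀ e, 0 ≤ F.ht e → σ e ≠ e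

/-- Size of the pool of `e`. -/
noncomputable def M (e : F.E) : ℕ := #{e' : F.E | F.ht e' = F.ht e ∧ F.sd e' = true}

/-- The weight of a half-edge. -/
noncomputable def om (e : F.E) : ℝ := (Real.sqrt (F.M e))⁻¹

/-- Difference of two positions. -/
def dif [Group K] (a b : F.E) : K := (F.pos a)⁻¹ * F.pos b

/-- The family `𝒮` is dominated by the product measure on patterns of at most `P` edges. -/
def Dom (𝒮 : Finset (F.E → F.E)) (P : ℕ) : Prop :=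
  ∀ (A : Finset F.E) (τ : F.E → F.E), #A ≤ P → (∀ e ∈ A, F.sd e = true ∧ 0 ≤ F.ht e) →
    (#{σ ∈ 𝒮 | ∀ e ∈ A, σ e = τ e} : ℝ) ≤ #𝒮 * ∏ e ∈ A, (2 * F.om e * F.om (τ e))

/-- All darts at the row of `x` use the same two half-edges and have both links. -/
def Plain {p : ℕ} (o i : Fin p → F.E) (nx : Fin p → Fin p) (Lk : Finset (Fin p)) (x : Fin p) :
    Prop :=
  F.row (o x) ≠ F.room ∧ ∀ y, F.row (o y) = F.row (o x) →
    ((o y = o x ∧ i y = i x) ∨ (o y = i x ∧ i y = o x)) ∧ y ∈ Lk ∧ ∃ z ∈ Lk, nx z = y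

end Fr

/-- A local pattern with `p` darts. -/
structure LP {K : Type} [Group K] (F : Fr K) (σ : F.E → F.E) (p : ℕ) where
  o : Fin p → F.E
  i : Fin p → F.E
  nx : Fin p → Fin p
  mu : Fin p → Fin p
  Lk : Finset (Fin p)
  Gd : Finset (Fin p)
  row_eq : ∀ x, F.row (i x) = F.row (o x)
  ne : ∀ x, i x ≠ o x
  link : ∀ x ∈ Lk, i (nx x) = σ (o x) ∧ σ (o x) ≠ o x
  nx_inj : Set.InjOn nx Lk
  mu_inj : Set.InjOn mu Gd
  good : ∀ x ∈ Gd, F.Plain o i nx Lk x ∧ F.Plain o i nx Lk (mu x) ∧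
    F.row (o (mu x)) ≠ F.row (o x) ∧ F.kind (F.row (o (mu x))) = F.kind (F.row (o x)) ∧
    F.dif (i (mu x)) (o (mu x)) = (F.dif (i x) (o x))⁻¹

/-- Few darts are not good and few links are cut. -/
def LP.Ok {K : Type} [Group K] {F : Fr K} {σ : F.E → F.E} {p : ℕ} (X : LP F σ p) (ε : ℝ)
    (L : ℕ) : Prop :=
  (p : ℝ) - #X.Gd ≤ ε * p ∧ L * (p - #X.Lk) ≤ p

/-- Weight data of a frame. -/
structure Wt {K : Type} [Group K] (F : Fr K) where
  Θ : Type
  Tg : Type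
  fΘ : Fintype Θ
  fT : Fintype Tg
  ty : K → Θ
  tag : F.R → Tg
  nn : Tg → ℝ
  Ff : Θ → ℝ
  Cc : Θ → ℝ
  q : ℝ
  Dm : ℝ
  nmax : ℝ
  Δ : ℝ
  ty_inv : ∀ d, ty d⁻¹ = ty d
  tag_card : ∀ t, (#{r : F.R | r ≠ F.room ∧ tag r = t} : ℝ) ≤ nn t
  nn_one : ∀ t, 1 ≤ nn t
  nn_le : ∀ t, nn t ≤ nmax
  row_w : ∀ r, r ≠ F.room →
    ∑ e : F.E with (F.row e = r ∧ 0 ≤ F.ht e), F.om e ≤ Δ / Real.sqrt (nn (tag r))
  room_w : ∑ e : F.E with (F.row e = F.room ∧ 0 ≤ F.ht e), F.om e ≤ 1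
  hF : ∀ τ, ∑ c : F.E × F.E with (F.row c.1 = F.row c.2 ∧ F.row c.1 ≠ F.room ∧ 0 ≤ F.ht c.1 ∧
    0 ≤ F.ht c.2 ∧ ty (F.dif c.1 c.2) = τ), F.om c.1 * F.om c.2 ≤ Ff τ
  hC : ∀ a d, ∑ c : F.E × F.E with (F.row c.1 = F.row c.2 ∧ F.row c.1 ≠ F.room ∧ 0 ≤ F.ht c.1 ∧
    0 ≤ F.ht c.2 ∧ F.kind (F.row c.1) = a ∧ (F.dif c.1 c.2 = d ∨ F.dif c.1 c.2 = d⁻¹)),
      F.om c.1 * F.om c.2 ≤ Cc (ty d)
  Ff_nonneg : ∀ τ, 0 ≤ Ff τ
  Cc_nonneg : ∀ τ, 0 ≤ Cc τ
  hFC : ∀ τ, Ff τ * Cc τ ≤ q ^ 2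
  hCq : ∀ τ, Cc τ ≤ q
  hFD : ∀ τ, Ff τ ≤ Dm
  Δ_one : 1 ≤ Δ
  hΔ : Δ ^ 2 ≤ Dm
  q_pos : 0 < q
  q_le : q ≤ 1

attribute [instance] Wt.fΘ Wt.fT

/-- Shapes of level patterns: vertices, slots, owners, mates, categories (free, constrained by a
reference vertex, irregular with a tag, room). -/
abbrev Shape (Θ Tg : Type) (p : ℕ) : Type :=
  Finset (Fin p) × Finset (Fin p × Bool) × (Fin p × Bool → Fin p) ×
    (Fin p × Bool → Fin p × Bool) × (Fin p → Θ ⊕ (Fin p × Θ) ⊕ Option Tg)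

namespace Shape
variable {Θ Tg : Type} {p : ℕ} (s : Shape Θ Tg p)
def V : Finset (Fin p) := s.1
def Sl : Finset (Fin p × Bool) := s.2.1
def own : Fin p × Bool → Fin p := s.2.2.1
def mate : Fin p × Bool → Fin p × Bool := s.2.2.2.1
def cat : Fin p → Θ ⊕ (Fin p × Θ) ⊕ Option Tg := s.2.2.2.2
end Shape

namespace Wt
variable {K : Type} [Group K] {F : Fr K} (W : Wt F) {p : ℕ}

/-- The condition on a vertex of a realised shape. -/
def CatOk (s : Shape W.Θ W.Tg p) (ρ : Fin p → F.R) (he : Fin p × Bool → F.E) (v : Fin p) :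
    W.Θ ⊕ (Fin p × W.Θ) ⊕ Option W.Tg → Prop
  | .inl τ => ρ v ≠ F.room ∧ (∀ a, (a ∈ s.Sl ∧ s.own a = v) ↔ a.1 = v) ∧
      W.ty (F.dif (he (v, false)) (he (v, true))) = τ
  | .inr (.inl c) => ρ v ≠ F.room ∧ (∀ a, (a ∈ s.Sl ∧ s.own a = v) ↔ a.1 = v) ∧
      c.1 ∈ s.V ∧ s.cat c.1 = .inl c.2 ∧ F.kind (ρ v) = F.kind (ρ c.1) ∧
      (F.dif (he (v, false)) (he (v, true)) = F.dif (he (c.1, false)) (he (c.1, true)) ∨
        F.dif (he (v, false)) (he (v, true)) = (F.dif (he (c.1, false)) (he (c.1, true)))⁻¹)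
  | .inr (.inr (some t)) => ρ v ≠ F.room ∧ W.tag (ρ v) = t
  | .inr (.inr none) => ρ v = F.room

/-- The shape `s` is realised in the matching `σ`. -/
def Real (σ : F.E → F.E) (s : Shape W.Θ W.Tg p) (ρ : Fin p → F.R) (he : Fin p × Bool → F.E) :
    Prop :=
  Set.InjOn he s.Sl ∧
  (∀ a ∈ s.Sl, s.own a ∈ s.V ∧ F.row (he a) = ρ (s.own a) ∧ s.mate a ∈ s.Sl ∧
    he (s.mate a) = σ (he a) ∧ σ (he a) ≠ he a) ∧
  ∀ v ∈ s.V, W.CatOk s ρ he v (s.cat v)

/-- The weight of a vertex with `k` slots. -/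
noncomputable def vw (k : ℕ) : W.Θ ⊕ (Fin p × W.Θ) ⊕ Option W.Tg → ℝ
  | .inl τ => W.Ff τ
  | .inr (.inl c) => W.Cc c.2
  | .inr (.inr (some t)) => W.nn t * (W.Δ / Real.sqrt (W.nn t)) ^ k
  | .inr (.inr none) => 1

/-- The weight of a shape. -/
noncomputable def wt (s : Shape W.Θ W.Tg p) : ℝ :=
  ∏ v ∈ s.V, W.vw (#{a ∈ s.Sl | s.own a = v}) (s.cat v)

end Wt

/-! ### The gadget and the concrete stages -/

/-- Common closed neighbours of two vertices of the Hoffman-Singleton graph. -/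
def tab : Fin 3 → Fin 3 → Fin 3 → ℕ :=
  ![![![1, 0, 0], ![0, 7, 0], ![0, 0, 0]], ![![0, 1, 0], ![1, 0, 0], ![0, 0, 0]],
    ![![0, 0, 0], ![0, 1, 0], ![0, 0, 0]]]

/-- A finite group with the double coset structure of the Hoffman-Singleton graph. -/
structure Gad where
  K0 : Type
  gK : Group K0
  fK : Fintype K0
  u : ℕ
  c0 : K0 → Fin 3
  u_pos : 0 < u
  c0_one : c0 1 = 0
  c0_inv : ∀ y, c0 y⁻¹ = c0 y
  card_c0 : ∀ a, #{y : K0 | c0 y = a} = ![1, 7, 42] a * u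
  cnt : ∀ d a b, a ≠ 2 → b ≠ 2 → #{y : K0 | c0 y = a ∧ c0 (y * d) = b} = tab (c0 d) a b * u

attribute [instance] Gad.gK Gad.fK

namespace Gad
variable (Γ : Gad)

abbrev K (B : ℕ) : Type := Fin B → Γ.K0
abbrev S (B : ℕ) : Type := {y : Γ.K B // ∀ b, Γ.c0 (y b) ≠ 2}
noncomputable def cl {B : ℕ} (y : Γ.K B) : ℕ := #{b : Fin B | Γ.c0 (y b) = 0}
/-- The type of a difference. -/
noncomputable def ty {B : ℕ} (d : Γ.K B) : ℕ × ℕ :=
  (#{b : Fin B | Γ.c0 (d b) = 0}, #{b : Fin B | Γ.c0 (d b) = 1})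
noncomputable def phi (B : ℕ) : MonoidAlgebra ℚ (Γ.K B) :=
  ∑ y : Γ.S B, MonoidAlgebra.single y.1 ((-2) ^ Γ.cl y.1)
/-- Number of points of class `k`. -/
noncomputable def Nk (B k : ℕ) : ℕ := #{y : Γ.S B | Γ.cl y.1 = k}
/-- Normalised pool size at height `h`. -/
noncomputable def pool (B J h : ℕ) : ℕ :=
  ∑ k ∈ range (B + 1) with h + k ≤ J, 2 ^ (h + k) * Γ.Nk B k
/-- Number of pairs of classes `k, l` with difference `d`. -/
noncomputable def cntd {B : ℕ} (k l : ℕ) (d : Γ.K B) : ℕ :=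
  #{c : Γ.S B × Γ.S B | Γ.cl c.1.1 = k ∧ Γ.cl c.2.1 = l ∧ c.1.1⁻¹ * c.2.1 = d}

end Gad

/-- Parameters of the stages. -/
structure Par where
  N : ℕ → ℕ
  n0 : ℕ → ℕ
  J : ℕ → ℕ

namespace Par
variable (P : Par) (Γ : Gad)

/-- Ordinary rows: (side, kind, level, index), and one extra row. -/
abbrev R0 (B : ℕ) : Type :=
  (Bool × Fin (P.N B + 1) × Σ j : Fin (P.J B + 1), Fin ((P.n0 B + 1) * 2 ^ (j : ℕ))) ⊕ Unit
def kd0 {B : ℕ} : P.R0 B → Bool × Fin (P.N B + 1)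
  | .inl x => (x.1, x.2.1)
  | .inr _ => (false, 0)
def lv0 {B : ℕ} : P.R0 B → ℕ
  | .inl x => x.2.2.1
  | .inr _ => P.J B
/-- The unmatched points at the bottom of stage `B`. -/
abbrev Bot (B : ℕ) : Type := {x : P.R0 B × Γ.S B // P.lv0 x.1 < Γ.cl x.2.1}
/-- The half-edges of the room of stage `B`. -/
abbrev I (B : ℕ) : Type := P.Bot Γ (B + 1) ⊕ Γ.S B
def sdI {B : ℕ} : P.I Γ B → Bool
  | .inl x => (P.kd0 x.1.1).1
  | .inr _ => true
noncomputable def dI {B : ℕ} : P.I Γ B → ℕ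
  | .inl x => Γ.cl x.1.2.1 - P.lv0 x.1.1
  | .inr y => Γ.cl y.1

/-- The frame of stage `B`. -/
noncomputable def stg (B : ℕ) : Fr (Γ.K B) where
  R := Option (P.R0 B)
  E := (P.R0 B × Γ.S B) ⊕ P.I Γ B
  Kd := Option (Bool × Fin (P.N B + 1))
  fR := inferInstance
  fE := inferInstance
  row := Sum.elim (fun x => some x.1) fun _ => none
  kind := Option.map P.kd0
  room := none
  pos := Sum.elim (fun x => x.2.1) fun _ => 1
  ht := Sum.elim (fun x => (P.lv0 x.1 : ℤ) - Γ.cl x.2.1) fun p => (P.J B : ℤ) - P.dI Γ p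
  sd := Sum.elim (fun x => (P.kd0 x.1).1) (P.sdI Γ)
  hroom := by rintro (_ | r) h <;> simp_all
  hkd := by
    rintro (e | e) (e' | e') h h' <;> simp_all
  hpos := by
    rintro (⟨r, y⟩ | e) (⟨r', y'⟩ | e') h h' h'' <;> simp_all [Subtype.ext_iff]
  hsurj := by
    rintro (_ | ⟨s, a⟩)
    · exact ⟨none, rfl⟩
    · exact ⟨some (.inl (s, a, ⟨0, ⟨0, by simp⟩⟩)), rfl⟩

/-- The point of a half-edge. -/
def pt {B : ℕ} {Λ H : Type} [Group Λ] [Group H] (ξ : P.I Γ B → Λ) (ιr : Λ →* H)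
    (ιk : Bool × Fin (P.N B + 1) → (Γ.K B →* H)) (gr : Option (P.R0 B) → H) :
    (P.R0 B × Γ.S B) ⊕ P.I Γ B → H :=
  Sum.elim (fun x => gr (some x.1) * ιk (P.kd0 x.1) x.2.1) fun p => gr none * ιr (ξ p)

/-- The stage lemma at `B`. -/
def SL (B : ℕ) : Prop :=
  ∃ σ : (P.stg Γ B).E → (P.stg Γ B).E, (P.stg Γ B).Adm σ ∧
    ∀ (Λ : Type) [Group Λ] (ξ : P.I Γ B → Λ), ∃ (H : Type) (_ : Group H) (ιr : Λ →* H)
      (ιk : Bool × Fin (P.N B + 1) → (Γ.K B →* H)) (gr : Option (P.R0 B) → H),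
      Function.Injective ιr ∧ (∀ a, Function.Injective (ιk a)) ∧
        ∀ e, σ e ≠ e → P.pt Γ ξ ιr ιk gr e = P.pt Γ ξ ιr ιk gr (σ e)

end Par

end Pool.Agent.MP_c6eade_gt.H41
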