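import Pool.Agent.MP_c6eade_gt.Mg.Stable
import Pool.Agent.MP_c6eade_gt.H41.Basic

/-!
Ranks of elements of rational group algebras and the vectors of a stage.
-/

namespace Pool.Agent.MP_c6eade_gt.H41

open Finset
open scoped Classical

section
variable {G : Type} [Group G]

/-- Nullity of right multiplication by an element of the rational group algebra. -/
noncomputable def nulq (x : MonoidAlgebra ℚ G) : ℝ :=
  vnDim (kerRight (Matrix.of fun (_ : Fin 1) (_ : Fin 1) =>
    MonoidAlgebra.mapRingHom G (algebraMap ℚ ℂ) x))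

/-- Rank of right multiplication by an element of the rational group algebra. -/
noncomputable def rkq (x : MonoidAlgebra ℚ G) : ℝ := 1 - nulq x

/-- The sum of the absolute values of the coefficients. -/
noncomputable def l1 (x : MonoidAlgebra ℚ G) : ℝ := ∑ g ∈ x.coeff.support, |(x.coeff g : ℝ)|

end

/-- The sign of a side. -/
def sgn (b : Bool) : ℚ := if b then 1 else -1

namespace Par
variable (P : Par) (Γ : Gad)

/-- The bottom vector of stage `B` for given points. -/
noncomputable def Xb {B : ℕ} {H : Type} [Group H] (η : P.Bot Γ B → H) : MonoidAlgebra ℚ H :=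
  ∑ x : P.Bot Γ B, MonoidAlgebra.single (η x)
    (sgn (P.kd0 x.1.1).1 * (-2) ^ (Γ.cl x.1.2.1 - P.lv0 x.1.1))

/-- The hypotheses on the stages from `B0` on. -/
def Good (B0 : ℕ) : Prop :=
  ∀ B, B0 ≤ B → B + 1 ≤ P.J B ∧ Fintype.card (P.Bot Γ (B + 1)) * 2 ^ (B + 1) ≤ 2 ^ P.J B ∧
    ((P.N B : ℝ) + 1) * (11 / (25 * (Γ.u : ℝ))) ^ B ≤ (99 / 100) ^ B ∧ P.SL Γ B

end Par

end Pool.Agent.MP_c6eade_gt.H41
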