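import Pool.Agent.MP_c6eade_gt.H41.A1

namespace Pool.Agent.MP_c6eade_gt.H41

open Equiv Finset
open scoped Classical

namespace C1x

variable {D : Type} [Fintype D]

theorem eqv_of_sameCycle {f : Perm D} {r : D → D → Prop} (hr : ∀ a, r a (f a)) {x y : D}
    (hs : f.SameCycle x y) : Relation.EqvGen r x y := by
  obtain ⟨n, rfl⟩ := hs.exists_nat_pow_eq
  induction n with
  | zero => exact Relation.EqvGen.refl _
  | succ n ih =>
    refine Relation.EqvGen.trans _ _ _ (ih ⟨(n : ℤ), by simp⟩) (Relation.EqvGen.rel _ _ ?_)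
    rw [pow_succ', Perm.mul_apply]
    exact hr _

theorem contract {I : Type} (β : D → Option (Fin 5)) (e : I → D) (t : I → I)
    (he : ∀ c, β (e c) ≠ β (e (t c))) (n : ℕ) : ∀ f h : Perm D, cyc f ≤ n → gen f h ≤ 0 →
    (∀ x, β (f x) = β x) → (∀ c, h (e c) = e (t c)) →
    (∀ i x y, β x = some i → β y = some i →
      Relation.EqvGen (fun a b => b = f a ∨ (b = h a ∧ h b = a ∧ β a = β b)) x y) →
    ∃ f' h' : Perm D, gen f' h' ≤ 0 ∧ (∀ x, β (f' x) = β x) ∧ (∀ c, h' (e c) = e (t c)) ∧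
      ∀ i x y, β x = some i → β y = some i → f'.SameCycle x y := by
  induction n using Nat.strong_induction_on with
  | _ n ih =>
  intro f h hn h0 hβ hh hc
  by_cases hex : ∃ a, h (h a) = a ∧ β a = β (h a) ∧ ¬ f.SameCycle a (h a)
  · obtain ⟨a, ha1, ha2, ha3⟩ := hex
    obtain ⟨hm1, hm2⟩ := cyc_merge' ha3
    have hsw : ∀ x, β (swap a (h a) x) = β x := by
      intro x
      rw [swap_apply_def]
      split_ifs with h1 h2
      · rw [h1, ha2]
      · rw [h2, ha2]
      · rfl
    have hne : ∀ c, e c ≠ a ∧ e c ≠ h a := by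
      intro c
      constructor
      · intro h1
        exact he c (by rw [← hh c, h1, ha2])
      · intro h1
        exact he c (by rw [← hh c, h1, ha1, ha2])
    refine ih (cyc (swap a (h a) * f)) (by omega) (swap a (h a) * f) (h * swap a (h a)) le_rfl
      ((gen_both ⟨1, by simp⟩).trans h0) (fun x => by rw [Perm.mul_apply, hsw, hβ])
      (fun c => by rw [Perm.mul_apply, swap_apply_of_ne_of_ne (hne c).1 (hne c).2, hh]) ?_
    intro i x y hx hy
    have hab := eqv_of_sameCycle (r := fun a' b => b = (swap a (h a) * f) a' ∨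
      (b = (h * swap a (h a)) a' ∧ (h * swap a (h a)) b = a' ∧ β a' = β b))
      (fun _ => Or.inl rfl) hm2
    have hsx : ∀ z, Relation.EqvGen (fun a' b => b = (swap a (h a) * f) a' ∨
        (b = (h * swap a (h a)) a' ∧ (h * swap a (h a)) b = a' ∧ β a' = β b))
        (swap a (h a) z) z := by
      intro z
      rw [swap_apply_def]
      split_ifs with h1 h2
      · rw [h1]
        exact hab.symm _ _
      · rw [h2]
        exact hab
      · exact Relation.EqvGen.refl _
    have := hc i x y hx hy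
    clear hx hy
    induction this with
    | refl => exact Relation.EqvGen.refl _
    | symm _ _ _ ih => exact ih.symm _ _
    | trans _ _ _ _ _ ih1 ih2 => exact ih1.trans _ _ _ ih2
    | rel x y hr =>
      rcases hr with rfl | ⟨rfl, h1, h2⟩
      · refine Relation.EqvGen.trans _ _ _ (Relation.EqvGen.rel _ _ ?_) (hsx (f x))
        exact Or.inl rfl
      · by_cases c1 : x = a
        · rw [c1]
          exact hab
        by_cases c2 : x = h a
        · rw [c2, ha1]
          exact hab.symm _ _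
        have c3 : h x ≠ a := fun c => c2 (by rw [← c, h1])
        have c4 : h x ≠ h a := fun c => c1 (h.injective c)
        refine Relation.EqvGen.rel _ _ (Or.inr ⟨?_, ?_, h2⟩)
        · rw [Perm.mul_apply, swap_apply_of_ne_of_ne c1 c2]
        · rw [Perm.mul_apply, swap_apply_of_ne_of_ne c3 c4, h1]
  · push Not at hex
    refine ⟨f, h, h0, hβ, hh, fun i x y hx hy => ?_⟩
    have := hc i x y hx hy
    clear hx hy
    induction this with
    | refl => exact Perm.SameCycle.refl _ _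
    | symm _ _ _ ih => exact ih.symm
    | trans _ _ _ _ _ ih1 ih2 => exact ih1.trans ih2
    | rel x y hr =>
      rcases hr with rfl | ⟨rfl, h1, h2⟩
      · exact ⟨1, by simp⟩
      · exact hex x h1 h2

theorem kill (P : Perm D → Prop) (T : Finset D)
    (hP : ∀ σ x, x ∉ T → P σ → P (σ * swap x (σ⁻¹ x))) (n : ℕ) :
    ∀ σ : Perm D, #{x | x ∉ T ∧ σ x ≠ x} ≤ n → P σ → ∃ σ', P σ' ∧ ∀ x, x ∉ T → σ' x = x := by
  induction n using Nat.strong_induction_on with
  | _ n ih =>
  intro σ hn hσ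
  by_cases hex : ∃ x, x ∉ T ∧ σ x ≠ x
  · obtain ⟨x, hx, hx'⟩ := hex
    refine ih _ (lt_of_lt_of_le (card_lt_card ?_) hn) _ le_rfl (hP σ x hx hσ)
    refine ⟨fun y hy => ?_, fun hsub => ?_⟩
    · simp only [mem_filter, mem_univ, true_and] at hy ⊢
      refine ⟨hy.1, fun h1 => hy.2 ?_⟩
      have c1 : y ≠ x := fun c => hx' (c ▸ h1)
      have c2 : y ≠ σ⁻¹ x := fun c => c1 (by rw [← h1, c]; simp)
      rw [Perm.mul_apply, swap_apply_of_ne_of_ne c1 c2, h1]
    · have := hsub (mem_filter.2 ⟨mem_univ x, hx, hx'⟩)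
      simp at this
  · push Not at hex
    exact ⟨σ, hσ, hex⟩

theorem sameCycle_rem (σ : Perm D) (x : D) {a b : D} (ha : a ≠ x) (hb : b ≠ x)
    (hs : σ.SameCycle a b) : (σ * swap x (σ⁻¹ x)).SameCycle a b := by
  obtain ⟨n, rfl⟩ := hs.exists_nat_pow_eq
  have key : ∀ n : ℕ, ((σ ^ n) a ≠ x → (σ * swap x (σ⁻¹ x)).SameCycle a ((σ ^ n) a)) ∧
      ((σ ^ n) a = x → (σ * swap x (σ⁻¹ x)).SameCycle a (σ x)) := by
    intro n
    induction n with
    | zero => exact ⟨fun _ => Perm.SameCycle.refl _ _, fun h => absurd h ha⟩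
    | succ n ih =>
      rw [pow_succ', Perm.mul_apply]
      by_cases c : (σ ^ n) a = x
      · rw [c]
        exact ⟨fun _ => ih.2 c, fun _ => ih.2 c⟩
      · constructor
        · intro c2
          refine (ih.1 c).trans ⟨1, ?_⟩
          rw [zpow_one, Perm.mul_apply, swap_apply_of_ne_of_ne c (fun h => c2 (by rw [h]; simp))]
        · intro c2
          refine (ih.1 c).trans ⟨1, ?_⟩
          have : (σ ^ n) a = σ⁻¹ x := by rw [← c2]; simp
          rw [zpow_one, Perm.mul_apply, this, swap_apply_right]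
  exact (key n).1 hb

theorem count (s : Setoid D) (T : Finset D) (K : ℕ)
    (h : ∀ x ∈ T, ∃ A : Finset D, A ⊆ T ∧ K ≤ #A ∧ ∀ y ∈ A, s.r x y) :
    K * Nat.card (Quotient s) ≤ K * #Tᶜ + #T := by
  have h1 : K * #(T.image (Quotient.mk s)) ≤ #T := by
    refine mul_card_image_le_card T K fun b hb => ?_
    obtain ⟨x, hx, rfl⟩ := mem_image.1 hb
    obtain ⟨A, hA, hK, hr⟩ := h x hx
    exact hK.trans (card_le_card fun y hy =>
      mem_filter.2 ⟨hA hy, Quotient.sound (s.symm (hr y hy))⟩)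
  have h2 : Nat.card (Quotient s) ≤ #Tᶜ + #(T.image (Quotient.mk s)) := by
    rw [Nat.card_eq_fintype_card, ← card_univ]
    refine (card_le_card (t := Tᶜ.image (Quotient.mk s) ∪ T.image (Quotient.mk s)) ?_).trans
      ((card_union_le _ _).trans (Nat.add_le_add_right card_image_le _))
    intro q _
    obtain ⟨x, rfl⟩ := Quotient.exists_rep q
    by_cases hx : x ∈ T
    · exact mem_union_right _ (mem_image_of_mem _ hx)
    · exact mem_union_left _ (mem_image_of_mem _ (mem_compl.2 hx))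
  calc K * Nat.card (Quotient s) ≤ K * (#Tᶜ + #(T.image (Quotient.mk s))) :=
        Nat.mul_le_mul_left _ h2
    _ ≤ K * #Tᶜ + #T := by rw [mul_add]; omega

theorem orb_ge {f h : Perm D} (T : Finset D) (hf : ∀ x, x ∉ T → f x = x)
    (hh : ∀ x, x ∉ T → h x = x) {a : D} (ha : a ∈ T) : #Tᶜ + 1 ≤ orb f h := by
  have key : ∀ x, x ∉ T → ∀ a b, Relation.EqvGen (fun x y : D => y = f x ∨ y = h x) a b →
      (a = x ↔ b = x) := by
    intro x hx a b hab
    induction hab with
    | refl => rfl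
    | symm _ _ _ ih => exact ih.symm
    | trans _ _ _ _ _ ih1 ih2 => exact ih1.trans ih2
    | rel a b hr =>
      rcases hr with rfl | rfl
      · exact ⟨fun c => by rw [c, hf x hx], fun c => f.injective (by rw [c, hf x hx])⟩
      · exact ⟨fun c => by rw [c, hh x hx], fun c => h.injective (by rw [c, hh x hx])⟩
  have hna : a ∉ Tᶜ := by simpa using ha
  rw [← card_insert_of_notMem hna, orb, Nat.card_eq_fintype_card, ← card_univ]
  refine card_le_card_of_injOn (Quotient.mk _) (fun _ _ => by simp) ?_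
  intro x hx y hy hxy
  have hr : Relation.EqvGen (fun x y : D => y = f x ∨ y = h x) x y := Quotient.exact hxy
  rcases mem_insert.1 hx with rfl | hx
  · rcases mem_insert.1 hy with rfl | hy
    · rfl
    · exact (key y (mem_compl.1 hy) _ _ hr).2 rfl
  · exact ((key x (mem_compl.1 hx) _ _ hr).1 rfl).symm

end C1x

theorem no_K5 {D : Type} [Fintype D] {f h : Perm D} (h0 : gen f h ≤ 0)
    (β : D → Option (Fin 5)) (hβ : ∀ x, β (f x) = β x)
    (hc : ∀ i x y, β x = some i → β y = some i →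
      Relation.EqvGen (fun a b => b = f a ∨ (b = h a ∧ h b = a ∧ β a = β b)) x y)
    (ha : ∀ i j, i ≠ j → ∃ x, β x = some i ∧ β (h x) = some j ∧ h (h x) = x) : False := by
  choose x hx1 hx2 hx3 using ha
  let I := {c : Fin 5 × Fin 5 // c.1 ≠ c.2}
  let t : I → I := fun c => ⟨(c.1.2, c.1.1), c.2.symm⟩
  let e : I → D := fun c => if c.1.1 < c.1.2 then x c.1.1 c.1.2 c.2 else h (x c.1.2 c.1.1 c.2.symm)
  have he1 : ∀ c, β (e c) = some c.1.1 := by
    intro c
    simp only [e]
    split_ifs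
    · exact hx1 _ _ _
    · exact hx2 _ _ _
  have he2 : ∀ c, h (e c) = e (t c) := by
    intro c
    simp only [e, t]
    by_cases h1 : c.1.1 < c.1.2
    · rw [if_pos h1, if_neg (not_lt.2 h1.le)]
    · rw [if_neg h1, if_pos (lt_of_le_of_ne (not_lt.1 h1) c.2.symm), hx3]
  have hinj : Function.Injective e := by
    intro c c' hcc
    have a1 : c.1.1 = c'.1.1 := Option.some.inj (by rw [← he1, ← he1, hcc])
    have a2 : (t c).1.1 = (t c').1.1 := Option.some.inj (by rw [← he1, ← he1, ← he2, ← he2, hcc])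
    exact Subtype.ext (Prod.ext a1 a2)
  clear_value e
  obtain ⟨f1, h1, g1, b1, t1, s1⟩ := C1x.contract β e t
    (fun c hh => c.2 (Option.some.inj (by rw [← he1, hh, he1]))) _ f h le_rfl h0 hβ he2 hc
  let T : Finset D := univ.image e
  have hT : ∀ c, e c ∈ T := fun c => mem_image_of_mem _ (mem_univ c)
  obtain ⟨h2, ⟨g2, t2⟩, d2⟩ := C1x.kill (fun σ => gen f1 σ ≤ 0 ∧ ∀ c, σ (e c) = e (t c)) T
    (fun σ y hy hσ => ⟨(gen_h_split' ⟨-1, by simp⟩).trans hσ.1, fun c => by
      have a1 : e c ≠ y := fun c1 => hy (c1 ▸ hT c)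
      have a2 : e c ≠ σ⁻¹ y := fun c1 => hy (by
        have : σ (e c) = y := by rw [c1]; simp
        rw [← this, hσ.2]
        exact hT _)
      rw [Perm.mul_apply, swap_apply_of_ne_of_ne a1 a2, hσ.2]⟩) _ h1 le_rfl ⟨g1, t1⟩
  obtain ⟨f2, ⟨g3, b3, s3⟩, d3⟩ := C1x.kill (fun σ => gen σ h2 ≤ 0 ∧ (∀ x, β (σ x) = β x) ∧
      ∀ c c', c.1.1 = c'.1.1 → σ.SameCycle (e c) (e c')) T
    (fun σ y hy hσ => ⟨(gen_f_split ⟨-1, by simp⟩).trans hσ.1, fun z => by
      rw [Perm.mul_apply, hσ.2.1, swap_apply_def]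
      have : β (σ⁻¹ y) = β y := by rw [← hσ.2.1]; simp
      split_ifs with c1 c2
      · rw [c1, this]
      · rw [c2, this]
      · rfl, fun c c' hcc => C1x.sameCycle_rem σ y (fun c1 => hy (c1 ▸ hT c))
        (fun c1 => hy (c1 ▸ hT c')) (hσ.2.2 c c' hcc)⟩) _ f1 le_rfl
    ⟨g2, b1, fun c c' hcc => s1 c.1.1 _ _ (he1 c) (hcc ▸ he1 c')⟩
  have hcard : #T = 20 := by
    rw [card_image_of_injective _ hinj, card_univ]
    decide
  have hstep : ∀ c : I, ∃ c' : I, f2 (e c) = e c' ∧ c'.1.1 = c.1.1 ∧ c'.1.2 ≠ c.1.2 := by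
    intro c
    have hm : f2 (e c) ∈ T := by
      by_contra hn
      exact hn (by rw [f2.injective (d3 _ hn)]; exact hT c)
    obtain ⟨c', -, hc'⟩ := mem_image.1 hm
    have a1 : c'.1.1 = c.1.1 := Option.some.inj (by rw [← he1, hc', b3, he1])
    refine ⟨c', hc'.symm, a1, fun a2 => ?_⟩
    have a3 : c' = c := Subtype.ext (Prod.ext a1 a2)
    rw [a3] at hc'
    obtain ⟨j, j1, j2⟩ : ∃ j : Fin 5, c.1.1 ≠ j ∧ c.1.2 ≠ j := by
      have : ∀ a b : Fin 5, ∃ j, a ≠ j ∧ b ≠ j := by decide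
      exact this _ _
    have := (s3 c ⟨(c.1.1, j), j1⟩ rfl).eq_of_left hc'.symm
    exact j2 (congrArg (fun c : I => c.1.2) (hinj this))
  have k1 := C1x.count (Perm.SameCycle.setoid f2) T 4 (by
    intro y hy
    obtain ⟨c, -, rfl⟩ := mem_image.1 hy
    refine ⟨(univ.filter fun c' : I => c.1.1 = c'.1.1).image e, image_subset_image (subset_univ _),
      ?_, ?_⟩
    · rw [card_image_of_injective _ hinj]
      have : ∀ a : Fin 5, 4 ≤ #(univ.filter fun c' : I => a = c'.1.1) := by decide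
      exact (this c.1.1).trans (card_le_card fun z hz => by simpa using hz)
    · intro z hz
      obtain ⟨c', hc', rfl⟩ := mem_image.1 hz
      exact s3 c c' (mem_filter.1 hc').2)
  have hne : ∀ c c' : I, c.1.1 ≠ c'.1.1 → e c ≠ e c' :=
    fun c c' hh hcc => hh (by rw [hinj hcc])
  have k2 := C1x.count (Perm.SameCycle.setoid h2) T 2 (by
    intro y hy
    obtain ⟨c, -, rfl⟩ := mem_image.1 hy
    refine ⟨{e c, e (t c)}, ?_, ?_, ?_⟩
    · intro z hz
      simp only [mem_insert, mem_singleton] at hz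
      rcases hz with rfl | rfl <;> exact hT _
    · rw [card_pair (hne c (t c) c.2)]
    · intro z hz
      simp only [mem_insert, mem_singleton] at hz
      rcases hz with rfl | rfl
      · exact Perm.SameCycle.refl _ _
      · exact ⟨1, by simp [t2]⟩)
  have k3 := C1x.count (Perm.SameCycle.setoid (h2 * f2)) T 3 (by
    intro y hy
    obtain ⟨c, -, rfl⟩ := mem_image.1 hy
    obtain ⟨c1, p1, q1, r1⟩ := hstep c
    obtain ⟨c2, p2, q2, r2⟩ := hstep (t c1)
    have m1 : (h2 * f2) (e c) = e (t c1) := by rw [Perm.mul_apply, p1, t2]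
    have m2 : (h2 * f2) (e (t c1)) = e (t c2) := by rw [Perm.mul_apply, p2, t2]
    refine ⟨{e c, e (t c1), e (t c2)}, ?_, ?_, ?_⟩
    · intro z hz
      simp only [mem_insert, mem_singleton] at hz
      rcases hz with rfl | rfl | rfl <;> exact hT _
    · rw [card_eq_three.2 ⟨_, _, _, hne c (t c1) (q1 ▸ c1.2), hne c (t c2) (q1 ▸ r2.symm),
        hne (t c1) (t c2) (q2 ▸ c2.2), rfl⟩]
    · intro z hz
      simp only [mem_insert, mem_singleton] at hz
      rcases hz with rfl | rfl | rfl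
      · exact Perm.SameCycle.refl _ _
      · exact ⟨1, by rw [zpow_one, m1]⟩
      · exact Perm.SameCycle.trans ⟨1, by rw [zpow_one, m1]⟩ ⟨1, by rw [zpow_one, m2]⟩)
  have k4 := C1x.orb_ge T d3 d2 (hT ⟨(0, 1), by decide⟩)
  have k5 : Nat.card D = #Tᶜ + #T := by
    rw [Nat.card_eq_fintype_card, add_comm, card_add_card_compl]
  unfold gen cyc at g3
  omega

end Pool.Agent.MP_c6eade_gt.H41
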