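import Mathlib

/-! Separators in graphs without a clique minor (Plotkin, Rao, Smith), and hyperfiniteness. -/

set_option autoImplicit false

namespace Pool.Agent.MP_c6eade_gt.H41.C2x

open Finset Relation

universe u

variable {V : Type u}

/-- `adj` has a clique minor on `h` branch sets. -/
def Minor (adj : V → V → Prop) (h : ℕ) : Prop :=
  ∃ (A : Fin h → Finset V) (rt : Fin h → V),
    (∀ i, rt i ∈ A i ∧
      ∀ x ∈ A i, ReflTransGen (fun a b => a ∈ A i ∧ b ∈ A i ∧ adj a b) (rt i) x) ∧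
    ∀ i j, i ≠ j → Disjoint (A i) (A j) ∧ ∃ a ∈ A i, ∃ b ∈ A j, adj a b

/-- `A` is connected, with root `r`. -/
def SCon (adj : V → V → Prop) (A : Finset V) (r : V) : Prop :=
  r ∈ A ∧ ∀ x ∈ A, ReflTransGen (fun a b => a ∈ A ∧ b ∈ A ∧ adj a b) r x

/-- A family of branch sets. -/
def SCl (adj : V → V → Prop) (F : Finset (Finset V)) : Prop :=
  (∀ A ∈ F, ∃ r, SCon adj A r) ∧
    ∀ A ∈ F, ∀ B ∈ F, A ≠ B → Disjoint A B ∧ ∃ a ∈ A, ∃ b ∈ B, adj a b

open Classical in
/-- The closed neighbourhood of `W` inside `H`. -/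
noncomputable def snb (adj : V → V → Prop) (H W : Finset V) : Finset V :=
  H.filter fun y => y ∈ W ∨ ∃ x ∈ W, adj x y

variable {adj : V → V → Prop} {h : ℕ}

theorem SCl.card_lt {F : Finset (Finset V)} (hF : SCl adj F) (hno : ¬ Minor adj h) :
    F.card < h := by
  by_contra hc
  obtain ⟨e⟩ : Nonempty (Fin h ↪ F) := Function.Embedding.nonempty_of_card_le (by simpa using hc)
  choose rt hrt using fun i => hF.1 (e i) (e i).2
  exact hno ⟨fun i => e i, rt, hrt, fun i j hij => hF.2 _ (e i).2 _ (e j).2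
    fun h1 => hij (e.injective (Subtype.ext h1))⟩

theorem sreach_mono {A B : Finset V} (hAB : A ⊆ B) {x y : V}
    (h : ReflTransGen (fun a b => a ∈ A ∧ b ∈ A ∧ adj a b) x y) :
    ReflTransGen (fun a b => a ∈ B ∧ b ∈ B ∧ adj a b) x y :=
  ReflTransGen.mono (fun _ _ h => ⟨hAB h.1, hAB h.2.1, h.2.2⟩) _ _ h

theorem SCon.reroot (hs : ∀ a b, adj a b → adj b a) {A : Finset V} {r w : V} (h : SCon adj A r)
    (hw : w ∈ A) : SCon adj A w := by
  refine ⟨hw, fun x hx => ReflTransGen.trans ?_ (h.2 x hx)⟩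
  exact ReflTransGen.mono (fun a b h1 => ⟨h1.2.1, h1.1, hs _ _ h1.2.2⟩) _ _
    (reflTransGen_swap.2 (h.2 w hw))

theorem snb_sub (H W : Finset V) : snb adj H W ⊆ H := by
  classical exact filter_subset _ _

theorem mem_snb {H W : Finset V} {y : V} :
    y ∈ snb adj H W ↔ y ∈ H ∧ (y ∈ W ∨ ∃ x ∈ W, adj x y) := by
  classical
  unfold snb
  rw [mem_filter]

theorem sub_snb {H W : Finset V} (h : W ⊆ H) : W ⊆ snb adj H W :=
  fun _ hy => mem_snb.2 ⟨h hy, Or.inl hy⟩

theorem sball_sub {H : Finset V} {v : V} (hv : v ∈ H) (j : ℕ) : (snb adj H)^[j] {v} ⊆ H := by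
  rcases j with _ | j
  · simpa using hv
  · rw [Function.iterate_succ_apply']; exact snb_sub _ _

variable [DecidableEq V]

theorem SCon.glue {P Q : Finset V} {v w : V} (hP : SCon adj P v) (hw : w ∈ P)
    (hQ : SCon adj Q w) : SCon adj (P ∪ Q) v := by
  refine ⟨mem_union_left _ hP.1, fun x hx => ?_⟩
  rcases mem_union.1 hx with h | h
  · exact sreach_mono subset_union_left (hP.2 x h)
  · exact (sreach_mono subset_union_left (hP.2 w hw)).trans
      (sreach_mono subset_union_right (hQ.2 x h))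

theorem sball_path {H : Finset V} {v : V} (hv : v ∈ H) (j : ℕ) : ∀ y ∈ (snb adj H)^[j] {v},
    ∃ P ⊆ H, P.card ≤ j + 1 ∧ SCon adj P v ∧ y ∈ P := by
  induction j with
  | zero =>
    intro y hy
    refine ⟨{v}, by simpa using hv, by simp, ⟨by simp, fun x hx => ?_⟩, hy⟩
    rw [mem_singleton.1 hx]
  | succ j ih =>
    intro y hy
    rw [Function.iterate_succ_apply', mem_snb] at hy
    rcases hy.2 with h1 | ⟨x, h1, h2⟩
    · obtain ⟨P, p1, p2, p3, p4⟩ := ih y h1
      exact ⟨P, p1, by omega, p3, p4⟩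
    · obtain ⟨P, p1, p2, p3, p4⟩ := ih x h1
      refine ⟨insert y P, insert_subset hy.1 p1, (card_insert_le _ _).trans (by omega),
        ⟨mem_insert_of_mem p3.1, fun z hz => ?_⟩, mem_insert_self _ _⟩
      rcases mem_insert.1 hz with rfl | h3
      · exact (sreach_mono (subset_insert _ _) (p3.2 x p4)).tail
          ⟨mem_insert_of_mem p4, mem_insert_self _ _, h2⟩
      · exact sreach_mono (subset_insert _ _) (p3.2 z h3)

omit [DecidableEq V] in
theorem sball_big {H : Finset V} {l : ℕ} (hl : 0 < l)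
    (hexp : ∀ W ⊆ H, W.Nonempty → 2 * W.card ≤ H.card → (l + 1) * W.card < l * (snb adj H W).card)
    {v : V} (hv : v ∈ H) (j : ℕ) : H.card < 2 * ((snb adj H)^[j] {v}).card ∨
      (1 + 1 / l : ℝ) ^ j ≤ ((snb adj H)^[j] {v}).card := by
  induction j with
  | zero => exact Or.inr (by simp)
  | succ j ih =>
    rw [Function.iterate_succ_apply']
    have h1 := card_le_card (sub_snb (adj := adj) (sball_sub (adj := adj) hv j))
    rcases lt_or_ge H.card (2 * ((snb adj H)^[j] {v}).card) with h2 | h2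
    · exact Or.inl (by omega)
    have h3 := ih.resolve_left (not_lt.2 h2)
    have h4 : (0 : ℝ) < l := by exact_mod_cast hl
    have h5 := hexp _ (sball_sub hv j) (card_pos.1 (by
      have : (0 : ℝ) < ((snb adj H)^[j] {v}).card := lt_of_lt_of_le (by positivity) h3
      exact_mod_cast this)) h2
    have h6 : ((l : ℝ) + 1) * ((snb adj H)^[j] {v}).card <
        l * (snb adj H ((snb adj H)^[j] {v})).card := by exact_mod_cast h5
    refine Or.inr ?_
    rw [pow_succ, show (1 + 1 / l : ℝ) = (l + 1) / l by field_simp] at *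
    rw [← mul_div_assoc, div_le_iff₀ h4]
    nlinarith

theorem sdiam (hs : ∀ a b, adj a b → adj b a) {H : Finset V} {l r : ℕ} (hl : 0 < l)
    (hexp : ∀ W ⊆ H, W.Nonempty → 2 * W.card ≤ H.card → (l + 1) * W.card < l * (snb adj H W).card)
    (hr : (H.card : ℝ) < (1 + 1 / l : ℝ) ^ r) {v y : V} (hv : v ∈ H) (hy : y ∈ H) :
    ∃ P ⊆ H, P.card ≤ 2 * r + 2 ∧ SCon adj P v ∧ y ∈ P := by
  have big : ∀ x ∈ H, H.card < 2 * ((snb adj H)^[r] {x}).card := fun x hx =>
    (sball_big hl hexp hx r).resolve_right (not_le.2 (lt_of_le_of_lt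
      (by exact_mod_cast card_le_card (sball_sub hx r)) hr))
  obtain ⟨w, hw⟩ : ((snb adj H)^[r] {v} ∩ (snb adj H)^[r] {y}).Nonempty := by
    have h1 := card_union_add_card_inter ((snb adj H)^[r] {v}) ((snb adj H)^[r] {y})
    have h2 := card_le_card (union_subset (sball_sub (adj := adj) hv r) (sball_sub (adj := adj) hy r))
    have := big v hv
    have := big y hy
    exact card_pos.1 (by omega)
  obtain ⟨P, p1, p2, p3, p4⟩ := sball_path hv r w (mem_inter.1 hw).1
  obtain ⟨Q, q1, q2, q3, q4⟩ := sball_path hy r w (mem_inter.1 hw).2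
  exact ⟨P ∪ Q, union_subset p1 q1, (card_union_le _ _).trans (by omega),
    p3.glue p4 (q3.reroot hs q4), mem_union_right _ q3.1⟩

/-- The state of the separator algorithm. -/
structure SSt (adj : V → V → Prop) (U : Finset V) (l ρ : ℕ) (H R S : Finset V)
    (F : Finset (Finset V)) : Prop where
  hH : H ⊆ U
  hR : R ⊆ U
  dis : Disjoint H R
  cov : ∀ x ∈ U, x ∈ H ∨ x ∈ R ∨ x ∈ S ∨ ∃ A ∈ F, x ∈ A
  sm : l * S.card ≤ R.card
  cut : ∀ a ∈ R, ∀ b ∈ H, ¬ adj a b
  cl : SCl adj F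
  br : ∀ A ∈ F, A ⊆ U ∧ Disjoint H A ∧ A.card ≤ ρ
  rs : 3 * R.card ≤ 2 * U.card

theorem SSt.step (hs : ∀ a b, adj a b → adj b a) (hno : ¬ Minor adj h) {U : Finset V} {l r : ℕ}
    (hl : 0 < l) (hr : (U.card : ℝ) < (1 + 1 / l : ℝ) ^ r) {H R S : Finset V}
    {F : Finset (Finset V)} (s : SSt adj U l (h * (2 * r + 2)) H R S F)
    (hb : 2 * U.card < 3 * H.card) : ∃ H' R' S' F', SSt adj U l (h * (2 * r + 2)) H' R' S' F' ∧
      2 * H'.card + F'.card < 2 * H.card + F.card := by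
  have hHR : H.card + R.card ≤ U.card := by
    rw [← card_union_of_disjoint s.dis]
    exact card_le_card (union_subset s.hH s.hR)
  by_cases h1 : ∀ A ∈ F, ∃ y ∈ H, ∃ a ∈ A, adj a y
  swap
  · push Not at h1
    obtain ⟨A, hA, h2⟩ := h1
    have h3 := s.br A hA
    have h4 : Disjoint H (R ∪ A) := disjoint_union_right.2 ⟨s.dis, h3.2.1⟩
    have h5 : H.card + (R ∪ A).card ≤ U.card := by
      rw [← card_union_of_disjoint h4]
      exact card_le_card (union_subset s.hH (union_subset s.hR h3.1))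
    refine ⟨H, R ∪ A, S, F.erase A, ⟨s.hH, union_subset s.hR h3.1, h4, fun x hx => ?_,
      s.sm.trans (card_le_card subset_union_left), fun a ha b hb => ?_,
      ⟨fun B hB => s.cl.1 B (mem_of_mem_erase hB),
        fun B hB C hC => s.cl.2 B (mem_of_mem_erase hB) C (mem_of_mem_erase hC)⟩,
      fun B hB => s.br B (mem_of_mem_erase hB), by omega⟩, ?_⟩
    · rcases s.cov x hx with h6 | h6 | h6 | ⟨B, hB, h6⟩
      · exact Or.inl h6
      · exact Or.inr (Or.inl (mem_union_left _ h6))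
      · exact Or.inr (Or.inr (Or.inl h6))
      · by_cases h7 : B = A
        · exact Or.inr (Or.inl (mem_union_right _ (h7 ▸ h6)))
        · exact Or.inr (Or.inr (Or.inr ⟨B, mem_erase.2 ⟨h7, hB⟩, h6⟩))
    · rcases mem_union.1 ha with h6 | h6
      · exact s.cut a h6 b hb
      · exact h2 b hb a h6
    · have := card_erase_lt_of_mem hA
      omega
  by_cases hexp : ∀ W ⊆ H, W.Nonempty → 2 * W.card ≤ H.card →
      (l + 1) * W.card < l * (snb adj H W).card
  swap
  · push Not at hexp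
    obtain ⟨W, w1, w2, w3, w4⟩ := hexp
    have w5 : W ⊆ snb adj H W := sub_snb w1
    have w6 := card_sdiff_add_card_eq_card w5
    have w7 := card_sdiff_add_card_eq_card (snb_sub (adj := adj) H W)
    have w8 : (R ∪ W).card = R.card + W.card :=
      card_union_of_disjoint (s.dis.symm.mono_right w1)
    have w9 := card_union_le S (snb adj H W \ W)
    have w10 := card_pos.2 w2
    refine ⟨H \ snb adj H W, R ∪ W, S ∪ (snb adj H W \ W), F, ⟨sdiff_subset.trans s.hH,
      union_subset s.hR (w1.trans s.hH), disjoint_union_right.2 ⟨s.dis.mono_left sdiff_subset,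
        sdiff_disjoint.mono_right w5⟩, fun x hx => ?_, ?_, fun a ha b hb => ?_, s.cl,
      fun A hA => ⟨(s.br A hA).1, (s.br A hA).2.1.mono_left sdiff_subset, (s.br A hA).2.2⟩,
      by omega⟩, by omega⟩
    · have := s.cov x hx
      simp only [mem_sdiff, mem_union]
      tauto
    · have h3 := s.sm
      have h4 := Nat.mul_le_mul_left l w9
      rw [← w6] at w4
      rw [w8]
      nlinarith
    · rcases mem_union.1 ha with h6 | h6
      · exact s.cut a h6 b (mem_sdiff.1 hb).1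
      · exact fun h7 => (mem_sdiff.1 hb).2 (mem_snb.2 ⟨(mem_sdiff.1 hb).1, Or.inr ⟨a, h6, h7⟩⟩)
  obtain ⟨v, hv⟩ : H.Nonempty := card_pos.1 (by omega)
  have hr' : (H.card : ℝ) < (1 + 1 / l : ℝ) ^ r :=
    lt_of_le_of_lt (by exact_mod_cast card_le_card s.hH) hr
  have h2 : ∀ A : Finset V, ∃ P ⊆ H, P.card ≤ 2 * r + 2 ∧ SCon adj P v ∧
      (A ∈ F → ∃ y ∈ P, ∃ a ∈ A, adj a y) := fun A => by
    by_cases hA : A ∈ F
    · obtain ⟨y, hy, h3⟩ := h1 A hA
      obtain ⟨P, p1, p2, p3, p4⟩ := sdiam hs hl hexp hr' hv hy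
      exact ⟨P, p1, p2, p3, fun _ => ⟨y, p4, h3⟩⟩
    · obtain ⟨P, p1, p2, p3, -⟩ := sdiam hs hl hexp hr' hv hv
      exact ⟨P, p1, p2, p3, fun h => absurd h hA⟩
  choose P p1 p2 p3 p4 using h2
  set N := insert v (F.biUnion P) with hN
  have n1 : N ⊆ H := insert_subset hv (biUnion_subset.2 fun A _ => p1 A)
  have n2 : ∀ A ∈ F, P A ⊆ N := fun A hA =>
    (subset_biUnion_of_mem P hA).trans (subset_insert _ _)
  have n3 : SCon adj N v := ⟨mem_insert_self _ _, fun x hx => by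
    rcases mem_insert.1 hx with rfl | h3
    · exact ReflTransGen.refl
    · obtain ⟨A, hA, h4⟩ := mem_biUnion.1 h3
      exact sreach_mono (n2 A hA) ((p3 A).2 x h4)⟩
  have n4 : N.card ≤ h * (2 * r + 2) := by
    have h3 := card_biUnion_le_card_mul F P _ fun A _ => p2 A
    have h4 : N.card ≤ _ := card_insert_le v (F.biUnion P)
    have h5 := Nat.mul_le_mul_right (2 * r + 2) (s.cl.card_lt hno)
    rw [Nat.succ_mul] at h5
    omega
  have n5 : ∀ A ∈ F, Disjoint N A := fun A hA => (s.br A hA).2.1.mono_left n1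
  have n6 := card_sdiff_add_card_eq_card n1
  have n7 := card_pos.2 ⟨v, n3.1⟩
  have n8 := card_insert_le N F
  refine ⟨H \ N, R, S, insert N F, ⟨sdiff_subset.trans s.hH, s.hR, s.dis.mono_left sdiff_subset,
    fun x hx => ?_, s.sm, fun a ha b hb => s.cut a ha b (mem_sdiff.1 hb).1,
    ⟨fun A hA => ?_, fun A hA B hB hAB => ?_⟩, fun A hA => ?_, s.rs⟩, by omega⟩
  · have := s.cov x hx
    simp only [mem_sdiff, mem_insert (b := N), exists_eq_or_imp]
    tauto
  · rcases mem_insert.1 hA with rfl | h3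
    · exact ⟨v, n3⟩
    · exact s.cl.1 A h3
  · rcases mem_insert.1 hA with rfl | h3 <;> rcases mem_insert.1 hB with rfl | h4
    · exact absurd rfl hAB
    · obtain ⟨y, hy, a, ha, h5⟩ := p4 B h4
      exact ⟨n5 B h4, y, n2 B h4 hy, a, ha, hs _ _ h5⟩
    · obtain ⟨y, hy, a, ha, h5⟩ := p4 A h3
      exact ⟨(n5 A h3).symm, a, ha, y, n2 A h3 hy, h5⟩
    · exact s.cl.2 A h3 B h4 hAB
  · rcases mem_insert.1 hA with rfl | h3
    · exact ⟨n1.trans s.hH, sdiff_disjoint, n4⟩
    · exact ⟨(s.br A h3).1, (s.br A h3).2.1.mono_left sdiff_subset, (s.br A h3).2.2⟩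

theorem prs (hs : ∀ a b, adj a b → adj b a) (hno : ¬ Minor adj h) (U : Finset V) {l r : ℕ}
    (hl : 0 < l) (hr : (U.card : ℝ) < (1 + 1 / l : ℝ) ^ r) :
    ∃ A ⊆ U, ∃ B ⊆ U, Disjoint A B ∧ (∀ b ∈ B, ∀ a ∈ A, ¬ adj b a) ∧ 3 * A.card ≤ 2 * U.card ∧
      3 * B.card ≤ 2 * U.card ∧
      l * (U \ (A ∪ B)).card ≤ U.card + l * (h * (h * (2 * r + 2))) := by
  suffices H : ∀ m : ℕ, ∀ H R S F, SSt adj U l (h * (2 * r + 2)) H R S F →
      2 * H.card + F.card = m → ∃ H R S F, SSt adj U l (h * (2 * r + 2)) H R S F ∧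
        3 * H.card ≤ 2 * U.card by
    obtain ⟨A, B, S, F, s, h1⟩ := H _ U ∅ ∅ ∅ ⟨subset_rfl, empty_subset _, disjoint_empty_right _,
      fun x hx => Or.inl hx, by simp, by simp, ⟨by simp, by simp⟩, by simp, by simp⟩ rfl
    refine ⟨A, s.hH, B, s.hR, s.dis, s.cut, h1, s.rs, ?_⟩
    have h2 : U \ (A ∪ B) ⊆ S ∪ F.biUnion id := fun x hx => by
      have := s.cov x (mem_sdiff.1 hx).1
      simp only [mem_sdiff, mem_union, mem_biUnion, id] at hx ⊢
      tauto
    have h3 := (card_le_card h2).trans (card_union_le _ _)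
    have h4 := card_biUnion_le_card_mul F id _ fun A hA => (s.br A hA).2.2
    have h5 := Nat.mul_le_mul_right (h * (2 * r + 2)) (s.cl.card_lt hno).le
    have h6 := s.sm.trans (card_le_card s.hR)
    have h7 := Nat.mul_le_mul_left l (h3.trans (Nat.add_le_add_left (h4.trans h5) _))
    rw [mul_add] at h7
    omega
  intro m
  induction m using Nat.strong_induction_on with
  | _ m ih =>
  intro H R S F s hm
  rcases le_or_gt (3 * H.card) (2 * U.card) with h1 | h1
  · exact ⟨H, R, S, F, s, h1⟩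
  obtain ⟨H', R', S', F', s', h2⟩ := s.step hs hno hl hr h1
  exact ih _ (hm ▸ h2) H' R' S' F' s' rfl

/-- `U` falls into pieces of size at most `k` after deleting `X`. -/
def Pieces (adj : V → V → Prop) (U X : Finset V) (k : ℕ) : Prop :=
  ∃ c : V → Finset V, ∀ a ∈ U \ X, a ∈ c a ∧ c a ⊆ U \ X ∧ (c a).card ≤ k ∧
    (∀ b ∈ c a, c b = c a) ∧ ∀ b ∈ U \ X, adj a b → b ∈ c a

theorem Pieces.join (hs : ∀ a b, adj a b → adj b a) {U A B X Y : Finset V} {k : ℕ} (hA : A ⊆ U)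
    (hB : B ⊆ U) (hd : Disjoint A B) (hc : ∀ b ∈ B, ∀ a ∈ A, ¬ adj b a) (hX : X ⊆ A) (hY : Y ⊆ B)
    (h1 : Pieces adj A X k) (h2 : Pieces adj B Y k) :
    Pieces adj U (U \ (A ∪ B) ∪ X ∪ Y) k := by
  obtain ⟨c, h1⟩ := h1
  obtain ⟨d, h2⟩ := h2
  have hd' := disjoint_left.1 hd
  have e : U \ (U \ (A ∪ B) ∪ X ∪ Y) = A \ X ∪ B \ Y := by
    ext x
    have := @hA x
    have := @hB x
    have := @hX x
    have := @hY x
    have := @hd' x
    simp only [mem_sdiff, mem_union]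
    tauto
  unfold Pieces
  rw [e]
  refine ⟨fun v => if v ∈ A then c v else d v, fun a ha => ?_⟩
  rcases mem_union.1 ha with h3 | h3
  · obtain ⟨k1, k2, k3, k4, k5⟩ := h1 a h3
    have h4 := (mem_sdiff.1 h3).1
    simp only [if_pos h4]
    refine ⟨k1, k2.trans subset_union_left, k3, fun b hb => ?_, fun b hb h5 => ?_⟩
    · rw [if_pos (mem_sdiff.1 (k2 hb)).1, k4 b hb]
    · exact k5 b ((mem_union.1 hb).resolve_right fun h6 =>
        hc b (mem_sdiff.1 h6).1 a h4 (hs _ _ h5)) h5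
  · obtain ⟨k1, k2, k3, k4, k5⟩ := h2 a h3
    have h4 := (mem_sdiff.1 h3).1
    simp only [if_neg fun h => hd' h h4]
    refine ⟨k1, k2.trans subset_union_right, k3, fun b hb => ?_, fun b hb h5 => ?_⟩
    · rw [if_neg fun h => hd' h (mem_sdiff.1 (k2 hb)).1, k4 b hb]
    · exact k5 b ((mem_union.1 hb).resolve_left fun h6 => hc a h4 b (mem_sdiff.1 h6).1 h5) h5

omit [DecidableEq V] in
theorem snum (D : ℝ) : ∃ k : ℕ, ∀ i : ℕ,
    D * ((i + 2 : ℝ) ^ 5 * (k + 1)) ≤ 2 ^ k * (3 / 2) ^ i := by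
  obtain ⟨C, hC⟩ := (tendsto_pow_const_div_const_pow_of_one_lt 5
    (show (1 : ℝ) < 3 / 2 by norm_num)).bddAbove_range
  have h1 : ∀ i : ℕ, (i + 2 : ℝ) ^ 5 ≤ C * (3 / 2) ^ (i + 2) := fun i => by
    have := hC ⟨i + 2, rfl⟩
    rw [div_le_iff₀ (by positivity)] at this
    exact_mod_cast this
  have h0 : 0 ≤ C := by
    have := h1 0
    norm_num at this
    linarith
  have h2 := (tendsto_pow_const_div_const_pow_of_one_lt 1
    (show (1 : ℝ) < 2 by norm_num)).const_mul (|D| * C * 5)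
  rw [mul_zero] at h2
  obtain ⟨k, hk⟩ := Filter.eventually_atTop.1 (h2.eventually (eventually_le_nhds one_pos))
  refine ⟨k, fun i => ?_⟩
  have h3 := hk (k + 1) k.le_succ
  rw [← mul_div_assoc, div_le_one (by positivity), pow_one, pow_succ] at h3
  push_cast at h3
  have h4 : |D| * C * (k + 1) * (9 / 4) ≤ 2 ^ k := by
    have : 0 ≤ |D| * C * (k + 1) := by positivity
    linarith
  calc _ ≤ |D| * (C * (3 / 2) ^ (i + 2) * (k + 1)) := by
        gcongr
        · exact le_abs_self D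
        · exact h1 i
    _ = |D| * C * (k + 1) * (9 / 4) * (3 / 2) ^ i := by ring
    _ ≤ _ := by gcongr

omit [DecidableEq V] in
theorem hyperfinite (h : ℕ) {ε : ℝ} (hε : 0 < ε) : ∃ Kc : ℕ, ∀ (V : Type u) [DecidableEq V]
    (adj : V → V → Prop), (∀ a b, adj a b → adj b a) → ¬ Minor adj h → ∀ U : Finset V,
    ∃ X ⊆ U, (X.card : ℝ) ≤ ε * U.card ∧ ∃ c : V → Finset V, ∀ a ∈ U \ X,
      a ∈ c a ∧ c a ⊆ U \ X ∧ (c a).card ≤ Kc ∧ (∀ b ∈ c a, c b = c a) ∧
        ∀ b ∈ U \ X, adj a b → b ∈ c a := by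
  obtain ⟨l0, hl0⟩ := exists_nat_ge (2 / ε)
  have l1 : (0 : ℝ) < l0 := lt_of_lt_of_le (by positivity) hl0
  have l2 : 1 ≤ l0 := by exact_mod_cast l1
  rw [div_le_iff₀ hε] at hl0
  obtain ⟨k, hk⟩ := snum (4 * h ^ 2 * l0 ^ 2)
  refine ⟨2 ^ k, fun V _ adj hs hno U => ?_⟩
  suffices H : ∀ i : ℕ, ∀ U : Finset V, (U.card : ℝ) ≤ 2 ^ k * (3 / 2) ^ i → ∃ X ⊆ U,
      (X.card : ℝ) ≤ ε * (1 - 1 / (i + 1)) * U.card ∧ Pieces adj U X (2 ^ k) by
    obtain ⟨i, hi⟩ := pow_unbounded_of_one_lt (U.card : ℝ) (show (1 : ℝ) < 3 / 2 by norm_num)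
    obtain ⟨X, h1, h2, h3⟩ := H i U (hi.le.trans (le_mul_of_one_le_left (by positivity)
      (one_le_pow₀ one_le_two)))
    refine ⟨X, h1, h2.trans ?_, h3⟩
    gcongr
    exact mul_le_of_le_one_right hε.le (sub_le_self _ (by positivity))
  intro i
  induction i with
  | zero =>
    intro U hU
    refine ⟨∅, empty_subset _, by simp, fun _ => U, fun a ha => ?_⟩
    rw [sdiff_empty] at ha ⊢
    refine ⟨ha, subset_rfl, ?_, fun _ _ => rfl, fun b hb _ => hb⟩
    rw [pow_zero, mul_one] at hU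
    exact_mod_cast hU
  | succ i ih =>
    intro U hU
    have e1 : ε * (1 - 1 / ((i + 1 : ℕ) + 1)) =
        ε * (1 - 1 / (i + 1)) + ε / ((i + 1) * (i + 2)) := by
      push_cast
      field_simp
      ring
    rw [e1]
    rcases le_or_gt (U.card : ℝ) (2 ^ k * (3 / 2) ^ i) with h1 | h1
    · obtain ⟨X, x1, x2, x3⟩ := ih U h1
      refine ⟨X, x1, x2.trans ?_, x3⟩
      gcongr
      exact le_add_of_nonneg_right (by positivity)
    set l := l0 * ((i + 1) * (i + 2)) with hl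
    have l3 : 0 < l := by positivity
    have l4 : (0 : ℝ) < l := by exact_mod_cast l3
    have l5 : (2 : ℝ) ≤ (1 + 1 / l) ^ l := by
      have := one_add_mul_le_pow (show (-2 : ℝ) ≤ 1 / l from
        le_trans (by norm_num) (one_div_pos.2 l4).le) l
      rwa [mul_one_div_cancel l4.ne', one_add_one_eq_two] at this
    obtain ⟨A, a1, B, b1, h2, h3, h4, h5, h6⟩ := prs hs hno U (r := l * (k + i + 2)) l3 (by
      calc (U.card : ℝ) ≤ 2 ^ k * 2 ^ (i + 1) := hU.trans (by gcongr; norm_num)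
        _ < 2 ^ (k + i + 2) := by
          rw [← pow_add]
          exact pow_lt_pow_right₀ one_lt_two (by omega)
        _ ≤ _ := by rw [pow_mul]; gcongr)
    have sm : ∀ A : Finset V, 3 * A.card ≤ 2 * U.card → (A.card : ℝ) ≤ 2 ^ k * (3 / 2) ^ i :=
      fun A hA => by
        have : (3 : ℝ) * A.card ≤ 2 * U.card := by exact_mod_cast hA
        rw [pow_succ, ← mul_assoc] at hU
        linarith
    obtain ⟨X, x1, x2, x3⟩ := ih A (sm A h4)
    obtain ⟨Y, y1, y2, y3⟩ := ih B (sm B h5)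
    refine ⟨_, union_subset (union_subset sdiff_subset (x1.trans a1)) (y1.trans b1), ?_,
      x3.join hs a1 b1 h2 h3 x1 y1 y3⟩
    have c1 : ((U \ (A ∪ B) ∪ X ∪ Y).card : ℝ) ≤ (U \ (A ∪ B)).card + X.card + Y.card := by
      exact_mod_cast (card_union_le _ _).trans (Nat.add_le_add_right (card_union_le _ _) _)
    have c2 : (A.card : ℝ) + B.card ≤ U.card := by
      rw [← Nat.cast_add, ← card_union_of_disjoint h2]
      exact_mod_cast card_le_card (union_subset a1 b1)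
    have c3 : 0 ≤ ε * (1 - 1 / (i + 1 : ℝ)) := mul_nonneg hε.le (by
      rw [sub_nonneg, div_le_one (by positivity)]
      linarith [(Nat.cast_nonneg i : (0 : ℝ) ≤ i)])
    have c4 : l * (h * (h * (2 * (l * (k + i + 2)) + 2))) ≤
        4 * h ^ 2 * l0 ^ 2 * ((i + 2) ^ 5 * (k + 1)) := by
      have d1 : l ≤ l0 * (i + 2) ^ 2 := by rw [hl]; gcongr; nlinarith
      have d2 : k + i + 2 ≤ (i + 2) * (k + 1) := by nlinarith
      have d3 : 2 * (l * (k + i + 2)) + 2 ≤ 4 * (l * (k + i + 2)) := by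
        have : 0 < l * (k + i + 2) := by positivity
        omega
      calc _ ≤ l0 * (i + 2) ^ 2 * (h * (h * (4 * (l0 * (i + 2) ^ 2 * ((i + 2) * (k + 1)))))) := by
            refine Nat.mul_le_mul d1 (Nat.mul_le_mul_left _ (Nat.mul_le_mul_left _ (d3.trans ?_)))
            gcongr
        _ = _ := by ring
    have c5 : (l : ℝ) * (U \ (A ∪ B)).card ≤
        U.card + 4 * h ^ 2 * l0 ^ 2 * ((i + 2) ^ 5 * (k + 1)) := by
      exact_mod_cast h6.trans (Nat.add_le_add_left c4 _)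
    have c6 : ((U \ (A ∪ B)).card : ℝ) ≤ ε / ((i + 1) * (i + 2)) * U.card := by
      have d1 : (l : ℝ) = l0 * ((i + 1) * (i + 2)) := by rw [hl]; push_cast; ring
      have d2 : (l : ℝ) * (U \ (A ∪ B)).card ≤ l0 * ε * U.card := by
        nlinarith [hk i, (Nat.cast_nonneg U.card : (0 : ℝ) ≤ U.card)]
      rw [div_mul_eq_mul_div, le_div_iff₀ (by positivity)]
      rw [d1] at d2
      nlinarith
    nlinarith [mul_le_mul_of_nonneg_left c2 c3]

end Pool.Agent.MP_c6eade_gt.H41.C2x
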