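import Pool.Agent.MP_c6eade_gt.H41.Basic
import Pool.Agent.MP_c6eade_gt.H41.C2_a

namespace Pool.Agent.MP_c6eade_gt.H41

open Equiv Finset
open scoped Classical

theorem C2x.k5_of_minor {V : Type} {G : SimpleGraph V} (h : C2x.Minor G.Adj 5) : K5 G := by
  obtain ⟨A, rt, h1, h2⟩ := h
  have key : ∀ x i, (if h : ∃ j, x ∈ A j then some h.choose else none) = some i ↔ x ∈ A i :=
    fun x i => by
      split_ifs with h
      · refine ⟨fun h3 => Option.some.inj h3 ▸ h.choose_spec, fun h3 => congrArg some ?_⟩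
        by_contra h4
        exact disjoint_left.1 (h2 _ _ h4).1 h.choose_spec h3
      · exact ⟨fun h3 => absurd h3 (by simp), fun h3 => absurd ⟨i, h3⟩ h⟩
  refine ⟨fun x => if h : ∃ j, x ∈ A j then some h.choose else none, fun i x y hx hy => ?_,
    fun i j hij => ?_⟩
  · simp only [key] at hx hy ⊢
    exact Relation.ReflTransGen.mono (fun a b h => ⟨h.2.2, h.1, h.2.1⟩) _ _
      ((C2x.SCon.reroot (fun _ _ h => G.adj_symm h) (h1 i) hx).2 y hy)
  · obtain ⟨a, ha, b, hb, h3⟩ := (h2 i j hij).2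
    exact ⟨a, b, h3, (key a i).2 ha, (key b j).2 hb⟩

theorem hyperfinite {ε : ℝ} (hε : 0 < ε) : ∃ Kc : ℕ, ∀ (V : Type) [Fintype V]
    (G : SimpleGraph V), ¬ K5 G → ∃ X : Finset V, (#X : ℝ) ≤ ε * Fintype.card V ∧
      ∀ v, v ∉ X → #{w : V | Relation.ReflTransGen
        (fun a b => G.Adj a b ∧ a ∉ X ∧ b ∉ X) v w} ≤ Kc := by
  obtain ⟨Kc, H⟩ := C2x.hyperfinite 5 hε
  refine ⟨Kc, fun V _ G hG => ?_⟩
  obtain ⟨X, -, h1, c, h2⟩ := H V G.Adj (fun _ _ h => G.adj_symm h)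
    (fun h => hG (C2x.k5_of_minor h)) univ
  have m : ∀ v, v ∉ X → v ∈ univ \ X := fun v hv => mem_sdiff.2 ⟨mem_univ v, hv⟩
  refine ⟨X, h1, fun v hv => (card_le_card fun w hw => ?_).trans (h2 v (m v hv)).2.2.1⟩
  have h3 := (mem_filter.1 hw).2
  clear hw
  induction h3 with
  | refl => exact (h2 v (m v hv)).1
  | tail _ h4 ih =>
    exact (h2 v (m v hv)).2.2.2.1 _ ih ▸ (h2 _ (m _ h4.2.1)).2.2.2.2 _ (m _ h4.2.2) h4.1

end Pool.Agent.MP_c6eade_gt.H41
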