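import Pool.Agent.MP_c6eade_gt.H41.A3
import Pool.Agent.MP_c6eade_gt.H41.C1
import Pool.Agent.MP_c6eade_gt.H41.C2

namespace Pool.Agent.MP_c6eade_gt.H41

open Equiv Finset
open scoped Classical

namespace C3x

theorem mem_of_fix {D : Type} {f : Perm D} {T : Finset D} (hd : ∀ x, x ∉ T → f x = x) {x : D}
    (hx : x ∈ T) : f x ∈ T := by
  by_contra hc
  have h1 : f x = x := f.injective (hd _ hc)
  rw [h1] at hc
  exact hc hx

theorem pow_mem_of_fix {D : Type} {f : Perm D} {T : Finset D} (hd : ∀ x, x ∉ T → f x = x) {x : D}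
    (hx : x ∈ T) (i : ℕ) : (f ^ i) x ∈ T := by
  induction i with
  | zero => simpa using hx
  | succ i ih =>
    rw [pow_succ', Perm.mul_apply]
    exact mem_of_fix hd ih

theorem exists_at {D : Type} [Fintype D] (f : Perm D) (T : Finset D) (hT : T.Nonempty) :
    ∃ (V : Type) (_ : Fintype V) (a : D → V),
      (∀ x ∈ T, ∀ y ∈ T, (a x = a y ↔ f.SameCycle x y)) ∧ ∀ v, ∃ x ∈ T, a x = v := by
  obtain ⟨x0, hx0⟩ := hT
  refine ⟨{c : Quotient (Perm.SameCycle.setoid f) // ∃ x ∈ T, Quotient.mk _ x = c},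
    Fintype.ofFinite _,
    fun x => if hx : x ∈ T then ⟨Quotient.mk _ x, x, hx, rfl⟩ else ⟨Quotient.mk _ x0, x0, hx0, rfl⟩,
    fun x hx y hy => ?_, fun v => ?_⟩
  · simp only [dif_pos hx, dif_pos hy, Subtype.mk.injEq]
    exact Quotient.eq
  · obtain ⟨c, x, hx, rfl⟩ := v
    exact ⟨x, hx, by simp only [dif_pos hx]⟩

theorem avg {D κ : Type} (S B : Finset D) (cl : D → κ) (c : ℝ) (hS : S.Nonempty)
    (h : (#{x ∈ S | x ∈ B} : ℝ) ≤ c * #S) :
    ∃ x ∈ S, ∃ Q : Finset D, (∀ y, y ∈ Q ↔ y ∈ S ∧ cl y = cl x) ∧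
      (#{y ∈ Q | y ∈ B} : ℝ) ≤ c * #Q := by
  have h1 : #S = ∑ k ∈ S.image cl, #{y ∈ S | cl y = k} := card_eq_sum_card_image cl S
  have h2 : #{x ∈ S | x ∈ B} = ∑ k ∈ S.image cl, #{y ∈ {x ∈ S | x ∈ B} | cl y = k} :=
    card_eq_sum_card_fiberwise fun x hx => mem_image_of_mem _ (mem_filter.1 hx).1
  obtain ⟨k, hk, hle⟩ := exists_le_of_sum_le (hS.image cl)
    (f := fun k => (#{y ∈ {x ∈ S | x ∈ B} | cl y = k} : ℝ))
    (g := fun k => c * (#{y ∈ S | cl y = k} : ℝ)) (by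
      rw [← mul_sum, ← Nat.cast_sum, ← Nat.cast_sum, ← h1, ← h2]
      exact h)
  obtain ⟨x, hx, rfl⟩ := mem_image.1 hk
  refine ⟨x, hx, {y ∈ S | cl y = cl x}, fun y => mem_filter, ?_⟩
  rw [filter_comm]
  exact hle

theorem eqv_of_same {D : Type} [Fintype D] {f : Perm D} {r : D → D → Prop}
    (hr : ∀ a, r a (f a)) {x y : D} (h : f.SameCycle x y) : Relation.EqvGen r x y := by
  obtain ⟨n, -, rfl⟩ := h.exists_pow_eq'
  induction n with
  | zero => exact Relation.EqvGen.refl _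
  | succ n ih =>
    rw [pow_succ', Perm.mul_apply]
    exact Relation.EqvGen.trans _ _ _ (ih ⟨n, by simp⟩) (Relation.EqvGen.rel _ _ (hr _))

/-- The graph of atoms. -/
def atomG {D V : Type} (h : Perm D) (T : Finset D) (hd : ∀ x, x ∉ T → h x = x) (a : D → V) :
    SimpleGraph V where
  Adj c c' := c ≠ c' ∧ ∃ x ∈ T, a x = c ∧ a (h x) = c' ∧ h (h x) = x
  symm := ⟨by
    rintro c c' ⟨hne, x, hx, h1, h2, h3⟩
    exact ⟨hne.symm, h x, mem_of_fix hd hx, h2, by rw [h3, h1], by rw [h3]⟩⟩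
  loopless := ⟨fun c hc => hc.1 rfl⟩

theorem atomG_noK5 {D V : Type} [Fintype D] {f h : Perm D} (h0 : gen f h ≤ 0) (T : Finset D)
    (hf : ∀ x, x ∉ T → f x = x) (hd : ∀ x, x ∉ T → h x = x) (a : D → V)
    (ha : ∀ x ∈ T, ∀ y ∈ T, (a x = a y ↔ f.SameCycle x y)) : ¬ K5 (atomG h T hd a) := by
  rintro ⟨β, hc, hj⟩
  have hsome : ∀ x i, (if x ∈ T then β (a x) else none) = some i → x ∈ T ∧ β (a x) = some i := by
    intro x i hx
    by_cases hT : x ∈ T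
    · rw [if_pos hT] at hx
      exact ⟨hT, hx⟩
    · rw [if_neg hT] at hx
      exact absurd hx (by simp)
  refine no_K5 h0 (fun x => if x ∈ T then β (a x) else none) (fun x => ?_)
    (fun i x y hx hy => ?_) (fun i j hij => ?_)
  · by_cases hx : x ∈ T
    · have h1 := mem_of_fix hf hx
      have h2 : a x = a (f x) := (ha x hx _ h1).2 ⟨1, by simp⟩
      simp only [if_pos hx, if_pos h1, h2]
    · rw [hf x hx]
  · obtain ⟨hxT, hx⟩ := hsome x i hx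
    obtain ⟨hyT, hy⟩ := hsome y i hy
    have key : ∀ c, Relation.ReflTransGen (fun p q => (atomG h T hd a).Adj p q ∧ β p = some i ∧
        β q = some i) (a x) c → ∀ y ∈ T, a y = c → Relation.EqvGen (fun p q => q = f p ∨
          (q = h p ∧ h q = p ∧ (if p ∈ T then β (a p) else none) =
            (if q ∈ T then β (a q) else none))) x y := by
      intro c hc
      induction hc with
      | refl =>
        intro y hy e
        refine eqv_of_same ?_ ((ha x hxT y hy).1 e.symm)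
        exact fun p => Or.inl rfl
      | tail _ hst ih =>
        intro y hy e
        obtain ⟨⟨-, z, hz, h1, h2, h3⟩, b1, b2⟩ := hst
        have hz' := mem_of_fix hd hz
        refine Relation.EqvGen.trans _ _ _ (ih z hz h1) (Relation.EqvGen.trans _ (h z) _
          (Relation.EqvGen.rel _ _ (Or.inr ⟨rfl, h3, ?_⟩))
          (eqv_of_same ?_ ((ha _ hz' y hy).1 (h2.trans e.symm))))
        · rw [if_pos hz, if_pos hz', h1, h2, b1, b2]
        · exact fun p => Or.inl rfl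
    exact key _ (hc i _ _ hx hy) y hyT rfl
  · obtain ⟨c, c', ⟨-, z, hz, h1, h2, h3⟩, b1, b2⟩ := hj i j hij
    refine ⟨z, ?_, ?_, h3⟩
    · simp only [if_pos hz, h1, b1]
    · simp only [if_pos (mem_of_fix hd hz), h2, b2]

theorem fib {D V : Type} {f f' : Perm D} {T : Finset D} {w L : ℕ} (hf : ∀ x, x ∉ T → f x = x)
    (a : D → V) (ha : ∀ x ∈ T, ∀ y ∈ T, (a x = a y ↔ f'.SameCycle x y))
    (hat : ∀ x ∈ T, ∃ s ∈ T, ∃ n, w ≤ n ∧ n < 2 * L ∧
        (∀ y, f'.SameCycle x y ↔ ∃ i, i < n ∧ y = (f ^ i) s) ∧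
        (∀ i j, i < n → j < n → (f ^ i) s = (f ^ j) s → i = j) ∧
        (∀ i, i + 1 < n → f' ((f ^ i) s) = (f ^ (i + 1)) s) ∧
        (f' ((f ^ (n - 1)) s) ≠ f ((f ^ (n - 1)) s) → L ≤ n))
    {x : D} (hx : x ∈ T) :
    ∃ s ∈ T, w ≤ #{y ∈ T | a y = a x} ∧ #{y ∈ T | a y = a x} ≤ 2 * L ∧
      L * #{y ∈ {y ∈ T | a y = a x} | ¬ f' y = f y} ≤ #{y ∈ T | a y = a x} ∧
      ∀ y ∈ T, a y = a x → ∃ i, i < 2 * L ∧ y = (f ^ i) s := by
  obtain ⟨s, hs, n, h1, h2, h3, h4, h5, h6⟩ := hat x hx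
  have hmem : ∀ y ∈ T, a y = a x → ∃ i, i < n ∧ y = (f ^ i) s := fun y hy e =>
    (h3 y).1 ((ha x hx y hy).1 e.symm)
  have hset : {y ∈ T | a y = a x} = (range n).image fun i => (f ^ i) s := by
    ext y
    simp only [mem_filter, mem_image, mem_range]
    constructor
    · rintro ⟨hy, e⟩
      obtain ⟨i, hi, rfl⟩ := hmem y hy e
      exact ⟨i, hi, rfl⟩
    · rintro ⟨i, hi, rfl⟩
      have hT := pow_mem_of_fix hf hs i
      exact ⟨hT, ((ha x hx _ hT).2 ((h3 _).2 ⟨i, hi, rfl⟩)).symm⟩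
  have hcard : #{y ∈ T | a y = a x} = n := by
    rw [hset, card_image_of_injOn, card_range]
    intro i hi j hj e
    exact h4 i j (mem_range.1 (mem_coe.1 hi)) (mem_range.1 (mem_coe.1 hj)) e
  refine ⟨s, hs, hcard ▸ h1, hcard ▸ h2.le, ?_, fun y hy e => ?_⟩
  · have hlast : ∀ y ∈ {y ∈ {y ∈ T | a y = a x} | ¬ f' y = f y}, y = (f ^ (n - 1)) s := by
      intro y hy
      obtain ⟨hy1, hy2⟩ := mem_filter.1 hy
      obtain ⟨hy3, hy4⟩ := mem_filter.1 hy1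
      obtain ⟨i, hi, rfl⟩ := hmem y hy3 hy4
      by_cases hi' : i + 1 < n
      · exact absurd (by rw [h5 i hi', pow_succ', Perm.mul_apply]) hy2
      · rw [show n - 1 = i by omega]
    rcases ({y ∈ {y ∈ T | a y = a x} | ¬ f' y = f y}).eq_empty_or_nonempty with he | ⟨y, hy⟩
    · rw [he, card_empty, mul_zero]
      exact Nat.zero_le _
    · have hL : L ≤ n := h6 (by
        rw [← hlast y hy]
        exact (mem_filter.1 hy).2)
      have hone : #{y ∈ {y ∈ T | a y = a x} | ¬ f' y = f y} ≤ 1 :=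
        card_le_one.2 fun p hp q hq => (hlast p hp).trans (hlast q hq).symm
      calc L * _ ≤ L * 1 := Nat.mul_le_mul_left _ hone
        _ ≤ _ := by rw [mul_one, hcard]; exact hL
  · obtain ⟨i, hi, e'⟩ := hmem y hy e
    exact ⟨i, hi.trans h2, e'⟩

theorem card_over {D V : Type} (S : Finset D) (a : D → V) (U : Finset V) :
    #{y ∈ S | a y ∈ U} = ∑ v ∈ U, #{y ∈ S | a y = v} := by
  rw [card_eq_sum_card_fiberwise (s := {y ∈ S | a y ∈ U}) (f := a) (t := U)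
    fun x hx => mem_coe.2 (mem_filter.1 (mem_coe.1 hx)).2]
  refine sum_congr rfl fun v hv => ?_
  congr 1
  ext y
  simp only [mem_filter]
  constructor
  · rintro ⟨⟨h1, -⟩, h2⟩
    exact ⟨h1, h2⟩
  · rintro ⟨h1, h2⟩
    exact ⟨⟨h1, h2 ▸ hv⟩, h2⟩

end C3x

open C3x in
theorem good_piece {η : ℝ} (hη : 0 < η) (ρ : ℕ) (hρ : 1 ≤ ρ) : ∃ Kc : ℕ,
    ∀ (D : Type) [Fintype D] (f h : Perm D) (T Bad : Finset D) (w : ℕ), 0 < w → gen f h ≤ 0 →
      (∀ x, x ∉ T → f x = x ∧ h x = x) → T.Nonempty →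
      (∀ x ∈ T, ∀ i, 0 < i → i < w → (f ^ i) x ≠ x) → (∀ x ∈ T, x ∉ Bad → h (h x) = x) →
      (#Bad : ℝ) ≤ η * #T →
      ∃ Pi Lk St : Finset D, Pi ⊆ T ∧ Lk ⊆ Pi ∧ St ⊆ T ∧ (∀ x ∈ Lk, f x ∈ Pi) ∧ w ≤ #Pi ∧
        ρ * w * (#Pi - #Lk) ≤ #Pi ∧ #St ≤ Kc ∧
        (∀ x ∈ Pi, ∃ s ∈ St, ∃ i, i < w ∧ x = (f ^ i) s) ∧
        (#{x ∈ Pi | x ∈ Bad ∨ h x ∉ Pi} : ℝ) ≤ 4 * η * #Pi := by
  obtain ⟨θ, hθ0, hθ1, hθ2⟩ : ∃ θ : ℝ, 0 < θ ∧ θ ≤ η ∧ θ ≤ 1 / 2 :=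
    ⟨min η (1 / 2), lt_min hη (by norm_num), min_le_left _ _, min_le_right _ _⟩
  have hρ0 : (0 : ℝ) < ρ := by exact_mod_cast hρ
  obtain ⟨K0, hK0⟩ := hyperfinite (ε := θ / (2 * ρ)) (by positivity)
  refine ⟨K0 * (2 * ρ), fun D _ f h T Bad w hw h0 hd hT hg hB hBad => ?_⟩
  have hf : ∀ x, x ∉ T → f x = x := fun x hx => (hd x hx).1
  have hh : ∀ x, x ∉ T → h x = x := fun x hx => (hd x hx).2
  obtain ⟨f', h0', hf', hat⟩ := atoms (f := f) (h := h) T w (ρ * w) hw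
    (Nat.le_mul_of_pos_left _ hρ) h0 hf hg
  obtain ⟨V, _, a, ha, hsur⟩ := exists_at f' T hT
  obtain ⟨X, hX, hcomp⟩ := hK0 V (atomG h T hh a) (atomG_noK5 h0' T hf' hh a ha)
  have hfib : ∀ v : V, ∃ s ∈ T, w ≤ #{y ∈ T | a y = v} ∧ #{y ∈ T | a y = v} ≤ 2 * (ρ * w) ∧
      ρ * w * #{y ∈ {y ∈ T | a y = v} | ¬ f' y = f y} ≤ #{y ∈ T | a y = v} ∧
      ∀ y ∈ T, a y = v → ∃ i, i < 2 * (ρ * w) ∧ y = (f ^ i) s := by
    intro v
    obtain ⟨x, hx, rfl⟩ := hsur v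
    exact fib hf a ha hat hx
  choose st hst hlo hup hlk hcov using hfib
  have hLo : ∀ U : Finset V, #U * w ≤ #{y ∈ T | a y ∈ U} := fun U => by
    rw [card_over, ← smul_eq_mul]
    exact card_nsmul_le_sum U _ w fun v _ => hlo v
  have hUp : ∀ U : Finset V, #{y ∈ T | a y ∈ U} ≤ #U * (2 * (ρ * w)) := fun U => by
    rw [card_over, ← smul_eq_mul]
    exact sum_le_card_nsmul U _ _ fun v _ => hup v
  have hVT : (Fintype.card V : ℝ) * w ≤ #T := by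
    have h1 := (hLo univ).trans (card_filter_le _ _)
    rw [card_univ] at h1
    exact_mod_cast h1
  have hDel : (#{y ∈ T | a y ∈ X} : ℝ) ≤ θ * #T := by
    have h1 : (#{y ∈ T | a y ∈ X} : ℝ) ≤ #X * (2 * (ρ * w)) := by exact_mod_cast hUp X
    calc (#{y ∈ T | a y ∈ X} : ℝ) ≤ #X * (2 * (ρ * w)) := h1
      _ ≤ θ / (2 * ρ) * Fintype.card V * (2 * (ρ * w)) :=
        mul_le_mul_of_nonneg_right hX (by positivity)
      _ = θ * (Fintype.card V * w) := by field_simp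
      _ ≤ θ * #T := mul_le_mul_of_nonneg_left hVT hθ0.le
  have hTpos : (0 : ℝ) < #T := by exact_mod_cast hT.card_pos
  have hsplit : (#{y ∈ T | a y ∈ X} : ℝ) + #{y ∈ T | ¬ a y ∈ X} = #T := by
    exact_mod_cast card_filter_add_card_filter_not (s := T) fun y => a y ∈ X
  have hLive : (#T : ℝ) ≤ 2 * #{y ∈ T | ¬ a y ∈ X} := by nlinarith
  have hLne : ({y ∈ T | ¬ a y ∈ X}).Nonempty := by
    rw [← card_pos]
    have : (0 : ℝ) < #{y ∈ T | ¬ a y ∈ X} := by linarith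
    exact_mod_cast this
  obtain ⟨B', hB'1, hB'2⟩ : ∃ B' : Finset D, (#B' : ℝ) ≤ 2 * η * #T ∧
      ∀ x, x ∈ Bad ∨ (h x ∈ T ∧ a (h x) ∈ X) → x ∈ B' := by
    refine ⟨Bad ∪ ({y ∈ T | a y ∈ X}).image h.symm, ?_, fun x hx => ?_⟩
    · have h1 : #(Bad ∪ ({y ∈ T | a y ∈ X}).image h.symm) ≤ #Bad + #{y ∈ T | a y ∈ X} :=
        (card_union_le _ _).trans (Nat.add_le_add_left card_image_le _)
      have h2 : (#(Bad ∪ ({y ∈ T | a y ∈ X}).image h.symm) : ℝ) ≤ #Bad + #{y ∈ T | a y ∈ X} := by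
        exact_mod_cast h1
      nlinarith
    · rcases hx with hx | hx
      · exact mem_union_left _ hx
      · exact mem_union_right _ (mem_image.2 ⟨h x, mem_filter.2 hx, by simp⟩)
  obtain ⟨R, hR⟩ : ∃ R : V → V → Prop, R = Relation.ReflTransGen
      fun p q => (atomG h T hh a).Adj p q ∧ p ∉ X ∧ q ∉ X := ⟨_, rfl⟩
  have Rrefl : ∀ v, R v v := fun v => by rw [hR]
  have Rtrans : ∀ {p q r}, R p q → R q r → R p r := fun h1 h2 => by
    rw [hR] at h1 h2 ⊢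
    exact h1.trans h2
  have Rsymm : ∀ {p q}, R p q → R q p := fun {p q} h1 => by
    rw [hR] at h1 ⊢
    induction h1 with
    | refl => exact Relation.ReflTransGen.refl
    | tail _ hst ih => exact Relation.ReflTransGen.head ⟨hst.1.symm, hst.2.2, hst.2.1⟩ ih
  have Rnot : ∀ {p q}, p ∉ X → R p q → q ∉ X := fun {p q} hp h1 => by
    rw [hR] at h1
    induction h1 with
    | refl => exact hp
    | tail _ hst _ => exact hst.2.2
  have Rstep : ∀ {p q}, (atomG h T hh a).Adj p q → p ∉ X → q ∉ X → R p q := fun h1 h2 h3 => by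
    rw [hR]
    exact Relation.ReflTransGen.single ⟨h1, h2, h3⟩
  obtain ⟨x0, hx0, Q, hQ, hav⟩ := avg {y ∈ T | ¬ a y ∈ X} B' (fun y => R (a y)) (4 * η) hLne (by
    have h1 : #{x ∈ {y ∈ T | ¬ a y ∈ X} | x ∈ B'} ≤ #B' :=
      card_le_card fun x hx => (mem_filter.1 hx).2
    have h2 : (#{x ∈ {y ∈ T | ¬ a y ∈ X} | x ∈ B'} : ℝ) ≤ #B' := by exact_mod_cast h1
    nlinarith)
  obtain ⟨hx0T, hx0X⟩ := mem_filter.1 hx0
  obtain ⟨U, hU, hUK⟩ : ∃ U : Finset V, (∀ v, v ∈ U ↔ R (a x0) v) ∧ #U ≤ K0 :=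
    ⟨_, fun v => by rw [hR]; simp only [mem_filter, mem_univ, true_and], hcomp (a x0) hx0X⟩
  have hPi : Q = {y ∈ T | a y ∈ U} := by
    ext y
    simp only [hQ, mem_filter, hU]
    constructor
    · rintro ⟨⟨h1, -⟩, h2⟩
      exact ⟨h1, h2 ▸ Rrefl (a y)⟩
    · rintro ⟨h1, h2⟩
      exact ⟨⟨h1, Rnot hx0X h2⟩, funext fun v => propext
        ⟨fun h3 => Rtrans h2 h3, fun h3 => Rtrans (Rsymm h2) h3⟩⟩
  rw [hPi] at hav
  refine ⟨{y ∈ T | a y ∈ U}, {y ∈ {y ∈ T | a y ∈ U} | f' y = f y},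
    (U ×ˢ range (2 * ρ)).image fun c => (f ^ (w * c.2)) (st c.1), filter_subset _ _,
    filter_subset _ _, ?_, ?_, ?_, ?_, ?_, ?_, ?_⟩
  · intro s hs
    obtain ⟨c, -, rfl⟩ := mem_image.1 hs
    exact pow_mem_of_fix hf (hst _) _
  · intro x hx
    obtain ⟨hx1, hx2⟩ := mem_filter.1 hx
    obtain ⟨hx3, hx4⟩ := mem_filter.1 hx1
    have h1 := mem_of_fix hf' hx3
    have h2 : a x = a (f' x) := (ha x hx3 _ h1).2 ⟨1, by simp⟩
    rw [← hx2]
    exact mem_filter.2 ⟨h1, h2 ▸ hx4⟩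
  · have h1 : 1 ≤ #U := card_pos.2 ⟨a x0, (hU _).2 (Rrefl _)⟩
    exact le_trans (Nat.le_mul_of_pos_left _ h1) (hLo U)
  · have h1 := card_filter_add_card_filter_not (s := {y ∈ T | a y ∈ U}) fun y => f' y = f y
    rw [show #{y ∈ T | a y ∈ U} - #{y ∈ {y ∈ T | a y ∈ U} | f' y = f y} =
      #{y ∈ {y ∈ T | a y ∈ U} | ¬ f' y = f y} by omega, filter_comm, card_over, card_over, mul_sum]
    refine sum_le_sum fun v _ => ?_
    rw [filter_comm]
    exact hlk v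
  · refine card_image_le.trans ?_
    rw [card_product, card_range]
    exact Nat.mul_le_mul_right _ hUK
  · intro x hx
    obtain ⟨hx1, hx2⟩ := mem_filter.1 hx
    obtain ⟨i, hi, e⟩ := hcov (a x) x hx1 rfl
    refine ⟨(f ^ (w * (i / w))) (st (a x)), mem_image.2 ⟨(a x, i / w), mem_product.2 ⟨hx2,
      mem_range.2 ((Nat.div_lt_iff_lt_mul hw).2 (by rw [mul_assoc]; exact hi))⟩, rfl⟩, i % w,
      Nat.mod_lt _ hw, ?_⟩
    rw [← Perm.mul_apply, ← pow_add, Nat.mod_add_div]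
    exact e
  · refine le_trans ?_ hav
    refine Nat.cast_le.2 (card_le_card fun x hx => ?_)
    obtain ⟨hx1, hx2⟩ := mem_filter.1 hx
    obtain ⟨hx3, hx4⟩ := mem_filter.1 hx1
    refine mem_filter.2 ⟨hx1, hB'2 x ?_⟩
    by_cases hb : x ∈ Bad
    · exact Or.inl hb
    · have h1 := mem_of_fix hh hx3
      refine Or.inr ⟨h1, ?_⟩
      by_contra hn
      refine hx2.resolve_left hb (mem_filter.2 ⟨h1, ?_⟩)
      by_cases e : a x = a (h x)
      · exact e ▸ hx4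
      · exact (hU _).2 (Rtrans ((hU _).1 hx4) (Rstep ⟨e, x, hx3, rfl, rfl, hB x hx3 hb⟩
          (Rnot hx0X ((hU _).1 hx4)) hn))

end Pool.Agent.MP_c6eade_gt.H41
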