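import Pool.Agent.MP_c6eade_gt.H41.W

namespace Pool.Agent.MP_c6eade_gt.H41

open Equiv Finset
open scoped Classical

namespace D2x

variable {R E : Type} {row : E → R} {σ : E → E}

/-- an infinite non-backtracking walk -/
def NBI (row : E → R) (σ : E → E) (p : ℕ → E) : Prop :=
  ∀ n, σ (p n) ≠ p n ∧ row (p (n + 1)) = row (σ (p n)) ∧ p (n + 1) ≠ σ (p n)

theorem fwd {p : ℕ → E} (hp : NBI row σ p) (i k : ℕ) : NBW row σ (fun m => p (i + m)) k :=
  ⟨fun _ _ => (hp _).1, fun m _ => (hp (i + m)).2⟩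

theorem bwd (hσ : ∀ e, σ (σ e) = e) {q : ℕ → E} (hq : NBI row σ q) (j k : ℕ) :
    NBW row σ (fun m => σ (q (j + k - m))) (k + 1) := by
  refine ⟨fun m _ h => (hq (j + k - m)).1 ?_, fun m hm => ?_⟩
  · simp only [hσ] at h
    exact h.symm
  · obtain ⟨n, hn⟩ : ∃ n, j + k - m = n + 1 := ⟨j + k - m - 1, by omega⟩
    have h2 : j + k - (m + 1) = n := by omega
    simp only [hσ, hn, h2]
    exact ⟨(hq n).2.1.symm, (hq n).2.2.symm⟩

theorem inj {w : ℕ} (hg : Girth row σ (4 * w)) {p : ℕ → E} (hp : NBI row σ p) {i j : ℕ}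
    (hi : i < w) (hj : j < w) (h : row (p i) = row (p j)) : i = j := by
  have key : ∀ a b, a < b → b < w → row (p a) ≠ row (p b) := fun a b hab hb e => by
    obtain ⟨k, rfl⟩ : ∃ k, b = a + k + 1 := ⟨b - a - 1, by omega⟩
    exact hg _ k (by omega) (fwd hp a (k + 1)) ((hp (a + k)).2.1.symm.trans e.symm)
  rcases lt_trichotomy i j with c | c | c
  · exact absurd h (key _ _ c hj)
  · exact c
  · exact absurd h.symm (key _ _ c hi)

theorem mid (hσ : ∀ e, σ (σ e) = e) {w : ℕ} (hg : Girth row σ (4 * w)) {p q : ℕ → E}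
    (hp : NBI row σ p) (hq : NBI row σ q) {i1 i2 i3 j1 j2 j3 : ℕ} (h12 : i1 < i2) (h23 : i2 < i3)
    (hi : i3 < w) (hj1 : j1 < w) (hj2 : j2 < w) (hj3 : j3 < w)
    (e1 : row (q j1) = row (p i1)) (e2 : row (q j2) = row (p i2)) (e3 : row (q j3) = row (p i3)) :
    ∃ a b, i2 = a + 1 ∧ j2 = b + 1 ∧ ((q j2 = p i2 ∧ σ (q b) = σ (p a)) ∨
      (q j2 = σ (p a) ∧ σ (q b) = p i2)) := by
  obtain ⟨k, rfl⟩ : ∃ k, i3 = i1 + k + 1 := ⟨i3 - i1 - 1, by omega⟩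
  obtain ⟨m, rfl⟩ : ∃ m, i2 = i1 + m + 1 := ⟨i2 - i1 - 1, by omega⟩
  have hm : m + 1 ≤ k := by omega
  rcases lt_trichotomy j1 j3 with c | c | c
  · obtain ⟨l, rfl⟩ : ∃ l, j3 = j1 + l + 1 := ⟨j3 - j1 - 1, by omega⟩
    obtain ⟨rfl, hw⟩ := walk_unique hσ hg (fwd hp i1 (k + 1)) (fwd hq j1 (l + 1)) (by omega)
      e1.symm ((hp (i1 + k)).2.1.symm.trans (e3.symm.trans (hq (j1 + l)).2.1))
    have a1 : p (i1 + m + 1) = q (j1 + m + 1) := hw (m + 1) hm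
    have a2 : p (i1 + m) = q (j1 + m) := hw m (by omega)
    obtain rfl : j2 = j1 + m + 1 := inj hg hq hj2 (by omega) (e2.trans (congrArg row a1))
    exact ⟨i1 + m, j1 + m, rfl, rfl, Or.inl ⟨a1.symm, congrArg σ a2.symm⟩⟩
  · subst c
    have := inj hg hp (by omega) hi (e1.symm.trans e3)
    omega
  · obtain ⟨l, rfl⟩ : ∃ l, j1 = j3 + l + 1 := ⟨j1 - j3 - 1, by omega⟩
    obtain ⟨rfl, hw⟩ := walk_unique hσ hg (fwd hp i1 (k + 1)) (bwd hσ hq j3 l) (by omega)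
      (e1.symm.trans (hq (j3 + l)).2.1)
      ((hp (i1 + k)).2.1.symm.trans (by
        rw [hσ, Nat.add_sub_cancel]
        exact e3.symm))
    obtain ⟨n, rfl⟩ : ∃ n, k = m + 1 + n := ⟨k - (m + 1), by omega⟩
    have a1 : p (i1 + m + 1) = σ (q (j3 + n)) := by
      have := hw (m + 1) hm
      rwa [show j3 + (m + 1 + n) - (m + 1) = j3 + n by omega] at this
    have a2 : p (i1 + m) = σ (q (j3 + n + 1)) := by
      have := hw m (by omega)
      rwa [show j3 + (m + 1 + n) - m = j3 + n + 1 by omega] at this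
    obtain rfl : j2 = j3 + n + 1 := inj hg hq hj2 (by omega)
      (e2.trans ((congrArg row a1).trans (hq (j3 + n)).2.1.symm))
    exact ⟨i1 + m, j3 + n, rfl, rfl, Or.inr ⟨by rw [a2, hσ], a1.symm⟩⟩

theorem two_only {B : Finset ℕ}
    (h : ∀ a ∈ B, ∀ b ∈ B, ∀ c ∈ B, a < b → b < c → False) : #B ≤ 2 := by
  rcases B.eq_empty_or_nonempty with rfl | hB
  · simp
  · refine le_trans (card_le_card (t := {B.min' hB, B.max' hB}) fun i hi => ?_) card_le_two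
    by_contra hn
    simp only [mem_insert, mem_singleton, not_or] at hn
    exact h _ (B.min'_mem hB) i hi _ (B.max'_mem hB)
      (lt_of_le_of_ne (B.min'_le i hi) (Ne.symm hn.1)) (lt_of_le_of_ne (B.le_max' i hi) hn.2)

end D2x

variable {K Ω D : Type} [Group K] [Group Ω] [Fintype D] {F : Fr K} {σ : F.E → F.E} {P : F.E → Ω}

theorem plain_count (hσ : F.Semi σ) {w : ℕ} (hg : Girth F.row σ (4 * w))
    (X : Red F.row F.kind σ P D) {Pi St : Finset D} (hSt : St ⊆ X.T)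
    (hc : ∀ x ∈ Pi, ∃ s ∈ St, ∃ i, i < w ∧ x = (X.f ^ i) s) :
    (∀ r, #{x ∈ Pi | F.row (X.o x) = r} ≤ #St) ∧
    #{x ∈ Pi | ∃ y ∈ Pi, F.row (X.o y) = F.row (X.o x) ∧
      ¬ ((X.o y = X.o x ∧ σ (X.o (X.f⁻¹ y)) = σ (X.o (X.f⁻¹ x))) ∨
        (X.o y = σ (X.o (X.f⁻¹ x)) ∧ σ (X.o (X.f⁻¹ y)) = X.o x))} ≤ 2 * #St ^ 2 := by
  have hT : ∀ x ∈ X.T, X.f x ∈ X.T := fun x hx => by
    by_contra hn
    have h1 := X.f.injective (X.dead _ hn).1
    exact hn (h1.symm ▸ hx)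
  have hs : ∀ (n : ℕ) (s : D), (X.f ^ (n + 1)) s = X.f ((X.f ^ n) s) := fun n s => by
    rw [pow_succ', Perm.mul_apply]
  have hTn : ∀ s ∈ X.T, ∀ n : ℕ, (X.f ^ n) s ∈ X.T := fun s h n => by
    induction n with
    | zero => exact h
    | succ n ih => rw [hs]; exact hT _ ih
  have hN : ∀ s ∈ St, D2x.NBI F.row σ fun n => X.o ((X.f ^ n) s) := fun s h n => by
    simp only [hs]
    exact X.cross _ (hTn s (hSt h) n)
  have hb : ∀ (n : ℕ) (s : D), X.f⁻¹ ((X.f ^ (n + 1)) s) = (X.f ^ n) s := fun n s => by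
    rw [hs]; exact X.f.symm_apply_apply _
  constructor
  · intro r
    choose! st h1 ix h2 h3 using hc
    refine card_le_card_of_injOn st (fun x hx => h1 x (mem_filter.1 hx).1) fun x hx y hy e => ?_
    obtain ⟨x1, x2⟩ := mem_filter.1 hx
    obtain ⟨y1, y2⟩ := mem_filter.1 hy
    have a : ix x = ix y := D2x.inj hg (hN _ (h1 x x1)) (h2 x x1) (h2 y y1) (by
      show F.row (X.o ((X.f ^ ix x) (st x))) = F.row (X.o ((X.f ^ ix y) (st x)))
      rw [← h3 x x1, e, ← h3 y y1, x2, y2])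
    rw [h3 x x1, h3 y y1, a, e]
  · let A : D → D → Prop := fun x y => F.row (X.o y) = F.row (X.o x) ∧
      ¬ ((X.o y = X.o x ∧ σ (X.o (X.f⁻¹ y)) = σ (X.o (X.f⁻¹ x))) ∨
        (X.o y = σ (X.o (X.f⁻¹ x)) ∧ σ (X.o (X.f⁻¹ y)) = X.o x))
    let B : D × D → Finset ℕ := fun c =>
      {i ∈ range w | ∃ j, j < w ∧ A ((X.f ^ i) c.1) ((X.f ^ j) c.2)}
    have hB : ∀ c ∈ St ×ˢ St, #(B c) ≤ 2 := fun c hc' => D2x.two_only
      fun i1 m1 i2 m2 i3 m3 h12 h23 => by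
        obtain ⟨c1, c2⟩ := mem_product.1 hc'
        obtain ⟨-, j1, l1, e1, -⟩ := mem_filter.1 m1
        obtain ⟨-, j2, l2, e2, n2⟩ := mem_filter.1 m2
        obtain ⟨r3, j3, l3, e3, -⟩ := mem_filter.1 m3
        obtain ⟨a, b, rfl, rfl, h⟩ := D2x.mid hσ.1 hg (hN _ c1) (hN _ c2) h12 h23
          (mem_range.1 r3) l1 l2 l3 e1 e2 e3
        rw [hb, hb] at n2
        exact n2 h
    calc _ ≤ #((St ×ˢ St).biUnion fun c => (B c).image fun i => (X.f ^ i) c.1) := by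
          refine card_le_card fun x hx => ?_
          obtain ⟨x1, y, y1, hxy⟩ := mem_filter.1 hx
          obtain ⟨s, s1, i, i1, rfl⟩ := hc x x1
          obtain ⟨t, t1, j, j1, rfl⟩ := hc y y1
          exact mem_biUnion.2 ⟨(s, t), mem_product.2 ⟨s1, t1⟩,
            mem_image.2 ⟨i, mem_filter.2 ⟨mem_range.2 i1, j, j1, hxy⟩, rfl⟩⟩
      _ ≤ #(St ×ˢ St) * 2 :=
          card_biUnion_le_card_mul _ _ _ fun c h => card_image_le.trans (hB c h)
      _ = 2 * #St ^ 2 := by rw [card_product]; ring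

end Pool.Agent.MP_c6eade_gt.H41
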