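import Pool.Agent.MP_c6eade_gt.H41.D1
import Pool.Agent.MP_c6eade_gt.H41.D2
import Pool.Agent.MP_c6eade_gt.H41.C3

namespace Pool.Agent.MP_c6eade_gt.H41

open Equiv Finset
open scoped Classical

namespace D3x

theorem ap_inv {D : Type} (f : Perm D) (x : D) : f (f⁻¹ x) = x := f.apply_symm_apply x

theorem inv_ap {D : Type} (f : Perm D) (x : D) : f⁻¹ (f x) = x := f.symm_apply_apply x

theorem card_le {D : Type} (f : Perm D) {Pi St : Finset D} {w : ℕ}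
    (hc : ∀ x ∈ Pi, ∃ s ∈ St, ∃ i, i < w ∧ x = (f ^ i) s) : #Pi ≤ #St * w := by
  have h : Pi ⊆ (St ×ˢ range w).image fun c => (f ^ c.2) c.1 := by
    intro x hx
    obtain ⟨s, hs, i, hi, rfl⟩ := hc x hx
    exact mem_image.2 ⟨(s, i), mem_product.2 ⟨hs, mem_range.2 hi⟩, rfl⟩
  refine (card_le_card h).trans (card_image_le.trans ?_)
  rw [card_product, card_range]

theorem card_share {D R : Type} (r : D → R) (Pi En : Finset D) {m : ℕ}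
    (h : ∀ a, #{x ∈ Pi | r x = a} ≤ m) : #{x ∈ Pi | ∃ y ∈ En, r y = r x} ≤ #En * m := by
  have h1 : {x ∈ Pi | ∃ y ∈ En, r y = r x} ⊆ En.biUnion fun y => {x ∈ Pi | r x = r y} := by
    intro x hx
    obtain ⟨h2, y, hy, h3⟩ := mem_filter.1 hx
    exact mem_biUnion.2 ⟨y, hy, mem_filter.2 ⟨h2, h3.symm⟩⟩
  exact (card_le_card h1).trans (card_biUnion_le_card_mul _ _ _ fun y _ => h _)

theorem card_pull {D : Type} {Pi : Finset D} (e : Fin #Pi ≃ Pi) {A : Finset D} (hA : A ⊆ Pi) :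
    #{x : Fin #Pi | (e x).1 ∈ A} = #A := by
  refine card_bij (fun x _ => (e x).1) (fun x hx => (mem_filter.1 hx).2) ?_ ?_
  · intro a _ b _ h
    exact e.injective (Subtype.ext h)
  · intro a ha
    exact ⟨e.symm ⟨a, hA ha⟩, mem_filter.2 ⟨mem_univ _, by simpa using ha⟩, by simp⟩

/-- The map induced on an enumeration of `Pi`. -/
noncomputable def ind {D : Type} {Pi : Finset D} (e : Fin #Pi ≃ Pi) (f : Perm D) (x : Fin #Pi) :
    Fin #Pi := if h : f (e x).1 ∈ Pi then e.symm ⟨f (e x).1, h⟩ else x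

theorem ind_eq {D : Type} {Pi : Finset D} (e : Fin #Pi ≃ Pi) (f : Perm D) {x : Fin #Pi}
    (h : f (e x).1 ∈ Pi) : (e (ind e f x)).1 = f (e x).1 := by
  unfold ind
  rw [dif_pos h, Equiv.apply_symm_apply]

variable {K Ω D : Type} [Group K] [Group Ω] {F : Fr K} {σ : F.E → F.E} {P : F.E → Ω}

omit [Group K] in
theorem inv_mem (X : Red F.row F.kind σ P D) {x : D} (hx : x ∈ X.T) : X.f⁻¹ x ∈ X.T := by
  by_contra h
  have h1 := (X.dead _ h).1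
  rw [ap_inv] at h1
  exact h (h1 ▸ hx)

omit [Group K] in
theorem cross_inv (X : Red F.row F.kind σ P D) {x : D} (hx : x ∈ X.T) :
    F.row (σ (X.o (X.f⁻¹ x))) = F.row (X.o x) ∧ σ (X.o (X.f⁻¹ x)) ≠ X.o x := by
  have h := X.cross _ (inv_mem X hx)
  rw [ap_inv] at h
  exact ⟨h.2.1.symm, h.2.2.symm⟩

theorem build (X : Red F.row F.kind σ P D) {j : K →* Ω} (hj : Function.Injective j)
    (hP : ∀ e, F.row e ≠ F.room → P e = j (F.pos e)) {Pi Lk Gd NP : Finset D} (hPi : Pi ⊆ X.T)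
    (hLk : Lk ⊆ Pi) (hf : ∀ x ∈ Lk, X.f x ∈ Pi) (hGd : Gd ⊆ Pi)
    (hG : ∀ x ∈ Gd, X.h x ∈ Pi ∧ x ∉ NP ∧ X.h x ∉ NP ∧ x ≠ X.d ∧ X.h x ≠ X.d ∧ X.h (X.h x) = x ∧
      F.row (X.o x) ≠ F.room ∧ F.row (X.o (X.h x)) ≠ F.row (X.o x))
    (hNP : ∀ x ∈ Pi, x ∉ NP → ∀ y ∈ Pi, F.row (X.o y) = F.row (X.o x) →
      ((X.o y = X.o x ∧ σ (X.o (X.f⁻¹ y)) = σ (X.o (X.f⁻¹ x))) ∨
        (X.o y = σ (X.o (X.f⁻¹ x)) ∧ σ (X.o (X.f⁻¹ y)) = X.o x)) ∧ y ∈ Lk ∧ X.f⁻¹ y ∈ Lk) :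
    ∃ Y : LP F σ #Pi, #Y.Gd = #Gd ∧ #Y.Lk = #Lk := by
  have e : Fin #Pi ≃ Pi := Pi.equivFin.symm
  have hT : ∀ x : Fin #Pi, (e x).1 ∈ X.T := fun x => hPi (e x).2
  have hpl : ∀ x : Fin #Pi, (e x).1 ∉ NP → F.row (X.o (e x).1) ≠ F.room →
      F.Plain (fun x => X.o (e x).1) (fun x => σ (X.o (X.f⁻¹ (e x).1))) (ind e X.f)
        {x : Fin #Pi | (e x).1 ∈ Lk} x := by
    intro x h1 h2
    refine ⟨h2, fun y hy => ?_⟩
    obtain ⟨h3, h4, h5⟩ := hNP _ (e x).2 h1 _ (e y).2 hy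
    refine ⟨h3, mem_filter.2 ⟨mem_univ _, h4⟩, e.symm ⟨_, hLk h5⟩,
      mem_filter.2 ⟨mem_univ _, by simpa using h5⟩, e.injective (Subtype.ext ?_)⟩
    rw [ind_eq e X.f (by simp)]
    simp
  refine ⟨⟨fun x => X.o (e x).1, fun x => σ (X.o (X.f⁻¹ (e x).1)), ind e X.f, ind e X.h,
    {x : Fin #Pi | (e x).1 ∈ Lk}, {x : Fin #Pi | (e x).1 ∈ Gd}, fun x => (cross_inv X (hT x)).1,
    fun x => (cross_inv X (hT x)).2, ?_, ?_, ?_, ?_⟩, card_pull e hGd, card_pull e hLk⟩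
  · intro x hx
    refine ⟨?_, (X.cross _ (hT x)).1⟩
    show σ (X.o (X.f⁻¹ (e (ind e X.f x)).1)) = _
    rw [ind_eq e X.f (hf _ (mem_filter.1 hx).2), inv_ap]
  · intro a ha b hb hab
    have h1 := ind_eq e X.f (hf _ (mem_filter.1 (mem_coe.1 ha)).2)
    have h2 := ind_eq e X.f (hf _ (mem_filter.1 (mem_coe.1 hb)).2)
    rw [hab, h2] at h1
    exact e.injective (Subtype.ext (X.f.injective h1.symm))
  · intro a ha b hb hab
    have h1 := ind_eq e X.h (hG _ (mem_filter.1 (mem_coe.1 ha)).2).1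
    have h2 := ind_eq e X.h (hG _ (mem_filter.1 (mem_coe.1 hb)).2).1
    rw [hab, h2] at h1
    exact e.injective (Subtype.ext (X.h.injective h1.symm))
  · intro x hx
    obtain ⟨g1, g2, g3, g4, g5, g6, g7, g8⟩ := hG _ (mem_filter.1 hx).2
    have hm := ind_eq e X.h g1
    have hk := X.kind_eq _ (hT x)
    have g9 : F.row (X.o (X.h (e x).1)) ≠ F.room := by
      intro h
      rw [h] at hk
      exact g7 (F.hroom _ hk.symm)
    refine ⟨hpl x g2 g7, hpl _ (hm ▸ g3) (hm ▸ g9), ?_, ?_, ?_⟩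
    · show F.row (X.o (e (ind e X.h x)).1) ≠ _
      rw [hm]
      exact g8
    · show F.kind (F.row (X.o (e (ind e X.h x)).1)) = _
      rw [hm]
      exact hk
    · show F.dif (σ (X.o (X.f⁻¹ (e (ind e X.h x)).1))) (X.o (e (ind e X.h x)).1) =
        (F.dif (σ (X.o (X.f⁻¹ (e x).1))) (X.o (e x).1))⁻¹
      rw [hm]
      have r1 := X.rel _ (hT x) g4
      have r2 := X.rel _ (hPi g1) g5
      rw [g6] at r2
      rw [hP _ ((cross_inv X (hT x)).1 ▸ g7), hP _ g9] at r1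
      rw [hP _ ((cross_inv X (hPi g1)).1 ▸ g9), hP _ g7] at r2
      refine hj ?_
      unfold Fr.dif
      simp only [map_mul, map_inv, mul_inv_rev, inv_inv]
      rw [eq_inv_mul_of_mul_eq r1.symm, eq_inv_mul_of_mul_eq r2]
      group

end D3x

theorem red_to_LP {ε : ℝ} (hε : 0 < ε) (ρ : ℕ) (hρ : 1 ≤ ρ) : ∃ Kc w0 : ℕ, ∀ w, w0 ≤ w →
    ∀ (K Ω D : Type) [Group K] [Group Ω] [Fintype D] (F : Fr K) (σ : F.E → F.E) (P : F.E → Ω)
      (j : K →* Ω), F.Semi σ → Girth F.row σ (4 * w) → Function.Injective j →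
      (∀ e, F.row e ≠ F.room → P e = j (F.pos e)) → Red F.row F.kind σ P D →
      ∃ p, 0 < p ∧ p ≤ Kc * w ∧ ∃ Y : LP F σ p, Y.Ok ε (ρ * w) := by
  obtain ⟨Kc, hKc⟩ := good_piece (η := ε / 8) (by positivity) ρ hρ
  refine ⟨Kc, ⌈(800 + 16 * (Kc : ℝ) ^ 2) / ε⌉₊ + 1, ?_⟩
  intro w hw K Ω D _ _ _ F σ P j hσ hg hj hP X
  have hw1 : 1 ≤ w := by omega
  have hw2 : 800 + 16 * (Kc : ℝ) ^ 2 ≤ ε * w := by
    have h1 : (800 + 16 * (Kc : ℝ) ^ 2) / ε ≤ w :=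
      (Nat.le_ceil _).trans (Nat.cast_le.2 (Nat.le_of_succ_le hw))
    rw [div_le_iff₀ hε] at h1
    linarith
  have hwr : (0 : ℝ) < w := by exact_mod_cast hw1
  obtain ⟨hcy, Bad, hB1, hB2⟩ := bad_count hσ hw1 hg hj hP X
  have hB3 : (#Bad : ℝ) ≤ ε / 8 * #X.T := by
    have h1 : (w : ℝ) * #Bad ≤ 100 * #X.T := by exact_mod_cast hB1
    have h2 : (100 : ℝ) ≤ w * (ε / 8) := by nlinarith [sq_nonneg (Kc : ℝ)]
    refine le_of_mul_le_mul_left (h1.trans ?_) hwr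
    rw [← mul_assoc]
    exact mul_le_mul_of_nonneg_right h2 (Nat.cast_nonneg _)
  obtain ⟨Pi, Lk, St, h1, h2, h3, h4, h5, h6, h7, h8, h9⟩ := hKc D X.f X.h X.T Bad w hw1 X.planar
    X.dead ⟨X.d, X.d_mem⟩ (fun x hx i hi hi' => hcy x hx i hi (by omega))
    (fun x hx hb => (hB2 x hx hb).2.2.1) hB3
  obtain ⟨c1, c2⟩ := plain_count hσ hg X h3 h8
  have hp : #Pi ≤ Kc * w := (D3x.card_le X.f h8).trans (Nat.mul_le_mul_right _ h7)
  have hne : #Pi - #Lk ≤ Kc := by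
    have h10 : w * (#Pi - #Lk) ≤ w * Kc := by
      calc w * (#Pi - #Lk) ≤ ρ * w * (#Pi - #Lk) :=
            Nat.mul_le_mul_right _ (Nat.le_mul_of_pos_left _ hρ)
        _ ≤ w * Kc := h6.trans (by rwa [mul_comm] at hp)
    exact Nat.le_of_mul_le_mul_left h10 hw1
  set En : Finset D := (Pi \ Lk) ∪ (Pi \ Lk.image X.f) with hEn
  have hE : #En ≤ 2 * Kc := by
    refine (card_union_le _ _).trans ?_
    have h10 : Lk.image X.f ⊆ Pi := fun y hy => by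
      obtain ⟨x, hx, rfl⟩ := mem_image.1 hy
      exact h4 x hx
    rw [card_sdiff_of_subset h2, card_sdiff_of_subset h10, card_image_of_injective _ X.f.injective]
    omega
  set N1 : Finset D := {x ∈ Pi | ∃ y ∈ Pi, F.row (X.o y) = F.row (X.o x) ∧
      ¬ ((X.o y = X.o x ∧ σ (X.o (X.f⁻¹ y)) = σ (X.o (X.f⁻¹ x))) ∨
        (X.o y = σ (X.o (X.f⁻¹ x)) ∧ σ (X.o (X.f⁻¹ y)) = X.o x))} with hN1
  set N2 : Finset D := {x ∈ Pi | ∃ y ∈ En, F.row (X.o y) = F.row (X.o x)} with hN2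
  have c3 : #N2 ≤ #En * Kc :=
    D3x.card_share (fun x => F.row (X.o x)) Pi En fun a => (c1 a).trans h7
  have c4 : #(N1 ∪ N2) ≤ 4 * Kc ^ 2 := by
    refine (card_union_le _ _).trans ?_
    have h10 : #St ^ 2 ≤ Kc ^ 2 := Nat.pow_le_pow_left h7 2
    have h11 : #En * Kc ≤ 2 * Kc * Kc := Nat.mul_le_mul_right _ hE
    nlinarith
  set Gd : Finset D := {x ∈ Pi | ¬ (x ∈ Bad ∨ X.h x ∉ Pi) ∧ x ∉ N1 ∪ N2 ∧ X.h x ∉ N1 ∪ N2} with hGd
  obtain ⟨Y, y1, y2⟩ := D3x.build X hj hP (Gd := Gd) (NP := N1 ∪ N2) h1 h2 h4 (filter_subset _ _)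
    (by
      intro x hx
      obtain ⟨a1, a2, a3, a4⟩ := mem_filter.1 hx
      rw [not_or, not_not] at a2
      exact ⟨a2.2, a3, a4, hB2 x (h1 a1) a2.1⟩)
    (by
      intro x hx hn y hy hr
      rw [mem_union, not_or] at hn
      have b1 : y ∉ En := fun h => hn.2 (mem_filter.2 ⟨hx, y, h, hr⟩)
      rw [hEn, mem_union, not_or, mem_sdiff, mem_sdiff] at b1
      refine ⟨by_contra fun h => hn.1 (mem_filter.2 ⟨hx, y, hy, hr, h⟩),
        by_contra fun h => b1.1 ⟨hy, h⟩, ?_⟩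
      obtain ⟨z, hz, rfl⟩ := mem_image.1 (by_contra fun h => b1.2 ⟨hy, h⟩ : y ∈ Lk.image X.f)
      rwa [D3x.inv_ap])
  refine ⟨#Pi, by omega, hp, Y, ?_, ?_⟩
  · have d1 : Pi ⊆ Gd ∪ ({x ∈ Pi | x ∈ Bad ∨ X.h x ∉ Pi} ∪
        ((N1 ∪ N2) ∪ (N1 ∪ N2).image X.h.symm)) := by
      intro x hx
      by_cases a1 : x ∈ Bad ∨ X.h x ∉ Pi
      · exact mem_union_right _ (mem_union_left _ (mem_filter.2 ⟨hx, a1⟩))
      by_cases a2 : x ∈ N1 ∪ N2
      · exact mem_union_right _ (mem_union_right _ (mem_union_left _ a2))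
      by_cases a3 : X.h x ∈ N1 ∪ N2
      · exact mem_union_right _ (mem_union_right _ (mem_union_right _
          (mem_image.2 ⟨_, a3, by simp⟩)))
      exact mem_union_left _ (mem_filter.2 ⟨hx, a1, a2, a3⟩)
    have d2 : #Pi ≤ #Gd + (#{x ∈ Pi | x ∈ Bad ∨ X.h x ∉ Pi} + (4 * Kc ^ 2 + 4 * Kc ^ 2)) :=
      (card_le_card d1).trans ((card_union_le _ _).trans (Nat.add_le_add_left
        ((card_union_le _ _).trans (Nat.add_le_add_left ((card_union_le _ _).trans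
          (Nat.add_le_add c4 (card_image_le.trans c4))) _)) _))
    have d3 : (#Pi : ℝ) ≤ #Gd + (#{x ∈ Pi | x ∈ Bad ∨ X.h x ∉ Pi} +
        (4 * (Kc : ℝ) ^ 2 + 4 * (Kc : ℝ) ^ 2)) := by exact_mod_cast d2
    have d4 : (w : ℝ) ≤ #Pi := by exact_mod_cast h5
    have d5 : ε * w ≤ ε * #Pi := mul_le_mul_of_nonneg_left d4 hε.le
    rw [y1]
    linarith
  · rw [y2]
    exact h6

end Pool.Agent.MP_c6eade_gt.H41
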