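import Mathlib

/-! Random matchings of large girth: the switching lemma. -/

set_option autoImplicit false

open Finset
open scoped Classical

noncomputable section
namespace Pool.Agent.MP_c6eade_gt.H41.E1ax

variable {H R : Type*}

/-- `x 0, ..., x (n-1)` are the outgoing half-edges of a non-backtracking walk. -/
def Walk (row : H → R) (τ : H → H) (x : ℕ → H) (n : ℕ) : Prop :=
  (∀ i, i < n → τ (x i) ≠ x i) ∧
    ∀ i, i + 1 < n → row (τ (x i)) = row (x (i + 1)) ∧ x (i + 1) ≠ τ (x i)

/-- No non-backtracking walk of length in `[1, g)` returns to its first row. -/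
def Girth (row : H → R) (τ : H → H) (g : ℕ) : Prop :=
  ∀ (n : ℕ) (x : ℕ → H), 0 < n → n < g → Walk row τ x n → row (τ (x (n - 1))) ≠ row (x 0)

/-- Distance at most `k` in the graph on rows. -/
def Reach (row : H → R) (τ : H → H) : ℕ → R → R → Prop
  | 0, r, r' => r = r'
  | k + 1, r, r' => Reach row τ k r r' ∨ ∃ h, Reach row τ k r (row h) ∧ row (τ h) = r'

variable {row : H → R} {τ τ' : H → H}

theorem Reach.refl (k : ℕ) (r : R) : Reach row τ k r r := by
  induction k with
  | zero => rfl
  | succ k ih => exact Or.inl ih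

theorem Reach.mono {k l : ℕ} {r r' : R} (h : Reach row τ k r r') (hkl : k ≤ l) :
    Reach row τ l r r' := by
  induction hkl with
  | refl => exact h
  | step _ ih => exact Or.inl ih

theorem Reach.trans {k l : ℕ} {a b c : R} (h1 : Reach row τ k a b) (h2 : Reach row τ l b c) :
    Reach row τ (k + l) a c := by
  induction l generalizing c with
  | zero => cases h2; exact h1
  | succ l ih =>
    rcases h2 with h2 | ⟨h, h2, h3⟩
    · exact Or.inl (ih h2)
    · exact Or.inr ⟨h, ih h2, h3⟩

theorem Reach.one (h : H) : Reach row τ 1 (row h) (row (τ h)) := Or.inr ⟨h, rfl, rfl⟩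

theorem Reach.symm (hi : Function.Involutive τ) {k : ℕ} {a b : R} (h : Reach row τ k a b) :
    Reach row τ k b a := by
  induction k generalizing b with
  | zero => cases h; rfl
  | succ k ih =>
    rcases h with h | ⟨h, h2, h3⟩
    · exact Or.inl (ih h)
    · have h4 : Reach row τ 1 (row (τ h)) (row (τ (τ h))) := Reach.one _
      rw [hi h, h3] at h4
      have := h4.trans (ih h2)
      rwa [add_comm] at this

theorem Reach.sub (hs : ∀ h, τ' h = h ∨ τ' h = τ h) {k : ℕ} {a b : R}
    (h : Reach row τ' k a b) : Reach row τ k a b := by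
  induction k generalizing b with
  | zero => exact h
  | succ k ih =>
    rcases h with h | ⟨h, h2, h3⟩
    · exact Or.inl (ih h)
    · rcases hs h with e | e
      · rw [e] at h3; exact Or.inl (h3 ▸ ih h2)
      · rw [e] at h3; exact Or.inr ⟨h, ih h2, h3⟩

theorem reach_seg (x : ℕ → H) (i k : ℕ)
    (hx : ∀ t, i ≤ t → t < i + k → row (τ (x t)) = row (x (t + 1))) :
    Reach row τ k (row (x i)) (row (x (i + k))) := by
  induction k with
  | zero => rfl
  | succ k ih =>
    refine Or.inr ⟨x (i + k), ih fun t h1 h2 => hx t h1 (by omega), ?_⟩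
    exact hx (i + k) (by omega) (by omega)

theorem walk_of_reach (hi : Function.Involutive τ) {k : ℕ} {a b : R} (h : Reach row τ k a b) :
    a = b ∨ ∃ n x, 0 < n ∧ n ≤ k ∧ Walk row τ x n ∧ row (x 0) = a ∧ row (τ (x (n - 1))) = b := by
  induction k generalizing b with
  | zero => exact Or.inl h
  | succ k ih =>
    have up : ∀ {b : R}, Reach row τ k a b → a = b ∨ ∃ n x, 0 < n ∧ n ≤ k + 1 ∧
        Walk row τ x n ∧ row (x 0) = a ∧ row (τ (x (n - 1))) = b := by
      intro b hb
      rcases ih hb with e | ⟨n, x, h1, h2, h3⟩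
      · exact Or.inl e
      · exact Or.inr ⟨n, x, h1, by omega, h3⟩
    rcases h with h | ⟨h, h2, h3⟩
    · exact up h
    by_cases hf : τ h = h
    · rw [hf] at h3; exact up (h3 ▸ h2)
    rcases ih h2 with e | ⟨n, x, n0, nk, hw, hx0, hxn⟩
    · refine Or.inr ⟨1, fun _ => h, one_pos, by omega, ⟨fun _ _ => hf, fun i hi => by omega⟩,
        e.symm, h3⟩
    by_cases hb : h = τ (x (n - 1))
    · have hb' : row (x (n - 1)) = b := by rw [← h3, hb, hi]
      by_cases n1 : n = 1
      · left; rw [← hx0, ← hb', n1]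
      · refine Or.inr ⟨n - 1, x, by omega, by omega,
          ⟨fun i h => hw.1 i (by omega), fun i h => hw.2 i (by omega)⟩, hx0, ?_⟩
        have := (hw.2 (n - 1 - 1) (by omega)).1
        rw [this, ← hb']
        congr 2; omega
    · refine Or.inr ⟨n + 1, Function.update x n h, by omega, by omega, ⟨?_, ?_⟩, ?_, ?_⟩
      · intro i hi
        by_cases e : i = n
        · subst e; simpa using hf
        · rw [Function.update_of_ne e]; exact hw.1 i (by omega)
      · intro i hi
        rw [Function.update_of_ne (show i ≠ n by omega)]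
        by_cases e : i + 1 = n
        · have e' : i = n - 1 := by omega
          rw [e, Function.update_self, e']
          exact ⟨hxn, hb⟩
        · rw [Function.update_of_ne e]; exact hw.2 i (by omega)
      · rw [Function.update_of_ne (by omega)]; exact hx0
      · simpa using h3

theorem Girth.sub {g : ℕ} (hg : Girth row τ g) (hs : ∀ h, τ' h = h ∨ τ' h = τ h) :
    Girth row τ' g := by
  intro n x n0 ng hw
  have e : ∀ i, i < n → τ' (x i) = τ (x i) := fun i hi => (hs _).resolve_left (hw.1 i hi)
  rw [e _ (by omega)]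
  refine hg n x n0 ng ⟨fun i hi => e i hi ▸ hw.1 i hi, fun i hi => ?_⟩
  have := hw.2 i hi
  rwa [e i (by omega)] at this

/-- The girth condition in the unfolded form with walks of length `s + 1`. -/
theorem Girth.succ_form {g : ℕ} (hg : Girth row τ g) (e : ℕ → H) (s : ℕ)
    (hw : (∀ i < s + 1, τ (e i) ≠ e i) ∧
      ∀ i, i + 1 < s + 1 → row (e (i + 1)) = row (τ (e i)) ∧ e (i + 1) ≠ τ (e i))
    (hs : s + 1 < g) : row (τ (e s)) ≠ row (e 0) :=
  hg (s + 1) e (by omega) hs ⟨hw.1, fun i hi => ⟨(hw.2 i hi).1.symm, (hw.2 i hi).2⟩⟩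

/-- Remove the edge at `a`. -/
def del (τ : H → H) (a : H) : H → H := fun h => if h = a ∨ h = τ a then h else τ h

/-- Add the edge `a b`. -/
def add (τ : H → H) (a b : H) : H → H := fun h => if h = a then b else if h = b then a else τ h

theorem del_sub (τ : H → H) (a h : H) : del τ a h = h ∨ del τ a h = τ h := by
  unfold del; split_ifs <;> simp

theorem del_inv (hi : Function.Involutive τ) (a : H) : Function.Involutive (del τ a) := by
  intro h
  by_cases e : h = a ∨ h = τ a
  · simp only [del, if_pos e]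
  · have e' : ¬ (τ h = a ∨ τ h = τ a) := by
      rintro (e' | e')
      · exact e (Or.inr (by rw [← e', hi]))
      · exact e (Or.inl (hi.injective e'))
    simp only [del, if_neg e, if_neg e', hi h]

theorem del_self (τ : H → H) (a : H) : del τ a a = a := by simp [del]
theorem del_self' (τ : H → H) (a : H) : del τ a (τ a) = τ a := by simp [del]
theorem del_ne {a h : H} (h1 : h ≠ a) (h2 : h ≠ τ a) : del τ a h = τ h := by simp [del, h1, h2]
theorem add_left (τ : H → H) (a b : H) : add τ a b a = b := by simp [add]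
theorem add_right (τ : H → H) (a b : H) : add τ a b b = a := by
  unfold add; split_ifs with h1 h2 <;> simp_all
theorem add_ne {a b h : H} (h1 : h ≠ a) (h2 : h ≠ b) : add τ a b h = τ h := by simp [add, h1, h2]
theorem add_comm' (τ : H → H) (a b : H) : add τ a b = add τ b a := by
  funext h; unfold add; split_ifs <;> simp_all

theorem add_inv (hi : Function.Involutive τ) {a b : H} (ha : τ a = a) (hb : τ b = b) :
    Function.Involutive (add τ a b) := by
  intro h
  by_cases e1 : h = a
  · rw [e1, add_left, add_right]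
  by_cases e2 : h = b
  · rw [e2, add_right, add_left]
  rw [add_ne e1 e2, add_ne, hi]
  · intro e; exact e1 (hi.injective (e.trans ha.symm))
  · intro e; exact e2 (hi.injective (e.trans hb.symm))

theorem add_girth (hi : Function.Involutive τ) {g : ℕ} (hg : Girth row τ g) {a b : H}
    (hfar : ¬ Reach row τ (g - 2) (row a) (row b)) : Girth row (add τ a b) g := by
  intro n x n0 ng hw hcl
  have key : ∀ {a b : H}, ¬ Reach row τ (g - 2) (row a) (row b) → Walk row (add τ a b) x n →
      row (add τ a b (x (n - 1))) = row (x 0) → ∀ i, i < n → x i = a →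
      (∀ t, t < i → x t ≠ a ∧ x t ≠ b) → False := by
    intro a b hfar hw hcl i hin hxi hlt
    have hfar' : ¬ Reach row τ (g - 2) (row b) (row a) := fun h => hfar (h.symm hi)
    have seg : ∀ i k, i + k < n → (∀ t, i ≤ t → t < i + k → x t ≠ a ∧ x t ≠ b) →
        Reach row τ k (row (x i)) (row (x (i + k))) := by
      intro i k hk ht
      refine reach_seg x i k fun t h1 h2 => ?_
      rw [← add_ne (τ := τ) (ht t h1 h2).1 (ht t h1 h2).2]
      exact (hw.2 t (by omega)).1
    have h0 : Reach row τ i (row (x 0)) (row a) := by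
      have := seg 0 i (by omega) fun t _ h2 => hlt t (by omega)
      rwa [zero_add, hxi] at this
    by_cases hn : i + 1 = n
    · have e : n - 1 = i := by omega
      rw [e, hxi, add_left] at hcl
      exact hfar' (hcl ▸ h0.mono (by omega))
    have hn' : i + 1 < n := by omega
    have hb := hw.2 i hn'
    rw [hxi, add_left] at hb
    by_cases hex : ∃ j, i < j ∧ j < n ∧ (x j = a ∨ x j = b)
    · obtain ⟨j, ⟨hij, hjn, hj⟩, hmin⟩ : ∃ j, (i < j ∧ j < n ∧ (x j = a ∨ x j = b)) ∧
          ∀ t, t < j → ¬ (i < t ∧ t < n ∧ (x t = a ∨ x t = b)) :=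
        ⟨Nat.find hex, Nat.find_spec hex, fun t ht => Nat.find_min hex ht⟩
      have hmid : ∀ t, i + 1 ≤ t → t < j → x t ≠ a ∧ x t ≠ b := fun t h1 h2 =>
        not_or.1 fun h => hmin t h2 ⟨by omega, by omega, h⟩
      obtain ⟨k, rfl⟩ : ∃ k, j = i + 1 + k := ⟨j - (i + 1), by omega⟩
      rcases hj with hj | hj
      · have := seg (i + 1) k hjn hmid
        rw [hj, ← hb.1] at this
        exact hfar' (this.mono (by omega))
      · have k0 : 0 < k := by
          rcases Nat.eq_zero_or_pos k with e | e
          · subst e; exact absurd hj hb.2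
          · exact e
        have e : ∀ t, t < k → add τ a b (x (i + 1 + t)) = τ (x (i + 1 + t)) := fun t ht =>
          add_ne (hmid _ (by omega) (by omega)).1 (hmid _ (by omega) (by omega)).2
        refine hg k (fun t => x (i + 1 + t)) k0 (by omega) ⟨fun t ht => ?_, fun t ht => ?_⟩ ?_
        · rw [← e t ht]; exact hw.1 _ (by omega)
        · rw [← e t (by omega)]; exact hw.2 (i + 1 + t) (by omega)
        · have := (hw.2 (i + 1 + (k - 1)) (by omega)).1
          rw [e _ (by omega), show i + 1 + (k - 1) + 1 = i + 1 + k by omega, hj] at this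
          show row (τ (x (i + 1 + (k - 1)))) = row (x (i + 1 + 0))
          rw [this, add_zero, hb.1]
    · have hmid : ∀ t, i + 1 ≤ t → t < n → x t ≠ a ∧ x t ≠ b := fun t h1 h2 =>
        not_or.1 fun h => hex ⟨t, by omega, h2, h⟩
      obtain ⟨k, hk⟩ : ∃ k, n - 1 = i + 1 + k := ⟨n - 1 - (i + 1), by omega⟩
      have h1 := seg (i + 1) k (by omega) fun t h1 h2 => hmid t h1 (by omega)
      rw [← hk, ← hb.1] at h1
      rw [add_ne (hmid _ (by omega) (by omega)).1 (hmid _ (by omega) (by omega)).2] at hcl
      have h2 : Reach row τ 1 (row (x (n - 1))) (row (x 0)) := hcl ▸ Reach.one _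
      exact hfar' (((h1.trans h2).trans h0).mono (by omega))
  by_cases hex : ∃ i, i < n ∧ (x i = a ∨ x i = b)
  · obtain ⟨i, ⟨hin, hi'⟩, hmin⟩ : ∃ i, (i < n ∧ (x i = a ∨ x i = b)) ∧
        ∀ t, t < i → ¬ (t < n ∧ (x t = a ∨ x t = b)) :=
      ⟨Nat.find hex, Nat.find_spec hex, fun t ht => Nat.find_min hex ht⟩
    have hlt : ∀ t, t < i → x t ≠ a ∧ x t ≠ b := fun t ht =>
      not_or.1 fun h => hmin t ht ⟨by omega, h⟩
    rcases hi' with e | e
    · exact key hfar hw hcl i hin e hlt
    · rw [add_comm'] at hw hcl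
      exact key (fun h => hfar (h.symm hi)) hw hcl i hin e fun t ht => (hlt t ht).symm
  · have e : ∀ t, t < n → add τ a b (x t) = τ (x t) := fun t ht =>
      add_ne (fun h => hex ⟨t, ht, Or.inl h⟩) (fun h => hex ⟨t, ht, Or.inr h⟩)
    rw [e _ (by omega)] at hcl
    refine hg n x n0 ng ⟨fun t ht => e t ht ▸ hw.1 t ht, fun t ht => ?_⟩ hcl
    have := hw.2 t ht
    rwa [e t (by omega)] at this

theorem reach_add {a b : H} {k : ℕ} {r r' : R} (h : Reach row (add τ a b) k r r') :
    Reach row τ k r r' ∨ (0 < k ∧ (Reach row τ (k - 1) r (row a) ∨ Reach row τ (k - 1) r (row b))) := by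
  induction k generalizing r' with
  | zero => exact Or.inl h
  | succ k ih =>
    have up : (0 < k ∧ (Reach row τ (k - 1) r (row a) ∨ Reach row τ (k - 1) r (row b))) →
        (0 < k + 1 ∧ (Reach row τ (k + 1 - 1) r (row a) ∨ Reach row τ (k + 1 - 1) r (row b))) :=
      fun h => ⟨by omega, h.2.imp (fun h => h.mono (by omega)) (fun h => h.mono (by omega))⟩
    rcases h with h | ⟨h, h2, h3⟩
    · exact (ih h).imp Or.inl up
    rcases ih h2 with h4 | h4
    · by_cases e1 : h = a
      · exact Or.inr ⟨by omega, Or.inl (e1 ▸ h4)⟩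
      by_cases e2 : h = b
      · exact Or.inr ⟨by omega, Or.inr (e2 ▸ h4)⟩
      rw [add_ne e1 e2] at h3
      exact Or.inl (Or.inr ⟨h, h4, h3⟩)
    · exact Or.inr (up h4)

/-- The switch: `x`, `x'` are free, the edge at `u` is replaced by two edges. -/
def sw (τ : H → H) (x x' u : H) : H → H := add (add (del τ u) x (τ u)) u x'

theorem sw_girth (hi : Function.Involutive τ) {g : ℕ} (hg : Girth row τ g) {x x' u : H}
    (hx : τ x = x) (hu : τ u ≠ u)
    (f1 : ¬ Reach row τ g (row x) (row u)) (f2 : ¬ Reach row τ g (row x) (row (τ u)))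
    (f3 : ¬ Reach row τ g (row x') (row u)) : Girth row (sw τ x x' u) g := by
  have i0 := del_inv hi u
  have s0 := del_sub τ u
  have g0 : Girth row (del τ u) g := hg.sub s0
  have hx0 : del τ u x = x := by rcases s0 x with e | e <;> simp [e, hx]
  have i1 := add_inv i0 hx0 (del_self' τ u)
  have g1 : Girth row (add (del τ u) x (τ u)) g :=
    add_girth i0 g0 fun h => f2 ((h.sub s0).mono (by omega))
  rcases Nat.lt_or_ge g 2 with g2 | g2
  · intro n y n0 ng; omega
  refine add_girth i1 g1 fun h => ?_
  rcases reach_add h with h | ⟨hk, h | h⟩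
  · exact f3 (((h.sub s0).symm hi).mono (by omega))
  · exact f1 (((h.sub s0).symm hi).mono (by omega))
  · rcases walk_of_reach i0 h with e | ⟨n, y, n0, nk, hw, hy0, hyn⟩
    · exact hg 1 (fun _ => u) one_pos (by omega) ⟨fun _ _ => hu, fun i hi => by omega⟩ e.symm
    · have e : ∀ t, t < n → del τ u (y t) = τ (y t) := fun t ht =>
        (s0 _).resolve_left (hw.1 t ht)
      refine hg (n + 1) (Function.update y n (τ u)) (by omega) (by omega) ⟨?_, ?_⟩ ?_
      · intro t ht
        by_cases e1 : t = n
        · subst e1; rw [Function.update_self, hi]; exact hu.symm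
        · rw [Function.update_of_ne e1, ← e t (by omega)]; exact hw.1 t (by omega)
      · intro t ht
        rw [Function.update_of_ne (show t ≠ n by omega), ← e t (by omega)]
        by_cases e1 : t + 1 = n
        · have e' : t = n - 1 := by omega
          rw [e1, Function.update_self, e']
          refine ⟨hyn, fun h => hw.1 (n - 1) (by omega) ?_⟩
          have h5 := i0.injective ((del_self' τ u).trans h)
          rw [← h, h5]
        · rw [Function.update_of_ne e1]; exact hw.2 t (by omega)
      · rw [Nat.add_sub_cancel, Function.update_self, hi, Function.update_of_ne (by omega), hy0]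


variable {C : Type*}

/-- A partial matching: an involution that keeps the class and reverses the side on its edges. -/
def Part (cls : H → C) (side : H → Bool) (act : C → Prop) (τ : H → H) : Prop :=
  Function.Involutive τ ∧ ∀ h, cls (τ h) = cls h ∧ (τ h = h ∨ (act (cls h) ∧ side (τ h) ≠ side h))

/-- A complete matching of girth at least `g`. -/
def Good (row : H → R) (cls : H → C) (side : H → Bool) (act : C → Prop) (g : ℕ) (σ : H → H) :
    Prop :=
  Function.Involutive σ ∧ (∀ h, cls (σ h) = cls h ∧ (act (cls h) → side (σ h) ≠ side h) ∧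
    (¬ act (cls h) → σ h = h)) ∧ Girth row σ g

variable {cls : H → C} {side : H → Bool} {act : C → Prop}

theorem good_iff {g : ℕ} {σ : H → H} : Good row cls side act g σ ↔
    Part cls side act σ ∧ Girth row σ g ∧ ∀ h, act (cls h) → σ h ≠ h := by
  constructor
  · rintro ⟨h1, h2, h3⟩
    refine ⟨⟨h1, fun h => ⟨(h2 h).1, ?_⟩⟩, h3, fun h ha e => (h2 h).2.1 ha (by rw [e])⟩
    by_cases ha : act (cls h)
    · exact Or.inr ⟨ha, (h2 h).2.1 ha⟩
    · exact Or.inl ((h2 h).2.2 ha)
  · rintro ⟨⟨h1, h2⟩, h3, h4⟩
    refine ⟨h1, fun h => ⟨(h2 h).1, fun ha => ?_, fun ha => ?_⟩, h3⟩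
    · exact ((h2 h).2.resolve_left (h4 h ha)).2
    · exact (h2 h).2.resolve_right fun h5 => ha h5.1

theorem Part.del (hp : Part cls side act τ) (a : H) : Part cls side act (del τ a) := by
  refine ⟨del_inv hp.1 a, fun h => ?_⟩
  rcases del_sub τ a h with e | e <;> rw [e]
  · exact ⟨rfl, Or.inl rfl⟩
  · exact hp.2 h

theorem Part.add (hp : Part cls side act τ) {a b : H} (ha : τ a = a) (hb : τ b = b)
    (hc : cls a = cls b) (hact : act (cls a)) (hs : side a ≠ side b) :
    Part cls side act (add τ a b) := by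
  refine ⟨add_inv hp.1 ha hb, fun h => ?_⟩
  by_cases e1 : h = a
  · rw [e1, add_left]; exact ⟨hc.symm, Or.inr ⟨hact, hs.symm⟩⟩
  by_cases e2 : h = b
  · rw [e2, add_right]; exact ⟨hc, Or.inr ⟨hc ▸ hact, hs⟩⟩
  rw [add_ne e1 e2]; exact hp.2 h

theorem sw_spec (hp : Part cls side act τ) {x x' u : H} (hx : τ x = x) (hx' : τ x' = x')
    (hu : τ u ≠ u) (hc : cls x = cls x') (hcu : cls u = cls x) (hs : side x ≠ side x')
    (hsu : side u = side x) :
    Part cls side act (sw τ x x' u) ∧ sw τ x x' u x = τ u ∧ sw τ x x' u (τ u) = x ∧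
      sw τ x x' u u = x' ∧ sw τ x x' u x' = u ∧
      ∀ h, h ≠ x → h ≠ x' → h ≠ u → h ≠ τ u → sw τ x x' u h = τ h := by
  have hu2 := (hp.2 u).2.resolve_left hu
  have n1 : x ≠ u := fun e => hu (e ▸ hx)
  have n2 : x' ≠ u := fun e => hu (e ▸ hx')
  have n3 : x ≠ τ u := fun e => n1 (hp.1.injective (hx.trans e))
  have n4 : x' ≠ τ u := fun e => n2 (hp.1.injective (hx'.trans e))
  have n5 : x ≠ x' := fun e => hs (by rw [e])
  have d1 : del τ u x = x := by rw [del_ne n1 n3, hx]
  have d2 : del τ u x' = x' := by rw [del_ne n2 n4, hx']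
  have p1 : Part cls side act (add (del τ u) x (τ u)) :=
    (hp.del u).add d1 (del_self' τ u) (by rw [(hp.2 u).1, hcu]) (hcu ▸ hu2.1)
      (by rw [← hsu]; exact hu2.2.symm)
  refine ⟨p1.add ?_ ?_ (hcu.trans hc) hu2.1 (hsu ▸ hs), ?_, ?_, add_left _ _ _,
    add_right _ _ _, fun h h1 h2 h3 h4 => ?_⟩
  · rw [add_ne n1.symm hu.symm, del_self]
  · rw [add_ne n5.symm n4, d2]
  · rw [sw, add_ne n1 n5, add_left]
  · rw [sw, add_ne hu n4.symm, add_right]
  · rw [sw, add_ne h3 h2, add_ne h1 h4, del_ne h3 h4]

variable [Fintype H]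

/-- Half-edges of the class of `x` in the ball of radius `g` around the row of `x`. -/
def near (row : H → R) (cls : H → C) (τ : H → H) (g : ℕ) (x : H) : Finset H :=
  univ.filter fun u => cls u = cls x ∧ Reach row τ g (row x) (row u)

/-- Candidates for a switch. -/
def cand (row : H → R) (cls : H → C) (side : H → Bool) (τ : H → H) (g : ℕ) (x x' : H) : Finset H :=
  univ.filter fun u => (cls u = cls x ∧ side u = side x) ∧ ¬ Reach row τ g (row x) (row u) ∧
    ¬ Reach row τ g (row x) (row (τ u)) ∧ ¬ Reach row τ g (row x') (row u)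

theorem card_cand (hp : Part cls side act τ) {g D : ℕ} {x x' : H} (hc : cls x = cls x')
    (h1 : (near row cls τ g x).card ≤ D) (h2 : (near row cls τ g x').card ≤ D) :
    (univ.filter fun u => cls u = cls x ∧ side u = side x).card ≤
      (cand row cls side τ g x x').card + 3 * D := by
  have hs : (univ.filter fun u => cls u = cls x ∧ side u = side x) ⊆
      cand row cls side τ g x x' ∪ (near row cls τ g x ∪ ((near row cls τ g x).image τ ∪
        near row cls τ g x')) := by
    intro u hu
    simp only [cand, near, mem_union, mem_filter, mem_univ, true_and, mem_image] at hu ⊢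
    by_cases e1 : Reach row τ g (row x) (row u)
    · exact Or.inr (Or.inl ⟨hu.1, e1⟩)
    by_cases e2 : Reach row τ g (row x) (row (τ u))
    · exact Or.inr (Or.inr (Or.inl ⟨τ u, ⟨(hp.2 u).1.trans hu.1, e2⟩, hp.1 u⟩))
    by_cases e3 : Reach row τ g (row x') (row u)
    · exact Or.inr (Or.inr (Or.inr ⟨hu.1.trans hc, e3⟩))
    exact Or.inl ⟨hu, e1, e2, e3⟩
  have h3 := card_image_le (s := near row cls τ g x) (f := τ)
  have h4 := card_le_card hs
  have h5 := card_union_le (cand row cls side τ g x x') (near row cls τ g x ∪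
    ((near row cls τ g x).image τ ∪ near row cls τ g x'))
  have h6 := card_union_le (near row cls τ g x) ((near row cls τ g x).image τ ∪
    near row cls τ g x')
  have h7 := card_union_le ((near row cls τ g x).image τ) (near row cls τ g x')
  omega

theorem free_partner (hp : Part cls side act τ) {x : H} (hx : τ x = x)
    (hbal : (univ.filter fun u => cls u = cls x ∧ side u = true).card =
      (univ.filter fun u => cls u = cls x ∧ side u = false).card) :
    ∃ x', τ x' = x' ∧ cls x = cls x' ∧ side x ≠ side x' := by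
  by_contra hno
  push Not at hno
  have hb : (univ.filter fun u => cls u = cls x ∧ side u = side x).card =
      (univ.filter fun u => cls u = cls x ∧ side u = !side x).card := by
    cases side x
    · exact hbal.symm
    · exact hbal
  have hle : (univ.filter fun u => cls u = cls x ∧ side u = !side x).card ≤
      ((univ.filter fun u => cls u = cls x ∧ side u = side x).erase x).card := by
    refine card_le_card_of_injOn τ (fun u hu => ?_) hp.1.injective.injOn
    simp only [coe_filter, mem_univ, true_and, Set.mem_ofPred_eq, coe_erase, Set.mem_sdiff,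
      Set.mem_singleton_iff] at hu ⊢
    have hne : side u ≠ side x := by rw [hu.2]; simp
    have hf : τ u ≠ u := fun e => hne (hno u e hu.1.symm).symm
    have h2 := ((hp.2 u).2.resolve_left hf).2
    refine ⟨⟨(hp.2 u).1.trans hu.1, ?_⟩, fun e => hne ?_⟩
    · rw [hu.2] at h2; simpa using h2
    · rw [hp.1.injective (e.trans hx.symm)]
  rw [card_erase_of_mem (by simp)] at hle
  have : 0 < (univ.filter fun u => cls u = cls x ∧ side u = side x).card :=
    card_pos.2 ⟨x, by simp⟩
  omega

/-- Existence of a complete matching of girth at least `g`. -/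
theorem exists_good (row : H → R) (cls : H → C) (side : H → Bool) (act : C → Prop) (g : ℕ)
    (D : C → ℕ)
    (hbal : ∀ c, act c → (univ.filter fun u => cls u = c ∧ side u = true).card =
      (univ.filter fun u => cls u = c ∧ side u = false).card)
    (hD : ∀ τ, Part cls side act τ → ∀ x, act (cls x) → (near row cls τ g x).card ≤ D (cls x))
    (hM : ∀ x, act (cls x) →
      3 * D (cls x) < (univ.filter fun u => cls u = cls x ∧ side u = true).card) :
    ∃ σ, Good row cls side act g σ := by
  obtain ⟨τ, ⟨hp, hg⟩, hmin⟩ : ∃ τ ∈ {τ | Part cls side act τ ∧ Girth row τ g},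
      ∀ τ' ∈ {τ | Part cls side act τ ∧ Girth row τ g},
        (univ.filter fun h => τ h = h).card ≤ (univ.filter fun h => τ' h = h).card :=
    Set.exists_min_image _ _ (Set.toFinite _) ⟨id, ⟨fun _ => rfl, fun _ => ⟨rfl, Or.inl rfl⟩⟩,
      fun n x n0 _ hw => absurd rfl (hw.1 0 n0)⟩
  refine ⟨τ, good_iff.2 ⟨hp, hg, fun x ha hx => ?_⟩⟩
  obtain ⟨x', hx', hc, hs⟩ := free_partner hp hx (hbal _ ha)
  have h1 := card_cand (side := side) hp hc (hD τ hp x ha) (hc ▸ hD τ hp x' (hc ▸ ha))
  have h2 : 3 * D (cls x) < (univ.filter fun u => cls u = cls x ∧ side u = side x).card := by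
    have := hM x ha
    cases e : side x
    · rwa [← hbal _ ha]
    · exact this
  obtain ⟨u, hu⟩ : (cand row cls side τ g x x').Nonempty := card_pos.1 (by omega)
  simp only [cand, mem_filter, mem_univ, true_and] at hu
  obtain ⟨⟨hcu, hsu⟩, f1, f2, f3⟩ := hu
  have fin : ∀ τ', Part cls side act τ' → Girth row τ' g → τ' x' ≠ x' →
      (∀ h, τ' h = h → τ h = h) → False := by
    intro τ' p1 p2 p3 p4
    refine absurd (hmin τ' ⟨p1, p2⟩) (not_le.2 (card_lt_card ⟨fun h hh => ?_, fun hh => ?_⟩))
    · simp only [mem_filter, mem_univ, true_and] at hh ⊢; exact p4 h hh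
    · have := hh (show x' ∈ _ by simpa using hx')
      exact p3 (by simpa using this)
  have n0 : u ≠ x' := fun e => hs (by rw [← hsu, e])
  by_cases hu : τ u = u
  · refine fin (add τ u x') (hp.add hu hx' (hcu.trans hc) (hcu ▸ ha) (hsu ▸ hs))
      (add_girth hp.1 hg fun h => f3 ((h.symm hp.1).mono (by omega))) ?_ fun h hh => ?_
    · rw [add_right]; exact n0
    · by_cases e1 : h = u
      · rw [e1, hu]
      by_cases e2 : h = x'
      · rw [e2, hx']
      rwa [add_ne e1 e2] at hh
  · obtain ⟨p1, p2, p3, p4, p5, p6⟩ := sw_spec hp hx hx' hu hc hcu hs hsu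
    refine fin _ p1 (sw_girth hp.1 hg hx hu f1 f2 f3) (by rw [p5]; exact n0) fun h hh => ?_
    by_cases e1 : h = x
    · rw [e1, hx]
    by_cases e2 : h = x'
    · rw [e2, hx']
    by_cases e3 : h = u
    · rw [e3, p4] at hh; exact absurd hh.symm n0
    by_cases e4 : h = τ u
    · rw [e4, p3, ← e4] at hh; exact absurd hh.symm e1
    rwa [p6 h e1 e2 e3 e4] at hh

/-- The good matchings that send every `x` of `A` to `t x`. -/
def ev (row : H → R) (cls : H → C) (side : H → Bool) (act : C → Prop) (g : ℕ) (t : H → H)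
    (A : Finset H) : Finset (H → H) :=
  univ.filter fun σ => Good row cls side act g σ ∧ ∀ x ∈ A, σ x = t x

theorem ev_step {g D m : ℕ} (t : H → H) (A : Finset H) {x : H} (hxA : x ∉ A) (ha : act (cls x))
    (hA : ∀ y ∈ A, side y = side x)
    (hD : ∀ τ, Part cls side act τ → ∀ y, cls y = cls x → (near row cls τ g y).card ≤ D)
    (hm : m + 3 * D + A.card ≤ (univ.filter fun u => cls u = cls x ∧ side u = side x).card) :
    (ev row cls side act g t (insert x A)).card * m ≤ (ev row cls side act g t A).card := by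
  have facts : ∀ σ ∈ ev row cls side act g t (insert x A),
      Part cls side act σ ∧ Girth row σ g ∧ (∀ h, act (cls h) → σ h ≠ h) ∧ σ x = t x ∧
        (∀ y ∈ A, σ y = t y) ∧ cls x = cls (t x) ∧ side x ≠ side (t x) := by
    intro σ hσ
    simp only [ev, mem_filter, mem_univ, true_and] at hσ
    obtain ⟨p1, p2, p3⟩ := good_iff.1 hσ.1
    have e := hσ.2 x (mem_insert_self _ _)
    refine ⟨p1, p2, p3, e, fun y hy => hσ.2 y (mem_insert_of_mem hy), ?_, ?_⟩
    · rw [← e, (p1.2 x).1]
    · rw [← e]; exact ((p1.2 x).2.resolve_left (p3 x ha)).2.symm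
  have spec : ∀ σ ∈ ev row cls side act g t (insert x A),
      ∀ u ∈ cand row cls side (del σ x) g x (t x) \ A,
        sw (del σ x) x (t x) u ∈ ev row cls side act g t A ∧ sw (del σ x) x (t x) u x = σ u ∧
        sw (del σ x) x (t x) u (t x) = u ∧
        ∀ h, h ≠ x → h ≠ t x → h ≠ u → h ≠ σ u → sw (del σ x) x (t x) u h = σ h := by
    intro σ hσ u hu
    obtain ⟨p1, p2, p3, e, eA, hc, hs⟩ := facts σ hσ
    simp only [cand, mem_sdiff, mem_filter, mem_univ, true_and] at hu
    obtain ⟨⟨⟨hcu, hsu⟩, f1, f2, f3⟩, huA⟩ := hu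
    have n1 : u ≠ x := fun e => f1 (e ▸ Reach.refl _ _)
    have n2 : u ≠ t x := fun e => hs (by rw [← hsu, e])
    have du : del σ x u = σ u := del_ne n1 (e ▸ n2)
    have hu : del σ x u ≠ u := du ▸ p3 u (hcu ▸ ha)
    have d2 : del σ x (t x) = t x := e ▸ del_self' σ x
    obtain ⟨q1, q2, q3, q4, q5, q6⟩ := sw_spec (p1.del x) (del_self σ x) d2 hu hc hcu hs hsu
    rw [du] at q2 q3 q6
    have q7 : ∀ h, h ≠ x → h ≠ t x → h ≠ u → h ≠ σ u → sw (del σ x) x (t x) u h = σ h :=
      fun h h1 h2 h3 h4 => by rw [q6 h h1 h2 h3 h4, del_ne h1 (e ▸ h2)]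
    have su := ((p1.2 u).2.resolve_left (du ▸ hu)).2
    refine ⟨?_, q2, q5, q7⟩
    simp only [ev, mem_filter, mem_univ, true_and]
    refine ⟨good_iff.2 ⟨q1, sw_girth (p1.del x).1 (p2.sub (del_sub σ x)) (del_self σ x) hu f1 f2 f3,
      fun h hh => ?_⟩, fun y hy => ?_⟩
    · by_cases e1 : h = x
      · rw [e1, q2]; exact fun e' => su (by rw [e', hsu])
      by_cases e2 : h = t x
      · rw [e2, q5]; exact n2
      by_cases e3 : h = u
      · rw [e3, q4]; exact n2.symm
      by_cases e4 : h = σ u
      · rw [e4, q3, ← e4]; exact fun e' => e1 e'.symm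
      rw [q7 h e1 e2 e3 e4]; exact p3 h hh
    · rw [q7 y (fun e' => hxA (e' ▸ hy)) (fun e' => hs (by rw [← e', hA y hy]))
        (fun e' => huA (e' ▸ hy)) (fun e' => su (by rw [← e', hA y hy, hsu])), eA y hy]
  have hcard : ∀ σ ∈ ev row cls side act g t (insert x A),
      m ≤ (cand row cls side (del σ x) g x (t x) \ A).card := by
    intro σ hσ
    obtain ⟨p1, p2, p3, e, eA, hc, hs⟩ := facts σ hσ
    have h1 := card_cand (row := row) (g := g) (side := side) (p1.del x) hc
      (hD _ (p1.del x) x rfl) (hD _ (p1.del x) (t x) hc.symm)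
    have h2 := le_card_sdiff A (cand row cls side (del σ x) g x (t x))
    omega
  calc (ev row cls side act g t (insert x A)).card * m
      = ∑ _σ ∈ ev row cls side act g t (insert x A), m := by simp
    _ ≤ ∑ σ ∈ ev row cls side act g t (insert x A),
        (cand row cls side (del σ x) g x (t x) \ A).card := sum_le_sum hcard
    _ = ((ev row cls side act g t (insert x A)).sigma fun σ =>
        cand row cls side (del σ x) g x (t x) \ A).card := (card_sigma _ _).symm
    _ ≤ _ := by
      refine card_le_card_of_injOn (fun p => sw (del p.1 x) x (t x) p.2) (fun p hp => ?_) ?_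
      · rw [mem_coe, mem_sigma] at hp
        exact (spec p.1 hp.1 p.2 hp.2).1
      · rintro ⟨σ, u⟩ hp ⟨σ', u'⟩ hp' e
        rw [mem_coe, mem_sigma] at hp hp'
        obtain ⟨-, a1, a2, a3⟩ := spec σ hp.1 u hp.2
        obtain ⟨-, b1, b2, b3⟩ := spec σ' hp'.1 u' hp'.2
        obtain ⟨p1, -, -, e1, -⟩ := facts σ hp.1
        obtain ⟨p2, -, -, e2, -⟩ := facts σ' hp'.1
        dsimp only at e
        have hu : u = u' := by rw [← a2, e, b2]
        subst hu
        have hu' : σ u = σ' u := by rw [← a1, e, b1]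
        have : σ = σ' := by
          funext h
          by_cases c1 : h = x
          · rw [c1, e1, e2]
          by_cases c2 : h = t x
          · rw [c2]; nth_rw 1 [← e1]; rw [p1.1, ← e2, p2.1]
          by_cases c3 : h = u
          · rw [c3, hu']
          by_cases c4 : h = σ u
          · rw [c4, p1.1, hu', p2.1]
          rw [← a3 h c1 c2 c3 c4, e, b3 h c1 c2 c3 (hu' ▸ c4)]
        subst this
        rfl

/-- The switching bound: prescribing the edges at `A` costs a factor `m` for every edge. -/
theorem ev_le (row : H → R) (cls : H → C) (side : H → Bool) (act : C → Prop) (g P : ℕ)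
    (D m : C → ℕ)
    (hD : ∀ τ, Part cls side act τ → ∀ x, act (cls x) → (near row cls τ g x).card ≤ D (cls x))
    (hM : ∀ x, act (cls x) → m (cls x) + 3 * D (cls x) + P ≤
      (univ.filter fun u => cls u = cls x ∧ side u = true).card)
    (t : H → H) (A : Finset H) (hA : ∀ x ∈ A, side x = true ∧ act (cls x)) (hP : A.card ≤ P) :
    (ev row cls side act g t A).card * ∏ x ∈ A, m (cls x) ≤
      (univ.filter fun σ => Good row cls side act g σ).card := by
  induction A using Finset.induction_on with
  | empty => simp [ev]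
  | insert x A hx ih =>
    have h1 := hA x (mem_insert_self _ _)
    rw [card_insert_of_notMem hx] at hP
    have h2 := ev_step (row := row) (g := g) (D := D (cls x)) (m := m (cls x)) t A hx h1.2
      (fun y hy => (hA y (mem_insert_of_mem hy)).1.trans h1.1.symm)
      (fun τ hp y hy => hy ▸ hD τ hp y (hy ▸ h1.2))
      (by have := hM x h1.2; rw [h1.1]; omega)
    rw [prod_insert hx, ← mul_assoc]
    exact (Nat.mul_le_mul_right _ h2).trans
      (ih (fun y hy => hA y (mem_insert_of_mem hy)) (by omega))


theorem card_ball (r0 : R) (s I : ℕ)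
    (hs : ∀ r, r ≠ r0 → (univ.filter fun u => row u = r).card ≤ s) (k : ℕ) (r : R)
    (hI : Reach row τ k r r0 → (univ.filter fun u => row u = r0).card ≤ I) :
    (univ.filter fun u => Reach row τ k r (row u)).card ≤ (s + 2) ^ (k + 1) * (I + 1) := by
  have main : (univ.filter fun u => Reach row τ k r (row u)).card + I ≤ (s + 2) ^ k * (s + 2 * I) := by
    induction k with
    | zero =>
      have : (univ.filter fun u => Reach row τ 0 r (row u)) = univ.filter fun u => row u = r := by
        ext u; simp only [mem_filter, mem_univ, true_and]; exact eq_comm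
      rw [this, pow_zero, one_mul]
      by_cases e : r = r0
      · have := hI e; rw [e]; omega
      · have := hs r e; omega
    | succ k ih =>
      have ih := ih fun h => hI (Or.inl h)
      set B := univ.filter fun u => Reach row τ k r (row u) with hB
      have hsub : (univ.filter fun u => Reach row τ (k + 1) r (row u)) ⊆
          B ∪ ((univ.filter fun u => row u = r0 ∧ Reach row τ (k + 1) r r0) ∪
            B.biUnion fun h => univ.filter fun u => row u = row (τ h) ∧ row (τ h) ≠ r0) := by
        intro u hu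
        simp only [hB, mem_union, mem_filter, mem_univ, true_and, mem_biUnion] at hu ⊢
        by_cases e : row u = r0
        · exact Or.inr (Or.inl ⟨e, e ▸ hu⟩)
        rcases hu with hu | ⟨h, h1, h2⟩
        · exact Or.inl hu
        · exact Or.inr (Or.inr ⟨h, h1, h2.symm, h2 ▸ e⟩)
      have h1 : (univ.filter fun u => row u = r0 ∧ Reach row τ (k + 1) r r0).card ≤ I := by
        by_cases e : Reach row τ (k + 1) r r0
        · simpa [e] using hI e
        · simp [e]
      have h2 : (B.biUnion fun h => univ.filter fun u =>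
          row u = row (τ h) ∧ row (τ h) ≠ r0).card ≤ B.card * s := by
        refine card_biUnion_le_card_mul _ _ _ fun h _ => ?_
        by_cases e : row (τ h) = r0
        · simp [e]
        · simpa [e] using hs _ e
      have h3 := (card_le_card hsub).trans ((card_union_le _ _).trans
        (Nat.add_le_add_left ((card_union_le _ _).trans (Nat.add_le_add h1 h2)) _))
      calc _ ≤ (s + 2) * (B.card + I) := by nlinarith
        _ ≤ (s + 2) * ((s + 2) ^ k * (s + 2 * I)) := Nat.mul_le_mul_left _ ih
        _ = _ := by ring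
  calc _ ≤ (s + 2) ^ k * (s + 2 * I) := le_trans (Nat.le_add_right _ _) main
    _ ≤ (s + 2) ^ k * ((s + 2) * (I + 1)) := Nat.mul_le_mul_left _ (by nlinarith)
    _ = _ := by ring

omit [Fintype H] in
theorem not_reach (ht : H → ℤ) (r0 : R) (B : ℕ) (J : ℤ) (hτ : ∀ h, ht (τ h) = ht h)
    (hB : ∀ h h', row h = row h' → row h ≠ r0 → ht h' ≤ ht h + B)
    (hJ : ∀ h, row h = r0 → J ≤ ht h) (k : ℕ) (x : H) (hx : ht x + k * B < J) :
    ¬ Reach row τ k (row x) r0 := by
  have main : ∀ j : ℕ, j ≤ k → ∀ r, Reach row τ j (row x) r →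
      ∃ h, row h = r ∧ ht h ≤ ht x + j * B := by
    intro j
    induction j with
    | zero => intro _ r hr; exact ⟨x, hr, by simp⟩
    | succ j ih =>
      intro hj r hr
      have hB0 : (0 : ℤ) ≤ B := Int.natCast_nonneg B
      rcases hr with hr | ⟨h, h1, h2⟩
      · obtain ⟨h, h1, h2⟩ := ih (by omega) r hr
        exact ⟨h, h1, by push_cast; linarith⟩
      · obtain ⟨h', h3, h4⟩ := ih (by omega) _ h1
        have hjk : (j : ℤ) * B ≤ k * B := mul_le_mul_of_nonneg_right (by omega) hB0
        have h5 := hB h' h h3 fun e => by have := hJ h' e; linarith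
        exact ⟨τ h, h2, by rw [hτ]; push_cast; linarith⟩
  intro h
  obtain ⟨h, h1, h2⟩ := main k le_rfl _ h
  have := hJ h h1
  linarith

/-- The probability that a good matching contains the prescribed edges. -/
theorem ev_le_real (row : H → R) (cls : H → C) (side : H → Bool) (act : C → Prop) (g P : ℕ)
    (D M : C → ℕ)
    (hD : ∀ τ, Part cls side act τ → ∀ x, act (cls x) → (near row cls τ g x).card ≤ D (cls x))
    (hM : ∀ x, act (cls x) → 0 < M (cls x) ∧ 2 * (3 * D (cls x) + P) ≤ M (cls x) ∧
      M (cls x) ≤ (univ.filter fun u => cls u = cls x ∧ side u = true).card)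
    (t : H → H) (A : Finset H) (hA : ∀ x ∈ A, side x = true ∧ act (cls x)) (hP : A.card ≤ P) :
    ((ev row cls side act g t A).card : ℝ) ≤
      (univ.filter fun σ => Good row cls side act g σ).card * ∏ x ∈ A, (2 / (M (cls x) : ℝ)) := by
  have h3 := ev_le row cls side act g P D (fun c => M c - (3 * D c + P)) hD
    (fun x hx => by have := hM x hx; omega) t A hA hP
  have h4 : ((ev row cls side act g t A).card : ℝ) *
      ∏ x ∈ A, ((M (cls x) - (3 * D (cls x) + P) : ℕ) : ℝ) ≤
        (univ.filter fun σ => Good row cls side act g σ).card := by exact_mod_cast h3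
  have h5 : (1 : ℝ) ≤ (∏ x ∈ A, ((M (cls x) - (3 * D (cls x) + P) : ℕ) : ℝ)) *
      ∏ x ∈ A, (2 / (M (cls x) : ℝ)) := by
    rw [← prod_mul_distrib]
    refine Finset.one_le_prod fun x hx => ?_
    have h6 := hM x (hA x hx).2
    have h7 : (0 : ℝ) < M (cls x) := by exact_mod_cast h6.1
    have h8 : (M (cls x) : ℝ) ≤ ((M (cls x) - (3 * D (cls x) + P) : ℕ) : ℝ) * 2 := by
      exact_mod_cast (by omega : M (cls x) ≤ (M (cls x) - (3 * D (cls x) + P)) * 2)
    rw [← mul_div_assoc, one_le_div h7]; exact h8
  have h9 : (0 : ℝ) ≤ ∏ x ∈ A, (2 / (M (cls x) : ℝ)) := prod_nonneg fun _ _ => by positivity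
  calc _ ≤ ((ev row cls side act g t A).card : ℝ) * _ :=
        le_mul_of_one_le_right (Nat.cast_nonneg _) h5
    _ ≤ _ := by rw [← mul_assoc]; exact mul_le_mul_of_nonneg_right h4 h9

/-- The same for a finite set of prescribed pairs. -/
theorem pairs_le (row : H → R) (cls : H → C) (side : H → Bool) (act : C → Prop) (g P : ℕ)
    (D M : C → ℕ)
    (hD : ∀ τ, Part cls side act τ → ∀ x, act (cls x) → (near row cls τ g x).card ≤ D (cls x))
    (hM : ∀ x, act (cls x) → 0 < M (cls x) ∧ 2 * (3 * D (cls x) + P) ≤ M (cls x) ∧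
      M (cls x) ≤ (univ.filter fun u => cls u = cls x ∧ side u = true).card)
    (E : Finset (H × H)) (hE : ∀ e ∈ E, side e.1 = true ∧ act (cls e.1)) (hP : E.card ≤ P) :
    ((univ.filter fun σ => Good row cls side act g σ ∧ ∀ e ∈ E, σ e.1 = e.2).card : ℝ) ≤
      (univ.filter fun σ => Good row cls side act g σ).card *
        ∏ e ∈ E, (2 / (M (cls e.1) : ℝ)) := by
  rcases (univ.filter fun σ => Good row cls side act g σ ∧ ∀ e ∈ E, σ e.1 = e.2).eq_empty_or_nonempty
    with h | ⟨σ0, h0⟩
  · rw [h, card_empty, Nat.cast_zero]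
    exact mul_nonneg (Nat.cast_nonneg _) (prod_nonneg fun _ _ => by positivity)
  simp only [mem_filter, mem_univ, true_and] at h0
  have hinj : Set.InjOn Prod.fst (E : Set (H × H)) := fun e he e' he' h =>
    Prod.ext h (by rw [← h0.2 e he, ← h0.2 e' he', h])
  have h1 := ev_le_real row cls side act g P D M hD hM σ0 (E.image Prod.fst)
    (fun x hx => by obtain ⟨e, he, rfl⟩ := mem_image.1 hx; exact hE e he)
    (card_image_le.trans hP)
  rw [prod_image hinj] at h1
  refine le_trans (Nat.cast_le.2 (card_le_card fun σ hσ => ?_)) h1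
  simp only [ev, mem_filter, mem_univ, true_and] at hσ ⊢
  refine ⟨hσ.1, fun x hx => ?_⟩
  obtain ⟨e, he, rfl⟩ := mem_image.1 hx
  rw [hσ.2 e he, h0.2 e he]

/-- The form with heights and one row `r0` of large degree whose half-edges are high. -/
theorem E1 (row : H → R) (ht : H → ℤ) (side : H → Bool) (r0 : R) (g P s I B : ℕ) (J : ℤ)
    (M : ℤ → ℕ)
    (hbal : ∀ c, 0 ≤ c → (univ.filter fun u => ht u = c ∧ side u = true).card =
      (univ.filter fun u => ht u = c ∧ side u = false).card)
    (hs : ∀ r, r ≠ r0 → (univ.filter fun u => row u = r).card ≤ s)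
    (hI : (univ.filter fun u => row u = r0).card ≤ I)
    (hB : ∀ h h', row h = row h' → row h ≠ r0 → ht h' ≤ ht h + B)
    (hJ : ∀ h, row h = r0 → J ≤ ht h)
    (hM : ∀ x, 0 ≤ ht x → M (ht x) ≤ (univ.filter fun u => ht u = ht x ∧ side u = true).card ∧
      2 * (3 * (s + 2) ^ (g + 1) + P) ≤ M (ht x) ∧
      (J ≤ ht x + g * B → 2 * (3 * ((s + 2) ^ (g + 1) * (I + 1)) + P) ≤ M (ht x))) :
    (∃ σ, Good row ht side (fun c => 0 ≤ c) g σ) ∧
    ∀ E : Finset (H × H), (∀ e ∈ E, side e.1 = true ∧ 0 ≤ ht e.1) → E.card ≤ P →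
      ((univ.filter fun σ => Good row ht side (fun c => 0 ≤ c) g σ ∧
          ∀ e ∈ E, σ e.1 = e.2).card : ℝ) ≤
        (univ.filter fun σ => Good row ht side (fun c => 0 ≤ c) g σ).card *
          ∏ e ∈ E, (2 / (M (ht e.1) : ℝ)) := by
  have hD : ∀ τ, Part ht side (fun c => 0 ≤ c) τ → ∀ x, 0 ≤ ht x → (near row ht τ g x).card ≤
      (s + 2) ^ (g + 1) * ((if J ≤ ht x + g * B then I else 0) + 1) := by
    intro τ hp x _
    refine le_trans (card_le_card fun u hu => ?_) (card_ball (row := row) (τ := τ) r0 s _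
      (fun r hr => by convert hs r hr) g (row x) fun h => ?_)
    · simp only [near, mem_filter, mem_univ, true_and] at hu ⊢; exact hu.2
    · by_cases e : J ≤ ht x + g * B
      · rw [if_pos e]; convert hI
      · exact absurd h (not_reach ht r0 B J (fun h => (hp.2 h).1) hB hJ g x (not_le.1 e))
  have hM' : ∀ x, 0 ≤ ht x → 0 < M (ht x) ∧ 2 * (3 * ((s + 2) ^ (g + 1) *
      ((if J ≤ ht x + g * B then I else 0) + 1)) + P) ≤ M (ht x) ∧
      M (ht x) ≤ (univ.filter fun u => ht u = ht x ∧ side u = true).card := by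
    intro x hx
    obtain ⟨h1, h2, h3⟩ := hM x hx
    have h4 : 0 < (s + 2) ^ (g + 1) := by positivity
    refine ⟨by omega, ?_, h1⟩
    by_cases e : J ≤ ht x + g * B
    · simp only [if_pos e]; exact h3 e
    · simp only [if_neg e]; omega
  refine ⟨exists_good row ht side (fun c => 0 ≤ c) g
    (fun c => (s + 2) ^ (g + 1) * ((if J ≤ c + g * B then I else 0) + 1))
    (fun c hc => by convert hbal c hc) hD fun x hx => ?_, fun E hE hP => ?_⟩
  · obtain ⟨h1, h2, h3⟩ := hM' x hx
    have h4 : 3 * ((s + 2) ^ (g + 1) * ((if J ≤ ht x + g * B then I else 0) + 1)) <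
        (univ.filter fun u => ht u = ht x ∧ side u = true).card := by omega
    convert h4
  · convert pairs_le row ht side (fun c => 0 ≤ c) g P
      (fun c => (s + 2) ^ (g + 1) * ((if J ≤ c + g * B then I else 0) + 1)) M hD
      (fun x hx => ⟨(hM' x hx).1, (hM' x hx).2.1, by convert (hM' x hx).2.2⟩) E hE hP

end Pool.Agent.MP_c6eade_gt.H41.E1ax
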