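import Pool.Agent.MP_c6eade_gt.H41.Basic
import Pool.Agent.MP_c6eade_gt.H41.E1a_a

namespace Pool.Agent.MP_c6eade_gt.H41

open Equiv Finset
open scoped Classical

namespace E1ax
variable {R E : Type} {row : E → R} {σ : E → E}

theorem girth_iff {g : ℕ} : H41.Girth row σ g ↔ E1ax.Girth row σ g := by
  constructor
  · intro h n x n0 ng hw
    obtain ⟨k, rfl⟩ : ∃ k, n = k + 1 := ⟨n - 1, by omega⟩
    exact h x k ng ⟨hw.1, fun i hi => ⟨(hw.2 i hi).1.symm, (hw.2 i hi).2⟩⟩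
  · intro h p k hk hw
    exact h.succ_form p k hw hk

theorem near_iff {k : ℕ} {r r' : R} : Near row σ k r r' ↔ Reach row σ k r r' := by
  induction k generalizing r' with
  | zero => exact eq_comm
  | succ k ih =>
    constructor
    · rintro (h | ⟨e, h, h'⟩)
      · exact Or.inl (ih.1 h)
      · exact Or.inr ⟨e, ih.1 h, h'.symm⟩
    · rintro (h | ⟨e, h, h'⟩)
      · exact Or.inl (ih.2 h)
      · exact Or.inr ⟨e, ih.2 h, h'.symm⟩

end E1ax

section E1a
variable {R E : Type} {row : E → R} {σ σ' : E → E} {g : ℕ} {x x' u : E}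

theorem girth_del (hg : Girth row σ g) (h : ∀ e, σ' e = σ e ∨ σ' e = e) : Girth row σ' g :=
  E1ax.girth_iff.2 ((E1ax.girth_iff.1 hg).sub fun e => (h e).symm)

theorem near_del (h : ∀ e, σ' e = σ e ∨ σ' e = e) {k : ℕ} {r r' : R} (hn : Near row σ' k r r') :
    Near row σ k r r' :=
  E1ax.near_iff.2 ((E1ax.near_iff.1 hn).sub fun e => (h e).symm)

theorem girth_add (hσ : ∀ e, σ (σ e) = e) (hg : Girth row σ g) (hx : σ x = x) (hx' : σ x' = x')
    (hf : ¬ Near row σ (2 * g + 2) (row x) (row x')) (h1 : σ' x = x') (h2 : σ' x' = x)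
    (h3 : ∀ e, e ≠ x → e ≠ x' → σ' e = σ e) : Girth row σ' g := by
  have e : σ' = E1ax.add σ x x' := by
    funext e
    by_cases e1 : e = x
    · rw [e1, h1, E1ax.add_left]
    by_cases e2 : e = x'
    · rw [e2, h2, E1ax.add_right]
    rw [h3 e e1 e2, E1ax.add_ne e1 e2]
  rw [e]
  exact E1ax.girth_iff.2 (E1ax.add_girth hσ (E1ax.girth_iff.1 hg) fun h =>
    hf (E1ax.near_iff.2 (h.mono (by omega))))

theorem girth_switch (hσ : ∀ e, σ (σ e) = e) (hg : Girth row σ g) (hx : σ x = x)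
    (hx' : σ x' = x') (hxx : x ≠ x') (hu : σ u ≠ u)
    (f1 : ¬ Near row σ (2 * g + 2) (row x) (row u))
    (f2 : ¬ Near row σ (2 * g + 2) (row x) (row (σ u)))
    (f3 : ¬ Near row σ (2 * g + 2) (row x') (row u))
    (f4 : ¬ Near row σ (2 * g + 2) (row x') (row (σ u)))
    (h1 : σ' x = σ u) (h2 : σ' (σ u) = x) (h3 : σ' u = x') (h4 : σ' x' = u)
    (h5 : ∀ e, e ≠ x → e ≠ x' → e ≠ u → e ≠ σ u → σ' e = σ e) : Girth row σ' g := by
  have e : σ' = E1ax.sw σ x x' u := by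
    funext e
    unfold E1ax.sw
    by_cases e3 : e = u
    · rw [e3, h3, E1ax.add_left]
    by_cases e2 : e = x'
    · rw [e2, h4, E1ax.add_right]
    rw [E1ax.add_ne e3 e2]
    by_cases e1 : e = x
    · rw [e1, h1, E1ax.add_left]
    by_cases e4 : e = σ u
    · rw [e4, h2, E1ax.add_right]
    rw [h5 e e1 e2 e3 e4, E1ax.add_ne e1 e4, E1ax.del_ne e3 e4]
  rw [e]
  exact E1ax.girth_iff.2 (E1ax.sw_girth hσ (E1ax.girth_iff.1 hg) hx hu
    (fun h => f1 (E1ax.near_iff.2 (h.mono (by omega))))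
    (fun h => f2 (E1ax.near_iff.2 (h.mono (by omega))))
    (fun h => f3 (E1ax.near_iff.2 (h.mono (by omega)))))

end E1a


end Pool.Agent.MP_c6eade_gt.H41
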