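import Pool.Agent.MP_c6eade_gt.H41.E1a

namespace Pool.Agent.MP_c6eade_gt.H41

open Equiv Finset
open scoped Classical

theorem switching {K : Type} (F : Fr K) (g P : ℕ)
    (hbal : ∀ h : ℤ, 0 ≤ h → #{e : F.E | F.ht e = h ∧ F.sd e = true} =
      #{e : F.E | F.ht e = h ∧ F.sd e = false})
    (hball : ∀ σ, F.Semi σ → ∀ e, 0 ≤ F.ht e →
      16 * #{e' : F.E | Near F.row σ (2 * g + 2) (F.row e) (F.row e')} ≤ F.M e)
    (hP : ∀ e, 0 ≤ F.ht e → 4 * P ≤ F.M e) :
    ∃ 𝒮 : Finset (F.E → F.E), 𝒮.Nonempty ∧ (∀ σ ∈ 𝒮, F.Adm σ ∧ Girth F.row σ g) ∧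
      F.Dom 𝒮 P := by
  set M : ℤ → ℕ := fun c => #{e : F.E | F.ht e = c ∧ F.sd e = true} with hMdef
  have hFM : ∀ e, F.M e = M (F.ht e) := fun e => rfl
  have hsemi : ∀ τ, E1ax.Part F.ht F.sd (fun c => 0 ≤ c) τ → F.Semi τ := fun τ hp =>
    ⟨hp.1, fun e => (hp.2 e).1, fun e he => (hp.2 e).2.resolve_left he⟩
  have hD : ∀ τ, E1ax.Part F.ht F.sd (fun c => 0 ≤ c) τ → ∀ x, 0 ≤ F.ht x →
      (E1ax.near F.row F.ht τ g x).card ≤ M (F.ht x) / 16 := by
    intro τ hp x hx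
    have h1 := hball τ (hsemi τ hp) x hx
    have h2 : (E1ax.near F.row F.ht τ g x).card ≤
        #{e' : F.E | Near F.row τ (2 * g + 2) (F.row x) (F.row e')} := by
      refine card_le_card fun u hu => ?_
      simp only [E1ax.near, mem_filter, mem_univ, true_and] at hu ⊢
      exact E1ax.near_iff.2 (hu.2.mono (by omega))
    rw [hFM] at h1
    omega
  have hpos : ∀ x, 0 ≤ F.ht x → 16 ≤ M (F.ht x) := by
    intro x hx
    have h1 := hball id ⟨fun _ => rfl, fun _ => rfl, fun e he => absurd rfl he⟩ x hx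
    have h2 : 0 < #{e' : F.E | Near F.row id (2 * g + 2) (F.row x) (F.row e')} :=
      card_pos.2 ⟨x, by
        simp only [mem_filter, mem_univ, true_and]
        exact E1ax.near_iff.2 (E1ax.Reach.refl _ _)⟩
    rw [hFM] at h1
    omega
  obtain ⟨σ0, h0⟩ := E1ax.exists_good F.row F.ht F.sd (fun c => 0 ≤ c) g (fun c => M c / 16)
    (fun c hc => by convert hbal c hc) hD fun x hx => by
      have h1 := hpos x hx
      have h2 : 3 * (M (F.ht x) / 16) < M (F.ht x) := by omega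
      convert h2
  refine ⟨univ.filter fun σ => E1ax.Good F.row F.ht F.sd (fun c => 0 ≤ c) g σ,
    ⟨σ0, by simpa using h0⟩, fun σ hσ => ?_, fun A τ hA hA' => ?_⟩
  · obtain ⟨h1, h2, h3⟩ := E1ax.good_iff.1 (mem_filter.1 hσ).2
    exact ⟨⟨hsemi σ h1, h3⟩, E1ax.girth_iff.2 h2⟩
  have hom : ∀ e, 0 ≤ F.om e := fun e => inv_nonneg.2 (Real.sqrt_nonneg _)
  rcases (filter (fun σ => ∀ e ∈ A, σ e = τ e) (univ.filter fun σ =>
    E1ax.Good F.row F.ht F.sd (fun c => 0 ≤ c) g σ)).eq_empty_or_nonempty with h | ⟨σ1, h1⟩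
  · rw [h, card_empty, Nat.cast_zero]
    exact mul_nonneg (Nat.cast_nonneg _) (prod_nonneg fun e _ =>
      mul_nonneg (mul_nonneg zero_le_two (hom _)) (hom _))
  simp only [mem_filter, mem_univ, true_and] at h1
  have h2 := E1ax.ev_le_real F.row F.ht F.sd (fun c => 0 ≤ c) g P (fun c => M c / 16) M hD
    (fun x hx => by
      have h3 := hpos x hx
      have h4 := hP x hx
      rw [hFM] at h4
      exact ⟨by omega, by omega, le_of_eq (by simp only [hMdef]; convert rfl)⟩) τ A hA' hA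
  have h3 : ∏ e ∈ A, (2 * F.om e * F.om (τ e)) = ∏ e ∈ A, (2 / (M (F.ht e) : ℝ)) := by
    refine prod_congr rfl fun e he => ?_
    have h4 : F.ht (τ e) = F.ht e := by rw [← h1.2 e he]; exact (h1.1.2.1 e).1
    unfold Fr.om
    rw [hFM, hFM, h4, mul_assoc, ← mul_inv, Real.mul_self_sqrt (Nat.cast_nonneg _), div_eq_mul_inv]
  rw [h3, filter_filter]
  unfold E1ax.ev at h2
  convert h2


end Pool.Agent.MP_c6eade_gt.H41
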