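import Pool.Agent.MP_c6eade_gt.H41.Basic

namespace Pool.Agent.MP_c6eade_gt.H41

open Equiv Finset
open scoped Classical

namespace E2ax

theorem lev {Y : Type} [Fintype Y] [DecidableEq Y] (U : Finset Y) (R : Y → Y) (γ : Y → ℝ) (p : ℕ)
    (h : ∀ y, #{x ∈ U | R x = y} ≤ p) :
    ∏ t ∈ Icc 1 p, ∏ y ∈ ({y | t ≤ #{x ∈ U | R x = y}} : Finset Y), γ y = ∏ x ∈ U, γ (R x) := by
  rw [← prod_fiberwise_of_maps_to (s := U) (t := univ) (g := R) (fun _ _ => mem_univ _)]
  simp only [prod_filter (s := (univ : Finset Y))]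
  rw [prod_comm]
  refine prod_congr rfl fun y _ => ?_
  rw [← prod_filter, prod_const, prod_congr rfl (g := fun _ => γ y)
    (fun x hx => by rw [(mem_filter.1 hx).2]), prod_const]
  congr 1
  have : {t ∈ Icc 1 p | t ≤ #{x ∈ U | R x = y}} = Icc 1 (#{x ∈ U | R x = y}) := by
    ext t
    have := h y
    simp only [mem_filter, mem_Icc]
    omega
  rw [this, Nat.card_Icc, Nat.add_sub_cancel]

variable {K : Type} [Group K] {F : Fr K} {σ : F.E → F.E} {p : ℕ}

/-- The half-edge of a slot. -/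
def hv (X : LP F σ p) (a : Fin p × Bool) : F.E := if a.2 = true then X.o a.1 else X.i a.1

/-- Same class. -/
def Sim (X : LP F σ p) (x y : Fin p) : Prop :=
  F.kind (F.row (X.o x)) = F.kind (F.row (X.o y)) ∧
    (F.dif (X.i x) (X.o x) = F.dif (X.i y) (X.o y) ∨
      F.dif (X.i x) (X.o x) = (F.dif (X.i y) (X.o y))⁻¹)

/-- Linked slots. -/
noncomputable def LS (X : LP F σ p) : Finset (Fin p × Bool) :=
  {a | if a.2 = true then a.1 ∈ X.Lk else a.1 ∈ X.Lk.image X.nx}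

variable (X : LP F σ p)

theorem hv_row (a : Fin p × Bool) : F.row (hv X a) = F.row (X.o a.1) := by
  unfold hv; split_ifs
  · rfl
  · exact X.row_eq _

theorem hv_inj {a b : Fin p × Bool} (h1 : a.1 = b.1) (h : hv X a = hv X b) : a = b := by
  obtain ⟨x, c⟩ := a
  obtain ⟨y, d⟩ := b
  obtain rfl : x = y := h1
  have := X.ne x
  cases c <;> cases d <;> simp_all [hv]

theorem sim_symm {x y : Fin p} (h : Sim X x y) : Sim X y x :=
  ⟨h.1.symm, h.2.imp Eq.symm fun h => by rw [h, inv_inv]⟩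

theorem sim_trans {x y z : Fin p} (h : Sim X x y) (h' : Sim X y z) : Sim X x z := by
  refine ⟨h.1.trans h'.1, ?_⟩
  rcases h.2 with a | a <;> rcases h'.2 with b | b <;> simp [a, b]

theorem plain_row {x y : Fin p} (hx : F.Plain X.o X.i X.nx X.Lk x)
    (h : F.row (X.o y) = F.row (X.o x)) : F.Plain X.o X.i X.nx X.Lk y ∧ Sim X y x := by
  have hy := (hx.2 y h).1
  refine ⟨⟨h ▸ hx.1, fun z hz => ⟨?_, (hx.2 z (hz.trans h)).2⟩⟩, by rw [h], ?_⟩
  · rcases (hx.2 z (hz.trans h)).1 with a | a <;> rcases hy with b | b <;> simp [a, b]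
  · rcases hy with b | b <;> simp [b, Fr.dif]

theorem partner (hσ : F.Semi σ) : ∃ pt : Fin p × Bool → Fin p × Bool, ∀ b ∈ LS X,
    pt b ∈ LS X ∧ pt (pt b) = b ∧ hv X (pt b) = σ (hv X b) ∧ σ (hv X b) ≠ hv X b := by
  have : ∀ y, ∃ z, y ∈ X.Lk.image X.nx → z ∈ X.Lk ∧ X.nx z = y := fun y => by
    by_cases h : y ∈ X.Lk.image X.nx
    · obtain ⟨z, hz⟩ := mem_image.1 h
      exact ⟨z, fun _ => hz⟩
    · exact ⟨y, fun h' => absurd h' h⟩
  choose pv hpv using this
  refine ⟨fun b => if b.2 = true then (X.nx b.1, false) else (pv b.1, true), ?_⟩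
  rintro ⟨x, _ | _⟩ hb
  · have hx : x ∈ X.Lk.image X.nx := by simpa [LS] using hb
    obtain ⟨h1, h2⟩ := hpv x hx
    have h3 := X.link _ h1
    rw [h2] at h3
    refine ⟨by simpa [LS] using h1, by simp [h2], ?_, ?_⟩
    · simp [hv, h3.1, hσ.1]
    · simp only [hv, Bool.false_eq_true, if_false, h3.1, hσ.1]
      exact h3.2.symm
  · have hx : x ∈ X.Lk := by simpa [LS] using hb
    have h0 : X.nx x ∈ X.Lk.image X.nx := mem_image_of_mem _ hx
    obtain ⟨h1, h2⟩ := hpv _ h0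
    have h3 := X.link _ hx
    refine ⟨by simpa [LS] using h0, by simp [X.nx_inj h1 hx h2], ?_, ?_⟩
    · simp [hv, h3.1]
    · simpa [hv] using h3.2

theorem reps (hp : 0 < p) : ∃ (rp cr : Fin p → Fin p) (sr : F.E → Fin p × Bool),
    (∀ x, F.row (X.o (rp x)) = F.row (X.o x)) ∧
    (∀ x y, F.row (X.o x) = F.row (X.o y) → rp x = rp y) ∧
    (∀ a, hv X (sr (hv X a)) = hv X a) ∧ (∀ a, rp a.1 = a.1 → sr (hv X a) = a) ∧
    ∀ x, F.Plain X.o X.i X.nx X.Lk x → F.Plain X.o X.i X.nx X.Lk (cr x) ∧ Sim X x (cr x) ∧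
      #{y | rp y = rp x} ≤ #{y | rp y = cr x} ∧
      ∀ y, F.Plain X.o X.i X.nx X.Lk y → Sim X x y → cr y = cr x := by
  have : Nonempty (Fin p) := ⟨⟨0, hp⟩⟩
  obtain ⟨rp, r1, r2⟩ : ∃ rp : Fin p → Fin p, (∀ x, F.row (X.o (rp x)) = F.row (X.o x)) ∧
      ∀ x y, F.row (X.o x) = F.row (X.o y) → rp x = rp y :=
    ⟨fun x => Function.invFun (fun y => F.row (X.o y)) (F.row (X.o x)),
      fun x => Function.invFun_eq (f := fun y => F.row (X.o y)) ⟨x, rfl⟩, fun x y h => by simp only [h]⟩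
  have h1 : ∀ e : F.E, ∃ b, (∀ a, hv X a = e → hv X b = e) ∧
      ∀ a, rp a.1 = a.1 → hv X a = e → b = a := fun e => by
    by_cases h : ∃ b : Fin p × Bool, rp b.1 = b.1 ∧ hv X b = e
    · obtain ⟨b, hb, hb'⟩ := h
      refine ⟨b, fun _ _ => hb', fun a ha ha' => hv_inj X ?_ (hb'.trans ha'.symm)⟩
      rw [← hb, ← ha]
      exact r2 _ _ (by rw [← hv_row, ← hv_row, hb', ha'])
    · by_cases h' : ∃ b, hv X b = e
      · obtain ⟨b, hb⟩ := h'
        exact ⟨b, fun _ _ => hb, fun a ha ha' => absurd ⟨a, ha, ha'⟩ h⟩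
      · exact ⟨(⟨0, hp⟩, true), fun a ha => absurd ⟨a, ha⟩ h', fun a _ ha => absurd ⟨a, ha⟩ h'⟩
  choose sr s1 s2 using h1
  have h2 : ∀ T : Finset (Fin p), ∃ b, T.Nonempty →
      b ∈ T ∧ ∀ y ∈ T, #{z | rp z = rp y} ≤ #{z | rp z = rp b} := fun T => by
    by_cases h : T.Nonempty
    · obtain ⟨b, hb⟩ := exists_max_image T (fun y => #{z | rp z = rp y}) h
      exact ⟨b, fun _ => hb⟩
    · exact ⟨⟨0, hp⟩, fun h' => absurd h' h⟩
  choose bs hbs using h2
  refine ⟨rp, fun x => rp (bs {y | F.Plain X.o X.i X.nx X.Lk y ∧ Sim X x y}), sr, r1, r2,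
    fun a => s1 _ a rfl, fun a ha => s2 _ a ha rfl, fun x hx => ?_⟩
  have hx' : x ∈ ({y | F.Plain X.o X.i X.nx X.Lk y ∧ Sim X x y} : Finset (Fin p)) :=
    mem_filter.2 ⟨mem_univ _, hx, rfl, Or.inl rfl⟩
  obtain ⟨b1, b2⟩ := hbs _ ⟨x, hx'⟩
  have b3 := (mem_filter.1 b1).2
  have b4 := plain_row X b3.1 (r1 _)
  refine ⟨b4.1, sim_trans X b3.2 (sim_symm X b4.2), b2 x hx', fun y _ hy => ?_⟩
  exact congrArg (fun T => rp (bs T)) (filter_congr fun z _ => and_congr_right fun _ =>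
    ⟨sim_trans X hy, sim_trans X (sim_symm X hy)⟩)

theorem pl {Y : Type} (T : Finset Y) (g : Y → ℝ) (c : ℝ) (h0 : ∀ x ∈ T, 0 ≤ g x)
    (h : ∀ x ∈ T, g x ≤ c) : ∏ x ∈ T, g x ≤ c ^ #T :=
  (prod_le_prod h0 h).trans (prod_const c).le

theorem pairs {Y : Type} [Fintype Y] (G : Finset Y) (mu : Y → Y) (hi : Set.InjOn mu G)
    (b : Y → ℝ) (A : Y → Prop) {q D : ℝ} (q0 : 0 < q) (hq : q ≤ D) (b0 : ∀ x, 0 ≤ b x)
    (hD : ∀ x, b x ≤ D) (h1 : ∀ x ∈ G, ¬ A x → b x ≤ q)
    (h2 : ∀ x ∈ G, A x → ¬ A (mu x) ∧ b x * b (mu x) ≤ q ^ 2) :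
    ∏ x, b x ≤ q ^ #G * D ^ (Fintype.card Y - #G) := by
  set A1 : Finset Y := {x ∈ G | A x} with hA1
  set U : Finset Y := G ∪ A1.image mu with hU
  have i1 : Set.InjOn mu A1 := hi.mono (coe_subset.2 (filter_subset _ _))
  have dj : Disjoint A1 (A1.image mu) := disjoint_left.2 fun x hx hx' => by
    obtain ⟨y, hy, rfl⟩ := mem_image.1 hx'
    exact (h2 y (mem_filter.1 hy).1 (mem_filter.1 hy).2).1 (mem_filter.1 hx).2
  have sb : A1 ∪ A1.image mu ⊆ U := union_subset_union (filter_subset _ _) subset_rfl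
  have c1 : #(A1 ∪ A1.image mu) = 2 * #A1 := by
    rw [card_union_of_disjoint dj, card_image_of_injOn i1, two_mul]
  have p1 : ∏ x ∈ A1 ∪ A1.image mu, b x ≤ q ^ (2 * #A1) := by
    rw [prod_union dj, prod_image i1, ← prod_mul_distrib, pow_mul]
    exact pl _ _ _ (fun x _ => mul_nonneg (b0 _) (b0 _)) fun x hx =>
      (h2 x (mem_filter.1 hx).1 (mem_filter.1 hx).2).2
  have p2 : ∏ x ∈ U \ (A1 ∪ A1.image mu), b x ≤ q ^ #(U \ (A1 ∪ A1.image mu)) :=
    pl _ _ _ (fun x _ => b0 x) fun x hx => by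
      obtain ⟨a1, a2⟩ := mem_sdiff.1 hx
      have a3 : x ∈ G := (mem_union.1 a1).resolve_right fun a => a2 (mem_union_right _ a)
      exact h1 x a3 fun a => a2 (mem_union_left _ (mem_filter.2 ⟨a3, a⟩))
  have p3 : ∏ x ∈ Uᶜ, b x ≤ D ^ #Uᶜ := pl _ _ _ (fun x _ => b0 x) fun x _ => hD x
  have c2 := card_sdiff_add_card_eq_card sb
  have c3 := card_add_card_compl U
  obtain ⟨k, c4⟩ := Nat.exists_eq_add_of_le (card_le_card (subset_union_left : G ⊆ U))
  have D0 : 0 ≤ D := q0.le.trans hq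
  rw [← prod_mul_prod_compl U, ← prod_sdiff sb]
  calc _ ≤ q ^ #(U \ (A1 ∪ A1.image mu)) * q ^ (2 * #A1) * D ^ #Uᶜ :=
        mul_le_mul (mul_le_mul p2 p1 (prod_nonneg fun x _ => b0 x) (by positivity)) p3
          (prod_nonneg fun x _ => b0 x) (by positivity)
    _ = q ^ #G * (q ^ k * D ^ #Uᶜ) := by rw [← pow_add, ← c1, c2, c4, pow_add, mul_assoc]
    _ ≤ q ^ #G * (D ^ k * D ^ #Uᶜ) := by gcongr
    _ = _ := by rw [← pow_add, ← c3, c4, add_assoc, Nat.add_sub_cancel_left]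

theorem num {q D n ε : ℝ} {p g l L : ℕ} (q0 : 0 < q) (q1 : q ≤ 1) (D1 : 1 ≤ D) (n1 : 1 ≤ n)
    (hL : 0 < L) (gp : g ≤ p) (h1 : (p : ℝ) - g ≤ ε * p) (h2 : L * (p - l) ≤ p) :
    q ^ g * D ^ (p - g) * n ^ (p - l) ≤ (q ^ (1 - ε) * D ^ ε * n ^ (1 / (L : ℝ))) ^ p := by
  have L0 : (0 : ℝ) < L := by exact_mod_cast hL
  rw [mul_pow, mul_pow, ← Real.rpow_mul_natCast q0.le, ← Real.rpow_mul_natCast (by linarith),
    ← Real.rpow_mul_natCast (by linarith), ← Real.rpow_natCast q, ← Real.rpow_natCast D,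
    ← Real.rpow_natCast n]
  refine mul_le_mul (mul_le_mul (Real.rpow_le_rpow_of_exponent_ge q0 q1 (by linarith))
    (Real.rpow_le_rpow_of_exponent_le D1 (by rw [Nat.cast_sub gp]; linarith)) (by positivity)
    (by positivity)) (Real.rpow_le_rpow_of_exponent_le n1 ?_) (by positivity) (by positivity)
  rw [one_div, inv_mul_eq_div, le_div_iff₀ L0, mul_comm]
  exact_mod_cast h2

end E2ax

open E2ax

variable {K : Type} [Group K] {F : Fr K} (W : Wt F)

theorem level {σ : F.E → F.E} (hσ : F.Semi σ) {p : ℕ} (hp : 0 < p) (X : LP F σ p) {ε θ : ℝ}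
    {L : ℕ} (hε : 0 ≤ ε) (hε1 : ε ≤ 1) (hL : 0 < L) (hX : X.Ok ε L)
    (hθ : W.q ^ (1 - ε) * W.Dm ^ ε * W.nmax ^ (1 / (L : ℝ)) ≤ θ) :
    ∃ (s : Shape W.Θ W.Tg p) (ρ : Fin p → F.R) (he : Fin p × Bool → F.E),
      W.Real σ s ρ he ∧ W.wt s ≤ θ := by
  obtain ⟨pt, hpt⟩ := partner X hσ
  obtain ⟨rp, cr, sr, r1, r2, s1, s2, hc⟩ := reps X hp
  have rr : ∀ x, rp (rp x) = rp x := fun x => r2 _ _ (r1 x)
  have r3 : ∀ x y, rp x = rp y → F.row (X.o x) = F.row (X.o y) := fun x y h => by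
    rw [← r1 x, h, r1]
  have s3 : ∀ a b, sr (hv X a) = sr (hv X b) → hv X a = hv X b := fun a b h => by
    rw [← s1 a, h, s1]
  set Pl := F.Plain X.o X.i X.nx X.Lk with hPl
  let ty : Fin p → W.Θ := fun v => W.ty (F.dif (X.i v) (X.o v))
  have tys : ∀ x y, Sim X x y → ty x = ty y := fun x y h => by
    rcases h.2 with a | a <;> simp only [ty, a, W.ty_inv]
  let cat : Fin p → W.Θ ⊕ (Fin p × W.Θ) ⊕ Option W.Tg := fun v =>
    if Pl v then (if cr v = v then .inl (ty v) else .inr (.inl (cr v, ty (cr v))))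
    else if F.row (X.o v) = F.room then .inr (.inr none)
    else .inr (.inr (some (W.tag (F.row (X.o v)))))
  let n : Fin p → ℝ := fun v => W.nn (W.tag (F.row (X.o v)))
  let α : Fin p → ℝ := fun v =>
    if Pl v then (if cr v = v then W.Ff (ty v) else W.Cc (ty v))
    else if F.row (X.o v) = F.room then 1 else n v
  let β : Fin p → ℝ := fun v =>
    if Pl v then 1 else if F.row (X.o v) = F.room then 1 else W.Δ / Real.sqrt (n v)
  have hvw : ∀ v k, W.vw k (cat v) = α v * β v ^ k := fun v k => by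
    simp only [cat, α, β]
    split_ifs with a b c
    · simp [Wt.vw]
    · simp [Wt.vw, tys _ _ (hc v a).2.1]
    · simp [Wt.vw]
    · simp [Wt.vw, n]
  let sh : ℕ → Shape W.Θ W.Tg p := fun t =>
    (univ.filter fun v => t ≤ #{x ∈ univ | rp x = v},
      univ.filter fun a => t ≤ #{b ∈ LS X | sr (hv X b) = a},
      fun a => rp a.1, fun a => sr (σ (hv X a)), cat)
  have mV : ∀ t v, v ∈ (sh t).V ↔ t ≤ #{x ∈ univ | rp x = v} := fun t v => by
    simp [sh, Shape.V]
  have mS : ∀ t a, a ∈ (sh t).Sl ↔ t ≤ #{b ∈ LS X | sr (hv X b) = a} := fun t a => by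
    simp [sh, Shape.Sl]
  have c21 : ∀ a, #{b ∈ LS X | sr (hv X b) = a} ≤ #{x ∈ univ | rp x = rp a.1} := fun a =>
    card_le_card_of_injOn Prod.fst (fun b hb => by
      have hb := (mem_filter.1 (mem_coe.1 hb)).2
      refine mem_coe.2 (mem_filter.2 ⟨mem_univ _, r2 _ _ ?_⟩)
      rw [← hv_row, ← hv_row, ← hb, s1]) fun b hb b' hb' h =>
      hv_inj X h (s3 _ _ ((mem_filter.1 (mem_coe.1 hb)).2.trans
        (mem_filter.1 (mem_coe.1 hb')).2.symm))
  have c1p : ∀ v, #{x ∈ univ | rp x = v} ≤ p := fun v =>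
    (card_le_univ _).trans (Fintype.card_fin p).le
  have real : ∀ t, 1 ≤ t → W.Real σ (sh t) (fun v => F.row (X.o v)) (hv X) := by
    intro t ht
    have eS : ∀ a ∈ (sh t).Sl, ∃ b ∈ LS X, sr (hv X b) = a := fun a ha => by
      obtain ⟨b, hb⟩ := card_pos.1 (ht.trans ((mS t a).1 ha))
      exact ⟨b, mem_filter.1 hb⟩
    have eV : ∀ v ∈ (sh t).V, rp v = v := fun v h => by
      obtain ⟨b, hb⟩ := card_pos.1 (ht.trans ((mV t v).1 h))
      rw [← (mem_filter.1 hb).2, rr]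
    refine ⟨fun a ha a' ha' h => ?_, fun a ha => ?_, fun v hV => ?_⟩
    · obtain ⟨b, -, rfl⟩ := eS a ha
      obtain ⟨b', -, rfl⟩ := eS a' ha'
      rw [s1, s1] at h
      rw [h]
    · obtain ⟨b, hb, rfl⟩ := eS a ha
      obtain ⟨-, -, b3, b4⟩ := hpt b hb
      refine ⟨(mV t _).2 (((mS t _).1 ha).trans (c21 _)), (hv_row X _).trans (r1 _).symm,
        (mS t _).2 (((mS t _).1 ha).trans ?_), ?_, by rw [s1]; exact b4⟩
      · refine card_le_card_of_injOn pt (fun c hc => ?_) fun c hc c' hc' h => ?_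
        · obtain ⟨c1, c2⟩ := mem_filter.1 (mem_coe.1 hc)
          refine mem_coe.2 (mem_filter.2 ⟨(hpt c c1).1, ?_⟩)
          show _ = sr (σ (hv X (sr (hv X b))))
          rw [(hpt c c1).2.2.1, s1, s3 _ _ c2]
        · rw [← (hpt c (mem_filter.1 (mem_coe.1 hc)).1).2.1, h,
            (hpt c' (mem_filter.1 (mem_coe.1 hc')).1).2.1]
      · show hv X (sr (σ (hv X (sr (hv X b))))) = _
        rw [s1 b, ← b3, s1]
    · have v1 := eV v hV
      have sl : Pl v → ∀ a, (a ∈ (sh t).Sl ∧ (sh t).own a = v) ↔ a.1 = v := fun hP a => by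
        constructor
        · rintro ⟨a1, a2⟩
          obtain ⟨b, -, hb⟩ := eS a a1
          have a3 : F.row (X.o a.1) = F.row (X.o v) := r3 _ _ (a2.trans v1.symm)
          obtain ⟨c, hc⟩ : ∃ c, hv X a = hv X (v, c) := by
            obtain ⟨x, d⟩ := a
            rcases (hP.2 x a3).1 with e | e
            · exact ⟨d, by cases d <;> simp [hv, e]⟩
            · exact ⟨!d, by cases d <;> simp [hv, e]⟩
          have : a = (v, c) := by rw [← s2 (v, c) v1, ← hc, ← hb, s1]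
          rw [this]
        · obtain ⟨x, c⟩ := a
          rintro rfl
          refine ⟨(mS t _).2 (((mV t _).1 hV).trans ?_), v1⟩
          refine card_le_card_of_surjOn Prod.fst fun y hy => ?_
          have y1 := hP.2 y (r3 _ _ ((mem_filter.1 (mem_coe.1 hy)).2.trans v1.symm))
          have y2 : ∀ d, (y, d) ∈ LS X := fun d => by
            cases d
            · simpa [LS] using y1.2.2
            · simpa [LS] using y1.2.1
          obtain ⟨d, hd⟩ : ∃ d, hv X (y, d) = hv X (x, c) := by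
            rcases y1.1 with e | e
            · exact ⟨c, by cases c <;> simp [hv, e]⟩
            · exact ⟨!c, by cases c <;> simp [hv, e]⟩
          exact ⟨(y, d), mem_coe.2 (mem_filter.2 ⟨y2 d, by rw [hd, s2 (x, c) v1]⟩), rfl⟩
      show W.CatOk _ _ _ v (cat v)
      simp only [cat]
      split_ifs with a b c
      · exact ⟨a.1, sl a, rfl⟩
      · obtain ⟨c1, c2, c3, c4⟩ := hc v a
        refine ⟨a.1, sl a, (mV t _).2 (((mV t _).1 hV).trans (by rw [v1] at c3; exact c3)), ?_,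
          c2.1, c2.2⟩
        show cat (cr v) = _
        simp only [cat]
        rw [if_pos c1, if_pos (c4 _ c1 c2)]
      · exact c
      · exact ⟨c, rfl⟩
  have wt1 : ∀ t, W.wt (sh t) = (∏ v ∈ (sh t).V, α v) * ∏ a ∈ (sh t).Sl, β (rp a.1) := fun t => by
    rw [← prod_fiberwise_of_maps_to (s := (sh t).Sl) (t := (sh t).V) (g := fun a => rp a.1)
      (fun a ha => (mV t _).2 (((mS t _).1 ha).trans (c21 _))), ← prod_mul_distrib]
    refine prod_congr rfl fun v _ => ?_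
    rw [prod_congr rfl (g := fun _ => β v) (fun x hx => by rw [(mem_filter.1 hx).2]), prod_const]
    exact hvw v _
  have n1 : ∀ v, 1 ≤ n v := fun v => W.nn_one _
  have N1 : 1 ≤ W.nmax := (n1 ⟨0, hp⟩).trans (W.nn_le _)
  have Δ1 := W.Δ_one
  have hΔ := W.hΔ
  have D1 : 1 ≤ W.Dm := by nlinarith
  set S := Real.sqrt W.nmax with hS
  have S1 : 1 ≤ S := Real.one_le_sqrt.2 N1
  let b : Fin p → ℝ := fun x => if Pl x then α (rp x) else W.Dm
  have αp : ∀ x, Pl x → Pl (rp x) ∧ α (rp x) = if cr x = rp x then W.Ff (ty x) else W.Cc (ty x) :=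
    fun x hx => by
      obtain ⟨a1, a2⟩ := plain_row X hx (r1 x)
      refine ⟨a1, ?_⟩
      simp only [α]
      rw [if_pos a1, (hc x hx).2.2.2 _ a1 (sim_symm X a2), tys _ _ a2]
  have b0 : ∀ x, 0 ≤ b x := fun x => by
    simp only [b]
    split_ifs with a
    · rw [(αp x a).2]; split_ifs
      exacts [W.Ff_nonneg _, W.Cc_nonneg _]
    · linarith
  have bD : ∀ x, b x ≤ W.Dm := fun x => by
    simp only [b]
    split_ifs with a
    · rw [(αp x a).2]; split_ifs
      exacts [W.hFD _, ((W.hCq _).trans W.q_le).trans D1]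
    · exact le_rfl
  have pb := pairs X.Gd X.mu X.mu_inj b (fun x => cr x = rp x) W.q_pos (W.q_le.trans D1) b0 bD
    (fun x hx h => by
      have a := (X.good x hx).1
      simp only [b]
      rw [if_pos a, (αp x a).2, if_neg h]
      exact W.hCq _)
    (fun x hx h => by
      obtain ⟨a1, a2, a3, a4, a5⟩ := X.good x hx
      have a6 : Sim X (X.mu x) x := ⟨a4, Or.inr a5⟩
      have a7 : ¬ cr (X.mu x) = rp (X.mu x) := fun e => a3 (r3 _ _ (by
        rw [← e, ← h, (hc x a1).2.2.2 _ a2 (sim_symm X a6)]))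
      refine ⟨a7, ?_⟩
      simp only [b]
      rw [if_pos a1, if_pos a2, (αp x a1).2, (αp _ a2).2, if_pos h, if_neg a7, tys _ _ a6]
      exact W.hFC _)
  have dart : ∀ (x : Fin p) (c d : Prop) [Decidable c] [Decidable d], 0 ≤ α (rp x) * ((if c then β (rp x) else 1) *
        if d then β (rp x) else 1) ∧ α (rp x) * ((if c then β (rp x) else 1) *
        if d then β (rp x) else 1) ≤ b x * ((if c then 1 else S) * if d then 1 else S) := by
    intro x c d _ _
    have e1 : 1 ≤ (if c then 1 else S) * if d then 1 else S := by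
      split_ifs <;> nlinarith
    by_cases a : Pl x
    · have e2 : β (rp x) = 1 := if_pos (αp x a).1
      have e3 : b x = α (rp x) := if_pos a
      rw [e2, ite_self, ite_self, mul_one, mul_one, ← e3]
      exact ⟨b0 x, le_mul_of_one_le_right (b0 x) e1⟩
    have a' : ¬ Pl (rp x) := fun h => a (plain_row X h (r1 x).symm).1
    have e3 : b x = W.Dm := if_neg a
    by_cases r : F.row (X.o (rp x)) = F.room
    · have e2 : β (rp x) = 1 := by simp only [β]; rw [if_neg a', if_pos r]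
      have e4 : α (rp x) = 1 := by simp only [α]; rw [if_neg a', if_pos r]
      rw [e2, e3, e4, ite_self, ite_self]
      constructor <;> nlinarith
    have e2 : β (rp x) = W.Δ / Real.sqrt (n (rp x)) := by simp only [β]; rw [if_neg a', if_neg r]
    have e4 : α (rp x) = Real.sqrt (n (rp x)) ^ 2 := by
      simp only [α]; rw [if_neg a', if_neg r, Real.sq_sqrt (by linarith [n1 (rp x)])]
    have u1 : 1 ≤ Real.sqrt (n (rp x)) := Real.one_le_sqrt.2 (n1 _)
    have u2 : Real.sqrt (n (rp x)) ≤ S := Real.sqrt_le_sqrt (W.nn_le _)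
    rw [e2, e3, e4]
    generalize Real.sqrt (n (rp x)) = u at u1 u2
    have u0 : 0 < u := by linarith
    have u3 : u * W.Δ ≤ W.Dm * S := by
      rw [mul_comm]; exact mul_le_mul (by nlinarith) u2 u0.le (by linarith)
    refine ⟨by split_ifs <;> positivity, ?_⟩
    split_ifs
    · calc _ = W.Δ ^ 2 := by field_simp
        _ ≤ _ := by linarith
    · calc _ = u * W.Δ := by field_simp
        _ ≤ _ := by linarith
    · calc _ = u * W.Δ := by field_simp
        _ ≤ _ := by linarith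
    · have : u ^ 2 ≤ S * S := by nlinarith
      nlinarith
  have tot : ∏ t ∈ Icc 1 p, W.wt (sh t) ≤ θ ^ p := by
    have e1 := lev univ rp α p c1p
    have e2 := lev (LS X) (fun b => sr (hv X b)) (fun a => β (rp a.1)) p
      fun a => (c21 a).trans (c1p _)
    have e3 : ∏ a ∈ LS X, β (rp (sr (hv X a)).1) = ∏ x, ((if x ∈ X.Lk then β (rp x) else 1) *
        if x ∈ X.Lk.image X.nx then β (rp x) else 1) := by
      rw [prod_congr rfl (g := fun a => β (rp a.1)) (fun a _ => by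
        rw [r2 _ a.1 (by rw [← hv_row, ← hv_row, s1])]), LS, prod_filter, Fintype.prod_prod_type]
      simp
    have e4 : ∀ T : Finset (Fin p), ∏ x, (if x ∈ T then 1 else S) = S ^ (p - #T) := fun T => by
      rw [prod_ite, prod_const_one, one_mul, prod_const]
      congr 1
      rw [filter_notMem_eq_sdiff, card_univ_sdiff, Fintype.card_fin]
    simp only [wt1]
    rw [prod_mul_distrib]
    refine (congrArg₂ (· * ·) e1 (e2.trans e3)).trans_le ?_
    show (∏ x, α (rp x)) * _ ≤ _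
    rw [← prod_mul_distrib]
    refine (prod_le_prod (fun x _ => (dart x _ _).1) fun x _ => (dart x _ _).2).trans ?_
    rw [prod_mul_distrib, prod_mul_distrib, e4, e4, card_image_of_injOn X.nx_inj, ← mul_pow,
      Real.mul_self_sqrt (by linarith)]
    rw [Fintype.card_fin] at pb
    refine (mul_le_mul_of_nonneg_right pb (by positivity)).trans
      ((num W.q_pos W.q_le D1 N1 hL ((card_le_univ _).trans (Fintype.card_fin p).le)
        hX.1 hX.2).trans (pow_le_pow_left₀ (by have := W.q_pos; positivity) hθ p))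
  by_contra hn
  have θ0 : 0 < θ := lt_of_lt_of_le (by have := W.q_pos; positivity) hθ
  have : ∏ _t ∈ Icc 1 p, θ < ∏ t ∈ Icc 1 p, W.wt (sh t) :=
    prod_lt_prod_of_nonempty (fun _ _ => θ0) (fun t ht => lt_of_not_ge fun h =>
      hn ⟨_, _, _, real t (mem_Icc.1 ht).1, h⟩) ⟨1, mem_Icc.2 ⟨le_rfl, hp⟩⟩
  rw [prod_const, Nat.card_Icc, Nat.add_sub_cancel] at this
  linarith

end Pool.Agent.MP_c6eade_gt.H41
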