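import Pool.Agent.MP_c6eade_gt.H41.Basic

namespace Pool.Agent.MP_c6eade_gt.H41

open Equiv Finset
open scoped Classical

namespace E2bx

/-- Two-stage sum: roots first, then the children. -/
theorem two_stage {I X : Type} [Fintype I] [DecidableEq I] [Fintype X] (G : I → X → X → ℝ)
    (hG : ∀ i x y, 0 ≤ G i x y) (root : I → Prop) (par : I → I)
    (hroot : ∀ i, root i → ∀ x x' y, G i x y = G i x' y) (hp : ∀ i, ¬ root i → root (par i))
    (cost : I → ℝ) (x0 : X) (hc : ∀ i x, ∑ y, G i x y ≤ cost i) :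
    ∑ U : I → X, ∏ i, G i (U (par i)) (U i) ≤ ∏ i, cost i := by
  have c0 : ∀ i, 0 ≤ cost i := fun i => (sum_nonneg fun y _ => hG i x0 y).trans (hc i x0)
  let E := Equiv.piEquivPiSubtypeProd root fun _ : I => X
  have key : ∀ (A : {i // root i} → X) (B : {i // ¬ root i} → X),
      ∏ i, G i (E.symm (A, B) (par i)) (E.symm (A, B) i) =
        (∏ i : {i // root i}, G i x0 (A i)) *
          ∏ i : {i // ¬ root i}, G i (A ⟨par i, hp i i.2⟩) (B i) := by
    intro A B
    rw [← Fintype.prod_subtype_mul_prod_subtype root]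
    congr 1
    · refine Fintype.prod_congr _ _ fun i => ?_
      rw [hroot i i.2 _ x0]
      simp [E, Equiv.piEquivPiSubtypeProd, i.2]
    · refine Fintype.prod_congr _ _ fun i => ?_
      simp [E, Equiv.piEquivPiSubtypeProd, i.2, hp i i.2]
  rw [← E.symm.sum_comp, Fintype.sum_prod_type]
  simp only [key]
  calc ∑ A : {i // root i} → X, ∑ B : {i // ¬ root i} → X, (∏ i : {i // root i}, G i x0 (A i)) *
          ∏ i : {i // ¬ root i}, G i (A ⟨par i, hp i i.2⟩) (B i)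
      ≤ ∑ A : {i // root i} → X, (∏ i : {i // root i}, G i x0 (A i)) *
          ∏ i : {i // ¬ root i}, cost i := by
        refine sum_le_sum fun A _ => ?_
        rw [← mul_sum]
        refine mul_le_mul_of_nonneg_left ?_ (prod_nonneg fun i _ => hG _ _ _)
        rw [← Fintype.prod_sum fun (i : {i // ¬ root i}) y => G i (A ⟨par i, hp i i.2⟩) y]
        exact prod_le_prod (fun i _ => sum_nonneg fun y _ => hG _ _ _) fun i _ => hc _ _
    _ ≤ (∏ i : {i // root i}, cost i) * ∏ i : {i // ¬ root i}, cost i := by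
        rw [← sum_mul]
        refine mul_le_mul_of_nonneg_right ?_ (prod_nonneg fun i _ => c0 _)
        rw [← Fintype.prod_sum fun (i : {i // root i}) y => G i x0 y]
        exact prod_le_prod (fun i _ => sum_nonneg fun y _ => hG _ _ _) fun i _ => hc _ _
    _ = _ := Fintype.prod_subtype_mul_prod_subtype root cost

theorem sum_inj {α β : Type} (s : Finset α) (t : Finset β) (f : α → β) (hi : Set.InjOn f s)
    (hm : ∀ a ∈ s, f a ∈ t) (g : β → ℝ) (hg : ∀ b, 0 ≤ g b) :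
    ∑ a ∈ s, g (f a) ≤ ∑ b ∈ t, g b := by
  rw [← sum_image hi]
  exact sum_le_sum_of_subset_of_nonneg (image_subset_iff.2 hm) fun b _ _ => hg b

theorem sum_pow {A E : Type} [Fintype A] [DecidableEq A] [Fintype E] (S : Finset A) (d : A → E)
    (T : Finset E) (w : E → ℝ) :
    ∑ φ : A → E with ((∀ a, a ∉ S → φ a = d a) ∧ ∀ a ∈ S, φ a ∈ T), ∏ a ∈ S, w (φ a) =
      (∑ e ∈ T, w e) ^ #S := by
  have h := Finset.prod_univ_sum (fun a => if a ∈ S then T else {d a})
    fun a e => if a ∈ S then w e else 1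
  have h1 : ∏ a, ∑ e ∈ (if a ∈ S then T else {d a}), (if a ∈ S then w e else 1) =
      (∑ e ∈ T, w e) ^ #S := by
    rw [← prod_const, ← Fintype.prod_ite_mem S fun _ => ∑ e ∈ T, w e]
    refine Fintype.prod_congr _ _ fun a => ?_
    split_ifs <;> simp
  rw [← h1, h]
  refine sum_congr ?_ fun φ _ => (Fintype.prod_ite_mem S fun a => w (φ a)).symm
  ext φ
  simp only [mem_filter, mem_univ, true_and, Fintype.mem_piFinset]
  constructor
  · rintro ⟨a1, a2⟩ a
    split_ifs with c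
    exacts [a2 a c, mem_singleton.2 (a1 a c)]
  · intro h
    refine ⟨fun a c => ?_, fun a c => ?_⟩
    · simpa [c] using h a
    · simpa [c] using h a

variable {K : Type} {F : Fr K}

theorem om_nonneg (e : F.E) : 0 ≤ F.om e := inv_nonneg.2 (Real.sqrt_nonneg _)

theorem dom_step {𝒮 : Finset (F.E → F.E)} {p P : ℕ} (hD : F.Dom 𝒮 P) (hp : 2 * p ≤ P)
    {τ : F.E → F.E} (hτ : F.Semi τ) (B : Finset F.E) (hB : ∀ e ∈ B, τ e ∈ B ∧ τ e ≠ e)
    (hc : #B ≤ 2 * p) :
    (#{σ ∈ 𝒮 | ∀ e ∈ B, σ e = τ e} : ℝ) ≤ #𝒮 * 4 ^ p * ∏ e ∈ B, F.om e := by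
  have hA : #{e ∈ B | F.sd e = true} ≤ 2 * p := (card_filter_le _ _).trans hc
  have h := hD {e ∈ B | F.sd e = true} τ (hA.trans hp) fun e he =>
    ⟨(mem_filter.1 he).2, (hτ.2.2 e (hB e (mem_filter.1 he).1).2).1⟩
  have h1 : ∏ e ∈ B with F.sd e = true, F.om (τ e) = ∏ e ∈ B with ¬ F.sd e = true, F.om e := by
    refine prod_nbij' τ τ (fun e he => ?_) (fun e he => ?_) (fun e _ => hτ.1 e)
      (fun e _ => hτ.1 e) fun e _ => rfl
    · obtain ⟨a1, a2⟩ := mem_filter.1 he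
      exact mem_filter.2 ⟨(hB e a1).1, fun c => (hτ.2.2 e (hB e a1).2).2 (c.trans a2.symm)⟩
    · obtain ⟨a1, a2⟩ := mem_filter.1 he
      refine mem_filter.2 ⟨(hB e a1).1, ?_⟩
      have := (hτ.2.2 e (hB e a1).2).2
      revert this a2
      cases F.sd (τ e) <;> cases F.sd e <;> simp
  rw [prod_mul_distrib, prod_mul_distrib, prod_const, h1, mul_assoc,
    prod_filter_mul_prod_filter_not] at h
  refine le_trans (Nat.cast_le.2 (card_le_card fun σ hσ => ?_)) (h.trans ?_)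
  · exact mem_filter.2 ⟨(mem_filter.1 hσ).1, fun e he => (mem_filter.1 hσ).2 e (mem_filter.1 he).1⟩
  · rw [mul_assoc]
    refine mul_le_mul_of_nonneg_left (mul_le_mul_of_nonneg_right ?_
      (prod_nonneg fun e _ => om_nonneg e)) (Nat.cast_nonneg _)
    calc (2 : ℝ) ^ #{e ∈ B | F.sd e = true} ≤ 2 ^ (2 * p) := pow_le_pow_right₀ one_le_two hA
      _ = 4 ^ p := by rw [pow_mul]; norm_num

variable {p : ℕ}

/-- The datum `y` puts the slots of `S` into its row and is equal to `d` elsewhere. -/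
def Loc (F : Fr K) (S : Finset (Fin p × Bool)) (d : Fin p × Bool → F.E)
    (y : F.R × (Fin p × Bool → F.E)) : Prop :=
  (∀ a, a ∉ S → y.2 a = d a) ∧ ∀ a ∈ S, F.row (y.2 a) = y.1 ∧ 0 ≤ F.ht (y.2 a)

theorem pair (S : Finset (Fin p × Bool)) (v : Fin p) (hS : ∀ a, a ∈ S ↔ a.1 = v)
    (d : Fin p × Bool → F.E) (T : Finset (F.E × F.E))
    (Y : Finset (F.R × (Fin p × Bool → F.E))) (hY : ∀ y ∈ Y, Loc F S d y)
    (h : ∀ y ∈ Y, (y.2 (v, false), y.2 (v, true)) ∈ T) :
    ∑ y ∈ Y, ∏ a ∈ S, F.om (y.2 a) ≤ ∑ c ∈ T, F.om c.1 * F.om c.2 := by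
  have e : S = {(v, false), (v, true)} := by
    ext ⟨a, b⟩
    rw [hS]
    cases b <;> simp
  have e2 : ∀ y : F.R × (Fin p × Bool → F.E), ∏ a ∈ S, F.om (y.2 a) =
      F.om (y.2 (v, false)) * F.om (y.2 (v, true)) := fun y => by
    rw [e, prod_pair (by simp)]
  simp only [e2]
  refine sum_inj Y T (fun y => (y.2 (v, false), y.2 (v, true))) (fun y hy z hz hyz => ?_) h
    (fun c => F.om c.1 * F.om c.2) fun c => mul_nonneg (om_nonneg _) (om_nonneg _)
  obtain ⟨a1, a2⟩ := Prod.mk.inj hyz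
  have b := (hS (v, false)).2 rfl
  refine Prod.ext (by rw [← ((hY y hy).2 _ b).1, ← ((hY z hz).2 _ b).1, a1]) (funext fun a => ?_)
  by_cases c : a ∈ S
  · obtain ⟨a, o⟩ := a
    obtain rfl : a = v := (hS _).1 c
    cases o
    exacts [a1, a2]
  · rw [(hY y hy).1 a c, (hY z hz).1 a c]

theorem rows (S : Finset (Fin p × Bool)) (d : Fin p × Bool → F.E) (T : Finset F.R) (b : ℝ)
    (hb : ∀ r ∈ T, ∑ e : F.E with (F.row e = r ∧ 0 ≤ F.ht e), F.om e ≤ b)
    (Y : Finset (F.R × (Fin p × Bool → F.E))) (hY : ∀ y ∈ Y, Loc F S d y)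
    (h : ∀ y ∈ Y, y.1 ∈ T) : ∑ y ∈ Y, ∏ a ∈ S, F.om (y.2 a) ≤ #T * b ^ #S := by
  rw [← sum_fiberwise_of_maps_to h, ← nsmul_eq_mul]
  refine sum_le_card_nsmul _ _ _ fun r hr => ?_
  refine le_trans ?_ (pow_le_pow_left₀ (sum_nonneg fun e _ => om_nonneg e) (hb r hr) _)
  rw [← sum_pow S d]
  refine sum_inj _ _ (fun y : F.R × (Fin p × Bool → F.E) => y.2) (fun y hy z hz hyz => ?_)
    (fun y hy => ?_) (fun φ => ∏ a ∈ S, F.om (φ a)) fun φ => prod_nonneg fun a _ => om_nonneg _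
  · exact Prod.ext ((mem_filter.1 hy).2.trans (mem_filter.1 hz).2.symm) hyz
  · obtain ⟨a1, rfl⟩ := mem_filter.1 hy
    exact mem_filter.2 ⟨mem_univ _, (hY y a1).1, fun a ha =>
      mem_filter.2 ⟨mem_univ _, (hY y a1).2 a ha⟩⟩

variable [Group K] (W : Wt F)

/-- The condition on the datum `y` of the vertex `v`, given the datum `x` of its reference. -/
def Ok (v : Fin p) (x y : F.R × (Fin p × Bool → F.E)) :
    W.Θ ⊕ (Fin p × W.Θ) ⊕ Option W.Tg → Prop
  | .inl τ => y.1 ≠ F.room ∧ W.ty (F.dif (y.2 (v, false)) (y.2 (v, true))) = τ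
  | .inr (.inl c) => y.1 ≠ F.room ∧ W.ty (F.dif (x.2 (c.1, false)) (x.2 (c.1, true))) = c.2 ∧
      F.kind y.1 = F.kind x.1 ∧
      (F.dif (y.2 (v, false)) (y.2 (v, true)) = F.dif (x.2 (c.1, false)) (x.2 (c.1, true)) ∨
        F.dif (y.2 (v, false)) (y.2 (v, true)) = (F.dif (x.2 (c.1, false)) (x.2 (c.1, true)))⁻¹)
  | .inr (.inr (some t)) => y.1 ≠ F.room ∧ W.tag y.1 = t
  | .inr (.inr none) => y.1 = F.room

theorem vertex (S : Finset (Fin p × Bool)) (d : Fin p × Bool → F.E) (v : Fin p)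
    (x : F.R × (Fin p × Bool → F.E)) (c : W.Θ ⊕ (Fin p × W.Θ) ⊕ Option W.Tg)
    (hS : (∀ o, c ≠ .inr (.inr o)) → ∀ a, a ∈ S ↔ a.1 = v) :
    ∑ y with (Loc F S d y ∧ Ok W v x y c), ∏ a ∈ S, F.om (y.2 a) ≤ W.vw #S c := by
  rcases c with τ | c | _ | t
  · have hS := hS (by simp)
    refine (pair S v hS d _ _ (fun y hy => (mem_filter.1 hy).2.1) fun y hy => ?_).trans (W.hF τ)
    obtain ⟨-, a1, a2, a3⟩ := mem_filter.1 hy
    have b1 := a1.2 _ ((hS (v, false)).2 rfl)
    have b2 := a1.2 _ ((hS (v, true)).2 rfl)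
    exact mem_filter.2 ⟨mem_univ _, b1.1.trans b2.1.symm, b1.1 ▸ a2, b1.2, b2.2, a3⟩
  · have hS := hS (by simp)
    by_cases h0 : W.ty (F.dif (x.2 (c.1, false)) (x.2 (c.1, true))) = c.2
    · refine (pair S v hS d _ _ (fun y hy => (mem_filter.1 hy).2.1) fun y hy => ?_).trans
        ((W.hC (F.kind x.1) _).trans (le_of_eq (congrArg W.Cc h0)))
      obtain ⟨-, a1, a2, -, a3, a4⟩ := mem_filter.1 hy
      have b1 := a1.2 _ ((hS (v, false)).2 rfl)
      have b2 := a1.2 _ ((hS (v, true)).2 rfl)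
      exact mem_filter.2 ⟨mem_univ _, b1.1.trans b2.1.symm, b1.1 ▸ a2, b1.2, b2.2,
        b1.1 ▸ a3, a4⟩
    · rw [sum_eq_zero fun y hy => absurd (mem_filter.1 hy).2.2.2.1 h0]
      exact W.Cc_nonneg _
  · refine (rows S d {F.room} 1 (fun r hr => ?_) _ (fun y hy => (mem_filter.1 hy).2.1)
      fun y hy => mem_singleton.2 (mem_filter.1 hy).2.2).trans (le_of_eq ?_)
    · rw [mem_singleton.1 hr]
      exact W.room_w
    · simp [Wt.vw]
  · refine (rows S d {r | r ≠ F.room ∧ W.tag r = t} (W.Δ / Real.sqrt (W.nn t)) (fun r hr => ?_) _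
      (fun y hy => (mem_filter.1 hy).2.1)
      fun y hy => mem_filter.2 ⟨mem_univ _, (mem_filter.1 hy).2.2⟩).trans ?_
    · obtain ⟨-, a1, rfl⟩ := mem_filter.1 hr
      exact W.row_w r a1
    · exact mul_le_mul_of_nonneg_right (W.tag_card t)
        (pow_nonneg (div_nonneg (zero_le_one.trans W.Δ_one) (Real.sqrt_nonneg _)) _)

end E2bx

variable {K : Type} [Group K] {F : Fr K} (W : Wt F)

theorem shape_prob {𝒮 : Finset (F.E → F.E)} (h𝒮 : ∀ σ ∈ 𝒮, F.Semi σ) {p P : ℕ}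
    (hD : F.Dom 𝒮 P) (hp : 2 * p ≤ P) (s : Shape W.Θ W.Tg p) :
    (#{σ ∈ 𝒮 | ∃ ρ he, W.Real σ s ρ he} : ℝ) ≤ #𝒮 * 4 ^ p * W.wt s := by
  let X := F.R × (Fin p × Bool → F.E)
  let S : Fin p → Finset (Fin p × Bool) := fun v => {a ∈ s.Sl | s.own a = v}
  let cat : Fin p → W.Θ ⊕ (Fin p × W.Θ) ⊕ Option W.Tg := fun v =>
    if v ∈ s.V then s.cat v else .inr (.inr none)
  let par : Fin p → Fin p := fun v => Sum.elim (fun _ => v) (Sum.elim Prod.fst fun _ => v) (cat v)
  have hwt : ∏ v, W.vw #(S v) (cat v) = W.wt s := by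
    rw [Wt.wt, ← Fintype.prod_ite_mem s.V]
    refine Fintype.prod_congr _ _ fun v => ?_
    simp only [cat, S]
    split_ifs <;> rfl
  rcases {σ ∈ 𝒮 | ∃ ρ he, W.Real σ s ρ he}.eq_empty_or_nonempty with h0 | ⟨σ0, h0⟩
  · rw [h0, card_empty, Nat.cast_zero]
    refine mul_nonneg (by positivity) (prod_nonneg fun v _ => ?_)
    rcases s.cat v with τ | c | _ | t
    · exact W.Ff_nonneg _
    · exact W.Cc_nonneg _
    · exact zero_le_one
    · exact mul_nonneg (zero_le_one.trans (W.nn_one t))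
        (pow_nonneg (div_nonneg (zero_le_one.trans W.Δ_one) (Real.sqrt_nonneg _)) _)
  obtain ⟨-, ρ0, d, -, hd, hd'⟩ := mem_filter.1 h0
  have hS : ∀ v, (∀ o, cat v ≠ .inr (.inr o)) → ∀ a, a ∈ S v ↔ a.1 = v := by
    intro v hv a
    simp only [cat] at hv
    split_ifs at hv with c
    · have := hd' v c
      revert hv this
      rcases s.cat v with τ | c | o
      · exact fun _ h => mem_filter.trans (h.2.1 a)
      · exact fun _ h => mem_filter.trans (h.2.1 a)
      · exact fun h => absurd rfl (h o)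
    · exact absurd rfl (hv none)
  have hpar : ∀ v c, cat v = .inr (.inl c) → c.1 ∈ s.V ∧ s.cat c.1 = .inl c.2 := by
    intro v c hv
    simp only [cat] at hv
    split_ifs at hv with h
    · have := hd' v h
      rw [hv] at this
      exact ⟨this.2.2.1, this.2.2.2.1⟩
    · simp at hv
  let hh : (Fin p → X) → Fin p × Bool → F.E := fun U a => (U (s.own a)).2 a
  let A : Fin p → X → X → Prop := fun v x y => E2bx.Loc F (S v) d y ∧ E2bx.Ok W v x y (cat v)
  let G : Fin p → X → X → ℝ := fun v x y => if A v x y then ∏ a ∈ S v, F.om (y.2 a) else 0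
  have hG : ∀ v x y, 0 ≤ G v x y := fun v x y => by
    simp only [G]
    split_ifs
    exacts [prod_nonneg fun a _ => E2bx.om_nonneg _, le_rfl]
  let Ev : (Fin p → X) → Finset (F.E → F.E) := fun U => {σ ∈ 𝒮 | Set.InjOn (hh U) s.Sl ∧
    (∀ v, A v (U (par v)) (U v)) ∧
    ∀ a ∈ s.Sl, σ (hh U a) = hh U (s.mate a) ∧ σ (hh U a) ≠ hh U a}
  have h1 : {σ ∈ 𝒮 | ∃ ρ he, W.Real σ s ρ he} ⊆ univ.biUnion Ev := by
    intro σ hσ
    obtain ⟨a1, ρ, he, b1, b2, b3⟩ := mem_filter.1 hσ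
    let U : Fin p → X := fun v =>
      (if v ∈ s.V then ρ v else F.room, fun a => if a ∈ S v then he a else d a)
    have u1 : ∀ v, ∀ a ∈ S v, (U v).2 a = he a := fun v a ha => if_pos ha
    have u2 : ∀ a ∈ s.Sl, hh U a = he a := fun a ha => u1 _ a (mem_filter.2 ⟨ha, rfl⟩)
    have u3 : ∀ v ∈ s.V, (U v).1 = ρ v := fun v hv => if_pos hv
    refine mem_biUnion.2 ⟨U, mem_univ _, mem_filter.2 ⟨a1, fun a ha b hb hab => b1 ha hb ?_,
      fun v => ⟨⟨fun a ha => if_neg ha, fun a ha => ?_⟩, ?_⟩, fun a ha => ?_⟩⟩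
    · rwa [u2 a ha, u2 b hb] at hab
    · obtain ⟨c1, rfl⟩ := mem_filter.1 ha
      rw [u1 _ a ha, u3 _ (b2 a c1).1]
      exact ⟨(b2 a c1).2.1, ((h𝒮 σ a1).2.2 _ (b2 a c1).2.2.2.2).1⟩
    · by_cases hv : v ∈ s.V
      · have e : cat v = s.cat v := if_pos hv
        have c1 := b3 v hv
        have c2 := hS v
        have c3 := hpar v
        have c4 : par v = Sum.elim (fun _ => v) (Sum.elim Prod.fst fun _ => v) (cat v) := rfl
        rw [← e] at c1
        revert c1 c2 c3 c4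
        rcases cat v with τ | c | _ | t
        · intro c1 c2 _ _
          have c2 := c2 (by simp)
          refine ⟨(u3 v hv).symm ▸ c1.1, ?_⟩
          rw [u1 v _ ((c2 _).2 rfl), u1 v _ ((c2 _).2 rfl)]
          exact c1.2.2
        · intro c1 c2 c3 c4
          have c2 := c2 (by simp)
          obtain ⟨g1, g2⟩ := c3 c rfl
          have g3 := hS c.1 (by simp [cat, g1, g2])
          have g4 := b3 _ g1
          rw [g2] at g4
          rw [show par v = c.1 from c4]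
          refine ⟨(u3 v hv).symm ▸ c1.1, ?_, ?_, ?_⟩
          · rw [u1 _ _ ((g3 _).2 rfl), u1 _ _ ((g3 _).2 rfl)]
            exact g4.2.2
          · rw [u3 v hv, u3 _ g1]
            exact c1.2.2.2.2.1
          · rw [u1 _ _ ((g3 _).2 rfl), u1 _ _ ((g3 _).2 rfl), u1 v _ ((c2 _).2 rfl),
              u1 v _ ((c2 _).2 rfl)]
            exact c1.2.2.2.2.2
        · exact fun c1 _ _ _ => (u3 v hv).trans c1
        · exact fun c1 _ _ _ => ⟨(u3 v hv).symm ▸ c1.1, (u3 v hv).symm ▸ c1.2⟩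
      · rw [show cat v = .inr (.inr none) from if_neg hv]
        exact if_neg hv
    · rw [u2 a ha, u2 _ (b2 a ha).2.2.1]
      exact ⟨(b2 a ha).2.2.2.1.symm, (b2 a ha).2.2.2.2⟩
  have h2 : ∀ U, (#(Ev U) : ℝ) ≤ #𝒮 * 4 ^ p * ∏ v, G v (U (par v)) (U v) := by
    intro U
    rcases (Ev U).eq_empty_or_nonempty with h | ⟨τ, hτ⟩
    · rw [h, card_empty, Nat.cast_zero]
      exact mul_nonneg (by positivity) (prod_nonneg fun v _ => hG _ _ _)
    obtain ⟨a1, a2, a3, a4⟩ := mem_filter.1 hτ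
    have := E2bx.dom_step hD hp (h𝒮 τ a1) (s.Sl.image (hh U)) (fun e he => by
      obtain ⟨a, ha, rfl⟩ := mem_image.1 he
      exact ⟨(a4 a ha).1 ▸ mem_image_of_mem _ (hd a ha).2.2.1, (a4 a ha).2⟩)
      (card_image_le.trans ((card_le_univ _).trans (by simp [mul_comm])))
    rw [prod_image a2, ← prod_fiberwise s.Sl s.own] at this
    refine le_trans (Nat.cast_le.2 (card_le_card fun σ hσ => ?_)) (this.trans (le_of_eq ?_))
    · obtain ⟨b1, -, -, b2⟩ := mem_filter.1 hσ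
      refine mem_filter.2 ⟨b1, fun e he => ?_⟩
      obtain ⟨a, ha, rfl⟩ := mem_image.1 he
      rw [(b2 a ha).1, (a4 a ha).1]
    · congr 1
      refine Fintype.prod_congr _ _ fun v => ?_
      simp only [G]
      rw [if_pos (a3 v)]
      refine prod_congr rfl fun a ha => ?_
      rw [← (mem_filter.1 ha).2]
  have h3 := E2bx.two_stage G hG (fun v => ∀ c, cat v ≠ .inr (.inl c)) par (fun v hv x x' y => by
      have : A v x y ↔ A v x' y := by
        simp only [A]
        revert hv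
        rcases cat v with τ | c | _ | t
        · exact fun _ => Iff.rfl
        · exact fun h => absurd rfl (h c)
        · exact fun _ => Iff.rfl
        · exact fun _ => Iff.rfl
      simp only [G, this])
    (fun v hv c' => by
      push Not at hv
      obtain ⟨c, hc⟩ := hv
      obtain ⟨g1, g2⟩ := hpar v c hc
      have : par v = c.1 := by simp only [par, hc]; rfl
      rw [this]
      simp [cat, g1, g2])
    (fun v => W.vw #(S v) (cat v)) (F.room, d) fun v x => by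
      simp only [G]
      rw [← sum_filter]
      exact E2bx.vertex W (S v) d v x (cat v) (hS v)
  calc (#{σ ∈ 𝒮 | ∃ ρ he, W.Real σ s ρ he} : ℝ) ≤ ∑ U, (#(Ev U) : ℝ) := by
        exact_mod_cast (card_le_card h1).trans card_biUnion_le
    _ ≤ ∑ U : Fin p → X, #𝒮 * 4 ^ p * ∏ v, G v (U (par v)) (U v) := sum_le_sum fun U _ => h2 U
    _ ≤ _ := by
        rw [← mul_sum, ← hwt]
        exact mul_le_mul_of_nonneg_left h3 (by positivity)

end Pool.Agent.MP_c6eade_gt.H41
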