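import Pool.Agent.MP_c6eade_gt.H41.E2a
import Pool.Agent.MP_c6eade_gt.H41.E2b

namespace Pool.Agent.MP_c6eade_gt.H41

open Equiv Finset
open scoped Classical

namespace E2cx

/-- The part of the number of shapes that depends only on the number of darts. -/
def cc (p : ℕ) : ℕ := 2 ^ p * (2 ^ (p * 2) * (p ^ (p * 2) * ((p * 2) ^ (p * 2) * (p + 1) ^ p)))

theorem card_shape (Θ Tg : Type) [Fintype Θ] [Fintype Tg] {p Pm : ℕ} (hp : p ≤ Pm) :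
    Fintype.card (Shape Θ Tg p) ≤ cc p * (Fintype.card Θ + Fintype.card Tg + 1) ^ Pm := by
  have h1 : Fintype.card (Shape Θ Tg p) = 2 ^ p * (2 ^ (p * 2) * (p ^ (p * 2) *
      ((p * 2) ^ (p * 2) *
        (Fintype.card Θ + (p * Fintype.card Θ + (Fintype.card Tg + 1))) ^ p))) := by
    simp only [Shape, Fintype.card_prod, Fintype.card_finset, Fintype.card_fun, Fintype.card_sum,
      Fintype.card_option, Fintype.card_fin, Fintype.card_bool]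
  have h2 : (Fintype.card Θ + (p * Fintype.card Θ + (Fintype.card Tg + 1))) ^ p ≤
      (p + 1) ^ p * (Fintype.card Θ + Fintype.card Tg + 1) ^ Pm := by
    calc _ ≤ ((p + 1) * (Fintype.card Θ + Fintype.card Tg + 1)) ^ p :=
          Nat.pow_le_pow_left (by nlinarith [Nat.zero_le (p * Fintype.card Tg)]) p
      _ = (p + 1) ^ p * (Fintype.card Θ + Fintype.card Tg + 1) ^ p := mul_pow _ _ _
      _ ≤ _ := Nat.mul_le_mul_left _ (Nat.pow_le_pow_right (by omega) hp)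
  rw [h1, cc]
  simp only [mul_assoc]
  gcongr

end E2cx

theorem no_pattern (Pm : ℕ) : ∃ Cs : ℝ, 0 < Cs ∧ ∀ (K : Type) [Group K] (F : Fr K) (W : Wt F)
    (𝒮 : Finset (F.E → F.E)) (ε θ : ℝ) (L : ℕ), 𝒮.Nonempty → (∀ σ ∈ 𝒮, F.Semi σ) →
    F.Dom 𝒮 (2 * Pm) → 0 ≤ ε → ε ≤ 1 → 0 < L →
    W.q ^ (1 - ε) * W.Dm ^ ε * W.nmax ^ (1 / (L : ℝ)) ≤ θ →
    Cs * ((Fintype.card W.Θ : ℝ) + Fintype.card W.Tg + 1) ^ Pm * θ < 1 →
    ∃ σ ∈ 𝒮, ∀ p, 0 < p → p ≤ Pm → ∀ X : LP F σ p, ¬ X.Ok ε L := by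
  refine ⟨∑ p ∈ range (Pm + 1), (4 : ℝ) ^ p * E2cx.cc p + 1, by positivity, ?_⟩
  intro K _ F W 𝒮 ε θ L hne hS hD hε hε1 hL hθ hC
  have hD0 : 0 ≤ W.Dm := le_trans (sq_nonneg _) W.hΔ
  have hn0 : 0 ≤ W.nmax :=
    le_trans zero_le_one ((W.nn_one (W.tag F.room)).trans (W.nn_le _))
  have hθ0 : 0 ≤ θ := le_trans (mul_nonneg (mul_nonneg (Real.rpow_nonneg W.q_pos.le _)
    (Real.rpow_nonneg hD0 _)) (Real.rpow_nonneg hn0 _)) hθ
  obtain ⟨T, hT⟩ : ∃ T : ℝ, T = ((Fintype.card W.Θ : ℝ) + Fintype.card W.Tg + 1) ^ Pm :=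
    ⟨_, rfl⟩
  have hT0 : 0 ≤ T := by rw [hT]; positivity
  rw [← hT] at hC
  by_contra hcon
  have hsub : 𝒮 ⊆ (range (Pm + 1)).biUnion fun p =>
      ({s : Shape W.Θ W.Tg p | W.wt s ≤ θ} : Finset _).biUnion fun s =>
        {σ ∈ 𝒮 | ∃ ρ he, W.Real σ s ρ he} := by
    intro σ hσ
    by_contra hn
    refine hcon ⟨σ, hσ, fun p hp hp' X hX => hn ?_⟩
    obtain ⟨s, ρ, he, h1, h2⟩ := level W (hS σ hσ) hp X hε hε1 hL hX hθ
    exact mem_biUnion.2 ⟨p, mem_range.2 (by omega), mem_biUnion.2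
      ⟨s, mem_filter.2 ⟨mem_univ _, h2⟩, mem_filter.2 ⟨hσ, ρ, he, h1⟩⟩⟩
  have hp : ∀ p ∈ range (Pm + 1),
      ((#(({s : Shape W.Θ W.Tg p | W.wt s ≤ θ} : Finset _).biUnion fun s =>
        {σ ∈ 𝒮 | ∃ ρ he, W.Real σ s ρ he}) : ℕ) : ℝ) ≤
        (4 : ℝ) ^ p * E2cx.cc p * (#𝒮 * (T * θ)) := by
    intro p hp
    have hp' : p ≤ Pm := by have := mem_range.1 hp; omega
    have h1 : (#({s : Shape W.Θ W.Tg p | W.wt s ≤ θ} : Finset _) : ℝ) ≤ E2cx.cc p * T := by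
      rw [hT]
      exact_mod_cast (card_le_univ _).trans (E2cx.card_shape W.Θ W.Tg hp')
    refine le_trans (Nat.cast_le.2 card_biUnion_le) ?_
    rw [Nat.cast_sum]
    refine le_trans (sum_le_card_nsmul _ _ ((#𝒮 : ℝ) * 4 ^ p * θ) fun s hs => ?_) ?_
    · exact (shape_prob W hS hD (by omega) s).trans
        (mul_le_mul_of_nonneg_left (mem_filter.1 hs).2 (by positivity))
    · rw [nsmul_eq_mul]
      calc _ ≤ E2cx.cc p * T * ((#𝒮 : ℝ) * 4 ^ p * θ) :=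
            mul_le_mul_of_nonneg_right h1 (by positivity)
        _ = _ := by ring
  have h0 : (0 : ℝ) < #𝒮 := by exact_mod_cast hne.card_pos
  have h1 : (#𝒮 : ℝ) ≤ (∑ p ∈ range (Pm + 1), (4 : ℝ) ^ p * E2cx.cc p) * (#𝒮 * (T * θ)) := by
    refine le_trans (Nat.cast_le.2 ((card_le_card hsub).trans card_biUnion_le)) ?_
    rw [Nat.cast_sum, sum_mul]
    exact sum_le_sum hp
  have h2 : 0 ≤ T * θ := mul_nonneg hT0 hθ0
  nlinarith

end Pool.Agent.MP_c6eade_gt.H41
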