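import Pool.Agent.MP_c6eade_gt.H41.Basic

namespace Pool.Agent.MP_c6eade_gt.H41

namespace F1x

open Finset

/-- Adjacency of the Hoffman–Singleton graph (pentagons and pentagrams), on codes below 50. -/
def adjN (x y : ℕ) : Bool :=
  if x / 25 = y / 25 then
    (x / 5 == y / 5) && (((x + (x / 25 + 1)) % 5 == y % 5) || ((y + (x / 25 + 1)) % 5 == x % 5))
  else if x / 25 = 0 then ((x / 5) * (y / 5) + x) % 5 == y % 5
  else ((x / 5) * (y / 5) + y) % 5 == x % 5

abbrev V : Type := Fin 50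

def adj (x y : V) : Bool := adjN x.1 y.1

def x0 : V := ⟨0, by norm_num⟩

def mkV (b h j : ℕ) : V := ⟨25 * (b % 2) + 5 * (h % 5) + j % 5, by omega⟩

def fa (x : V) : V := mkV (x.1 / 25) (x.1 / 5) (x.1 + 1)
def fb (x : V) : V :=
  if x.1 / 25 = 0 then mkV 0 (x.1 / 5 + 1) x.1 else mkV 1 (x.1 / 5) (x.1 + x.1 / 5)
def fc (x : V) : V :=
  if x.1 / 25 = 0 then mkV 0 (x.1 / 5) (x.1 + 4 * (x.1 / 5)) else mkV 1 (x.1 / 5 + 1) x.1
def fd (x : V) : V :=
  if x.1 / 25 = 0 then mkV 1 (x.1 / 5) (2 * x.1) else mkV 0 (3 * (x.1 / 5)) (2 * x.1)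

lemma adj_symm : ∀ x y : V, adj x y = adj y x := by decide +kernel
lemma adj_irr : ∀ x : V, adj x x = false := by decide +kernel
lemma fa_ok : ∀ x y : V, adj (fa x) (fa y) = adj x y ∧ (fa x = fa y → x = y) := by decide +kernel
lemma fb_ok : ∀ x y : V, adj (fb x) (fb y) = adj x y ∧ (fb x = fb y → x = y) := by decide +kernel
lemma fc_ok : ∀ x y : V, adj (fc x) (fc y) = adj x y ∧ (fc x = fc y → x = y) := by decide +kernel
lemma fd_ok : ∀ x y : V, adj (fd x) (fd y) = adj x y ∧ (fd x = fd y → x = y) := by decide +kernel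
lemma reach : ∀ x : V, ∃ j h : Fin 5, fa^[j] (fb^[h] x0) = x ∨ fc^[j] (fa^[h] (fd x0)) = x := by
  decide +kernel

/-- The automorphism group of the graph. -/
def K0s : Subgroup (Equiv.Perm V) where
  carrier := {σ | ∀ x y, adj (σ x) (σ y) = adj x y}
  one_mem' := by intro x y; rfl
  mul_mem' := by
    intro a b ha hb x y
    simp only [Equiv.Perm.coe_mul, Function.comp]
    rw [ha, hb]
  inv_mem' := by
    intro a ha x y
    have := ha (a⁻¹ x) (a⁻¹ y)
    simpa using this.symm

abbrev K0 : Type := K0s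

noncomputable instance : Fintype K0 := Fintype.ofFinite _

/-- The image of the base vertex. -/
def pt (g : K0) : V := (g : Equiv.Perm V) x0

lemma adj_smul (g : K0) (x y : V) :
    adj ((g : Equiv.Perm V) x) ((g : Equiv.Perm V) y) = adj x y := g.2 x y

lemma exists_of (f : V → V) (h : ∀ x y : V, adj (f x) (f y) = adj x y ∧ (f x = f y → x = y)) :
    ∃ g : K0, ∀ x, (g : Equiv.Perm V) x = f x := by
  have hi : Function.Injective f := fun x y e => (h x y).2 e
  exact ⟨⟨Equiv.ofBijective f (Finite.injective_iff_bijective.1 hi), fun x y => (h x y).1⟩,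
    fun x => rfl⟩

lemma pt_step (f : V → V) (h : ∀ x y : V, adj (f x) (f y) = adj x y ∧ (f x = f y → x = y))
    (n : ℕ) (x : V) (hx : ∃ g, pt g = x) : ∃ g, pt g = f^[n] x := by
  obtain ⟨a, ha⟩ := exists_of f h
  induction n with
  | zero => simpa using hx
  | succ n ih =>
    obtain ⟨g, hg⟩ := ih
    refine ⟨a * g, ?_⟩
    rw [Function.iterate_succ_apply', ← hg, ← ha]
    rfl

lemma pt_surj (x : V) : ∃ g, pt g = x := by
  have h0 : ∃ g, pt g = x0 := ⟨1, rfl⟩
  obtain ⟨j, h, e | e⟩ := reach x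
  · rw [← e]; exact pt_step fa fa_ok _ _ (pt_step fb fb_ok _ _ h0)
  · rw [← e]
    exact pt_step fc fc_ok _ _ (pt_step fa fa_ok _ _ (pt_step fd fd_ok 1 _ h0))

/-- The order of the stabiliser of the base vertex. -/
noncomputable def uu : ℕ := #{g : K0 | pt g = x0}

lemma uu_pos : 0 < uu := card_pos.2 ⟨1, by simp [pt]⟩

lemma card_fib (x : V) : #{g : K0 | pt g = x} = uu := by
  obtain ⟨a, ha⟩ := pt_surj x
  unfold uu
  symm
  refine card_bij (fun g _ => a * g) ?_ ?_ ?_
  · intro g hg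
    simp only [mem_filter, mem_univ, true_and] at hg ⊢
    rw [← ha]
    show (a : Equiv.Perm V) (pt g) = _
    rw [hg]; rfl
  · intro g _ g' _ e; exact mul_left_cancel e
  · intro g hg
    simp only [mem_filter, mem_univ, true_and] at hg
    refine ⟨a⁻¹ * g, ?_, by group⟩
    simp only [mem_filter, mem_univ, true_and]
    show ((a⁻¹ : K0) : Equiv.Perm V) (pt g) = _
    rw [hg, ← ha]
    simp [pt]

/-- An invariant kernel: `α` on the diagonal, `β` on edges, `γ` elsewhere. -/
def ker3 {R : Type*} (α β γ : R) (x y : V) : R :=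
  if x = y then α else if adj x y = true then β else γ

lemma ker3_smul {R : Type*} (α β γ : R) (g : K0) (x y : V) :
    ker3 α β γ ((g : Equiv.Perm V) x) ((g : Equiv.Perm V) y) = ker3 α β γ x y := by
  simp [ker3, adj_smul]

lemma ker3_symm {R : Type*} (α β γ : R) (x y : V) : ker3 α β γ x y = ker3 α β γ y x := by
  unfold ker3
  rw [adj_symm x y]
  by_cases h : x = y
  · rw [if_pos h, if_pos h.symm]
  · have h' : ¬ y = x := fun e => h e.symm
    rw [if_neg h, if_neg h']

/-- The relative position of two vertices. -/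
def kk (x y : V) : Fin 3 := ker3 0 1 2 x y

lemma card_pt (p : V → Prop) [DecidablePred p] :
    #{g : K0 | p (pt g)} = #{x : V | p x} * uu := by
  rw [card_eq_sum_card_fiberwise (f := pt) (t := ({x : V | p x} : Finset V))]
  · rw [sum_congr rfl (g := fun _ => uu)]
    · simp
    · intro x hx
      rw [← card_fib x, filter_filter]
      congr 1
      refine filter_congr fun g _ => ⟨fun h => h.2, fun h => ⟨?_, h⟩⟩
      rw [h]; exact (mem_filter.1 hx).2
  · intro g hg
    simpa using hg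

lemma kk_card : ∀ a : Fin 3, #{x : V | kk x0 x = a} = ![1, 7, 42] a := by decide +kernel

lemma kk_cnt : ∀ (v : V) (a b : Fin 3), a ≠ 2 → b ≠ 2 →
    #{x : V | kk x0 x = a ∧ kk x v = b} = tab (kk x0 v) a b := by decide +kernel

lemma kk_inv (y : K0) : kk x0 (pt y⁻¹) = kk x0 (pt y) := by
  unfold kk
  rw [← ker3_smul 0 1 2 y, ker3_symm]
  simp [pt]

lemma kk_mul (y d : K0) : kk x0 (pt (y * d)) = kk (pt y⁻¹) (pt d) := by
  unfold kk
  rw [← ker3_smul 0 1 2 y (pt y⁻¹)]
  simp [pt]

lemma cnt_pt (d : K0) (a b : Fin 3) (ha : a ≠ 2) (hb : b ≠ 2) :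
    #{y : K0 | kk x0 (pt y) = a ∧ kk x0 (pt (y * d)) = b} = tab (kk x0 (pt d)) a b * uu := by
  rw [← kk_cnt _ a b ha hb, ← card_pt (fun x => kk x0 x = a ∧ kk x (pt d) = b)]
  refine card_bij (fun y _ => y⁻¹) ?_ ?_ ?_
  · intro y hy
    simp only [mem_filter, mem_univ, true_and] at hy ⊢
    rw [kk_inv, ← kk_mul]; exact hy
  · intro y _ z _ e; exact inv_injective e
  · intro y hy
    refine ⟨y⁻¹, ?_, inv_inv y⟩
    simp only [mem_filter, mem_univ, true_and] at hy ⊢
    rw [kk_inv, kk_mul, inv_inv]; exact hy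

end F1x

open Equiv Finset
open scoped Classical

theorem gad_exists : Nonempty Gad :=
  ⟨{ K0 := F1x.K0
     gK := inferInstance
     fK := inferInstance
     u := F1x.uu
     c0 := fun y => F1x.kk F1x.x0 (F1x.pt y)
     u_pos := F1x.uu_pos
     c0_one := by simp [F1x.kk, F1x.ker3, F1x.pt]
     c0_inv := F1x.kk_inv
     card_c0 := fun a => by
       rw [← F1x.kk_card a]
       convert F1x.card_pt (fun x => F1x.kk F1x.x0 x = a)
     cnt := fun d a b ha hb => by convert F1x.cnt_pt d a b ha hb }⟩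

end Pool.Agent.MP_c6eade_gt.H41
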