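import Pool.Agent.MP_c6eade_gt.H41.Basic

namespace Pool.Agent.MP_c6eade_gt.H41

open Equiv Finset
open scoped Classical

namespace F2ax

theorem sum_c0 (Γ : Gad) {R : Type} [CommSemiring R] (v : Fin 3 → R) :
    ∑ x : Γ.K0, v (Γ.c0 x) = Γ.u * (v 0 + 7 * v 1 + 42 * v 2) := by
  rw [← sum_fiberwise univ Γ.c0]
  have : ∀ i, ∑ x with Γ.c0 x = i, v (Γ.c0 x) = (![1, 7, 42] i * Γ.u : ℕ) * v i := fun i => by
    rw [sum_congr rfl fun x hx => congrArg v (mem_filter.1 hx).2, sum_const, nsmul_eq_mul,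
      ← Γ.card_c0 i]
  simp only [this, Fin.sum_univ_three]
  simp
  ring

theorem sum_pi (Γ : Gad) {R : Type} [CommSemiring R] (B : ℕ) (w : Fin B → Γ.K0 → R) :
    ∑ y : Γ.K B, ∏ b, w b (y b) = ∏ b, ∑ x, w b x := by
  rw [prod_univ_sum, Fintype.piFinset_univ]

theorem prod_two (Γ : Gad) {R : Type} [CommSemiring R] {B : ℕ} (x y : R) (d : Γ.K B) :
    ∏ b, ![x, y, 1] (Γ.c0 (d b)) = x ^ (Γ.ty d).1 * y ^ (Γ.ty d).2 := by
  have : ∀ i : Fin 3, ![x, y, 1] i = (if i = 0 then x else 1) * if i = 1 then y else 1 := by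
    intro i
    fin_cases i <;> simp
  simp only [this, prod_mul_distrib, prod_ite, prod_const, one_pow, mul_one, Gad.ty]

theorem prod_cl (Γ : Gad) {R : Type} [CommSemiring R] {B : ℕ} (a : R) {y : Γ.K B}
    (hy : ∀ b, Γ.c0 (y b) ≠ 2) : ∏ b, ![a, 1, 0] (Γ.c0 (y b)) = a ^ Γ.cl y := by
  have : ∀ i : Fin 3, i ≠ 2 → ![a, 1, 0] i = if i = 0 then a else 1 := by
    intro i hi
    fin_cases i <;> simp at hi ⊢
  rw [prod_congr rfl fun b _ => this _ (hy b)]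
  simp only [prod_ite, prod_const, one_pow, mul_one, Gad.cl]

theorem gf (Γ : Gad) {R : Type} [CommSemiring R] (B : ℕ) (a : R) :
    ∑ y : Γ.S B, a ^ Γ.cl y.1 = (Γ.u * (a + 7)) ^ B := by
  have h := sum_pi Γ B fun _ x => ![a, 1, 0] (Γ.c0 x)
  rw [sum_c0 Γ ![a, 1, 0], prod_const, card_univ, Fintype.card_fin,
    ← sum_filter_add_sum_filter_not univ fun y : Γ.K B => ∀ b, Γ.c0 (y b) ≠ 2,
    sum_eq_zero (s := filter (fun y : Γ.K B => ¬ ∀ b, Γ.c0 (y b) ≠ 2) univ), add_zero,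
    sum_subtype (p := fun y : Γ.K B => ∀ b, Γ.c0 (y b) ≠ 2) _ (by simp)] at h
  · rw [← sum_congr rfl fun y _ => prod_cl Γ a y.2, h]
    simp
  · intro y hy
    obtain ⟨b, hb⟩ := not_forall.1 (mem_filter.1 hy).2
    exact prod_eq_zero (mem_univ b) (by simp [not_not.1 hb])

end F2ax

open F2ax

theorem Nk_eq (Γ : Gad) (B k : ℕ) (hk : k ≤ B) :
    Γ.Nk B k = Γ.u ^ B * B.choose k * 7 ^ (B - k) := by
  have h := congrArg (fun p => Polynomial.coeff p k) (gf Γ B (Polynomial.X : Polynomial ℕ))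
  simp only [Polynomial.finsetSum_coeff, Polynomial.coeff_X_pow] at h
  rw [mul_pow, ← Polynomial.C_eq_natCast, ← Polynomial.C_pow, Polynomial.coeff_C_mul,
    show (7 : Polynomial ℕ) = Polynomial.C 7 from rfl, Polynomial.coeff_X_add_C_pow,
    sum_boole] at h
  simp only [Nat.cast_id] at h
  rw [mul_assoc, mul_comm (B.choose k), ← h, Gad.Nk]
  simp only [eq_comm]

namespace F2ax

theorem step (Γ : Gad) {B i : ℕ} (hi : i < B) :
    (Γ.Nk B (i + 1) : ℝ) * (7 * (i + 1)) = Γ.Nk B i * ((B : ℝ) - i) := by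
  obtain ⟨m, rfl⟩ := Nat.exists_eq_add_of_lt hi
  have h := Nat.choose_succ_right_eq (i + m + 1) i
  rw [show i + m + 1 - i = m + 1 by omega] at h
  have h' : ((i + m + 1).choose (i + 1) : ℝ) * (i + 1) = (i + m + 1).choose i * (m + 1) := by
    exact_mod_cast h
  rw [Nk_eq Γ _ _ hi, Nk_eq Γ _ _ hi.le, show i + m + 1 - i = m + 1 by omega,
    show i + m + 1 - (i + 1) = m by omega]
  push_cast
  linear_combination (Γ.u : ℝ) ^ (i + m + 1) * 7 ^ (m + 1) * h'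

theorem up (Γ : Gad) {B k : ℕ} {t : ℝ} (h0 : 0 ≤ t) (h : t * ((B : ℝ) - k) ≤ 7 * (k + 1)) {i : ℕ}
    (hi : k ≤ i) : i ≤ B → (Γ.Nk B i : ℝ) * t ^ i ≤ Γ.Nk B k * t ^ k := by
  induction i, hi using Nat.le_induction with
  | base => exact fun _ => le_rfl
  | succ i hi ih =>
    intro hB
    refine le_trans ?_ (ih (by omega))
    have h1 : (k : ℝ) ≤ i := by exact_mod_cast hi
    have h2 : t * ((B : ℝ) - i) ≤ 7 * (i + 1) := by nlinarith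
    refine le_of_mul_le_mul_right ?_ (by positivity : (0 : ℝ) < 7 * (i + 1))
    calc (Γ.Nk B (i + 1) : ℝ) * t ^ (i + 1) * (7 * (i + 1))
        = Γ.Nk B i * t ^ i * (t * ((B : ℝ) - i)) := by
          linear_combination t ^ (i + 1) * step Γ (show i < B by omega)
      _ ≤ _ := mul_le_mul_of_nonneg_left h2 (by positivity)

theorem down (Γ : Gad) {B k : ℕ} {t : ℝ} (h0 : 0 ≤ t) (hk : k ≤ B)
    (h : 7 * (k : ℝ) ≤ t * ((B : ℝ) - k + 1)) {i : ℕ} (hi : i ≤ k) :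
    (Γ.Nk B i : ℝ) * t ^ i ≤ Γ.Nk B k * t ^ k := by
  induction hi using Nat.decreasingInduction with
  | self => exact le_rfl
  | of_succ i hi ih =>
    refine le_trans ?_ ih
    have h1 : (i : ℝ) + 1 ≤ k := by exact_mod_cast hi
    have h2 : 7 * ((i : ℝ) + 1) ≤ t * ((B : ℝ) - i) := by nlinarith
    refine le_of_mul_le_mul_right ?_ (by positivity : (0 : ℝ) < 7 * (i + 1))
    calc (Γ.Nk B i : ℝ) * t ^ i * (7 * (i + 1)) ≤ Γ.Nk B i * t ^ i * (t * ((B : ℝ) - i)) :=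
          mul_le_mul_of_nonneg_left h2 (by positivity)
      _ = _ := by linear_combination -t ^ (i + 1) * step Γ (show i < B by omega)

theorem gfN (Γ : Gad) (B : ℕ) (t : ℝ) :
    ∑ i ∈ range (B + 1), (Γ.Nk B i : ℝ) * t ^ i = (Γ.u * (t + 7)) ^ B := by
  rw [mul_pow, add_pow, mul_sum]
  refine sum_congr rfl fun i hi => ?_
  rw [Nk_eq Γ _ _ (Nat.le_of_lt_succ (mem_range.1 hi))]
  push_cast
  ring

theorem mode (Γ : Gad) (B : ℕ) {J j k : ℕ} (hj : j ≤ J) (hk : k ≤ j) : ∃ t : ℝ, 0 ≤ t ∧ t ≤ 2 ∧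
    0 < t ^ k ∧ 2 ^ j * (Γ.u * (t + 7)) ^ B ≤ (B + 1) * t ^ k * Γ.pool B J (j - k) := by
  have p : ∀ i ≤ k, i ≤ B → 2 ^ j * ((Γ.Nk B i : ℝ) * 2 ^ i) ≤ 2 ^ k * Γ.pool B J (j - k) := by
    intro i h1 h2
    have : 2 ^ (j - k + i) * Γ.Nk B i ≤ Γ.pool B J (j - k) :=
      single_le_sum (f := fun i => 2 ^ (j - k + i) * Γ.Nk B i) (fun _ _ => Nat.zero_le _)
        (mem_filter.2 ⟨mem_range.2 (by omega), by omega⟩)
    have h3 : (2 : ℝ) ^ (j - k + i) * Γ.Nk B i ≤ Γ.pool B J (j - k) := by exact_mod_cast this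
    refine le_trans (le_of_eq ?_) (mul_le_mul_of_nonneg_left h3 (by positivity))
    obtain ⟨m, rfl⟩ := Nat.exists_eq_add_of_le hk
    rw [Nat.add_sub_cancel_left]
    ring
  have p' : ∀ t : ℝ, 0 ≤ t → k ≤ B →
      2 ^ j * ((Γ.Nk B k : ℝ) * t ^ k) ≤ t ^ k * Γ.pool B J (j - k) := fun t h0 h => by
    have := le_of_mul_le_mul_left (a := (2 : ℝ) ^ k) (b := 2 ^ j * (Γ.Nk B k : ℝ))
      (le_trans (le_of_eq (by ring)) (p k le_rfl h)) (by positivity)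
    refine le_trans (le_of_eq (by ring)) (mul_le_mul_of_nonneg_left this (pow_nonneg h0 k))
  have fin : ∀ t : ℝ, (∀ i ≤ B, 2 ^ j * ((Γ.Nk B i : ℝ) * t ^ i) ≤ t ^ k * Γ.pool B J (j - k)) →
      2 ^ j * (Γ.u * (t + 7)) ^ B ≤ (B + 1) * t ^ k * Γ.pool B J (j - k) := fun t h => by
    rw [← gfN, mul_sum, mul_assoc]
    refine (sum_le_card_nsmul _ _ _ fun i hi => h i (Nat.le_of_lt_succ (mem_range.1 hi))).trans_eq ?_
    rw [card_range, nsmul_eq_mul, Nat.cast_add_one]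
  by_cases c : 2 * ((B : ℝ) - k + 1) ≤ 7 * k
  · refine ⟨2, two_pos.le, le_rfl, by positivity, fin 2 fun i hi => ?_⟩
    rcases le_total i k with h | h
    · exact p i h hi
    · exact (mul_le_mul_of_nonneg_left (up Γ two_pos.le (by linarith) h hi) (by positivity)).trans
        (p' 2 two_pos.le (h.trans hi))
  · have k0 : (0 : ℝ) ≤ k := by positivity
    have c0 : 0 < (B : ℝ) - k + 1 := by linarith
    have c1 : k ≤ B := by
      have : (k : ℝ) < B + 1 := by linarith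
      exact Nat.le_of_lt_succ (by exact_mod_cast this)
    have t0 : 0 ≤ 7 * k / ((B : ℝ) - k + 1) := by positivity
    have e := div_mul_cancel₀ (7 * (k : ℝ)) c0.ne'
    refine ⟨_, t0, (div_le_iff₀ c0).2 (by linarith), ?_, fin _ fun i hi => ?_⟩
    · rcases k.eq_zero_or_pos with rfl | h
      · simp
      · positivity
    · refine le_trans (mul_le_mul_of_nonneg_left ?_ (by positivity)) (p' _ t0 c1)
      rcases le_total i k with h | h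
      · exact down Γ t0 c1 e.ge h
      · exact up Γ t0 (by nlinarith) h hi

theorem pair (Γ : Gad) (a b : ℝ) (d : Γ.K0) :
    ∑ x : Γ.K0, ![a, 1, 0] (Γ.c0 x) * ![b, 1, 0] (Γ.c0 (x * d)) =
      Γ.u * ![7 + a * b, a + b, 1] (Γ.c0 d) := by
  rw [← sum_fiberwise univ fun x => (Γ.c0 x, Γ.c0 (x * d))]
  have : ∀ i : Fin 3 × Fin 3, ∑ x with (Γ.c0 x, Γ.c0 (x * d)) = i,
      ![a, 1, 0] (Γ.c0 x) * ![b, 1, 0] (Γ.c0 (x * d)) =
      (tab (Γ.c0 d) i.1 i.2 * Γ.u : ℕ) * (![a, 1, 0] i.1 * ![b, 1, 0] i.2) := fun i => by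
    rw [sum_congr rfl fun x hx => (by rw [← (mem_filter.1 hx).2] :
      ![a, 1, 0] (Γ.c0 x) * ![b, 1, 0] (Γ.c0 (x * d)) = ![a, 1, 0] i.1 * ![b, 1, 0] i.2),
      sum_const, nsmul_eq_mul]
    by_cases h1 : i.1 = 2
    · simp [h1]
    by_cases h2 : i.2 = 2
    · simp [h2]
    rw [← Γ.cnt d _ _ h1 h2]
    simp only [Prod.ext_iff]
  simp only [this, Fintype.sum_prod_type, Fin.sum_univ_three]
  generalize Γ.c0 d = i
  fin_cases i <;> simp [tab] <;> ring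

theorem cnt_le (Γ : Gad) {B : ℕ} (k l : ℕ) (d : Γ.K B) {a b : ℝ} (ha : 0 ≤ a) (hb : 0 ≤ b) :
    Γ.cntd k l d * (a ^ k * b ^ l) ≤
      Γ.u ^ B * ((7 + a * b) ^ (Γ.ty d).1 * (a + b) ^ (Γ.ty d).2) := by
  have h := sum_pi Γ B fun i x => ![a, 1, 0] (Γ.c0 x) * ![b, 1, 0] (Γ.c0 (x * d i))
  simp only [pair] at h
  rw [prod_mul_distrib, prod_const, card_univ, Fintype.card_fin, prod_two] at h
  have n : ∀ {a : ℝ}, 0 ≤ a → ∀ i : Fin 3, 0 ≤ ![a, 1, 0] i := fun ha i => by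
    fin_cases i <;> simp [ha]
  rw [← h, Gad.cntd, ← nsmul_eq_mul, ← sum_const]
  refine le_trans (le_of_eq ?_) (sum_le_sum_of_subset_of_nonneg (subset_univ
    (image (fun c : Γ.S B × Γ.S B => c.1.1)
      {c : Γ.S B × Γ.S B | Γ.cl c.1.1 = k ∧ Γ.cl c.2.1 = l ∧ c.1.1⁻¹ * c.2.1 = d}))
    fun y _ _ => prod_nonneg fun i _ => mul_nonneg (n ha _) (n hb _))
  rw [sum_image]
  · refine sum_congr rfl fun c hc => ?_
    obtain ⟨h1, h2, h3⟩ := (mem_filter.1 hc).2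
    rw [prod_mul_distrib, prod_cl Γ a c.1.2, h1, ← h2, ← prod_cl Γ b c.2.2, ← h3]
    simp
  · intro c hc c' hc' e
    have h3 := (mem_filter.1 (mem_coe.1 hc)).2.2.2
    have h4 := (mem_filter.1 (mem_coe.1 hc')).2.2.2
    dsimp only at e
    rw [← h4, e] at h3
    exact Prod.ext (Subtype.ext e) (Subtype.ext (mul_left_cancel h3))

theorem ty_le (Γ : Gad) {B : ℕ} (d : Γ.K B) (x y : ℝ) :
    (#{d' : Γ.K B | Γ.ty d' = Γ.ty d} : ℝ) * (x ^ (Γ.ty d).1 * y ^ (Γ.ty d).2) ^ 2 ≤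
      (Γ.u * (x ^ 2 + 7 * y ^ 2 + 42)) ^ B := by
  have h := sum_pi Γ B fun _ z => ![x ^ 2, y ^ 2, 1] (Γ.c0 z)
  rw [sum_c0 Γ ![x ^ 2, y ^ 2, 1], prod_const, card_univ, Fintype.card_fin] at h
  simp only [prod_two] at h
  refine le_trans ?_ (h.trans (by simp)).le
  rw [← nsmul_eq_mul, ← sum_const]
  refine le_trans (le_of_eq (sum_congr rfl fun z hz => ?_))
    (sum_le_sum_of_subset_of_nonneg (subset_univ _) fun _ _ _ => by positivity)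
  rw [(mem_filter.1 hz).2]
  ring

end F2ax

theorem core (Γ : Gad) (B J j k l : ℕ) (hj : j ≤ J) (hk : k ≤ j) (hl : l ≤ j) (d : Γ.K B) :
    (#{d' : Γ.K B | Γ.ty d' = Γ.ty d} : ℝ) * ((Γ.cntd k l d : ℝ) * 2 ^ j) ^ 2 ≤
      ((B : ℝ) + 1) ^ 2 * (221 / 100 * (Γ.u : ℝ)) ^ B * Γ.pool B J (j - k) *
        Γ.pool B J (j - l) := by
  obtain ⟨s, s0, s2, s3, s4⟩ := mode Γ B hj hk
  obtain ⟨t, t0, t2, t3, t4⟩ := mode Γ B hj hl
  obtain ⟨a, a0, rfl⟩ : ∃ a : ℝ, 0 ≤ a ∧ a ^ 2 = s := ⟨√s, Real.sqrt_nonneg _, Real.sq_sqrt s0⟩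
  obtain ⟨b, b0, rfl⟩ : ∃ a : ℝ, 0 ≤ a ∧ a ^ 2 = t := ⟨√t, Real.sqrt_nonneg _, Real.sq_sqrt t0⟩
  have h1 := pow_le_pow_left₀ (by positivity) (cnt_le Γ k l d a0 b0) 2
  have h2 := ty_le Γ d (7 + a * b) (a + b)
  have ab : a * b ≤ 2 := by nlinarith [sq_nonneg (a - b)]
  have h3 : (7 + a * b) ^ 2 + 7 * (a + b) ^ 2 + 42 ≤ 221 / 100 * ((a ^ 2 + 7) * (b ^ 2 + 7)) := by
    nlinarith [sq_nonneg (a - b), sq_nonneg (2 - a * b)]
  have h4 := pow_le_pow_left₀ (by positivity)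
    (mul_le_mul_of_nonneg_left h3 (Nat.cast_nonneg Γ.u)) B
  refine le_of_mul_le_mul_right ?_ (mul_pos s3 t3)
  calc (#{d' : Γ.K B | Γ.ty d' = Γ.ty d} : ℝ) * ((Γ.cntd k l d : ℝ) * 2 ^ j) ^ 2 *
        ((a ^ 2) ^ k * (b ^ 2) ^ l)
      = (2 ^ j) ^ 2 * ((#{d' : Γ.K B | Γ.ty d' = Γ.ty d} : ℝ) *
          (Γ.cntd k l d * (a ^ k * b ^ l)) ^ 2) := by ring
    _ ≤ (2 ^ j) ^ 2 * ((#{d' : Γ.K B | Γ.ty d' = Γ.ty d} : ℝ) *
          (Γ.u ^ B * ((7 + a * b) ^ (Γ.ty d).1 * (a + b) ^ (Γ.ty d).2)) ^ 2) := by gcongr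
    _ = (2 ^ j * Γ.u ^ B) ^ 2 * ((#{d' : Γ.K B | Γ.ty d' = Γ.ty d} : ℝ) *
          ((7 + a * b) ^ (Γ.ty d).1 * (a + b) ^ (Γ.ty d).2) ^ 2) := by ring
    _ ≤ (2 ^ j * Γ.u ^ B) ^ 2 * (Γ.u * (221 / 100 * ((a ^ 2 + 7) * (b ^ 2 + 7)))) ^ B :=
        mul_le_mul_of_nonneg_left (h2.trans h4) (by positivity)
    _ = (221 / 100 * (Γ.u : ℝ)) ^ B * ((2 ^ j * (Γ.u * (a ^ 2 + 7)) ^ B) *
          (2 ^ j * (Γ.u * (b ^ 2 + 7)) ^ B)) := by
        simp only [mul_pow]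
        ring
    _ ≤ (221 / 100 * (Γ.u : ℝ)) ^ B * (((B + 1) * (a ^ 2) ^ k * Γ.pool B J (j - k)) *
          ((B + 1) * (b ^ 2) ^ l * Γ.pool B J (j - l))) :=
        mul_le_mul_of_nonneg_left (mul_le_mul s4 t4 (by positivity) (by positivity))
          (by positivity)
    _ = _ := by ring


end Pool.Agent.MP_c6eade_gt.H41
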