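import Pool.Agent.MP_c6eade_gt.H41.F2a

namespace Pool.Agent.MP_c6eade_gt.H41

open Equiv Finset
open scoped Classical

namespace F2bx
variable (P : Par) (Γ : Gad) (B : ℕ)

/-- Change the side of an ordinary row. -/
def fl0 {B : ℕ} : P.R0 B → P.R0 B
  | .inl x => .inl (!x.1, x.2)
  | .inr x => .inr x

theorem lv_fl0 {B : ℕ} (r : P.R0 B) : P.lv0 (fl0 P r) = P.lv0 r := by
  rcases r with r | r <;> rfl

theorem fl0_fl0 {B : ℕ} (r : P.R0 B) : fl0 P (fl0 P r) = r := by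
  rcases r with r | r <;> simp [fl0]

/-- The side reversing involution of the half-edges. -/
def fl : (P.R0 B × Γ.S B) ⊕ P.I Γ B → (P.R0 B × Γ.S B) ⊕ P.I Γ B
  | .inl (.inl x, y) => .inl (.inl (!x.1, x.2), y)
  | .inl (.inr _, y) => .inr (.inr y)
  | .inr (.inr y) => .inl (.inr (), y)
  | .inr (.inl b) => .inr (.inl ⟨(fl0 P b.1.1, b.1.2), by rw [lv_fl0]; exact b.2⟩)

theorem fl_fl (e : (P.R0 B × Γ.S B) ⊕ P.I Γ B) : fl P Γ B (fl P Γ B e) = e := by
  rcases e with ⟨x | x, y⟩ | b | y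
  · simp [fl]
  · simp [fl]
  · simp [fl, fl0_fl0]
  · simp [fl]

theorem cl_le' (y : Γ.K B) : Γ.cl y ≤ B := by
  unfold Gad.cl
  exact (card_le_univ _).trans (by simp)

theorem ht_fl (e : (P.stg Γ B).E) : (P.stg Γ B).ht (fl P Γ B e) = (P.stg Γ B).ht e := by
  rcases e with ⟨x | x, y⟩ | b | y
  · rfl
  · rfl
  · show (P.J B : ℤ) - ((Γ.cl b.1.2.1 - P.lv0 (fl0 P b.1.1) : ℕ) : ℤ) =
      (P.J B : ℤ) - ((Γ.cl b.1.2.1 - P.lv0 b.1.1 : ℕ) : ℤ)
    rw [lv_fl0]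
  · rfl

theorem sd_fl (hJ : B + 1 ≤ P.J (B + 1)) (e : (P.stg Γ B).E) :
    (P.stg Γ B).sd (fl P Γ B e) = !(P.stg Γ B).sd e := by
  rcases e with ⟨x | x, y⟩ | ⟨⟨r | r, z⟩, hb⟩ | y
  · rfl
  · rfl
  · rfl
  · exfalso
    have h1 := cl_le' Γ (B + 1) z.1
    have h2 : P.J (B + 1) < Γ.cl z.1 := hb
    omega
  · rfl

theorem pool_eq (J h : ℕ) : Γ.pool B J h =
    ∑ y : Γ.S B, if h + Γ.cl y.1 ≤ J then 2 ^ (h + Γ.cl y.1) else 0 := by
  unfold Gad.pool Gad.Nk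
  rw [sum_filter]
  rw [← sum_fiberwise_of_maps_to (s := (univ : Finset (Γ.S B))) (t := range (B + 1))
    (g := fun y => Γ.cl y.1) (fun y _ => mem_range.2 (Nat.lt_succ_of_le (cl_le' Γ B y.1)))]
  refine sum_congr rfl fun k _ => ?_
  rw [sum_congr rfl (g := fun _ => if h + k ≤ J then 2 ^ (h + k) else 0)
    (fun y hy => by rw [(mem_filter.1 hy).2])]
  rw [sum_const, smul_eq_mul]
  split_ifs
  · ring
  · simp

theorem ht_le (e : (P.stg Γ B).E) : (P.stg Γ B).ht e ≤ P.J B := by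
  rcases e with ⟨x | x, y⟩ | p
  · have := x.2.2.1.2
    show ((x.2.2.1 : ℕ) : ℤ) - Γ.cl y.1 ≤ P.J B
    omega
  · show ((P.J B : ℕ) : ℤ) - Γ.cl y.1 ≤ P.J B
    omega
  · show (P.J B : ℤ) - P.dI Γ p ≤ P.J B
    omega

theorem two_sum (J : ℕ) : ∑ j : Fin (J + 1), (if (j : ℕ) < B then 2 ^ (j : ℕ) else 0) ≤ 2 ^ B := by
  rw [Fin.sum_univ_eq_sum_range (fun j => if j < B then 2 ^ j else 0) (J + 1), ← sum_filter]
  calc ∑ j ∈ range (J + 1) with j < B, 2 ^ j ≤ ∑ j ∈ range B, 2 ^ j :=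
        sum_le_sum_of_subset fun j hj => mem_range.2 (mem_filter.1 hj).2
    _ ≤ 2 ^ B := by
        rw [Nat.geomSum_eq le_rfl]
        simp

theorem sum_sig {n : ℕ} (c : Fin n → ℕ) (F : Fin n → ℕ) :
    ∑ s : (Σ j : Fin n, Fin (c j)), F s.1 = ∑ j : Fin n, c j * F j := by
  rw [Fintype.sum_sigma]
  refine sum_congr rfl fun j _ => ?_
  show ∑ _i : Fin (c j), F j = _
  simp

end F2bx

section F2b
variable (P : Par) (Γ : Gad) (B : ℕ)

theorem cl_le (y : Γ.K B) : Γ.cl y ≤ B := F2bx.cl_le' Γ B y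

theorem stg_bal (hJ : B + 1 ≤ P.J (B + 1)) (h : ℤ) :
    #{e : (P.stg Γ B).E | (P.stg Γ B).ht e = h ∧ (P.stg Γ B).sd e = true} =
      #{e : (P.stg Γ B).E | (P.stg Γ B).ht e = h ∧ (P.stg Γ B).sd e = false} := by
  refine card_nbij' (F2bx.fl P Γ B) (F2bx.fl P Γ B) ?_ ?_ ?_ ?_
  · intro e he
    simp only [coe_filter, mem_univ, true_and, Set.mem_ofPred_eq] at he ⊢
    rw [F2bx.ht_fl, F2bx.sd_fl P Γ B hJ, he.1, he.2]
    exact ⟨rfl, rfl⟩
  · intro e he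
    simp only [coe_filter, mem_univ, true_and, Set.mem_ofPred_eq] at he ⊢
    rw [F2bx.ht_fl, F2bx.sd_fl P Γ B hJ, he.1, he.2]
    exact ⟨rfl, rfl⟩
  · intro e _
    exact F2bx.fl_fl P Γ B e
  · intro e _
    exact F2bx.fl_fl P Γ B e

theorem stg_M (e : (P.stg Γ B).E) (he : 0 ≤ (P.stg Γ B).ht e) :
    (P.N B + 1) * (P.n0 B + 1) * Γ.pool B (P.J B) ((P.stg Γ B).ht e).toNat ≤
      (P.stg Γ B).M e := by
  obtain ⟨h, hh⟩ := Int.eq_ofNat_of_zero_le he
  rw [hh, Int.toNat_natCast]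
  have key : #{x : (Fin (P.N B + 1) × Σ j : Fin (P.J B + 1), Fin ((P.n0 B + 1) * 2 ^ (j : ℕ))) ×
      Γ.S B | (x.1.2.1 : ℕ) = h + Γ.cl x.2.1} =
      (P.N B + 1) * (P.n0 B + 1) * Γ.pool B (P.J B) h := by
    rw [card_filter, Fintype.sum_prod_type, Fintype.sum_prod_type, F2bx.pool_eq]
    have h0 := F2bx.sum_sig (fun j : Fin (P.J B + 1) => (P.n0 B + 1) * 2 ^ (j : ℕ))
      (fun j => ∑ y : Γ.S B, if (j : ℕ) = h + Γ.cl y.1 then 1 else 0)
    refine (sum_congr rfl fun _ _ => h0).trans ?_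
    rw [sum_const, card_univ, Fintype.card_fin, smul_eq_mul, mul_assoc]
    congr 1
    simp only [mul_sum]
    rw [Finset.sum_comm]
    refine sum_congr rfl fun y _ => ?_
    split_ifs with hy
    · rw [sum_eq_single (⟨h + Γ.cl y.1, Nat.lt_succ_of_le hy⟩ : Fin (P.J B + 1))]
      · simp
      · intro j _ hj
        rw [if_neg (fun h' => hj (Fin.ext h'))]
        simp
      · simp
    · refine (sum_eq_zero fun j _ => ?_).trans (by simp)
      have := j.2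
      rw [if_neg (by omega)]
      simp
  rw [← key]
  unfold Fr.M
  refine card_le_card_of_injOn (fun x => (Sum.inl (Sum.inl (true, x.1), x.2) : (P.stg Γ B).E))
    ?_ ?_
  · intro x hx
    simp only [coe_filter, mem_univ, true_and, Set.mem_ofPred_eq] at hx ⊢
    refine ⟨?_, rfl⟩
    rw [hh]
    show ((x.1.2.1 : ℕ) : ℤ) - Γ.cl x.2.1 = h
    omega
  · intro x _ x' _ hx
    have h1 := Sum.inl.inj hx
    have h2 := Prod.ext_iff.1 h1
    have h3 := Prod.ext_iff.1 (Sum.inl.inj h2.1)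
    exact Prod.ext h3.2 h2.2

theorem stg_M' (e : (P.stg Γ B).E) (he : 0 ≤ (P.stg Γ B).ht e) :
    (P.n0 B + 1) * 2 ^ ((P.stg Γ B).ht e).toNat ≤ (P.stg Γ B).M e := by
  refine le_trans ?_ (stg_M P Γ B e he)
  have h1 := F2bx.ht_le P Γ B e
  have h2 : ((P.stg Γ B).ht e).toNat ≤ P.J B := by omega
  generalize ((P.stg Γ B).ht e).toNat = h at h2
  have h3 : 1 ≤ Γ.Nk B 0 := by
    rw [Nk_eq Γ B 0 (Nat.zero_le _)]
    have := Γ.u_pos
    simp only [Nat.choose_zero_right, mul_one, Nat.sub_zero]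
    exact Nat.succ_le_of_lt (by positivity)
  have h4 : 2 ^ h ≤ Γ.pool B (P.J B) h := by
    unfold Gad.pool
    calc 2 ^ h ≤ 2 ^ (h + 0) * Γ.Nk B 0 := Nat.le_mul_of_pos_right _ h3
      _ ≤ _ := single_le_sum (f := fun k => 2 ^ (h + k) * Γ.Nk B k) (fun _ _ => Nat.zero_le _)
          (mem_filter.2 ⟨mem_range.2 (Nat.succ_pos _), by simpa using h2⟩)
  calc (P.n0 B + 1) * 2 ^ h ≤ (P.n0 B + 1) * Γ.pool B (P.J B) h := Nat.mul_le_mul_left _ h4
    _ ≤ (P.N B + 1) * ((P.n0 B + 1) * Γ.pool B (P.J B) h) :=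
        Nat.le_mul_of_pos_left _ (Nat.succ_pos _)
    _ = _ := by ring

theorem stg_row (r : (P.stg Γ B).R) (hr : r ≠ (P.stg Γ B).room) :
    #{e : (P.stg Γ B).E | (P.stg Γ B).row e = r} ≤ Fintype.card Γ.K0 ^ B := by
  have h1 : #(univ : Finset (Γ.K B)) = Fintype.card Γ.K0 ^ B := by simp
  rw [← h1]
  refine card_le_card_of_injOn (P.stg Γ B).pos (fun _ _ => mem_coe.2 (mem_univ _)) ?_
  intro e he e' he' hp
  simp only [coe_filter, mem_univ, true_and, Set.mem_ofPred_eq] at he he'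
  exact (P.stg Γ B).hpos e e' (he.trans he'.symm) (by rw [he]; exact hr) hp

theorem stg_room : #{e : (P.stg Γ B).E | (P.stg Γ B).row e = (P.stg Γ B).room} ≤
    Fintype.card (P.I Γ B) := by
  calc _ ≤ #((univ : Finset (P.I Γ B)).map
        (⟨fun p => (Sum.inr p : (P.stg Γ B).E), fun _ _ h => Sum.inr.inj h⟩ :
          P.I Γ B ↪ (P.stg Γ B).E)) := by
        refine card_le_card fun e he => ?_
        have h1 := (mem_filter.1 he).2
        rcases e with x | p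
        · exact absurd h1 (Option.some_ne_none _)
        · exact mem_map.2 ⟨p, mem_univ _, rfl⟩
    _ = _ := by rw [card_map, card_univ]

theorem stg_ht (e e' : (P.stg Γ B).E) (h : (P.stg Γ B).row e = (P.stg Γ B).row e')
    (h' : (P.stg Γ B).row e ≠ (P.stg Γ B).room) :
    (P.stg Γ B).ht e' ≤ (P.stg Γ B).ht e + B := by
  rcases e with x | p
  · rcases e' with x' | p'
    · have h1 : x.1 = x'.1 := Option.some.inj h
      have h2 := cl_le Γ B x.2.1
      show (P.lv0 x'.1 : ℤ) - Γ.cl x'.2.1 ≤ (P.lv0 x.1 : ℤ) - Γ.cl x.2.1 + B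
      rw [h1]
      omega
    · exact absurd h (Option.some_ne_none _)
  · exact absurd rfl h'

theorem stg_ht_room (e : (P.stg Γ B).E) (h : (P.stg Γ B).row e = (P.stg Γ B).room) :
    (P.J B : ℤ) - (B + 1) ≤ (P.stg Γ B).ht e := by
  rcases e with x | x | y
  · exact absurd h (Option.some_ne_none _)
  · have h2 := cl_le Γ (B + 1) x.1.2.1
    show (P.J B : ℤ) - (B + 1) ≤ (P.J B : ℤ) - ((Γ.cl x.1.2.1 - P.lv0 x.1.1 : ℕ) : ℤ)
    omega
  · have h2 := cl_le Γ B y.1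
    show (P.J B : ℤ) - (B + 1) ≤ (P.J B : ℤ) - ((Γ.cl y.1 : ℕ) : ℤ)
    omega

theorem card_Bot (hJ : B ≤ P.J B) : Fintype.card (P.Bot Γ B) ≤
    2 * (P.N B + 1) * (P.n0 B + 1) * 2 ^ B * Fintype.card Γ.K0 ^ B := by
  have h1 : Fintype.card (Γ.S B) ≤ Fintype.card Γ.K0 ^ B :=
    (Fintype.card_subtype_le _).trans (by simp)
  have h2 : #{r : P.R0 B | P.lv0 r < B} ≤ 2 * (P.N B + 1) * (P.n0 B + 1) * 2 ^ B := by
    rw [card_filter, Fintype.sum_sum_type, Fintype.sum_prod_type]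
    have h0 := F2bx.sum_sig (fun j : Fin (P.J B + 1) => (P.n0 B + 1) * 2 ^ (j : ℕ))
      (fun j => if (j : ℕ) < B then 1 else 0)
    have h6 : ∑ a : Unit, (if P.lv0 (Sum.inr a : P.R0 B) < B then 1 else 0) = 0 :=
      sum_eq_zero fun _ _ => if_neg (not_lt.2 hJ)
    have h7 : ∀ s : Bool, ∑ x : Fin (P.N B + 1) ×
        (Σ j : Fin (P.J B + 1), Fin ((P.n0 B + 1) * 2 ^ (j : ℕ))),
          (if P.lv0 (Sum.inl (s, x) : P.R0 B) < B then 1 else 0) = (P.N B + 1) *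
        ∑ j : Fin (P.J B + 1), (P.n0 B + 1) * 2 ^ (j : ℕ) * (if (j : ℕ) < B then 1 else 0) := by
      intro s
      rw [Fintype.sum_prod_type]
      refine (sum_congr rfl fun _ _ => h0).trans ?_
      rw [sum_const, card_univ, Fintype.card_fin, smul_eq_mul]
    rw [h6, add_zero, sum_congr rfl fun s _ => h7 s, sum_const, card_univ, Fintype.card_bool,
      smul_eq_mul]
    have h3 := F2bx.two_sum B (P.J B)
    calc _ = 2 * ((P.N B + 1) * ((P.n0 B + 1) *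
          ∑ j : Fin (P.J B + 1), (if (j : ℕ) < B then 2 ^ (j : ℕ) else 0))) := by
          congr 2
          rw [mul_sum]
          refine sum_congr rfl fun j _ => ?_
          split_ifs <;> simp
      _ ≤ 2 * ((P.N B + 1) * ((P.n0 B + 1) * 2 ^ B)) := by gcongr
      _ = _ := by ring
  calc Fintype.card (P.Bot Γ B) = #{x : P.R0 B × Γ.S B | P.lv0 x.1 < Γ.cl x.2.1} :=
        Fintype.card_subtype _
    _ ≤ #(({r : P.R0 B | P.lv0 r < B} : Finset (P.R0 B)) ×ˢ (univ : Finset (Γ.S B))) := by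
        refine card_le_card fun x hx => ?_
        have h4 := (mem_filter.1 hx).2
        have h5 := cl_le Γ B x.2.1
        exact mem_product.2 ⟨mem_filter.2 ⟨mem_univ _, by omega⟩, mem_univ _⟩
    _ ≤ _ := by
        rw [card_product, card_univ]
        exact Nat.mul_le_mul h2 h1

theorem card_K0 : Fintype.card Γ.K0 = 50 * Γ.u := by
  rw [← card_univ, card_eq_sum_card_fiberwise (f := Γ.c0) (t := univ) (fun _ _ => mem_univ _),
    Fin.sum_univ_three, Γ.card_c0, Γ.card_c0, Γ.card_c0]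
  simp
  ring

end F2b


end Pool.Agent.MP_c6eade_gt.H41
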