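import Pool.Agent.MP_c6eade_gt.H41.F2b

namespace Pool.Agent.MP_c6eade_gt.H41

open Equiv Finset
open scoped Classical

namespace F2cx
variable (P : Par) (Γ : Gad) (B : ℕ)

def he (r : P.R0 B) (y : Γ.S B) : (P.stg Γ B).E := Sum.inl (r, y)

lemma ht_he (r : P.R0 B) (y : Γ.S B) :
    (P.stg Γ B).ht (he P Γ B r y) = (P.lv0 r : ℤ) - Γ.cl y.1 := rfl

lemma ex_he (e : (P.stg Γ B).E) (h : (P.stg Γ B).row e ≠ (P.stg Γ B).room) :
    ∃ r y, e = he P Γ B r y := by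
  rcases e with ⟨r, y⟩ | p
  · exact ⟨r, y, rfl⟩
  · exact absurd rfl h

lemma lv_le (r : P.R0 B) : P.lv0 r ≤ P.J B := by
  rcases r with x | x
  · exact Nat.lt_succ_iff.1 x.2.2.1.2
  · exact le_rfl

lemma cnt_kind (a : Bool × Fin (P.N B + 1)) (j : ℕ) :
    #{r : P.R0 B | P.kd0 r = a ∧ P.lv0 r = j} ≤ 2 * (P.n0 B + 1) * 2 ^ j := by
  have h1 : #{r : P.R0 B | P.kd0 r = a ∧ P.lv0 r = j} ≤ #(range ((P.n0 B + 1) * 2 ^ j + 1)) := by
    refine card_le_card_of_injOn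
      (Sum.elim (fun x => (x.2.2.2 : ℕ)) fun _ => (P.n0 B + 1) * 2 ^ j) ?_ ?_
    · rintro (⟨s, b, i, m⟩ | x) hx
      · simp only [coe_filter, mem_univ, true_and, Set.mem_ofPred_eq, Par.lv0] at hx
        have := m.2
        simp only [coe_range, Set.mem_Iio, Sum.elim_inl]
        rw [← hx.2]; omega
      · simp
    · rintro (⟨s, b, i, m⟩ | x) hx (⟨s', b', i', m'⟩ | x') hx' h
      · simp only [coe_filter, mem_univ, true_and, Set.mem_ofPred_eq, Par.lv0, Par.kd0] at hx hx'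
        have e1 : i = i' := Fin.ext (hx.2.trans hx'.2.symm)
        subst e1
        have e2 : m = m' := Fin.ext h
        have e3 := hx.1.trans hx'.1.symm
        simp only [Prod.mk.injEq] at e3
        rw [e2, e3.1, e3.2]
      · simp only [coe_filter, mem_univ, true_and, Set.mem_ofPred_eq, Par.lv0] at hx
        have := m.2
        simp only [Sum.elim_inl, Sum.elim_inr] at h
        rw [← hx.2] at h; omega
      · simp only [coe_filter, mem_univ, true_and, Set.mem_ofPred_eq, Par.lv0] at hx'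
        have := m'.2
        simp only [Sum.elim_inl, Sum.elim_inr] at h
        rw [← hx'.2] at h; omega
      · rfl
  rw [card_range] at h1
  have : 0 < (P.n0 B + 1) * 2 ^ j := by positivity
  calc _ ≤ _ := h1
    _ ≤ 2 * ((P.n0 B + 1) * 2 ^ j) := by omega
    _ = _ := by ring

lemma cnt_all (j : ℕ) :
    #{r : P.R0 B | P.lv0 r = j} ≤ 4 * (P.N B + 1) * (P.n0 B + 1) * 2 ^ j := by
  rw [card_eq_sum_card_fiberwise (f := P.kd0) (t := univ) (fun _ _ => mem_univ _)]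
  calc _ ≤ ∑ _a : Bool × Fin (P.N B + 1), 2 * (P.n0 B + 1) * 2 ^ j := by
        refine sum_le_sum fun a _ => le_trans (le_of_eq ?_) (cnt_kind P B a j)
        congr 1; ext r; simp [and_comm]
    _ = _ := by simp; ring

lemma om_nonneg (e : (P.stg Γ B).E) : 0 ≤ (P.stg Γ B).om e := by
  unfold Fr.om; positivity

lemma M_pos (e : (P.stg Γ B).E) (h : 0 ≤ (P.stg Γ B).ht e) : (0 : ℝ) < (P.stg Γ B).M e := by
  have := stg_M' P Γ B e h
  have h2 : 0 < (P.n0 B + 1) * 2 ^ ((P.stg Γ B).ht e).toNat := by positivity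
  exact_mod_cast lt_of_lt_of_le h2 this

lemma M_he (r : P.R0 B) (y : Γ.S B) (h : Γ.cl y.1 ≤ P.lv0 r) :
    ((P.N B : ℝ) + 1) * ((P.n0 B : ℝ) + 1) * Γ.pool B (P.J B) (P.lv0 r - Γ.cl y.1) ≤
      (P.stg Γ B).M (he P Γ B r y) := by
  have h0 : 0 ≤ (P.stg Γ B).ht (he P Γ B r y) := by rw [ht_he]; omega
  have := stg_M P Γ B _ h0
  have e : ((P.stg Γ B).ht (he P Γ B r y)).toNat = P.lv0 r - Γ.cl y.1 := by rw [ht_he]; omega
  rw [e] at this
  exact_mod_cast this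

lemma pool_ge (r : P.R0 B) (y : Γ.S B) (h : Γ.cl y.1 ≤ P.lv0 r) :
    2 ^ P.lv0 r ≤ Γ.pool B (P.J B) (P.lv0 r - Γ.cl y.1) := by
  have h1 := cl_le Γ B y.1
  have h2 := lv_le P B r
  have h3 : 0 < Γ.Nk B (Γ.cl y.1) := card_pos.2 ⟨y, by simp⟩
  unfold Gad.pool
  refine le_trans ?_ (single_le_sum (f := fun k => 2 ^ (P.lv0 r - Γ.cl y.1 + k) * Γ.Nk B k)
    (fun _ _ => Nat.zero_le _) (a := Γ.cl y.1) (by simp only [mem_filter, mem_range]; omega))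
  rw [Nat.sub_add_cancel h]
  exact Nat.le_mul_of_pos_right _ h3

noncomputable def tsz (d : Γ.K B) : ℝ := (#{d' : Γ.K B | Γ.ty d' = Γ.ty d} : ℝ)

lemma tsz_one (d : Γ.K B) : 1 ≤ tsz Γ B d := by
  have : 0 < #{d' : Γ.K B | Γ.ty d' = Γ.ty d} := card_pos.2 ⟨d, by simp⟩
  unfold tsz; exact_mod_cast this

noncomputable def aa : ℝ := Real.sqrt ((221 / 100 * (Γ.u : ℝ)) ^ B)

lemma aa_sq : aa Γ B ^ 2 = (221 / 100 * (Γ.u : ℝ)) ^ B := Real.sq_sqrt (by positivity)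

lemma aa_nonneg : 0 ≤ aa Γ B := Real.sqrt_nonneg _

lemma pair (r : P.R0 B) (y z : Γ.S B) (hy : Γ.cl y.1 ≤ P.lv0 r) (hz : Γ.cl z.1 ≤ P.lv0 r) :
    (Γ.cntd (Γ.cl y.1) (Γ.cl z.1) (y.1⁻¹ * z.1) : ℝ) *
      ((P.stg Γ B).om (he P Γ B r y) * (P.stg Γ B).om (he P Γ B r z)) ≤
      ((B : ℝ) + 1) * aa Γ B / (Real.sqrt (tsz Γ B (y.1⁻¹ * z.1)) *
        (((P.N B : ℝ) + 1) * ((P.n0 B : ℝ) + 1))) / 2 ^ P.lv0 r := by
  have hc := core Γ B (P.J B) (P.lv0 r) _ _ (lv_le P B r) hy hz (y.1⁻¹ * z.1)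
  have m1 := M_he P Γ B r y hy
  have m2 := M_he P Γ B r z hz
  have p1 := M_pos P Γ B (he P Γ B r y) (by rw [ht_he]; omega)
  have p2 := M_pos P Γ B (he P Γ B r z) (by rw [ht_he]; omega)
  have hs := tsz_one Γ B (y.1⁻¹ * z.1)
  have ha := aa_sq Γ B
  have ha0 := aa_nonneg Γ B
  rw [← ha] at hc
  change tsz Γ B (y.1⁻¹ * z.1) * _ ≤ _ at hc
  unfold Fr.om
  generalize tsz Γ B (y.1⁻¹ * z.1) = s at *
  generalize ((P.stg Γ B).M (he P Γ B r y) : ℝ) = M1 at *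
  generalize ((P.stg Γ B).M (he P Γ B r z) : ℝ) = M2 at *
  have hn : 0 < ((P.N B : ℝ) + 1) * ((P.n0 B : ℝ) + 1) := by positivity
  generalize ((P.N B : ℝ) + 1) * ((P.n0 B : ℝ) + 1) = n at *
  have hq1 : (0 : ℝ) ≤ Γ.pool B (P.J B) (P.lv0 r - Γ.cl y.1) := Nat.cast_nonneg _
  have hq2 : (0 : ℝ) ≤ Γ.pool B (P.J B) (P.lv0 r - Γ.cl z.1) := Nat.cast_nonneg _
  generalize (Γ.pool B (P.J B) (P.lv0 r - Γ.cl y.1) : ℝ) = q1 at *
  generalize (Γ.pool B (P.J B) (P.lv0 r - Γ.cl z.1) : ℝ) = q2 at *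
  have hc0 : (0 : ℝ) ≤ Γ.cntd (Γ.cl y.1) (Γ.cl z.1) (y.1⁻¹ * z.1) := Nat.cast_nonneg _
  generalize (Γ.cntd (Γ.cl y.1) (Γ.cl z.1) (y.1⁻¹ * z.1) : ℝ) = c at *
  have s0 : 0 < Real.sqrt s := Real.sqrt_pos.2 (by linarith)
  have s1 := Real.sqrt_pos.2 p1
  have s2 := Real.sqrt_pos.2 p2
  have key : c * 2 ^ P.lv0 r * (Real.sqrt s * n) ≤
      ((B : ℝ) + 1) * aa Γ B * (Real.sqrt M1 * Real.sqrt M2) := by
    refine le_of_sq_le_sq ?_ (by positivity)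
    calc _ = Real.sqrt s ^ 2 * (c * 2 ^ P.lv0 r) ^ 2 * n ^ 2 := by ring
      _ = s * (c * 2 ^ P.lv0 r) ^ 2 * n ^ 2 := by rw [Real.sq_sqrt (by linarith)]
      _ ≤ ((B : ℝ) + 1) ^ 2 * aa Γ B ^ 2 * q1 * q2 * n ^ 2 := by gcongr
      _ = ((B : ℝ) + 1) ^ 2 * aa Γ B ^ 2 * ((n * q1) * (n * q2)) := by ring
      _ ≤ ((B : ℝ) + 1) ^ 2 * aa Γ B ^ 2 * (M1 * M2) := by gcongr
      _ = ((B : ℝ) + 1) ^ 2 * aa Γ B ^ 2 * (Real.sqrt M1 ^ 2 * Real.sqrt M2 ^ 2) := by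
          rw [Real.sq_sqrt p1.le, Real.sq_sqrt p2.le]
      _ = _ := by ring
  rw [le_div_iff₀ (by positivity), le_div_iff₀ (by positivity)]
  calc _ = c * 2 ^ P.lv0 r * (Real.sqrt s * n) * ((Real.sqrt M1)⁻¹ * (Real.sqrt M2)⁻¹) := by ring
    _ ≤ ((B : ℝ) + 1) * aa Γ B * (Real.sqrt M1 * Real.sqrt M2) *
        ((Real.sqrt M1)⁻¹ * (Real.sqrt M2)⁻¹) := by gcongr
    _ = _ := by field_simp

lemma row_d (r : P.R0 B) (d : Γ.K B) :
    ∑ c : Γ.S B × Γ.S B with (Γ.cl c.1.1 ≤ P.lv0 r ∧ Γ.cl c.2.1 ≤ P.lv0 r ∧ c.1.1⁻¹ * c.2.1 = d),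
      (P.stg Γ B).om (he P Γ B r c.1) * (P.stg Γ B).om (he P Γ B r c.2) ≤
      ((B : ℝ) + 1) ^ 2 * (((B : ℝ) + 1) * aa Γ B / (Real.sqrt (tsz Γ B d) *
        (((P.N B : ℝ) + 1) * ((P.n0 B : ℝ) + 1))) / 2 ^ P.lv0 r) := by
  have ha0 := aa_nonneg Γ B
  set b := ((B : ℝ) + 1) * aa Γ B / (Real.sqrt (tsz Γ B d) *
        (((P.N B : ℝ) + 1) * ((P.n0 B : ℝ) + 1))) / 2 ^ P.lv0 r with hb
  have b0 : 0 ≤ b := by positivity
  rw [← sum_fiberwise_of_maps_to (g := fun c : Γ.S B × Γ.S B => (Γ.cl c.1.1, Γ.cl c.2.1))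
    (t := range (B + 1) ×ˢ range (B + 1)) (fun c _ => by
      have h1 := cl_le Γ B c.1.1
      have h2 := cl_le Γ B c.2.1
      simp only [mem_product, mem_range]; omega)]
  calc _ ≤ ∑ _kl ∈ range (B + 1) ×ˢ range (B + 1), b := by
        refine sum_le_sum fun kl _ => ?_
        refine le_trans (sum_le_card_nsmul _ _ (b / Γ.cntd kl.1 kl.2 d) ?_) ?_
        · intro c hc
          simp only [mem_filter, mem_univ, true_and] at hc
          obtain ⟨⟨h1, h2, h3⟩, h4⟩ := hc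
          have := pair P Γ B r c.1 c.2 h1 h2
          rw [h3, ← hb] at this
          rw [← h4]
          have hp : 0 < Γ.cntd (Γ.cl c.1.1) (Γ.cl c.2.1) d := card_pos.2 ⟨c, by simp [h3]⟩
          rw [le_div_iff₀ (by exact_mod_cast hp), mul_comm]
          exact this
        · rw [nsmul_eq_mul]
          have : #{c ∈ (univ.filter fun c : Γ.S B × Γ.S B => (Γ.cl c.1.1 ≤ P.lv0 r ∧
              Γ.cl c.2.1 ≤ P.lv0 r ∧ c.1.1⁻¹ * c.2.1 = d)) | (Γ.cl c.1.1, Γ.cl c.2.1) = kl} ≤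
              Γ.cntd kl.1 kl.2 d := by
            refine card_le_card fun c hc => ?_
            simp only [mem_filter, mem_univ, true_and] at hc ⊢
            rw [← hc.2]; exact ⟨rfl, rfl, hc.1.2.2⟩
          calc _ ≤ (Γ.cntd kl.1 kl.2 d : ℝ) * (b / Γ.cntd kl.1 kl.2 d) := by
                gcongr
            _ ≤ b := by
                rcases eq_or_ne (Γ.cntd kl.1 kl.2 d : ℝ) 0 with h | h
                · rw [h, zero_mul]; exact b0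
                · rw [mul_div_cancel₀ _ h]
    _ = _ := by simp [sq]

lemma lev_sum (Rs : Finset (P.R0 B)) (c : ℝ)
    (hc : ∀ j, (#{r ∈ Rs | P.lv0 r = j} : ℝ) ≤ c * 2 ^ j) :
    ∑ r ∈ Rs, ((2 : ℝ) ^ P.lv0 r)⁻¹ ≤ ((P.J B : ℝ) + 1) * c := by
  rw [← sum_fiberwise_of_maps_to (g := P.lv0) (t := range (P.J B + 1)) (fun r _ => by
    have := lv_le P B r
    simp only [mem_range]; omega)]
  calc _ ≤ ∑ _j ∈ range (P.J B + 1), c := by
        refine sum_le_sum fun j _ => ?_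
        rw [sum_congr rfl (g := fun _ => ((2 : ℝ) ^ j)⁻¹) (fun r hr => by rw [(mem_filter.1 hr).2]),
          sum_const, nsmul_eq_mul, ← div_eq_mul_inv, div_le_iff₀ (by positivity)]
        exact hc j
    _ = _ := by simp

noncomputable def GG : ℝ := ((P.J B : ℝ) + 1) * ((B : ℝ) + 1) ^ 3 * aa Γ B

lemma main (Rs : Finset (P.R0 B)) (c : ℝ)
    (hc : ∀ j, (#{r ∈ Rs | P.lv0 r = j} : ℝ) ≤ c * 2 ^ j) (Ds : Finset (Γ.K B)) (s : ℝ)
    (hs : ∀ d ∈ Ds, tsz Γ B d = s) (T : Finset ((P.stg Γ B).E × (P.stg Γ B).E))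
    (hT : ∀ x ∈ T, ∃ r ∈ Rs, ∃ y z, x = (he P Γ B r y, he P Γ B r z) ∧ Γ.cl y.1 ≤ P.lv0 r ∧
      Γ.cl z.1 ≤ P.lv0 r ∧ y.1⁻¹ * z.1 ∈ Ds) :
    ∑ x ∈ T, (P.stg Γ B).om x.1 * (P.stg Γ B).om x.2 ≤
      #Ds * (c * GG P Γ B / (Real.sqrt s * (((P.N B : ℝ) + 1) * ((P.n0 B : ℝ) + 1)))) := by
  have ha0 := aa_nonneg Γ B
  set U : Finset (Σ _ : Γ.K B × P.R0 B, Γ.S B × Γ.S B) := (Ds ×ˢ Rs).sigma fun w =>
    univ.filter fun c : Γ.S B × Γ.S B =>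
      (Γ.cl c.1.1 ≤ P.lv0 w.2 ∧ Γ.cl c.2.1 ≤ P.lv0 w.2 ∧ c.1.1⁻¹ * c.2.1 = w.1) with hU
  have hsub : T ⊆ U.image fun w => (he P Γ B w.1.2 w.2.1, he P Γ B w.1.2 w.2.2) := by
    intro x hx
    obtain ⟨r, hr, y, z, e, h1, h2, h3⟩ := hT x hx
    refine mem_image.2 ⟨⟨(y.1⁻¹ * z.1, r), (y, z)⟩, ?_, e.symm⟩
    simp [hU, hr, h1, h2, h3]
  have hn : ∀ x : (P.stg Γ B).E × (P.stg Γ B).E,
      0 ≤ (P.stg Γ B).om x.1 * (P.stg Γ B).om x.2 :=
    fun x => mul_nonneg (om_nonneg P Γ B _) (om_nonneg P Γ B _)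
  calc _ ≤ _ := sum_le_sum_of_subset_of_nonneg hsub fun x _ _ => hn x
    _ ≤ ∑ w ∈ U, (P.stg Γ B).om (he P Γ B w.1.2 w.2.1) * (P.stg Γ B).om (he P Γ B w.1.2 w.2.2) :=
        sum_image_le_of_nonneg fun x _ => hn x
    _ ≤ ∑ w ∈ Ds ×ˢ Rs, ((B : ℝ) + 1) ^ 2 * (((B : ℝ) + 1) * aa Γ B / (Real.sqrt s *
        (((P.N B : ℝ) + 1) * ((P.n0 B : ℝ) + 1)))) * (2 ^ P.lv0 w.2)⁻¹ := by
        rw [hU, sum_sigma]
        refine sum_le_sum fun w hw => ?_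
        have := row_d P Γ B w.2 w.1
        rw [hs _ (mem_product.1 hw).1] at this
        refine le_trans this (le_of_eq ?_)
        ring
    _ = #Ds * (((B : ℝ) + 1) ^ 2 * (((B : ℝ) + 1) * aa Γ B / (Real.sqrt s *
        (((P.N B : ℝ) + 1) * ((P.n0 B : ℝ) + 1)))) * ∑ r ∈ Rs, ((2 : ℝ) ^ P.lv0 r)⁻¹) := by
        rw [sum_product, mul_sum]; simp
    _ ≤ #Ds * (((B : ℝ) + 1) ^ 2 * (((B : ℝ) + 1) * aa Γ B / (Real.sqrt s *
        (((P.N B : ℝ) + 1) * ((P.n0 B : ℝ) + 1)))) * (((P.J B : ℝ) + 1) * c)) := by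
        gcongr
        exact lev_sum P B Rs c hc
    _ = _ := by unfold GG; ring

lemma ty_le (d : Γ.K B) : (Γ.ty d).1 ≤ B ∧ (Γ.ty d).2 ≤ B := by
  unfold Gad.ty
  dsimp only
  exact ⟨(card_le_univ _).trans (Fintype.card_fin B).le,
    (card_le_univ _).trans (Fintype.card_fin B).le⟩

noncomputable def tyF (d : Γ.K B) : Fin (B + 1) × Fin (B + 1) :=
  (⟨(Γ.ty d).1, Nat.lt_succ_of_le (ty_le Γ B d).1⟩, ⟨(Γ.ty d).2, Nat.lt_succ_of_le (ty_le Γ B d).2⟩)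

lemma mf {α : Type} [Fintype α] {p : α → Prop} {i : DecidablePred p} {x : α}
    (h : x ∈ @Finset.filter α p i univ) : p x := (mem_filter.1 h).2

lemma tyF_iff (d d' : Γ.K B) : tyF Γ B d = tyF Γ B d' ↔ Γ.ty d = Γ.ty d' := by
  simp [tyF, Prod.ext_iff, Fin.ext_iff]

lemma ty_inv (d : Γ.K B) : Γ.ty d⁻¹ = Γ.ty d := by
  simp [Gad.ty, Γ.c0_inv]

noncomputable def sz (τ : Fin (B + 1) × Fin (B + 1)) : ℝ := (#{d : Γ.K B | tyF Γ B d = τ} : ℝ)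

lemma sz_ty (d : Γ.K B) : sz Γ B (tyF Γ B d) = tsz Γ B d := by
  unfold sz tsz
  simp only [tyF_iff]

def tagF : Option (P.R0 B) → Fin (P.J B + 1)
  | none => 0
  | some r => ⟨P.lv0 r, Nat.lt_succ_of_le (lv_le P B r)⟩

lemma unp (x : (P.stg Γ B).E × (P.stg Γ B).E)
    (h1 : (P.stg Γ B).row x.1 = (P.stg Γ B).row x.2) (h2 : (P.stg Γ B).row x.1 ≠ (P.stg Γ B).room)
    (h3 : 0 ≤ (P.stg Γ B).ht x.1) (h4 : 0 ≤ (P.stg Γ B).ht x.2) :
    ∃ r y z, x = (he P Γ B r y, he P Γ B r z) ∧ Γ.cl y.1 ≤ P.lv0 r ∧ Γ.cl z.1 ≤ P.lv0 r := by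
  obtain ⟨a, b⟩ := x
  obtain ⟨r, y, rfl⟩ := ex_he P Γ B a h2
  obtain ⟨r', z, rfl⟩ := ex_he P Γ B b (h1 ▸ h2)
  have : r = r' := Option.some.inj h1
  subst this
  simp only [ht_he] at h3 h4
  exact ⟨r, y, z, rfl, by omega, by omega⟩

end F2cx

open F2cx in
theorem weights (P : Par) (Γ : Gad) (B : ℕ) {q : ℝ} (hq0 : 0 < q) (hq1 : q ≤ 1)
    (hJ : B + 1 ≤ P.J B)
    (hq : 16 * ((P.J B : ℝ) + 1) ^ 2 * ((B : ℝ) + 1) ^ 6 * (221 / 100 * (Γ.u : ℝ)) ^ B ≤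
      q ^ 2 * ((P.N B : ℝ) + 1))
    (hI : Fintype.card (P.I Γ B) ^ 2 ≤ 2 ^ (P.J B - (B + 1))) :
    ∃ W : Wt (P.stg Γ B), Fintype.card W.Θ = (B + 1) ^ 2 ∧ Fintype.card W.Tg = P.J B + 1 ∧
      W.q = q ∧
      W.Dm = 9 * ((P.J B : ℝ) + 1) * ((B : ℝ) + 1) ^ 3 * (Fintype.card Γ.K0 : ℝ) ^ (2 * B) ∧
      W.nmax = 4 * ((P.N B : ℝ) + 1) * ((P.n0 B : ℝ) + 1) * 2 ^ P.J B := by
  have ha0 := aa_nonneg Γ B
  have hG0 : 0 ≤ GG P Γ B := by unfold GG; positivity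
  have hG : 16 * GG P Γ B ^ 2 ≤ q ^ 2 * ((P.N B : ℝ) + 1) := by
    rw [← aa_sq] at hq
    refine le_trans (le_of_eq ?_) hq
    unfold GG; ring
  have hK1 : (1 : ℝ) ≤ (Fintype.card Γ.K0 : ℝ) ^ B :=
    one_le_pow₀ (by exact_mod_cast Fintype.card_pos)
  have hN : (1 : ℝ) ≤ (P.N B : ℝ) + 1 := by simp
  have hn : (1 : ℝ) ≤ (P.n0 B : ℝ) + 1 := by simp
  have hJ1 : (1 : ℝ) ≤ (P.J B : ℝ) + 1 := by simp
  have hB1 : (1 : ℝ) ≤ ((B : ℝ) + 1) ^ 3 := one_le_pow₀ (by simp)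
  have hsz : ∀ τ, sz Γ B τ = 0 ∨ 1 ≤ sz Γ B τ := fun τ => by
    unfold sz
    rcases Nat.eq_zero_or_pos #{d : Γ.K B | tyF Γ B d = τ} with h | h
    · left; exact_mod_cast h
    · right; exact_mod_cast h
  refine ⟨{
    Θ := Fin (B + 1) × Fin (B + 1)
    Tg := Fin (P.J B + 1)
    fΘ := inferInstance
    fT := inferInstance
    ty := tyF Γ B
    tag := tagF P B
    nn := fun t => 4 * ((P.N B : ℝ) + 1) * ((P.n0 B : ℝ) + 1) * 2 ^ (t : ℕ)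
    Ff := fun τ => 4 * GG P Γ B * Real.sqrt (sz Γ B τ)
    Cc := fun τ => 4 * GG P Γ B / (((P.N B : ℝ) + 1) * Real.sqrt (sz Γ B τ))
    q := q
    Dm := 9 * ((P.J B : ℝ) + 1) * ((B : ℝ) + 1) ^ 3 * (Fintype.card Γ.K0 : ℝ) ^ (2 * B)
    nmax := 4 * ((P.N B : ℝ) + 1) * ((P.n0 B : ℝ) + 1) * 2 ^ P.J B
    Δ := 2 * (Fintype.card Γ.K0 : ℝ) ^ B
    ty_inv := fun d => (tyF_iff Γ B _ _).2 (ty_inv Γ B d)
    tag_card := ?_
    nn_one := ?_
    nn_le := ?_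
    row_w := ?_
    room_w := ?_
    hF := ?_
    hC := ?_
    Ff_nonneg := fun τ => by positivity
    Cc_nonneg := fun τ => by positivity
    hFC := ?_
    hCq := ?_
    hFD := ?_
    Δ_one := by linarith
    hΔ := ?_
    q_pos := hq0
    q_le := hq1 }, by simp [sq], by simp, rfl, rfl, rfl⟩
  · intro t
    have h1 : ∀ T : Finset (Option (P.R0 B)), (∀ r ∈ T, r ≠ none ∧ tagF P B r = t) →
        (#T : ℝ) ≤ 4 * ((P.N B : ℝ) + 1) * ((P.n0 B : ℝ) + 1) * 2 ^ (t : ℕ) := by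
      intro T hT
      have : #T ≤ #{r : P.R0 B | P.lv0 r = t} := by
        refine le_trans (card_le_card ?_) (card_image_le (f := some))
        rintro (_ | r) hr
        · exact absurd rfl (hT _ hr).1
        · refine mem_image.2 ⟨r, mem_filter.2 ⟨mem_univ _, ?_⟩, rfl⟩
          rw [← (hT _ hr).2]; rfl
      exact_mod_cast le_trans this (cnt_all P B t)
    exact h1 _ fun r hr => by have := mf hr; exact this
  · intro t
    have : (1 : ℝ) ≤ 2 ^ (t : ℕ) := one_le_pow₀ (by norm_num)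
    calc (1 : ℝ) ≤ 4 * 1 * 1 * 1 := by norm_num
      _ ≤ _ := by gcongr
  · intro t
    have : (2 : ℝ) ^ (t : ℕ) ≤ 2 ^ P.J B :=
      pow_le_pow_right₀ (by norm_num) (Nat.lt_succ_iff.1 t.2)
    gcongr
  · intro r hr
    set nn : ℝ := 4 * ((P.N B : ℝ) + 1) * ((P.n0 B : ℝ) + 1) * 2 ^ (tagF P B r : ℕ) with hnn
    have nn0 : 0 < nn := by positivity
    have sq0 := Real.sqrt_pos.2 nn0
    refine le_trans (sum_le_card_nsmul _ _ (2 / Real.sqrt nn) ?_) ?_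
    · intro e he'
      obtain ⟨h1, h2⟩ := (mem_filter.1 he').2
      obtain ⟨r', y, rfl⟩ := ex_he P Γ B e (h1 ▸ hr)
      have h3 : Γ.cl y.1 ≤ P.lv0 r' := by rw [ht_he] at h2; omega
      have m1 := M_he P Γ B r' y h3
      have m2 : (2 : ℝ) ^ P.lv0 r' ≤ Γ.pool B (P.J B) (P.lv0 r' - Γ.cl y.1) := by
        exact_mod_cast pool_ge P Γ B r' y h3
      have m0 := M_pos P Γ B _ h2
      have e1 : (tagF P B r : ℕ) = P.lv0 r' := by rw [← h1]; rfl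
      have m3 : nn ≤ 4 * (P.stg Γ B).M (he P Γ B r' y) := by
        rw [hnn, e1]
        calc _ = 4 * (((P.N B : ℝ) + 1) * ((P.n0 B : ℝ) + 1) * 2 ^ P.lv0 r') := by ring
          _ ≤ 4 * (((P.N B : ℝ) + 1) * ((P.n0 B : ℝ) + 1) *
              Γ.pool B (P.J B) (P.lv0 r' - Γ.cl y.1)) := by gcongr
          _ ≤ _ := by gcongr
      unfold Fr.om
      have s1 := Real.sqrt_pos.2 m0
      rw [le_div_iff₀ sq0, inv_mul_le_iff₀ s1]
      refine le_of_sq_le_sq ?_ (by positivity)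
      rw [mul_pow, Real.sq_sqrt nn0.le, Real.sq_sqrt m0.le]; linarith
    · rw [nsmul_eq_mul]
      have h1 : #{e : (P.stg Γ B).E | (P.stg Γ B).row e = r ∧ 0 ≤ (P.stg Γ B).ht e} ≤
          Fintype.card Γ.K0 ^ B := by
        refine le_trans (card_le_card fun e he' => ?_) (stg_row P Γ B r hr)
        exact mem_filter.2 ⟨mem_univ _, (mem_filter.1 he').2.1⟩
      have h2 : (#{e : (P.stg Γ B).E | (P.stg Γ B).row e = r ∧ 0 ≤ (P.stg Γ B).ht e} : ℝ) ≤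
          (Fintype.card Γ.K0 : ℝ) ^ B := by exact_mod_cast h1
      calc _ ≤ (Fintype.card Γ.K0 : ℝ) ^ B * (2 / Real.sqrt nn) := by gcongr
        _ = _ := by ring
  · refine le_trans (sum_le_card_nsmul _ _ ((Fintype.card (P.I Γ B) : ℝ))⁻¹ ?_) ?_
    · intro e he'
      obtain ⟨h1, h2⟩ := (mem_filter.1 he').2
      have h3 := stg_ht_room P Γ B e h1
      have h4 := stg_M' P Γ B e h2
      have h5 : 2 ^ (P.J B - (B + 1)) ≤ 2 ^ ((P.stg Γ B).ht e).toNat :=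
        Nat.pow_le_pow_right (by norm_num) (by omega)
      have h6 : Fintype.card (P.I Γ B) ^ 2 ≤ (P.stg Γ B).M e :=
        le_trans hI (le_trans h5 (le_trans (Nat.le_mul_of_pos_left _ (Nat.succ_pos _)) h4))
      have h7 : 0 < Fintype.card (P.I Γ B) :=
        lt_of_lt_of_le (card_pos.2 ⟨e, mem_filter.2 ⟨mem_univ _, h1⟩⟩) (stg_room P Γ B)
      unfold Fr.om
      refine inv_anti₀ (by exact_mod_cast h7) (Real.le_sqrt_of_sq_le (by exact_mod_cast h6))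
    · rw [nsmul_eq_mul]
      have h1 : #{e : (P.stg Γ B).E | (P.stg Γ B).row e = (P.stg Γ B).room ∧
          0 ≤ (P.stg Γ B).ht e} ≤ Fintype.card (P.I Γ B) := by
        refine le_trans (card_le_card fun e he' => ?_) (stg_room P Γ B)
        exact mem_filter.2 ⟨mem_univ _, (mem_filter.1 he').2.1⟩
      rw [← div_eq_mul_inv]
      exact div_le_one_of_le₀ (by exact_mod_cast h1) (Nat.cast_nonneg _)
  · intro τ
    refine le_trans (main P Γ B univ (4 * ((P.N B : ℝ) + 1) * ((P.n0 B : ℝ) + 1))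
      (fun j => by exact_mod_cast cnt_all P B j) {d | tyF Γ B d = τ} (sz Γ B τ)
      (fun d hd => by rw [← (mem_filter.1 hd).2, sz_ty]) _ ?_) (le_of_eq ?_)
    · intro x hx
      obtain ⟨h1, h2, h3, h4, h5⟩ := mf hx
      obtain ⟨r, y, z, rfl, h6, h7⟩ := unp P Γ B x h1 h2 h3 h4
      exact ⟨r, mem_univ _, y, z, rfl, h6, h7, mem_filter.2 ⟨mem_univ _, h5⟩⟩
    · change sz Γ B τ * _ = _
      rcases hsz τ with h | h
      · simp [h]
      · have s0 : 0 < Real.sqrt (sz Γ B τ) := Real.sqrt_pos.2 (by linarith)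
        have s1 : sz Γ B τ = Real.sqrt (sz Γ B τ) ^ 2 := (Real.sq_sqrt (by linarith)).symm
        generalize Real.sqrt (sz Γ B τ) = w at *
        rw [s1]; field_simp
  · intro a d
    refine le_trans (main P Γ B {r | some (P.kd0 r) = a} (2 * ((P.n0 B : ℝ) + 1))
      (fun j => ?_) {d, d⁻¹} (sz Γ B (tyF Γ B d)) (fun d' hd => ?_) _ ?_) ?_
    · rcases a with _ | a
      · simp; positivity
      · have := cnt_kind P B a j
        have e : ({r ∈ ({r | some (P.kd0 r) = some a} : Finset (P.R0 B)) | P.lv0 r = j}) =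
            ({r | P.kd0 r = a ∧ P.lv0 r = j} : Finset (P.R0 B)) := by
          ext r; simp
        have h2 : (#({r ∈ ({r | some (P.kd0 r) = some a} : Finset (P.R0 B)) | P.lv0 r = j}) : ℝ) ≤
            2 * ((P.n0 B : ℝ) + 1) * 2 ^ j := by
          rw [e]; exact_mod_cast this
        convert h2
    · rw [sz_ty]
      rcases mem_insert.1 hd with h | h
      · rw [h]
      · rw [mem_singleton.1 h]; unfold tsz; rw [ty_inv]
    · intro x hx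
      obtain ⟨h1, h2, h3, h4, h5, h8⟩ := mf hx
      obtain ⟨r, y, z, rfl, h6, h7⟩ := unp P Γ B x h1 h2 h3 h4
      refine ⟨r, mem_filter.2 ⟨mem_univ _, h5⟩, y, z, rfl, h6, h7, ?_⟩
      rcases h8 with h | h
      · exact mem_insert.2 (Or.inl h)
      · exact mem_insert.2 (Or.inr (mem_singleton.2 h))
    · have h2 : (#({d, d⁻¹} : Finset (Γ.K B)) : ℝ) ≤ 2 := by exact_mod_cast card_le_two
      have s0 : 0 < Real.sqrt (sz Γ B (tyF Γ B d)) :=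
        Real.sqrt_pos.2 (by rw [sz_ty]; linarith [tsz_one Γ B d])
      calc _ ≤ 2 * (2 * ((P.n0 B : ℝ) + 1) * GG P Γ B / (Real.sqrt (sz Γ B (tyF Γ B d)) *
            (((P.N B : ℝ) + 1) * ((P.n0 B : ℝ) + 1)))) := by gcongr
        _ = _ := by field_simp; ring
  · intro τ
    rcases hsz τ with h | h
    · simp [h]; positivity
    · have s0 : 0 < Real.sqrt (sz Γ B τ) := Real.sqrt_pos.2 (by linarith)
      calc _ = 16 * GG P Γ B ^ 2 / ((P.N B : ℝ) + 1) := by field_simp; ring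
        _ ≤ _ := by rw [div_le_iff₀ (by linarith)]; exact hG
  · intro τ
    rcases hsz τ with h | h
    · simp [h]; exact hq0.le
    · have s0 : 1 ≤ Real.sqrt (sz Γ B τ) := Real.one_le_sqrt.2 h
      rw [div_le_iff₀ (by positivity)]
      refine le_of_sq_le_sq ?_ (by positivity)
      calc _ = 16 * GG P Γ B ^ 2 := by ring
        _ ≤ q ^ 2 * (((P.N B : ℝ) + 1) * 1 * 1 ^ 2) := by simpa using hG
        _ ≤ q ^ 2 * (((P.N B : ℝ) + 1) * ((P.N B : ℝ) + 1) * Real.sqrt (sz Γ B τ) ^ 2) := by gcongr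
        _ = _ := by ring
  · intro τ
    have h1 : sz Γ B τ ≤ (Fintype.card Γ.K0 : ℝ) ^ B := by
      have := card_le_univ ({d : Γ.K B | tyF Γ B d = τ} : Finset _)
      rw [Fintype.card_fun, Fintype.card_fin] at this
      unfold sz; exact_mod_cast this
    have h2 : (221 / 100 * (Γ.u : ℝ)) ^ B ≤ (Fintype.card Γ.K0 : ℝ) ^ B := by
      rw [card_K0]
      have : (0 : ℝ) ≤ Γ.u := Nat.cast_nonneg _
      refine pow_le_pow_left₀ (by positivity) (by push_cast; linarith) B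
    have h3 : aa Γ B * Real.sqrt (sz Γ B τ) ≤ (Fintype.card Γ.K0 : ℝ) ^ B := by
      unfold aa
      calc _ ≤ Real.sqrt ((Fintype.card Γ.K0 : ℝ) ^ B) * Real.sqrt ((Fintype.card Γ.K0 : ℝ) ^ B) := by
            gcongr
        _ = _ := Real.mul_self_sqrt (by linarith)
    have h4 : (Fintype.card Γ.K0 : ℝ) ^ B ≤ (Fintype.card Γ.K0 : ℝ) ^ (2 * B) := by
      rw [two_mul, pow_add]; nlinarith
    calc _ = 4 * ((P.J B : ℝ) + 1) * ((B : ℝ) + 1) ^ 3 * (aa Γ B * Real.sqrt (sz Γ B τ)) := by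
          unfold GG; ring
      _ ≤ _ := by
          gcongr
          · norm_num
          · exact h3.trans h4
  · calc _ = 4 * 1 * 1 * (Fintype.card Γ.K0 : ℝ) ^ (2 * B) := by ring
      _ ≤ _ := by gcongr; norm_num

end Pool.Agent.MP_c6eade_gt.H41
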