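import Pool.Agent.MP_c6eade_gt.H41.B1
import Pool.Agent.MP_c6eade_gt.H41.B2
import Pool.Agent.MP_c6eade_gt.H41.D3
import Pool.Agent.MP_c6eade_gt.H41.E1b
import Pool.Agent.MP_c6eade_gt.H41.E2c
import Pool.Agent.MP_c6eade_gt.H41.F2c
import Pool.Agent.MP_c6eade_gt.H41.BasicG

namespace Pool.Agent.MP_c6eade_gt.H41

open Equiv Finset
open scoped Classical

namespace F3x

theorem small (c : ℝ) (n : ℕ) {x : ℝ} (h0 : 0 < x) (h1 : x < 1) :
    ∀ᶠ B : ℕ in Filter.atTop, c * ((B : ℝ) + 1) ^ n * x ^ B < 1 := by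
  have t1 := tendsto_pow_const_mul_const_pow_of_abs_lt_one n (r := x) (by rwa [abs_of_pos h0])
  have t2 := (t1.comp (Filter.tendsto_add_atTop_nat 1)).const_mul (c / x)
  rw [mul_zero] at t2
  filter_upwards [t2.eventually (gt_mem_nhds (by norm_num : (0 : ℝ) < 1))] with B hB
  have e : c * ((B : ℝ) + 1) ^ n * x ^ B = c / x * (((B + 1 : ℕ) : ℝ) ^ n * x ^ (B + 1)) := by
    push_cast
    field_simp
    ring
  rw [e]
  exact hB

theorem glue (P : Par) (Γ : Gad) (B : ℕ) {σ : (P.stg Γ B).E → (P.stg Γ B).E}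
    (hA : (P.stg Γ B).Adm σ)
    (hno : ∀ (Ω D : Type) [Group Ω] [Fintype D] (Q : (P.stg Γ B).E → Ω) (j : Γ.K B →* Ω),
      Function.Injective j →
      (∀ e, (P.stg Γ B).row e ≠ (P.stg Γ B).room → Q e = j ((P.stg Γ B).pos e)) →
      Red (P.stg Γ B).row (P.stg Γ B).kind σ Q D → False) : P.SL Γ B := by
  refine ⟨σ, hA, fun Λ _ ξ => ?_⟩
  have hS : Sol (P.stg Γ B).row (P.stg Γ B).kind σ
      (Sum.elim (fun x : P.R0 B × Γ.S B => ((x.2.1, 1) : Γ.K B × Λ)) fun p => (1, ξ p)) := by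
    by_contra h
    obtain ⟨D, _, ⟨X⟩⟩ := pre_of_not_sol hA.1.1 (P.stg Γ B).hsurj h
    obtain ⟨Y⟩ := red_of_pre hA.1.1 X
    refine hno _ D _ (MonoidHom.inl (Γ.K B) Λ) (fun a b h => congrArg Prod.fst h) ?_ Y
    rintro (e | e) he
    · rfl
    · exact absurd rfl he
  obtain ⟨H, _, ι, gr, hι, h⟩ := hS
  refine ⟨H, inferInstance, (ι none).comp (MonoidHom.inr _ _),
    fun a => (ι (some a)).comp (MonoidHom.inl _ _), gr,
    (hι _).comp fun a b h => congrArg Prod.snd h,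
    fun a => (hι _).comp fun a b h => congrArg Prod.fst h, fun e he => ?_⟩
  have key : ∀ e : (P.stg Γ B).E, P.pt Γ ξ ((ι none).comp (MonoidHom.inr _ _))
      (fun a => (ι (some a)).comp (MonoidHom.inl _ _)) gr e =
      gr ((P.stg Γ B).row e) * ι ((P.stg Γ B).kind ((P.stg Γ B).row e))
        (Sum.elim (fun x : P.R0 B × Γ.S B => ((x.2.1, 1) : Γ.K B × Λ)) (fun p => (1, ξ p)) e) := by
    rintro (e | e) <;> rfl
  rw [key, key]
  exact h e he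

theorem pow_succ_le {κ a B : ℕ} (ha : κ + 1 ≤ 2 ^ a) (hB : 1 ≤ B) : κ ^ B + 1 ≤ 2 ^ (a * B) := by
  rw [pow_mul]
  exact (Nat.succ_le_of_lt (Nat.pow_lt_pow_left (Nat.lt_succ_self κ) (by omega))).trans
    (Nat.pow_le_pow_left ha B)

variable (P : Par) (Γ : Gad) {a w : ℕ}

theorem bot_le (ha : Fintype.card Γ.K0 + 1 ≤ 2 ^ a) {m : ℕ} {B : ℕ} (hB : 1 ≤ B)
    (hN : P.N B + 1 ≤ 2 ^ (a * B)) (hn : P.n0 B + 1 = 2 ^ (m * B)) (hJ : B ≤ P.J B) :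
    Fintype.card (P.Bot Γ B) ≤ 2 ^ ((2 * a + m + 2) * B) := by
  refine (card_Bot P Γ B hJ).trans ?_
  have h1 := pow_succ_le ha hB
  rw [hn]
  calc 2 * (P.N B + 1) * 2 ^ (m * B) * 2 ^ B * Fintype.card Γ.K0 ^ B
      ≤ 2 ^ B * 2 ^ (a * B) * 2 ^ (m * B) * 2 ^ B * 2 ^ (a * B) := by
        exact Nat.mul_le_mul (Nat.mul_le_mul_right _ (Nat.mul_le_mul_right _
          (Nat.mul_le_mul (Nat.le_self_pow (by omega) 2) hN))) (by omega)
    _ = _ := by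
        simp only [← pow_add]
        congr 1
        ring

theorem room_le (ha : Fintype.card Γ.K0 + 1 ≤ 2 ^ a) {c : ℕ} {B : ℕ} (hB : 1 ≤ B) (hc : a ≤ c)
    (h : Fintype.card (P.Bot Γ (B + 1)) ≤ 2 ^ (c * (B + 1))) :
    Fintype.card (P.I Γ B) + 1 ≤ 2 ^ ((c + 1) * (B + 1)) := by
  have h1 := pow_succ_le ha hB
  have h2 : Fintype.card (Γ.S B) ≤ Fintype.card Γ.K0 ^ B := by
    refine (Fintype.card_subtype_le _).trans ?_
    simp
  have h3 : 2 ^ (a * B) ≤ 2 ^ (c * (B + 1)) := Nat.pow_le_pow_right (by norm_num) (by nlinarith)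
  have h4 : 2 ^ (c * (B + 1) + 1) ≤ 2 ^ ((c + 1) * (B + 1)) :=
    Nat.pow_le_pow_right (by norm_num) (by nlinarith)
  rw [Fintype.card_sum]
  rw [pow_succ] at h4
  omega

theorem ball (ha : Fintype.card Γ.K0 + 1 ≤ 2 ^ a) {m c : ℕ} {B : ℕ} (hB : 1 ≤ B)
    (hm : a * (8 * w + 3) + 4 ≤ m) (hn : P.n0 B + 1 = 2 ^ (m * B))
    (hI : Fintype.card (P.I Γ B) + 1 ≤ 2 ^ (c * (B + 1)))
    (hJ : (c + 8 * w + 4) * (B + 1) ≤ P.J B) (σ : (P.stg Γ B).E → (P.stg Γ B).E)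
    (hσ : (P.stg Γ B).Semi σ) (e : (P.stg Γ B).E) (he : 0 ≤ (P.stg Γ B).ht e) :
    16 * #{e' : (P.stg Γ B).E | Near (P.stg Γ B).row σ (2 * (4 * w) + 2) ((P.stg Γ B).row e)
      ((P.stg Γ B).row e')} ≤ (P.stg Γ B).M e := by
  have h1 := pow_succ_le ha hB
  have h2 : 16 * (Fintype.card Γ.K0 ^ B + 1) ^ (2 * (4 * w) + 2 + 1) ≤ P.n0 B + 1 := by
    rw [hn]
    calc _ ≤ 2 ^ 4 * (2 ^ (a * B)) ^ (2 * (4 * w) + 2 + 1) :=
          Nat.mul_le_mul le_rfl (Nat.pow_le_pow_left h1 _)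
      _ = 2 ^ (4 + a * B * (2 * (4 * w) + 2 + 1)) := by rw [← pow_mul, ← pow_add]
      _ ≤ _ := Nat.pow_le_pow_right (by norm_num) (by nlinarith)
  refine le_trans ?_ (stg_M' P Γ B e he)
  by_cases hl : (P.stg Γ B).ht e + ((2 * (4 * w) + 2 : ℕ) + 1) * (B : ℤ) < (P.J B : ℤ) - (B + 1)
  · have := ball_low (P.stg Γ B) hσ (stg_row P Γ B) (stg_ht P Γ B) (stg_ht_room P Γ B)
      (2 * (4 * w) + 2) e hl (by positivity)
    exact ((Nat.mul_le_mul_left 16 this).trans h2).trans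
      (Nat.le_mul_of_pos_right _ (by positivity))
  · have hK : 1 ≤ Fintype.card Γ.K0 ^ B := Nat.one_le_pow _ _ Fintype.card_pos
    have := ball_le (P.stg Γ B) σ hK (stg_row P Γ B) (stg_room P Γ B) (2 * (4 * w) + 2)
      ((P.stg Γ B).row e)
    refine (Nat.mul_le_mul_left 16 this).trans ?_
    rw [← mul_assoc]
    refine Nat.mul_le_mul h2 (hI.trans (Nat.pow_le_pow_right (by norm_num) ?_))
    have h5 : (((c + 8 * w + 4) * (B + 1) : ℕ) : ℤ) ≤ P.J B := by exact_mod_cast hJ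
    have h6 : ((c * (B + 1) : ℕ) : ℤ) ≤ (P.stg Γ B).ht e := by
      push_cast at h5 hl ⊢
      have : (0 : ℤ) ≤ w := by positivity
      nlinarith
    omega

theorem two_rpow {x : ℝ} (h0 : 0 ≤ x) (h1 : x ≤ 1 / 2000) : (2 : ℝ) ^ x ≤ 2001 / 2000 := by
  have := rpow_one_add_le_one_add_mul_self (s := 1) (by norm_num) h0 (by linarith)
  norm_num at this
  linarith

theorem pow_rpow {D y : ℝ} {n B : ℕ} (hD : 0 ≤ D) (h : D ≤ 2 ^ (n * B)) (hy : 0 ≤ y)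
    (h1 : n * y ≤ 1 / 2000) : D ^ y ≤ (2001 / 2000) ^ B := by
  calc D ^ y ≤ ((2 : ℝ) ^ (n * B)) ^ y := Real.rpow_le_rpow hD h hy
    _ = ((2 : ℝ) ^ ((n : ℝ) * y)) ^ B := by
        rw [← Real.rpow_natCast, ← Real.rpow_mul (by norm_num), ← Real.rpow_mul_natCast (by norm_num)]
        congr 1
        push_cast
        ring
    _ ≤ _ := pow_le_pow_left₀ (by positivity) (two_rpow (by positivity) h1) B

theorem theta {ε D n y : ℝ} {B : ℕ} (hε : ε ≤ 1 / 2) (hD0 : 0 ≤ D) (hD : D ^ ε ≤ (2001 / 2000) ^ B)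
    (hn0 : 0 ≤ n) (hn : n ^ y ≤ (2001 / 2000) ^ B) :
    ((((499 / 500 : ℝ)) ^ B) ^ 2) ^ (1 - ε) * D ^ ε * n ^ y ≤ (999 / 1000) ^ B := by
  have h0 : (0 : ℝ) < (499 / 500) ^ B := by positivity
  have h1 : ((499 / 500 : ℝ)) ^ B ≤ 1 := pow_le_one₀ (by norm_num) (by norm_num)
  have h2 : ((((499 / 500 : ℝ)) ^ B) ^ 2) ^ (1 - ε) ≤ (499 / 500) ^ B := by
    rw [← Real.rpow_natCast _ 2, ← Real.rpow_mul h0.le]
    refine (Real.rpow_le_rpow_of_exponent_ge h0 h1 (z := 1) ?_).trans (Real.rpow_one _).le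
    push_cast
    linarith
  calc _ ≤ (499 / 500 : ℝ) ^ B * (2001 / 2000) ^ B * (2001 / 2000) ^ B :=
        mul_le_mul (mul_le_mul_of_nonneg_right h2 (Real.rpow_nonneg hD0 _) |>.trans
          (mul_le_mul_of_nonneg_left hD h0.le)) hn (Real.rpow_nonneg hn0 _) (by positivity)
    _ ≤ _ := by
        rw [← mul_pow, ← mul_pow]
        exact pow_le_pow_left₀ (by norm_num) (by norm_num) B

theorem par (u m t : ℕ) (hu : 0 < u) : ∃ P : Par, ∀ B,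
    (P.N B : ℝ) + 1 ≤ (9 / 4 * u) ^ B ∧ (9 / 4 * (u : ℝ)) ^ B ≤ 2 * ((P.N B : ℝ) + 1) ∧
      P.n0 B + 1 = 2 ^ (m * B) ∧ P.J B = t * (B + 1) := by
  refine ⟨⟨fun B => ⌊(9 / 4 * (u : ℝ)) ^ B⌋₊ - 1, fun B => 2 ^ (m * B) - 1, fun B => t * (B + 1)⟩,
    fun B => ?_⟩
  have hu' : (1 : ℝ) ≤ u := by exact_mod_cast hu
  have h1 : (1 : ℝ) ≤ (9 / 4 * (u : ℝ)) ^ B := one_le_pow₀ (by linarith)
  have h2 : 1 ≤ ⌊(9 / 4 * (u : ℝ)) ^ B⌋₊ := Nat.le_floor (by exact_mod_cast h1)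
  have h3 : ((⌊(9 / 4 * (u : ℝ)) ^ B⌋₊ - 1 : ℕ) : ℝ) + 1 = ⌊(9 / 4 * (u : ℝ)) ^ B⌋₊ := by
    rw [Nat.cast_sub h2]
    simp
  have h4 : (1 : ℝ) ≤ ⌊(9 / 4 * (u : ℝ)) ^ B⌋₊ := by exact_mod_cast h2
  refine ⟨?_, ?_, Nat.sub_add_cancel Nat.one_le_two_pow, rfl⟩
  · exact h3.le.trans (Nat.floor_le (by linarith))
  · have := Nat.lt_floor_add_one ((9 / 4 * (u : ℝ)) ^ B)
    dsimp only
    linarith

theorem hq {u N J : ℝ} {t B : ℕ} (hu : 0 < u) (hN : (9 / 4 * u) ^ B ≤ 2 * (N + 1))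
    (hJ0 : 0 ≤ J) (hJ : J + 1 ≤ (t + 1) * (B + 1))
    (h : 32 * ((t : ℝ) + 1) ^ 2 * ((B : ℝ) + 1) ^ 8 * (991 / 1000) ^ B < 1) :
    16 * (J + 1) ^ 2 * ((B : ℝ) + 1) ^ 6 * (221 / 100 * u) ^ B ≤
      ((((499 / 500 : ℝ)) ^ B) ^ 2) ^ 2 * (N + 1) := by
  have h1 : (221 / 100 * u) ^ B ≤
      (991 / 1000) ^ B * (((((499 / 500 : ℝ)) ^ B) ^ 2) ^ 2 * (9 / 4 * u) ^ B) := by
    rw [← pow_mul, ← pow_mul, mul_comm B, pow_mul, ← mul_pow, ← mul_pow]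
    refine pow_le_pow_left₀ (by positivity) ?_ B
    nlinarith
  calc _ ≤ 16 * (((t : ℝ) + 1) * (B + 1)) ^ 2 * ((B : ℝ) + 1) ^ 6 * ((991 / 1000) ^ B *
        (((((499 / 500 : ℝ)) ^ B) ^ 2) ^ 2 * (2 * (N + 1)))) := by
        refine mul_le_mul (by gcongr) (h1.trans (by gcongr)) (by positivity) (by positivity)
    _ = 32 * ((t : ℝ) + 1) ^ 2 * ((B : ℝ) + 1) ^ 8 * (991 / 1000) ^ B *
        (((((499 / 500 : ℝ)) ^ B) ^ 2) ^ 2 * (N + 1)) := by ring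
    _ ≤ _ := by
        refine mul_le_of_le_one_left (mul_nonneg (by positivity) ?_) h.le
        have : 0 ≤ (9 / 4 * u) ^ B := by positivity
        linarith

end F3x

open F3x in
theorem stages (Γ : Gad) : ∃ (P : Par) (B0 : ℕ), P.Good Γ B0 := by
  obtain ⟨a, ha⟩ : ∃ a, Fintype.card Γ.K0 + 1 ≤ 2 ^ a := ⟨_, Nat.lt_two_pow_self.le⟩
  have hu := Γ.u_pos
  have hu' : (0 : ℝ) < Γ.u := by exact_mod_cast hu
  obtain ⟨ε, hε⟩ : ∃ ε : ℝ, ε = 1 / (2000 * (2 * a + 1)) := ⟨_, rfl⟩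
  have hε0 : 0 < ε := by rw [hε]; positivity
  have hε1 : ((2 * a + 1 : ℕ) : ℝ) * ε ≤ 1 / 2000 := by
    rw [hε]; push_cast; field_simp; rfl
  have hε2 : ε ≤ 1 / 2 := by
    have : (0 : ℝ) ≤ a := by positivity
    push_cast at hε1
    nlinarith
  obtain ⟨Kc, w0, hred⟩ := red_to_LP hε0 (2000 * (64 * a + 64)) (by omega)
  obtain ⟨w, hw0, hw⟩ : ∃ w, w0 ≤ w ∧ 1 ≤ w := ⟨w0 + 1, by omega, by omega⟩
  obtain ⟨Cs, hCs, hpat⟩ := no_pattern (Kc * w)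
  obtain ⟨m, hm⟩ : ∃ m, m = (11 * a + 4) * w := ⟨_, rfl⟩
  obtain ⟨t, ht⟩ : ∃ t, t = (26 * a + 26) * w := ⟨_, rfl⟩
  obtain ⟨P, hP⟩ := par Γ.u m t hu
  have haw : a ≤ a * w := Nat.le_mul_of_pos_right _ hw
  have hm1 : a * (8 * w + 3) + 4 ≤ m := by nlinarith
  have ht1 : 2 * (2 * a + m + 2 + 1) + 8 * w + 4 ≤ t := by nlinarith
  have hs : 2 + a + m + 2 * t ≤ (64 * a + 64) * w := by nlinarith
  have hNn : ∀ B, P.N B + 1 ≤ 2 ^ (a * B) := fun B => by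
    have h1 : ((50 * Γ.u + 1 : ℕ) : ℝ) ≤ ((2 ^ a : ℕ) : ℝ) := by
      rw [← card_K0]; exact_mod_cast ha
    have h2 : (P.N B : ℝ) + 1 ≤ (2 ^ a) ^ B := by
      refine (hP B).1.trans (pow_le_pow_left₀ (by positivity) ?_ B)
      push_cast at h1
      linarith
    rw [pow_mul]
    exact_mod_cast h2
  have hJ1 : ∀ B, B + 1 ≤ P.J B := fun B => by
    rw [(hP B).2.2.2]
    exact Nat.le_mul_of_pos_left _ (by omega)
  obtain ⟨B0, hB0⟩ := Filter.eventually_atTop.1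
    (((small (32 * ((t : ℝ) + 1) ^ 2) 8 (x := 991 / 1000) (by norm_num) (by norm_num)).and
      (small (9 * ((t : ℝ) + 1)) 4 (x := 1 / 2) (by norm_num) (by norm_num))).and
     ((small (Cs * ((t : ℝ) + 3) ^ (Kc * w)) (2 * (Kc * w)) (x := 999 / 1000) (by norm_num)
      (by norm_num)).and (Filter.eventually_ge_atTop (8 * (Kc * w) + 1))))
  refine ⟨P, B0, fun B hB => ?_⟩
  obtain ⟨⟨s1, s2⟩, s3, s4⟩ := hB0 B hB
  have hB1 : 1 ≤ B := by omega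
  obtain ⟨p1, p2, p3, p4⟩ := hP B
  have hbot := bot_le P Γ ha (B := B + 1) (by omega) (hNn _) (hP _).2.2.1
    (by have := hJ1 (B + 1); omega)
  have hroom := room_le P Γ ha hB1 (by omega) hbot
  obtain ⟨c, hc⟩ : ∃ c, c = 2 * a + m + 2 := ⟨_, rfl⟩
  rw [← hc] at hbot hroom ht1
  have hJr : (P.J B : ℝ) + 1 ≤ (t + 1) * (B + 1) := by
    rw [p4]; push_cast
    have : (0 : ℝ) ≤ B := by positivity
    nlinarith
  refine ⟨hJ1 B, ?_, ?_, ?_⟩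
  · refine (Nat.mul_le_mul_right _ hbot).trans ?_
    rw [← pow_add, p4]
    exact Nat.pow_le_pow_right (by norm_num) (by nlinarith)
  · refine (mul_le_mul_of_nonneg_right p1 (by positivity)).trans ?_
    rw [← mul_pow]
    refine le_of_eq ?_
    congr 1
    field_simp
    norm_num
  obtain ⟨𝒮, hne, h𝒮, hD⟩ := switching (P.stg Γ B) (4 * w) (2 * (Kc * w))
    (fun h _ => stg_bal P Γ B (by have := hJ1 (B + 1); omega) h)
    (ball P Γ ha hB1 hm1 p3 hroom (by rw [p4]; exact Nat.mul_le_mul_right _ (by omega)))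
    (fun e he => by
      refine le_trans ?_ (stg_M' P Γ B e he)
      have h1 : B < 2 ^ B := Nat.lt_two_pow_self
      have h2 : 2 ^ B ≤ 2 ^ (m * B) :=
        Nat.pow_le_pow_right (by norm_num) (Nat.le_mul_of_pos_left _ (by omega))
      refine le_trans ?_ (Nat.le_mul_of_pos_right _ (by positivity))
      omega)
  obtain ⟨W, w1, w2, w3, w4, w5⟩ := weights P Γ B (q := ((499 / 500 : ℝ) ^ B) ^ 2) (by positivity)
    (pow_le_one₀ (by positivity) (pow_le_one₀ (by norm_num) (by norm_num))) (hJ1 B)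
    (hq hu' p2 (by positivity) hJr s1)
    (by
      refine (Nat.pow_le_pow_left ((Nat.le_succ _).trans hroom) 2).trans ?_
      rw [← pow_mul, p4]
      refine Nat.pow_le_pow_right (by norm_num) (Nat.le_sub_of_add_le ?_)
      nlinarith)
  have hDm : W.Dm ≤ 2 ^ ((2 * a + 1) * B) := by
    have h1 : (Fintype.card Γ.K0 : ℝ) ≤ 2 ^ a := by exact_mod_cast (Nat.le_succ _).trans ha
    have h2 : 9 * ((t : ℝ) + 1) * ((B : ℝ) + 1) ^ 4 ≤ 2 ^ B := by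
      rw [one_div, inv_pow, ← div_eq_mul_inv, div_lt_one (by positivity)] at s2
      exact s2.le
    rw [w4]
    calc _ ≤ 9 * (((t : ℝ) + 1) * (B + 1)) * ((B : ℝ) + 1) ^ 3 * (2 ^ a) ^ (2 * B) := by gcongr
      _ = 9 * ((t : ℝ) + 1) * ((B : ℝ) + 1) ^ 4 * (2 ^ a) ^ (2 * B) := by ring
      _ ≤ 2 ^ B * (2 ^ a) ^ (2 * B) := by gcongr
      _ = _ := by
        rw [← pow_mul, ← pow_add]
        congr 1
        ring
  have hnm : W.nmax ≤ 2 ^ ((64 * a + 64) * w * B) := by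
    have h1 : 4 * (P.N B + 1) * (P.n0 B + 1) * 2 ^ P.J B ≤ 2 ^ ((64 * a + 64) * w * B) := by
      rw [p3, p4]
      calc _ ≤ 2 ^ 2 * 2 ^ (a * B) * 2 ^ (m * B) * 2 ^ (t * (B + 1)) :=
            Nat.mul_le_mul_right _ (Nat.mul_le_mul_right _ (Nat.mul_le_mul le_rfl (hNn B)))
        _ = 2 ^ (2 + a * B + m * B + t * (B + 1)) := by simp only [← pow_add]
        _ ≤ _ := by
            refine Nat.pow_le_pow_right (by norm_num) (le_trans ?_ (Nat.mul_le_mul_right B hs))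
            have : t ≤ t * B := Nat.le_mul_of_pos_right _ hB1
            nlinarith
    rw [w5]
    exact_mod_cast h1
  have hw' : (0 : ℝ) < w := by exact_mod_cast hw
  obtain ⟨σ, hσ, hno⟩ := hpat _ (P.stg Γ B) W 𝒮 ε ((999 / 1000) ^ B) (2000 * (64 * a + 64) * w)
    hne (fun σ hσ => (h𝒮 σ hσ).1.1) hD hε0.le (by linarith) (by positivity)
    (by
      rw [w3]
      have d0 : 0 ≤ W.Dm := by rw [w4]; positivity
      have n0 : 0 ≤ W.nmax := by rw [w5]; positivity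
      refine theta hε2 d0 (pow_rpow d0 hDm hε0.le hε1) n0 (pow_rpow n0 hnm (by positivity) ?_)
      push_cast
      field_simp
      rfl)
    (by
      refine lt_of_le_of_lt ?_ s3
      rw [w1, w2, mul_assoc Cs (((t : ℝ) + 3) ^ (Kc * w)), pow_mul ((B : ℝ) + 1), ← mul_pow]
      have hb : (1 : ℝ) ≤ B := by exact_mod_cast hB1
      have ht0 : (0 : ℝ) ≤ t := by positivity
      gcongr
      push_cast
      nlinarith [mul_nonneg ht0 (by positivity : (0 : ℝ) ≤ B * (B + 1)), sq_nonneg (B : ℝ)])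
  refine glue P Γ B (h𝒮 σ hσ).1 fun Ω D _ _ Q j hj hQ X => ?_
  obtain ⟨p, h0, h1, Y, hY⟩ := hred w hw0 _ Ω D (P.stg Γ B) σ Q j (h𝒮 σ hσ).1.1 (h𝒮 σ hσ).2 hj hQ X
  exact hno p h0 h1 Y hY

end Pool.Agent.MP_c6eade_gt.H41
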