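import Pool.Agent.MP_c6eade_gt.H41.BasicG

namespace Pool.Agent.MP_c6eade_gt.H41

open Equiv Finset
open scoped Classical

namespace G1x

/-- The weights of the three classes. -/
def w : Fin 3 → ℚ := ![-2, 1, 0]

theorem sum_cls (Γ : Gad) (F : Fin 3 → ℚ) :
    ∑ y : Γ.K0, F (Γ.c0 y) = Γ.u * (F 0 + 7 * F 1 + 42 * F 2) := by
  rw [← sum_fiberwise univ Γ.c0 fun y => F (Γ.c0 y)]
  have h : ∀ a : Fin 3, ∑ y : Γ.K0 with Γ.c0 y = a, F (Γ.c0 y) =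
      ((![1, 7, 42] a * Γ.u : ℕ) : ℚ) * F a := fun a => by
    rw [← Γ.card_c0 a, ← nsmul_eq_mul, ← sum_const]
    exact sum_congr rfl fun y hy => by rw [(mem_filter.1 hy).2]
  rw [Fin.sum_univ_three, h, h, h]
  simp
  ring

theorem conv (Γ : Gad) (d : Γ.K0) :
    ∑ y : Γ.K0, w (Γ.c0 y) * w (Γ.c0 (y⁻¹ * d)) = Γ.u * (1 - 5 * w (Γ.c0 d)) := by
  rw [← Equiv.sum_comp (Equiv.inv Γ.K0)]
  simp only [Equiv.inv_apply, inv_inv, Γ.c0_inv]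
  have h : ∀ a b : Fin 3, w a * w b = 4 * (if a = 0 ∧ b = 0 then 1 else 0) -
      2 * (if a = 0 ∧ b = 1 then 1 else 0) - 2 * (if a = 1 ∧ b = 0 then 1 else 0) +
      (if a = 1 ∧ b = 1 then 1 else 0) := by
    intro a b
    fin_cases a <;> fin_cases b <;> simp [w]
    norm_num
  simp only [h, sum_add_distrib, sum_sub_distrib, ← mul_sum, sum_boole]
  rw [Γ.cnt d 0 0 (by decide) (by decide), Γ.cnt d 0 1 (by decide) (by decide),
    Γ.cnt d 1 0 (by decide) (by decide), Γ.cnt d 1 1 (by decide) (by decide)]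
  generalize Γ.c0 d = c
  fin_cases c <;> simp [w, tab] <;> ring

theorem sum_w (Γ : Gad) : ∑ y : Γ.K0, w (Γ.c0 y) = 5 * Γ.u := by
  rw [sum_cls]
  simp [w]
  ring

theorem sum_w' (Γ : Gad) (d : Γ.K0) : ∑ y : Γ.K0, w (Γ.c0 (y⁻¹ * d)) = 5 * Γ.u := by
  rw [← sum_w]
  exact Equiv.sum_comp ((Equiv.inv Γ.K0).trans (Equiv.mulRight d)) fun y => w (Γ.c0 y)

theorem sum_one (Γ : Gad) : ∑ _y : Γ.K0, (1 : ℚ) = 50 * Γ.u := by
  rw [sum_cls Γ fun _ => 1]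
  ring

/-- The coefficients of the idempotent of one factor. -/
noncomputable def ep (Γ : Gad) (y : Γ.K0) : ℚ := (1 - 5 * w (Γ.c0 y)) / (25 * Γ.u)

theorem w_ep (Γ : Gad) (d : Γ.K0) :
    ∑ y : Γ.K0, w (Γ.c0 y) * ep Γ (y⁻¹ * d) = w (Γ.c0 d) := by
  have hu : (Γ.u : ℚ) ≠ 0 := by exact_mod_cast Γ.u_pos.ne'
  have h : ∀ y : Γ.K0, w (Γ.c0 y) * ep Γ (y⁻¹ * d) =
      (w (Γ.c0 y) - 5 * (w (Γ.c0 y) * w (Γ.c0 (y⁻¹ * d)))) / (25 * Γ.u) := fun y => by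
    rw [ep]; ring
  simp only [h, ← sum_div, sum_sub_distrib, ← mul_sum]
  rw [conv, sum_w]
  field_simp
  ring

theorem ep_ep (Γ : Gad) (d : Γ.K0) : ∑ y : Γ.K0, ep Γ y * ep Γ (y⁻¹ * d) = ep Γ d := by
  have hu : (Γ.u : ℚ) ≠ 0 := by exact_mod_cast Γ.u_pos.ne'
  have h : ∀ y : Γ.K0, ep Γ y * ep Γ (y⁻¹ * d) =
      ((1 - 5 * w (Γ.c0 (y⁻¹ * d))) / (25 * Γ.u) - 5 * (w (Γ.c0 y) * ep Γ (y⁻¹ * d))) /
        (25 * Γ.u) := fun y => by
    rw [ep, ep]; ring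
  simp only [h, ← sum_div, sum_sub_distrib, ← mul_sum]
  rw [w_ep, sum_w', sum_one, ep]
  field_simp
  ring

theorem coeff_mul' {G : Type} [Group G] [Fintype G] (x y : MonoidAlgebra ℚ G) (g : G) :
    (x * y).coeff g = ∑ h, x.coeff h * y.coeff (h⁻¹ * g) := by
  rw [MonoidAlgebra.coeff_mul_apply_left, Finsupp.sum_fintype _ _ (fun _ => zero_mul _)]

theorem prod_w (Γ : Gad) {B : ℕ} (g : Γ.K B) :
    ∏ b, w (Γ.c0 (g b)) = if ∀ b, Γ.c0 (g b) ≠ 2 then (-2) ^ Γ.cl g else 0 := by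
  split_ifs with h
  · rw [Gad.cl, ← prod_const, prod_filter]
    refine prod_congr rfl fun b _ => ?_
    have h2 := h b
    revert h2
    generalize Γ.c0 (g b) = c
    fin_cases c <;> simp [w]
  · push Not at h
    obtain ⟨b, hb⟩ := h
    exact prod_eq_zero (mem_univ b) (by rw [hb]; rfl)

theorem phi_coeff (Γ : Gad) {B : ℕ} (g : Γ.K B) :
    (Γ.phi B).coeff g = ∏ b, w (Γ.c0 (g b)) := by
  rw [prod_w, Gad.phi, MonoidAlgebra.coeff_sum, Finsupp.finsetSum_apply]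
  simp only [MonoidAlgebra.coeff_single, Finsupp.single_apply]
  split_ifs with h
  · rw [sum_eq_single ⟨g, h⟩ (fun y _ hy => if_neg fun e => hy (Subtype.ext e)) (by simp),
      if_pos rfl]
  · exact sum_eq_zero fun y _ => if_neg fun e : y.1 = g => h (e ▸ y.2)

theorem sum_prod (Γ : Gad) {B : ℕ} (F : Fin B → Γ.K0 → ℚ) :
    ∑ g : Γ.K B, ∏ b, F b (g b) = ∏ b, ∑ y, F b y := by
  rw [prod_univ_sum, Fintype.piFinset_univ]

end G1x

open G1x in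
theorem phi_idem (Γ : Gad) (B : ℕ) : ∃ e : MonoidAlgebra ℚ (Γ.K B), e * e = e ∧
    Γ.phi B * e = Γ.phi B ∧ (∀ g, e.coeff g⁻¹ = e.coeff g) ∧
    e.coeff 1 = (11 / (25 * (Γ.u : ℚ))) ^ B := by
  obtain ⟨e, he⟩ : ∃ e : MonoidAlgebra ℚ (Γ.K B), ∀ g, e.coeff g = ∏ b, ep Γ (g b) :=
    ⟨.ofCoeff (Finsupp.equivFunOnFinite.symm fun g => ∏ b, ep Γ (g b)), fun g => rfl⟩
  refine ⟨e, ?_, ?_, fun g => ?_, ?_⟩
  · refine MonoidAlgebra.coeff_injective (Finsupp.ext fun d => ?_)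
    simp only [coeff_mul', he, ← prod_mul_distrib, Pi.mul_apply, Pi.inv_apply]
    rw [sum_prod Γ fun b y => ep Γ y * ep Γ (y⁻¹ * d b)]
    simp only [ep_ep]
  · refine MonoidAlgebra.coeff_injective (Finsupp.ext fun d => ?_)
    simp only [coeff_mul', he, phi_coeff, ← prod_mul_distrib, Pi.mul_apply, Pi.inv_apply]
    rw [sum_prod Γ fun b y => w (Γ.c0 y) * ep Γ (y⁻¹ * d b)]
    simp only [w_ep]
  · simp only [he, Pi.inv_apply, ep, Γ.c0_inv]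
  · simp only [he, Pi.one_apply, ep, Γ.c0_one, prod_const, card_univ, Fintype.card_fin]
    congr 2
    simp [w]
    norm_num

open G1x in
theorem phi_aug (Γ : Gad) (B : ℕ) :
    ∑ y : Γ.S B, ((-2 : ℚ)) ^ Γ.cl y.1 = (5 * (Γ.u : ℚ)) ^ B := by
  have h := sum_prod Γ (B := B) fun _ y => w (Γ.c0 y)
  simp only [sum_w, prod_const, card_univ, Fintype.card_fin, prod_w] at h
  rw [← h, ← sum_filter]
  exact (sum_subtype _ (by simp) fun g : Γ.K B => ((-2 : ℚ)) ^ Γ.cl g).symm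


end Pool.Agent.MP_c6eade_gt.H41
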