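import Pool.Agent.MP_c6eade_gt.H41.BasicG

namespace Pool.Agent.MP_c6eade_gt.H41

namespace G2x

open TM Filter Topology Matrix

universe u v

variable {Γ : Type u} [Group Γ]

/-- The `1 × 1` matrix with entry `x`. -/
def one1 {R : Type*} (x : R) : Matrix (Fin 1) (Fin 1) R := Matrix.of fun _ _ => x

/-- The von Neumann dimension of the kernel of right multiplication by `x` on `L²(Γ)`. -/
noncomputable def nul1 (x : MonoidAlgebra ℂ Γ) : ℝ := vnDim (kerRight (one1 x))

/-- The rank of `x`. -/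
noncomputable def rk1 (x : MonoidAlgebra ℂ Γ) : ℝ := 1 - nul1 x

/-- The `ℓ¹` norm. -/
noncomputable def l1c (x : MonoidAlgebra ℂ Γ) : ℝ := ∑ g ∈ x.coeff.support, ‖x.coeff g‖

/-- The operator of right multiplication (an anti-homomorphism). -/
noncomputable def l2op (x : MonoidAlgebra ℂ Γ) : (reg Γ).N :=
  ev ((rho Γ).comp (MonoidHom.id Γ)) (MonoidAlgebra.mapDomain (fun g : Γ => g⁻¹) x)

theorem l2op_single (g : Γ) (c : ℂ) :
    l2op (MonoidAlgebra.single g c) = c • (rho Γ g⁻¹ : (reg Γ).N) := by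
  rw [l2op, MonoidAlgebra.mapDomain_single, ev_single]; rfl

theorem l2op_add (x y : MonoidAlgebra ℂ Γ) : l2op (x + y) = l2op x + l2op y := by
  rw [l2op, MonoidAlgebra.mapDomain_add, map_add]; rfl

theorem l2op_zero : l2op (0 : MonoidAlgebra ℂ Γ) = 0 := by
  rw [l2op, MonoidAlgebra.mapDomain_zero, map_zero]

theorem l2op_mul (x y : MonoidAlgebra ℂ Γ) : l2op (x * y) = l2op y * l2op x := by
  induction x using MonoidAlgebra.induction_linear with
  | zero => rw [zero_mul, l2op_zero, mul_zero]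
  | add x x' hx hx' => rw [add_mul, l2op_add, l2op_add, hx, hx', mul_add]
  | single g a =>
    induction y using MonoidAlgebra.induction_linear with
    | zero => rw [mul_zero, l2op_zero, zero_mul]
    | add y y' hy hy' => rw [mul_add, l2op_add, l2op_add, hy, hy', add_mul]
    | single h b =>
      rw [MonoidAlgebra.single_mul_single, l2op_single, l2op_single, l2op_single, _root_.mul_inv_rev,
        map_mul, smul_mul_smul_comm, mul_comm a b]
      rfl

theorem l2op_one : l2op (1 : MonoidAlgebra ℂ Γ) = 1 := by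
  rw [MonoidAlgebra.one_def, l2op_single, inv_one, map_one, one_smul]; rfl

theorem l2op_eq_sum (x : MonoidAlgebra ℂ Γ) :
    l2op x = ∑ g ∈ x.coeff.support, x.coeff g • (rho Γ g⁻¹ : (reg Γ).N) := by
  conv_lhs => rw [l2op, ← MonoidAlgebra.sum_coeff_single x, MonoidAlgebra.mapDomain_sum]
  simp only [Finsupp.sum, map_sum, MonoidAlgebra.mapDomain_single, ev_single]
  rfl

theorem norm_l2op_le (x : MonoidAlgebra ℂ Γ) : ‖l2op x‖ ≤ l1c x := by
  rw [l2op_eq_sum]
  refine (norm_sum_le _ _).trans (Finset.sum_le_sum fun g _ => ?_)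
  rw [norm_smul]
  exact mul_le_of_le_one_right (norm_nonneg _) (norm_model_le _)

theorem tau_l2op (x : MonoidAlgebra ℂ Γ) : (reg Γ).τ (l2op x) = x.coeff 1 := by
  classical
  induction x using MonoidAlgebra.induction_linear with
  | zero => rw [l2op_zero, map_zero]; rfl
  | add x y hx hy => rw [l2op_add, map_add, hx, hy]; rfl
  | single g a =>
    have := chr_rho_comp (MonoidHom.id Γ) g⁻¹
    rw [l2op_single, map_smul]
    change a • chr ((rho Γ).comp (MonoidHom.id Γ)) g⁻¹ = _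
    rw [this]
    simp [Finsupp.single_apply]

theorem nul1_eq (x : MonoidAlgebra ℂ Γ) : nul1 x = nul (one1 (l2op x)) := by
  rw [nul1, vnDim_kerRight]; rfl

theorem rk1_eq (x : MonoidAlgebra ℂ Γ) : rk1 x = rk (one1 (l2op x)) := by
  rw [rk1, nul1_eq, rk]; simp

theorem one1_mul {R : Type*} [Ring R] (x y : R) : one1 (x * y) = one1 x * one1 y := by
  ext i j; simp [one1, Matrix.mul_apply]

theorem one1_add {R : Type*} [Ring R] (x y : R) : one1 (x + y) = one1 x + one1 y := rfl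

theorem one1_one {R : Type*} [Ring R] : one1 (1 : R) = 1 := by
  ext i j; simp [one1, Matrix.one_apply, Subsingleton.elim i j]

theorem rk1_add_le (x y : MonoidAlgebra ℂ Γ) : rk1 (x + y) ≤ rk1 x + rk1 y := by
  rw [rk1_eq, rk1_eq, rk1_eq, l2op_add, one1_add]; exact rk_add_le _ _

theorem rk1_mul_le_right (a x : MonoidAlgebra ℂ Γ) : rk1 (a * x) ≤ rk1 x := by
  rw [rk1_eq, rk1_eq, l2op_mul, one1_mul]; exact rk_mul_le_left _ _

theorem rk1_mul_le_left (x a : MonoidAlgebra ℂ Γ) : rk1 (x * a) ≤ rk1 x := by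
  rw [rk1_eq, rk1_eq, l2op_mul, one1_mul]; exact rk_mul_le_right _ _

/-- The rank of an idempotent is its trace. -/
theorem rk1_idem {e : MonoidAlgebra ℂ Γ} (he : e * e = e) : rk1 e = (e.coeff 1).re := by
  have h0 : one1 (l2op e) * one1 (l2op e) = one1 (l2op e) := by rw [← one1_mul, ← l2op_mul, he]
  have h1 : pk (one1 (l2op e)) * (1 - one1 (l2op e)) = 1 - one1 (l2op e) :=
    pk_mul_of _ (by rw [Matrix.mul_sub, Matrix.mul_one, h0, sub_self])
  have h2 : ttr (1 - one1 (l2op e)) = ttr (pk (one1 (l2op e))) := by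
    rw [← h1, ttr_comm, Matrix.sub_mul, Matrix.one_mul, mul_pk, sub_zero]
  have h3 : ttr (one1 (l2op e)) = e.coeff 1 := by
    rw [ttr_eq, Fin.sum_univ_one]; exact tau_l2op e
  rw [rk1, nul1_eq, nul, ← h2, ttr_sub, ttr_one, h3]
  simp

theorem rk1_zero : rk1 (0 : MonoidAlgebra ℂ Γ) = 0 := by
  rw [rk1_idem (mul_zero _)]; rfl

theorem rk1_one : rk1 (1 : MonoidAlgebra ℂ Γ) = 1 := by
  rw [rk1_idem (mul_one _), MonoidAlgebra.one_def]; simp

theorem one_le_rk1_single (g : Γ) {c : ℂ} (hc : c ≠ 0) : 1 ≤ rk1 (MonoidAlgebra.single g c) := by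
  have := rk1_mul_le_right (MonoidAlgebra.single g⁻¹ c⁻¹) (MonoidAlgebra.single g c)
  rwa [MonoidAlgebra.single_mul_single, inv_mul_cancel, inv_mul_cancel₀ hc,
    ← MonoidAlgebra.one_def, rk1_one] at this

/-- Lower bound for the nullity: `x` is an `ℓ¹` limit of elements of rank `≤ a`. -/
theorem le_nul1 {x : MonoidAlgebra ℂ Γ} {a : ℝ}
    (h : ∀ ε : ℝ, 0 < ε → ∃ z : MonoidAlgebra ℂ Γ, l1c z ≤ ε ∧ rk1 (x - z) ≤ a) :
    1 - a ≤ nul1 x := by
  obtain ⟨c, hc⟩ := exists_adm (one1 (l2op x))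
  rw [nul1_eq]
  refine ge_of_tendsto' (tendsto_nul hc) fun n => ?_
  choose z hz hz' using fun m : ℕ => h (1 / ((m : ℝ) + 1)) (by positivity)
  have h1 : Tendsto (fun m => l2op (x - z m)) atTop (𝓝 (l2op x)) := by
    refine tendsto_iff_norm_sub_tendsto_zero.2 (squeeze_zero (fun _ => norm_nonneg _)
      (fun m => ?_) tendsto_one_div_add_atTop_nhds_zero_nat)
    have : l2op x = l2op (x - z m) + l2op (z m) := by rw [← l2op_add, sub_add_cancel]
    rw [this, sub_add_cancel_left, norm_neg]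
    exact (norm_l2op_le _).trans (hz m)
  have h2 : Continuous fun T : (reg Γ).N => (ttr (ctr c (one1 T) ^ (2 * n))).re := by
    have h3 : Continuous fun T : (reg Γ).N => one1 T :=
      continuous_matrix fun _ _ => continuous_id
    refine Complex.continuous_re.comp ((reg Γ).τ.continuous.comp (Continuous.matrix_trace ?_))
    exact (continuous_const.sub ((h3.matrix_conjTranspose.matrix_mul h3).const_smul (c : ℂ))).pow _
  refine ge_of_tendsto' ((h2.tendsto _).comp h1) fun m => ?_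
  have h4 := nul_le_mom (c := c) (C := one1 (l2op (x - z m))) n
  have h5 := hz' m
  rw [rk1, nul1_eq] at h5
  exact le_trans (by linarith) h4

theorem rk1_le_one (x : MonoidAlgebra ℂ Γ) : rk1 x ≤ 1 := by
  have := rk1_mul_le_left 1 x
  rwa [one_mul, rk1_one] at this

/-- Extension of scalars. -/
noncomputable abbrev cx (G : Type) [Group G] : MonoidAlgebra ℚ G →+* MonoidAlgebra ℂ G :=
  MonoidAlgebra.mapRingHom G (algebraMap ℚ ℂ)

theorem rkq_eq {G : Type} [Group G] (x : MonoidAlgebra ℚ G) : rkq x = rk1 (cx G x) := rfl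

theorem cx_coeff {G : Type} [Group G] (x : MonoidAlgebra ℚ G) (g : G) :
    (cx G x).coeff g = (x.coeff g : ℂ) := by
  simp [cx]

theorem l1c_cx {G : Type} [Group G] (x : MonoidAlgebra ℚ G) : l1c (cx G x) ≤ l1 x := by
  have h : (cx G x).coeff.support ⊆ x.coeff.support := fun g hg => by
    rw [Finsupp.mem_support_iff] at hg ⊢
    intro h0
    exact hg (by rw [cx_coeff, h0, Rat.cast_zero])
  refine (Finset.sum_le_sum_of_subset_of_nonneg h fun _ _ _ => norm_nonneg _).trans
    (Finset.sum_le_sum fun g _ => le_of_eq ?_)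
  rw [cx_coeff, ← Complex.ofReal_ratCast, Complex.norm_real, Real.norm_eq_abs]

end G2x

open Equiv Finset
open scoped Classical

section G2
variable {G : Type} [Group G]
theorem rkq_add_le (x y : MonoidAlgebra ℚ G) : rkq (x + y) ≤ rkq x + rkq y := by
  simp only [G2x.rkq_eq, map_add]; exact G2x.rk1_add_le _ _

theorem rkq_mul_le_left (x y : MonoidAlgebra ℚ G) : rkq (x * y) ≤ rkq x := by
  simp only [G2x.rkq_eq, map_mul]; exact G2x.rk1_mul_le_left _ _

theorem rkq_mul_le_right (x y : MonoidAlgebra ℚ G) : rkq (x * y) ≤ rkq y := by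
  simp only [G2x.rkq_eq, map_mul]; exact G2x.rk1_mul_le_right _ _

theorem rkq_zero : rkq (0 : MonoidAlgebra ℚ G) ≤ 0 := by
  rw [G2x.rkq_eq, map_zero]; exact G2x.rk1_zero.le

theorem rkq_single (g : G) {c : ℚ} (hc : c ≠ 0) : rkq (MonoidAlgebra.single g c) = 1 := by
  refine le_antisymm (G2x.rk1_le_one _) ?_
  rw [G2x.rkq_eq, MonoidAlgebra.mapRingHom_single]
  exact G2x.one_le_rk1_single g (by simpa using hc)

theorem rkq_idem {K : Type} [Group K] {φ : K →* G} (hφ : Function.Injective φ)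
    {e : MonoidAlgebra ℚ K} (h1 : e * e = e) (h2 : ∀ g, e.coeff g⁻¹ = e.coeff g) :
    rkq (MonoidAlgebra.mapDomain φ e) ≤ (e.coeff 1 : ℝ) := by
  have h3 : MonoidAlgebra.mapDomain φ e * MonoidAlgebra.mapDomain φ e =
      MonoidAlgebra.mapDomain φ e := by rw [← MonoidAlgebra.mapDomain_mul, h1]
  have h4 : (MonoidAlgebra.mapDomain φ e).coeff 1 = e.coeff 1 := by
    have := Finsupp.mapDomain_apply hφ e.coeff 1
    rwa [map_one] at this
  rw [G2x.rkq_eq, G2x.rk1_idem (by rw [← map_mul, h3]), G2x.cx_coeff, h4, Complex.ratCast_re]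

theorem rkq_lsc {x : MonoidAlgebra ℚ G} {c : ℝ}
    (h : ∀ δ : ℝ, 0 < δ → ∃ y, rkq y ≤ c ∧ l1 (x - y) ≤ δ) : rkq x ≤ c := by
  have := G2x.le_nul1 (x := G2x.cx G x) (a := c) fun ε hε => by
    obtain ⟨y, h1, h2⟩ := h ε hε
    refine ⟨G2x.cx G (x - y), (G2x.l1c_cx _).trans h2, ?_⟩
    rw [← map_sub, sub_sub_cancel]
    exact h1
  rw [G2x.rkq_eq, G2x.rk1]
  linarith

end G2


end Pool.Agent.MP_c6eade_gt.H41
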