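import Pool.Agent.MP_c6eade_gt.H41.F2b
import Pool.Agent.MP_c6eade_gt.H41.BasicG

namespace Pool.Agent.MP_c6eade_gt.H41

open Equiv Finset
open scoped Classical

namespace G3ax

theorem lv_le (P : Par) {B : ℕ} (r : P.R0 B) : P.lv0 r ≤ P.J B := by
  rcases r with x | x
  · exact Nat.lt_succ_iff.1 x.2.2.1.2
  · exact le_rfl

theorem dI_le (P : Par) (Γ : Gad) {B : ℕ} (p : P.I Γ B) : P.dI Γ p ≤ B + 1 := by
  rcases p with x | y
  · exact (Nat.sub_le _ _).trans (cl_le Γ (B + 1) _)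
  · exact (cl_le Γ B _).trans (Nat.le_succ _)

theorem sgn_ne {a b : Bool} (h : a ≠ b) : sgn a = - sgn b := by
  cases a <;> cases b <;> simp_all [sgn]

theorem abs_sgn (a : Bool) : |sgn a| = 1 := by
  cases a <;> simp [sgn]

theorem cancel {E H : Type} [Fintype E] [Group H] {σ : E → E} (hσ : ∀ e, σ (σ e) = e)
    (pt : E → H) (w : E → ℚ) (t : E → ℤ) (h0 : ∀ e, σ e = e ↔ t e < 0)
    (h1 : ∀ e, σ e ≠ e → pt e = pt (σ e)) (h2 : ∀ e, σ e ≠ e → w (σ e) = - w e) :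
    ∑ e, MonoidAlgebra.single (pt e) (w e) =
      ∑ e, if t e < 0 then (MonoidAlgebra.single (pt e) (w e) : MonoidAlgebra ℚ H) else 0 := by
  rw [← Finset.sum_filter, ← Finset.filter_congr (fun e _ => h0 e),
    ← Finset.sum_filter_add_sum_filter_not univ (fun e => σ e = e), add_eq_left]
  refine Finset.sum_involution (fun e _ => σ e) (fun e he => ?_) (fun e he _ => ?_)
    (fun e he => ?_) (fun e _ => hσ e)
  · have he' := (mem_filter.1 he).2
    rw [← h1 e he', h2 e he', ← MonoidAlgebra.single_add, add_neg_cancel,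
      MonoidAlgebra.single_zero]
  · exact (mem_filter.1 he).2
  · refine mem_filter.2 ⟨mem_univ _, fun h => (mem_filter.1 he).2 ?_⟩
    rw [hσ] at h
    exact h.symm

theorem mapD_sum {G H ι : Type} [Group G] [Group H] (φ : G →* H) (s : Finset ι)
    (x : ι → MonoidAlgebra ℚ G) :
    MonoidAlgebra.mapDomain φ (∑ i ∈ s, x i) = ∑ i ∈ s, MonoidAlgebra.mapDomain φ (x i) :=
  map_sum (MonoidAlgebra.mapDomainRingHom ℚ φ) x s

theorem l1_eq {G : Type} [Group G] (x : MonoidAlgebra ℚ G) {s : Finset G}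
    (hs : x.coeff.support ⊆ s) : l1 x = ∑ g ∈ s, |(x.coeff g : ℝ)| := by
  refine Finset.sum_subset hs fun g _ hg => ?_
  rw [Finsupp.notMem_support_iff.1 hg]
  simp

theorem l1_add {G : Type} [Group G] (x y : MonoidAlgebra ℚ G) : l1 (x + y) ≤ l1 x + l1 y := by
  rw [l1_eq x (s := x.coeff.support ∪ y.coeff.support) subset_union_left,
    l1_eq y (s := x.coeff.support ∪ y.coeff.support) subset_union_right,
    l1_eq (x + y) (s := x.coeff.support ∪ y.coeff.support) (by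
      rw [MonoidAlgebra.coeff_add]
      exact Finsupp.support_add), ← Finset.sum_add_distrib]
  refine Finset.sum_le_sum fun g _ => ?_
  rw [MonoidAlgebra.coeff_add, Finsupp.add_apply, Rat.cast_add]
  exact abs_add_le _ _

theorem l1_single {G : Type} [Group G] (g : G) (c : ℚ) :
    l1 (MonoidAlgebra.single g c) ≤ |(c : ℝ)| := by
  rw [l1_eq _ (s := {g}) (by
    rw [MonoidAlgebra.coeff_single]
    exact Finsupp.support_single_subset)]
  simp

theorem l1_sum {G ι : Type} [Group G] (s : Finset ι) (x : ι → MonoidAlgebra ℚ G) :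
    l1 (∑ i ∈ s, x i) ≤ ∑ i ∈ s, l1 (x i) :=
  Finset.le_sum_of_subadditive l1 (by simp [l1]) l1_add s x

/-- the change of side -/
def flip (P : Par) {B : ℕ} : P.R0 B → P.R0 B
  | .inl x => .inl (!x.1, x.2)
  | .inr u => .inr u

end G3ax

open G3ax

theorem stage_id (P : Par) (Γ : Gad) (B : ℕ) (hJ : B + 1 ≤ P.J B)
    {σ : (P.stg Γ B).E → (P.stg Γ B).E} (hσ : (P.stg Γ B).Adm σ) {H : Type} [Group H]
    (ξ : P.I Γ B → H) (ιk : Bool × Fin (P.N B + 1) → (Γ.K B →* H)) (gr : Option (P.R0 B) → H)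
    (h : ∀ e, σ e ≠ e → P.pt Γ ξ (MonoidHom.id H) ιk gr e = P.pt Γ ξ (MonoidHom.id H) ιk gr (σ e)) :
    ∃ β : Bool × Fin (P.N B + 1) → MonoidAlgebra ℚ H,
      ((-2 : ℚ) ^ P.J B) • P.Xb Γ (fun x => gr (some x.1.1) * ιk (P.kd0 x.1.1) x.1.2.1) =
        MonoidAlgebra.single (gr none) 1 * (P.Xb Γ (fun x => ξ (.inl x)) +
          ∑ y : Γ.S B, MonoidAlgebra.single (ξ (.inr y)) ((-2 : ℚ) ^ Γ.cl y.1)) +
        ∑ a, β a * MonoidAlgebra.mapDomain (ιk a) (Γ.phi B) := by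
  have key := cancel (E := (P.R0 B × Γ.S B) ⊕ P.I Γ B) (σ := σ) hσ.1.1
    (P.pt Γ ξ (MonoidHom.id H) ιk gr)
    (fun e => sgn ((P.stg Γ B).sd e) * (-2) ^ ((P.J B : ℤ) - (P.stg Γ B).ht e).toNat)
    (P.stg Γ B).ht (fun e => ⟨fun he => not_le.1 fun h0 => hσ.2 e h0 he, fun he =>
      by_contra fun h0 => not_le.2 he (hσ.1.2.2 e h0).1⟩) h
    (fun e he => by rw [hσ.1.2.1 e, sgn_ne (hσ.1.2.2 e he).2, neg_mul])
  refine ⟨fun a => ∑ r : P.R0 B with P.kd0 r = a, MonoidAlgebra.single (gr (some r))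
    (sgn (P.kd0 r).1 * (-2) ^ (P.J B - P.lv0 r)), ?_⟩
  have e1 : ∑ a, (∑ r : P.R0 B with P.kd0 r = a, MonoidAlgebra.single (gr (some r))
      (sgn (P.kd0 r).1 * (-2) ^ (P.J B - P.lv0 r))) * MonoidAlgebra.mapDomain (ιk a) (Γ.phi B) =
      ∑ x : P.R0 B × Γ.S B, (MonoidAlgebra.single (gr (some x.1) * ιk (P.kd0 x.1) x.2.1)
        (sgn (P.kd0 x.1).1 * (-2) ^ ((P.J B : ℤ) - ((P.lv0 x.1 : ℤ) - Γ.cl x.2.1)).toNat) :
          MonoidAlgebra ℚ H) := by
    rw [Fintype.sum_prod_type (α₁ := P.R0 B), ← Finset.sum_fiberwise univ P.kd0]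
    refine Finset.sum_congr rfl fun a _ => ?_
    rw [Finset.sum_mul]
    refine Finset.sum_congr rfl fun r hr => ?_
    rw [← (mem_filter.1 hr).2, Gad.phi, mapD_sum, Finset.mul_sum]
    refine Finset.sum_congr rfl fun y _ => ?_
    have := lv_le P r
    rw [MonoidAlgebra.mapDomain_single, MonoidAlgebra.single_mul_single, mul_assoc, ← pow_add,
      show ((P.J B : ℤ) - ((P.lv0 r : ℤ) - Γ.cl y.1)).toNat = P.J B - P.lv0 r + Γ.cl y.1 by omega]
  have e2 : MonoidAlgebra.single (gr none) 1 * (P.Xb Γ (fun x => ξ (.inl x)) +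
      ∑ y : Γ.S B, MonoidAlgebra.single (ξ (.inr y)) ((-2 : ℚ) ^ Γ.cl y.1)) =
      ∑ p : P.I Γ B, (MonoidAlgebra.single (gr none * ξ p)
        (sgn (P.sdI Γ p) * (-2) ^ ((P.J B : ℤ) - ((P.J B : ℤ) - P.dI Γ p)).toNat) :
          MonoidAlgebra ℚ H) := by
    rw [Fintype.sum_sum_type, mul_add, Par.Xb, Finset.mul_sum, Finset.mul_sum]
    simp only [MonoidAlgebra.single_mul_single, one_mul, sub_sub_cancel, Int.toNat_natCast]
    simp [Par.sdI, Par.dI, sgn]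
  rw [e1, e2, add_comm]
  refine Eq.trans ?_ (key.symm.trans (Fintype.sum_sum_type _))
  rw [Fintype.sum_sum_type,
    Finset.sum_eq_zero (s := (univ : Finset (P.I Γ B))) (fun p _ => if_neg (by
      have h2 := dI_le P Γ p
      change ¬ (P.J B : ℤ) - P.dI Γ p < 0
      omega)), add_zero, ← Finset.sum_filter, Par.Xb, Finset.smul_sum]
  symm
  rw [Finset.sum_subtype (p := fun x : P.R0 B × Γ.S B => P.lv0 x.1 < Γ.cl x.2.1) _ (fun x => by
    rw [mem_filter]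
    change _ ∧ (P.lv0 x.1 : ℤ) - Γ.cl x.2.1 < 0 ↔ _
    simp)]
  refine Finset.sum_congr rfl fun x _ => ?_
  have h2 := x.2
  change MonoidAlgebra.single (gr (some x.1.1) * ιk (P.kd0 x.1.1) x.1.2.1)
    (sgn (P.kd0 x.1.1).1 * (-2) ^ ((P.J B : ℤ) - ((P.lv0 x.1.1 : ℤ) - Γ.cl x.1.2.1)).toNat) = _
  rw [MonoidAlgebra.smul_single, smul_eq_mul, mul_left_comm, ← pow_add,
    show ((P.J B : ℤ) - ((P.lv0 x.1.1 : ℤ) - Γ.cl x.1.2.1)).toNat =
      P.J B + (Γ.cl x.1.2.1 - P.lv0 x.1.1) by omega]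

theorem Xb_const (P : Par) (Γ : Gad) (B : ℕ) (hJ : B ≤ P.J B) {H : Type} [Group H] (c : H) :
    P.Xb Γ (fun _ : P.Bot Γ B => c) = 0 := by
  have h1 : ∀ r : P.R0 B, P.lv0 (G3ax.flip P r) = P.lv0 r := by rintro (_ | _) <;> rfl
  have h2 : ∀ x : P.Bot Γ B, (P.kd0 (G3ax.flip P x.1.1)).1 ≠ (P.kd0 x.1.1).1 := by
    rintro ⟨⟨r | r, y⟩, hx⟩
    · simp [G3ax.flip, Par.kd0]
    · have := cl_le Γ B y.1
      change P.J B < Γ.cl y.1 at hx
      omega
  refine Finset.sum_involution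
    (fun x _ => ⟨(G3ax.flip P x.1.1, x.1.2), by rw [h1]; exact x.2⟩) (fun x _ => ?_)
    (fun x _ _ hx => h2 x ?_) (fun _ _ => mem_univ _) (fun x _ => ?_)
  · dsimp only
    rw [← MonoidAlgebra.single_add, h1, sgn_ne (h2 x), neg_mul, add_neg_cancel,
      MonoidAlgebra.single_zero]
  · exact congrArg (fun z : P.Bot Γ B => (P.kd0 z.1.1).1) hx
  · rcases x with ⟨⟨r | r, y⟩, hx⟩ <;> simp [G3ax.flip]

theorem l1_Xb (P : Par) (Γ : Gad) (B : ℕ) {H : Type} [Group H] (η : P.Bot Γ B → H) (g : H)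
    (c : ℚ) : l1 (MonoidAlgebra.single g c * P.Xb Γ η) ≤
      |(c : ℝ)| * (Fintype.card (P.Bot Γ B) * 2 ^ B) := by
  rw [Par.Xb, Finset.mul_sum]
  refine (l1_sum _ _).trans ((Finset.sum_le_card_nsmul _ _ (|(c : ℝ)| * 2 ^ B)
    fun x _ => ?_).trans (le_of_eq ?_))
  · rw [MonoidAlgebra.single_mul_single]
    refine (l1_single _ _).trans ?_
    rw [Rat.cast_mul, abs_mul, ← Rat.cast_abs (_ * _), abs_mul, abs_sgn, one_mul, abs_pow]
    refine mul_le_mul_of_nonneg_left ?_ (abs_nonneg _)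
    have := cl_le Γ B x.1.2.1
    push_cast
    rw [abs_neg, abs_two]
    exact pow_le_pow_right₀ one_le_two (by omega)
  · rw [Finset.card_univ, nsmul_eq_mul]
    ring

end Pool.Agent.MP_c6eade_gt.H41
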