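import Pool.Agent.MP_c6eade_gt.H41.G1
import Pool.Agent.MP_c6eade_gt.H41.G2
import Pool.Agent.MP_c6eade_gt.H41.G3a

namespace Pool.Agent.MP_c6eade_gt.H41

open Equiv Finset
open scoped Classical

namespace G3bx

open MonoidAlgebra

/-- Images of the generators of stage `B` in a group. -/
structure Gen (P : Par) (Γ : Gad) (B : ℕ) (H : Type) [Group H] where
  ιk : Bool × Fin (P.N B + 1) → (Γ.K B →* H)
  ιx : Γ.K B →* H
  gr : Option (P.R0 B) → H

section basic
variable {P : Par} {Γ : Gad} {B : ℕ} {H H' : Type} [Group H] [Group H']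

def Gen.map (A : Gen P Γ B H) (f : H →* H') : Gen P Γ B H' :=
  ⟨fun a => f.comp (A.ιk a), f.comp A.ιx, fun r => f (A.gr r)⟩

def Gen.eta (A : Gen P Γ B H) : P.Bot Γ B → H :=
  fun x => A.gr (some x.1.1) * A.ιk (P.kd0 x.1.1) x.1.2.1

def xi (A : Gen P Γ B H) (A' : Gen P Γ (B + 1) H) : P.I Γ B → H :=
  Sum.elim A'.eta fun y => A.ιx y.1

def ptg (A : Gen P Γ B H) (A' : Gen P Γ (B + 1) H) : (P.stg Γ B).E → H :=
  P.pt Γ (xi A A') (MonoidHom.id H) A.ιk A.gr

def Rel (σ : (P.stg Γ B).E → (P.stg Γ B).E) (A : Gen P Γ B H) (A' : Gen P Γ (B + 1) H) : Prop :=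
  ∀ e, σ e ≠ e → ptg A A' e = ptg A A' (σ e)

theorem eta_map (A : Gen P Γ B H) (f : H →* H') (x : P.Bot Γ B) :
    (A.map f).eta x = f (A.eta x) := by
  simp [Gen.eta, Gen.map]

theorem ptg_map (A : Gen P Γ B H) (A' : Gen P Γ (B + 1) H) (f : H →* H') (e : (P.stg Γ B).E) :
    ptg (A.map f) (A'.map f) e = f (ptg A A' e) := by
  rcases e with e | e | e
  · simp [ptg, Par.pt, Gen.map]
  · simp only [ptg, Par.pt, xi, Sum.elim_inr, Sum.elim_inl, eta_map, MonoidHom.id_apply, map_mul]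
    rfl
  · simp [ptg, Par.pt, xi, Gen.map]

theorem Rel.map {σ : (P.stg Γ B).E → (P.stg Γ B).E} {A : Gen P Γ B H} {A' : Gen P Γ (B + 1) H}
    (h : Rel σ A A') (f : H →* H') : Rel σ (A.map f) (A'.map f) := fun e he => by
  rw [ptg_map, ptg_map, h e he]

/-- The bottom vector. -/
noncomputable def Gen.X (A : Gen P Γ B H) : MonoidAlgebra ℚ H := P.Xb Γ A.eta

theorem X_map (A : Gen P Γ B H) (f : H →* H') :
    MonoidAlgebra.mapDomain f A.X = (A.map f).X := by
  unfold Gen.X Par.Xb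
  rw [← mapDomainRingHom_apply (R := ℚ), map_sum]
  refine sum_congr rfl fun x _ => ?_
  rw [mapDomainRingHom_apply, mapDomain_single, eta_map]

theorem phi_map (ι : Γ.K B →* H) : MonoidAlgebra.mapDomain ι (Γ.phi B) =
    ∑ y : Γ.S B, single (ι y.1) ((-2 : ℚ) ^ Γ.cl y.1) := by
  unfold Gad.phi
  rw [← mapDomainRingHom_apply (R := ℚ), map_sum]
  refine sum_congr rfl fun x _ => ?_
  rw [mapDomainRingHom_apply, mapDomain_single]

theorem rkq_smul (c : ℚ) (x : MonoidAlgebra ℚ H) : rkq (c • x) ≤ rkq x := by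
  have : c • x = single 1 c * x := by
    rw [Algebra.smul_def]; rfl
  rw [this]
  exact rkq_mul_le_right _ _

theorem rkq_sum {ι : Type} (s : Finset ι) (x : ι → MonoidAlgebra ℚ H) (t : ℝ)
    (h : ∀ i ∈ s, rkq (x i) ≤ t) : rkq (∑ i ∈ s, x i) ≤ #s * t := by
  induction s using Finset.induction_on with
  | empty => simpa using rkq_zero
  | insert a s ha ih =>
    rw [sum_insert ha, card_insert_of_notMem ha]
    have h1 := rkq_add_le (x a) (∑ i ∈ s, x i)
    have h2 := h a (mem_insert_self _ _)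
    have h3 := ih fun i hi => h i (mem_insert_of_mem hi)
    push_cast
    linarith

/-- The rank bound of the gadget. -/
noncomputable def tau (Γ : Gad) (B : ℕ) : ℝ := (11 / (25 * (Γ.u : ℝ))) ^ B

theorem tau_nonneg : 0 ≤ tau Γ B := by unfold tau; positivity

theorem rkq_phi {ι : Γ.K B →* H} (hι : Function.Injective ι) :
    rkq (MonoidAlgebra.mapDomain ι (Γ.phi B)) ≤ tau Γ B := by
  obtain ⟨e, h1, h2, h3, h4⟩ := phi_idem Γ B
  have h5 := rkq_idem hι h1 h3
  rw [h4] at h5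
  have h6 : MonoidAlgebra.mapDomain ι (Γ.phi B) =
      MonoidAlgebra.mapDomain ι (Γ.phi B) * MonoidAlgebra.mapDomain ι e := by
    rw [← mapDomainRingHom_apply (R := ℚ), ← mapDomainRingHom_apply (R := ℚ), ← map_mul, h2]
  rw [h6]
  refine (rkq_mul_le_right _ _).trans (h5.trans (le_of_eq ?_))
  unfold tau
  push_cast
  rfl

theorem step {σ : (P.stg Γ B).E → (P.stg Γ B).E} (hJ : B + 1 ≤ P.J B)
    (hσ : (P.stg Γ B).Adm σ) {A : Gen P Γ B H} {A' : Gen P Γ (B + 1) H} (h : Rel σ A A')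
    (hk : ∀ a, Function.Injective (A.ιk a)) :
    rkq (((-2 : ℚ) ^ P.J B) • A.X - single (A.gr none) 1 *
      (A'.X + MonoidAlgebra.mapDomain A.ιx (Γ.phi B))) ≤ 2 * ((P.N B : ℝ) + 1) * tau Γ B := by
  obtain ⟨β, hβ⟩ := stage_id P Γ B hJ hσ (xi A A') A.ιk A.gr h
  have e : ((-2 : ℚ) ^ P.J B) • A.X - single (A.gr none) 1 *
      (A'.X + MonoidAlgebra.mapDomain A.ιx (Γ.phi B)) =
      ∑ a, β a * MonoidAlgebra.mapDomain (A.ιk a) (Γ.phi B) := by
    rw [phi_map, sub_eq_iff_eq_add']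
    exact hβ
  rw [e]
  refine (rkq_sum _ _ (tau Γ B) fun a _ =>
    (rkq_mul_le_right _ _).trans (rkq_phi (hk a))).trans (le_of_eq ?_)
  simp

end basic

section run
variable {P : Par} {Γ : Gad} {H : Type} [Group H]

/-- The product of the scales. -/
def cc (P : Par) (l n : ℕ) : ℚ := ∏ i ∈ range n, (-2 : ℚ) ^ P.J (l + i)

theorem cc_succ (l n : ℕ) : cc P l (n + 1) = (-2 : ℚ) ^ P.J (l + n) * cc P l n := by
  unfold cc; rw [prod_range_succ, mul_comm]

theorem cc_ge (l : ℕ) (h : ∀ B, l ≤ B → B + 1 ≤ P.J B) (n : ℕ) : (2 : ℝ) ^ n ≤ |(cc P l n : ℝ)| := by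
  induction n with
  | zero => simp [cc]
  | succ n ih =>
    rw [cc_succ]
    push_cast
    rw [abs_mul, abs_pow, abs_neg, abs_two, pow_succ']
    have h1 : (2 : ℝ) ^ 1 ≤ 2 ^ P.J (l + n) :=
      pow_le_pow_right₀ (by norm_num) (by have := h (l + n) (by omega); omega)
    rw [pow_one] at h1
    exact mul_le_mul h1 ih (by positivity) (by positivity)

theorem run {l : ℕ} {σ : ∀ B, (P.stg Γ B).E → (P.stg Γ B).E} (R : ∀ B, Gen P Γ B H)
    (hJ : ∀ B, l ≤ B → B + 1 ≤ P.J B) (hσ : ∀ B, l ≤ B → (P.stg Γ B).Adm (σ B))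
    (h : ∀ B, l ≤ B → Rel (σ B) (R B) (R (B + 1))) (n : ℕ)
    (hk : ∀ B, l ≤ B → B < l + n → ∀ a, Function.Injective ((R B).ιk a))
    (hx : ∀ B, l ≤ B → B < l + n → Function.Injective (R B).ιx) :
    ∃ g : H, rkq (cc P l n • (R l).X - single g 1 * (R (l + n)).X) ≤
      ∑ i ∈ range n, (2 * ((P.N (l + i) : ℝ) + 1) + 1) * tau Γ (l + i) := by
  induction n with
  | zero =>
    refine ⟨1, ?_⟩
    have : cc P l 0 • (R l).X - single 1 1 * (R (l + 0)).X = 0 := by
      rw [← MonoidAlgebra.one_def, one_mul]; simp [cc]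
    rw [this]
    simpa using rkq_zero
  | succ n ih =>
    obtain ⟨g, hg⟩ := ih (fun B h1 h2 => hk B h1 (by omega)) (fun B h1 h2 => hx B h1 (by omega))
    have h1 := step (hJ (l + n) (by omega)) (hσ (l + n) (by omega)) (h (l + n) (by omega))
      (hk (l + n) (by omega) (by omega))
    have h2 := rkq_phi (hx (l + n) (by omega) (by omega))
    refine ⟨g * (R (l + n)).gr none, ?_⟩
    have e : cc P l (n + 1) • (R l).X - single (g * (R (l + n)).gr none) 1 * (R (l + (n + 1))).X =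
        ((-2 : ℚ) ^ P.J (l + n)) • (cc P l n • (R l).X - single g 1 * (R (l + n)).X) +
        single g 1 * (((-2 : ℚ) ^ P.J (l + n)) • (R (l + n)).X - single ((R (l + n)).gr none) 1 *
          ((R (l + n + 1)).X + MonoidAlgebra.mapDomain (R (l + n)).ιx (Γ.phi (l + n)))) +
        single (g * (R (l + n)).gr none) 1 *
          MonoidAlgebra.mapDomain (R (l + n)).ιx (Γ.phi (l + n)) := by
      have e1 : (single (g * (R (l + n)).gr none) 1 : MonoidAlgebra ℚ H) =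
          single g 1 * single ((R (l + n)).gr none) 1 := by rw [single_mul_single, one_mul]
      rw [cc_succ, e1, mul_smul, smul_sub, mul_sub, mul_smul_comm]
      show _ - _ * (R (l + n + 1)).X = _
      noncomm_ring
    rw [e, sum_range_succ]
    refine (rkq_add_le _ _).trans ?_
    have h3 := rkq_add_le
      (((-2 : ℚ) ^ P.J (l + n)) • (cc P l n • (R l).X - single g 1 * (R (l + n)).X))
      (single g 1 * (((-2 : ℚ) ^ P.J (l + n)) • (R (l + n)).X - single ((R (l + n)).gr none) 1 *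
          ((R (l + n + 1)).X + MonoidAlgebra.mapDomain (R (l + n)).ιx (Γ.phi (l + n)))))
    have h4 := (rkq_smul ((-2 : ℚ) ^ P.J (l + n)) _).trans hg
    have h5 := (rkq_mul_le_right (single g 1) _).trans h1
    have h6 := (rkq_mul_le_right (single (g * (R (l + n)).gr none) 1) _).trans h2
    linarith

theorem top_le {l : ℕ} {σ : ∀ B, (P.stg Γ B).E → (P.stg Γ B).E} (R : ∀ B, Gen P Γ B H)
    (hJ : ∀ B, l ≤ B → B + 1 ≤ P.J B) (hσ : ∀ B, l ≤ B → (P.stg Γ B).Adm (σ B))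
    (h : ∀ B, l ≤ B → Rel (σ B) (R B) (R (B + 1))) (n : ℕ)
    (hk : ∀ B, l ≤ B → B ≤ l + n → ∀ a, Function.Injective ((R B).ιk a))
    (hx : ∀ B, l ≤ B → B < l + n → Function.Injective (R B).ιx)
    (h1 : ∀ x, (R (l + n + 1)).eta x = 1) (h2 : ∀ y, (R (l + n)).ιx y = 1) :
    nulq (R l).X ≤
      ∑ i ∈ range (n + 1), (2 * ((P.N (l + i) : ℝ) + 1) + 1) * tau Γ (l + i) := by
  obtain ⟨g, hg⟩ := run R hJ hσ h n (fun B a b => hk B a b.le) hx
  have h3 := step (hJ (l + n) (by omega)) (hσ (l + n) (by omega)) (h (l + n) (by omega))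
    (hk (l + n) (by omega) le_rfl)
  have e1 : (R (l + n + 1)).X = 0 := by
    unfold Gen.X
    rw [show (R (l + n + 1)).eta = fun _ => 1 from funext h1]
    exact Xb_const P Γ _ (by have := hJ (l + n + 1) (by omega); omega) 1
  have e2 : MonoidAlgebra.mapDomain (R (l + n)).ιx (Γ.phi (l + n)) =
      single 1 ((5 * (Γ.u : ℚ)) ^ (l + n)) := by
    rw [phi_map, ← phi_aug, ← singleAddHom_apply, map_sum]
    exact sum_congr rfl fun y _ => by rw [h2, singleAddHom_apply]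
  rw [e1, e2, zero_add, single_mul_single, mul_one, one_mul] at h3
  have hu : (5 * (Γ.u : ℚ)) ^ (l + n) ≠ 0 := by have := Γ.u_pos; positivity
  have h4 := rkq_single (g * (R (l + n)).gr none) hu
  have e3 : (single (g * (R (l + n)).gr none) ((5 * (Γ.u : ℚ)) ^ (l + n)) : MonoidAlgebra ℚ H) =
      cc P l (n + 1) • (R l).X +
      (-((-2 : ℚ) ^ P.J (l + n))) • (cc P l n • (R l).X - single g 1 * (R (l + n)).X) +
      (-1 : ℚ) • (single g 1 * (((-2 : ℚ) ^ P.J (l + n)) • (R (l + n)).X -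
        single ((R (l + n)).gr none) ((5 * (Γ.u : ℚ)) ^ (l + n)))) := by
    rw [cc_succ, mul_smul, neg_smul, neg_smul, one_smul, smul_sub, mul_sub, mul_smul_comm,
      single_mul_single, one_mul]
    abel
  rw [e3] at h4
  have h5 := rkq_add_le (cc P l (n + 1) • (R l).X +
      (-((-2 : ℚ) ^ P.J (l + n))) • (cc P l n • (R l).X - single g 1 * (R (l + n)).X))
      ((-1 : ℚ) • (single g 1 * (((-2 : ℚ) ^ P.J (l + n)) • (R (l + n)).X -
        single ((R (l + n)).gr none) ((5 * (Γ.u : ℚ)) ^ (l + n)))))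
  have h6 := rkq_add_le (cc P l (n + 1) • (R l).X)
      ((-((-2 : ℚ) ^ P.J (l + n))) • (cc P l n • (R l).X - single g 1 * (R (l + n)).X))
  have h7 := rkq_smul (cc P l (n + 1)) (R l).X
  have h8 := (rkq_smul (-((-2 : ℚ) ^ P.J (l + n))) _).trans hg
  have h9 := (rkq_smul (-1 : ℚ) _).trans ((rkq_mul_le_right (single g 1) _).trans h3)
  have h10 : rkq (R l).X = 1 - nulq (R l).X := rfl
  have h11 := tau_nonneg (Γ := Γ) (B := l + n)
  rw [sum_range_succ]
  linarith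

theorem all_le {l : ℕ} {σ : ∀ B, (P.stg Γ B).E → (P.stg Γ B).E} (R : ∀ B, Gen P Γ B H)
    (hJ : ∀ B, l ≤ B → B + 1 ≤ P.J B) (hσ : ∀ B, l ≤ B → (P.stg Γ B).Adm (σ B))
    (hb : ∀ B, l ≤ B → Fintype.card (P.Bot Γ (B + 1)) * 2 ^ (B + 1) ≤ 2 ^ P.J B)
    (h : ∀ B, l ≤ B → Rel (σ B) (R B) (R (B + 1)))
    (hk : ∀ B, l ≤ B → ∀ a, Function.Injective ((R B).ιk a))
    (hx : ∀ B, l ≤ B → Function.Injective (R B).ιx) {t : ℝ}
    (ht : ∀ n, ∑ i ∈ range n, (2 * ((P.N (l + i) : ℝ) + 1) + 1) * tau Γ (l + i) ≤ t) :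
    rkq (R l).X ≤ t := by
  refine rkq_lsc fun δ hδ => ?_
  obtain ⟨n, hn⟩ := pow_unbounded_of_one_lt δ⁻¹ (by norm_num : (1 : ℝ) < 2)
  obtain ⟨g, hg⟩ := run R hJ hσ h (n + 1) (fun B a _ => hk B a) (fun B a _ => hx B a)
  have h1 := cc_ge l hJ n
  have h2 := cc_ge l hJ (n + 1)
  have h3 : cc P l (n + 1) ≠ 0 := fun h0 => by
    rw [h0] at h2
    have : (0 : ℝ) < 2 ^ (n + 1) := by positivity
    simp at h2
    linarith
  refine ⟨(cc P l (n + 1))⁻¹ • (cc P l (n + 1) • (R l).X - single g 1 * (R (l + (n + 1))).X),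
    (rkq_smul _ _).trans (hg.trans (ht _)), ?_⟩
  have e : (R l).X - (cc P l (n + 1))⁻¹ •
      (cc P l (n + 1) • (R l).X - single g 1 * (R (l + (n + 1))).X) =
      single g (cc P l (n + 1))⁻¹ * (R (l + (n + 1))).X := by
    rw [smul_sub, smul_smul, inv_mul_cancel₀ h3, one_smul, sub_sub_cancel, ← smul_mul_assoc,
      smul_single, smul_eq_mul, mul_one]
  rw [e]
  refine (l1_Xb P Γ _ _ _ _).trans ?_
  have h4 : (Fintype.card (P.Bot Γ (l + (n + 1))) : ℝ) * 2 ^ (l + (n + 1)) ≤ 2 ^ P.J (l + n) := by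
    exact_mod_cast hb (l + n) (by omega)
  have h5 : |(cc P l (n + 1) : ℝ)| = 2 ^ P.J (l + n) * |(cc P l n : ℝ)| := by
    rw [cc_succ]
    push_cast
    rw [abs_mul, abs_pow, abs_neg, abs_two]
  have h6 : (0 : ℝ) < 2 ^ P.J (l + n) := by positivity
  have h7 : (0 : ℝ) < |(cc P l n : ℝ)| := lt_of_lt_of_le (by positivity) h1
  push_cast
  rw [abs_inv, h5]
  calc _ ≤ (2 ^ P.J (l + n) * |(cc P l n : ℝ)|)⁻¹ * 2 ^ P.J (l + n) := by gcongr
    _ = |(cc P l n : ℝ)|⁻¹ := by field_simp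
    _ ≤ δ := by
      rw [inv_le_comm₀ h7 hδ]
      linarith

end run

section tower
variable {P : Par} {Γ : Gad}

/-- The generators of the stages in `[l, T]` are realised, the later ones are trivial. -/
def Tw (σ : ∀ B, (P.stg Γ B).E → (P.stg Γ B).E) (l T : ℕ) {H : Type} [Group H]
    (R : ∀ B, Gen P Γ B H) : Prop :=
  (∀ B, l ≤ B → Rel (σ B) (R B) (R (B + 1))) ∧
  (∀ B, l ≤ B → B ≤ T → ∀ a, Function.Injective ((R B).ιk a)) ∧
  (∀ B, l ≤ B → B < T → Function.Injective (R B).ιx) ∧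
  (∀ B, T < B → ∀ x, (R B).eta x = 1) ∧ ∀ B, T ≤ B → ∀ y, (R B).ιx y = 1

/-- The embedding property of a matching. -/
def Emb {B : ℕ} (σ : (P.stg Γ B).E → (P.stg Γ B).E) : Prop :=
  ∀ (Λ : Type) [Group Λ] (ξ : P.I Γ B → Λ), ∃ (H : Type) (_ : Group H) (ιr : Λ →* H)
    (ιk : Bool × Fin (P.N B + 1) → (Γ.K B →* H)) (gr : Option (P.R0 B) → H),
    Function.Injective ιr ∧ (∀ a, Function.Injective (ιk a)) ∧
      ∀ e, σ e ≠ e → P.pt Γ ξ ιr ιk gr e = P.pt Γ ξ ιr ιk gr (σ e)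

theorem tower {σ : ∀ B, (P.stg Γ B).E → (P.stg Γ B).E} {l₀ : ℕ} (hE : ∀ B, l₀ ≤ B → Emb (σ B))
    (T d : ℕ) : ∀ l, l + d = T + 1 → l₀ ≤ l →
      ∃ (H : Type) (_ : Group H) (R : ∀ B, Gen P Γ B H), Tw σ l T R := by
  induction d with
  | zero =>
    intro l h1 _
    exact ⟨Unit, inferInstance, fun _ => ⟨fun _ => 1, 1, fun _ => 1⟩,
      fun _ _ _ _ => Subsingleton.elim _ _, fun B a b => by omega, fun B a b => by omega,
      fun _ _ _ => Subsingleton.elim _ _, fun _ _ _ => Subsingleton.elim _ _⟩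
  | succ d ih =>
    intro l h1 h2
    obtain ⟨H, _, R, r1, r2, r3, r4, r5⟩ := ih (l + 1) (by omega) (by omega)
    let θ : Γ.K l →* Γ.K l := if l < T then MonoidHom.id _ else 1
    obtain ⟨H', _, ιr, ιk, gr, i1, i2, i3⟩ := hE l h2 (H × Γ.K l)
      (Sum.elim (fun x => ((R (l + 1)).eta x, 1)) fun y => (1, θ y.1))
    let f : H →* H' := ιr.comp (MonoidHom.inl _ _)
    have hf : Function.Injective f := i1.comp fun a b hab => (Prod.ext_iff.1 hab).1
    let A : Gen P Γ l H' := ⟨ιk, ιr.comp ((MonoidHom.inr _ _).comp θ), gr⟩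
    refine ⟨H', inferInstance, Function.update (fun B => (R B).map f) l A, fun B hB => ?_,
      fun B hB hT a => ?_, fun B hB hT => ?_, fun B hB x => ?_, fun B hB y => ?_⟩
    · rw [Function.update_of_ne (by omega : B + 1 ≠ l)]
      rcases hB.eq_or_lt with rfl | hB
      · rw [Function.update_self]
        have e : ∀ e, ptg A ((R (l + 1)).map f) e = P.pt Γ
            (Sum.elim (fun x => ((R (l + 1)).eta x, 1)) fun y => (1, θ y.1)) ιr ιk gr e := by
          rintro (e | e | e)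
          · rfl
          · simp only [ptg, Par.pt, xi, Sum.elim_inr, Sum.elim_inl, eta_map, MonoidHom.id_apply]
            rfl
          · rfl
        intro x hx
        rw [e, e]
        exact i3 x hx
      · rw [Function.update_of_ne hB.ne']
        exact (r1 B hB).map f
    · rcases hB.eq_or_lt with rfl | hB
      · rw [Function.update_self]; exact i2 a
      · rw [Function.update_of_ne hB.ne']
        exact hf.comp (r2 B hB hT a)
    · rcases hB.eq_or_lt with rfl | hB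
      · rw [Function.update_self]
        refine i1.comp fun a b hab => ?_
        have := (Prod.ext_iff.1 hab).2
        simpa [θ, hT] using this
      · rw [Function.update_of_ne hB.ne']
        exact hf.comp (r3 B hB hT)
    · rw [Function.update_of_ne (by omega : B ≠ l), eta_map, r4 B hB, map_one]
    · by_cases hl : B = l
      · subst hl
        rw [Function.update_self]
        have : ¬ B < T := by omega
        simp [A, θ, this]
      · rw [Function.update_of_ne hl]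
        show f ((R B).ιx y) = 1
        rw [r5 B hB, map_one]

end tower

theorem geom (l n : ℕ) (hl : 3 * (99 / 100 : ℝ) ^ l * 100 ≤ 1 / 4) :
    ∑ i ∈ range n, 3 * (99 / 100 : ℝ) ^ (l + i) ≤ 1 / 4 := by
  have h : ∀ n, ∑ i ∈ range n, 3 * (99 / 100 : ℝ) ^ (l + i) =
      3 * (99 / 100 : ℝ) ^ l * 100 - 300 * (99 / 100 : ℝ) ^ (l + n) := by
    intro n
    induction n with
    | zero => simp; ring
    | succ n ih => rw [sum_range_succ, ih, ← add_assoc, pow_succ]; ring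
  rw [h]
  have : (0 : ℝ) ≤ (99 / 100 : ℝ) ^ (l + n) := by positivity
  linarith

/-- The chain from towers and a group mapping to all of them. -/
theorem fin {P : Par} {Γ : Gad} {l : ℕ} {σ : ∀ B, (P.stg Γ B).E → (P.stg Γ B).E}
    (hJ : ∀ B, l ≤ B → B + 1 ≤ P.J B) (hσ : ∀ B, l ≤ B → (P.stg Γ B).Adm (σ B))
    (hb : ∀ B, l ≤ B → Fintype.card (P.Bot Γ (B + 1)) * 2 ^ (B + 1) ≤ 2 ^ P.J B)
    (ht : ∀ n, ∑ i ∈ range n, (2 * ((P.N (l + i) : ℝ) + 1) + 1) * tau Γ (l + i) ≤ 1 / 4)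
    {G : Type} [Group G] (R : ∀ B, Gen P Γ B G) {H : ℕ → Type} [∀ k, Group (H k)]
    (f : ∀ k, G →* H k) (hf : ∀ x y, (∀ k, f k x = f k y) → x = y)
    (hT : ∀ k, Tw σ l (l + k) fun B => (R B).map (f k)) :
    ∃ (N : ℕ → Subgroup G) (_ : ∀ i, (N i).Normal),
      N 0 = ⊤ ∧ Antitone N ∧ ⨅ i, N i = ⊥ ∧ ∃ x : MonoidAlgebra ℚ G,
        (∀ i, 1 ≤ i → nulq (MonoidAlgebra.mapDomain (QuotientGroup.mk' (N i)) x) ≤ 1 / 4) ∧
          3 / 4 ≤ nulq x := by
  let N : ℕ → Subgroup G := fun m => ⨅ k : Fin m, (f k).ker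
  have hN : ∀ m x, x ∈ N m ↔ ∀ k, k < m → f k x = 1 := fun m x => by
    simp only [N, Subgroup.mem_iInf, MonoidHom.mem_ker]
    exact ⟨fun h k hk => h ⟨k, hk⟩, fun h k => h k k.2⟩
  have hn : ∀ m, (N m).Normal := fun m => Subgroup.normal_iInf_normal fun _ => inferInstance
  have hR : ∀ B, l ≤ B → Rel (σ B) (R B) (R (B + 1)) := fun B hB e he => hf _ _ fun k => by
    rw [← ptg_map, ← ptg_map]
    exact (hT k).1 B hB e he
  refine ⟨N, hn, ?_, fun a b hab x hx => ?_, ?_, (R l).X, fun m hm => ?_, ?_⟩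
  · exact eq_top_iff.2 fun x _ => (hN 0 x).2 fun k hk => by omega
  · exact (hN a x).2 fun k hk => (hN b x).1 hx k (by omega)
  · refine eq_bot_iff.2 fun x hx => Subgroup.mem_bot.2 (hf _ _ fun k => ?_)
    rw [map_one]
    exact (hN (k + 1) x).1 (Subgroup.mem_iInf.1 hx (k + 1)) k (by omega)
  · obtain ⟨k, rfl⟩ : ∃ k, m = k + 1 := ⟨m - 1, by omega⟩
    have inj : ∀ {B : ℕ} (ι : Γ.K B →* G), Function.Injective ((f k).comp ι) →
        Function.Injective ((QuotientGroup.mk' (N (k + 1))).comp ι) := fun ι hι => by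
      rw [injective_iff_map_eq_one] at hι ⊢
      intro y hy
      exact hι y ((hN _ _).1 ((QuotientGroup.eq_one_iff _).1 hy) k (by omega))
    rw [X_map]
    refine (top_le (fun B => (R B).map (QuotientGroup.mk' (N (k + 1)))) hJ hσ
      (fun B hB => (hR B hB).map _) k (fun B a b c => inj _ ((hT k).2.1 B a b c))
      (fun B a b => inj _ ((hT k).2.2.1 B a b)) (fun x => ?_) fun y => ?_).trans (ht _)
    · rw [eta_map]
      refine (QuotientGroup.eq_one_iff _).2 ((hN _ _).2 fun j hj => ?_)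
      rw [← eta_map]
      exact (hT j).2.2.2.1 _ (by omega) x
    · exact (QuotientGroup.eq_one_iff _).2 ((hN _ _).2 fun j hj =>
        (hT j).2.2.2.2 (l + k) (by omega) y)
  · have := all_le R hJ hσ hb hR
      (fun B hB a => Function.Injective.of_comp (f := f (B - l))
        ((hT (B - l)).2.1 B hB (by omega) a))
      (fun B hB => Function.Injective.of_comp (f := f (B - l + 1))
        ((hT (B - l + 1)).2.2.1 B hB (by omega))) ht
    have e : rkq (R l).X = 1 - nulq (R l).X := rfl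
    linarith

end G3bx

open G3bx in
theorem chain_cnt (P : Par) (Γ : Gad) (B0 : ℕ) (h : P.Good Γ B0) :
    ∃ (G : Type) (_ : Group G) (N : ℕ → Subgroup G) (_ : ∀ i, (N i).Normal), Countable G ∧
      N 0 = ⊤ ∧ Antitone N ∧ ⨅ i, N i = ⊥ ∧ ∃ x : MonoidAlgebra ℚ G,
        (∀ i, 1 ≤ i → nulq (MonoidAlgebra.mapDomain (QuotientGroup.mk' (N i)) x) ≤ 1 / 4) ∧
          3 / 4 ≤ nulq x := by
  obtain ⟨l₁, hl₁⟩ := exists_pow_lt_of_lt_one (by norm_num : (0 : ℝ) < 1 / 1200)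
    (by norm_num : (99 / 100 : ℝ) < 1)
  obtain ⟨l, hl, hl'⟩ : ∃ l, B0 ≤ l ∧ 3 * (99 / 100 : ℝ) ^ l * 100 ≤ 1 / 4 := by
    refine ⟨l₁ + B0, by omega, ?_⟩
    have : (99 / 100 : ℝ) ^ (l₁ + B0) ≤ (99 / 100 : ℝ) ^ l₁ :=
      pow_le_pow_of_le_one (by norm_num) (by norm_num) (by omega)
    linarith
  have hs : ∀ B, ∃ σ : (P.stg Γ B).E → (P.stg Γ B).E, l ≤ B → (P.stg Γ B).Adm σ ∧ Emb σ := by
    intro B
    by_cases hB : l ≤ B
    · obtain ⟨σ, hσ⟩ := (h B (by omega)).2.2.2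
      exact ⟨σ, fun _ => hσ⟩
    · exact ⟨id, fun h => absurd h hB⟩
  choose σ hσ using hs
  choose H inst R hR using fun k =>
    tower (fun B hB => (hσ B hB).2) (l + k) (k + 1) l (by omega) le_rfl
  let v : (Σ B : ℕ, ((Bool × Fin (P.N B + 1)) × Γ.K B) ⊕ Γ.K B ⊕ Option (P.R0 B)) → ∀ k, H k :=
    fun s k => Sum.elim (fun a => (R k s.1).ιk a.1 a.2)
      (Sum.elim (fun y => (R k s.1).ιx y) fun r => (R k s.1).gr r) s.2
  have hv : ∀ s, v s ∈ (FreeGroup.lift v).range := fun s => ⟨FreeGroup.of s, by simp⟩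
  have ht : ∀ n, ∑ i ∈ range n, (2 * ((P.N (l + i) : ℝ) + 1) + 1) * tau Γ (l + i) ≤ 1 / 4 := by
    refine fun n => le_trans (sum_le_sum fun i _ => ?_) (geom l n hl')
    have h1 := (h (l + i) (by omega)).2.2.1
    have h2 := tau_nonneg (Γ := Γ) (B := l + i)
    have h3 : (0 : ℝ) ≤ P.N (l + i) := Nat.cast_nonneg _
    unfold tau at h2 ⊢
    nlinarith
  obtain ⟨N, hN, h'⟩ := fin (G := (FreeGroup.lift v).range) (fun B hB => (h B (by omega)).1)
    (fun B hB => (hσ B hB).1) (fun B hB => (h B (by omega)).2.1) ht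
    (fun B => ⟨fun a => (MonoidHom.pi fun k => (R k B).ιk a).codRestrict _
        fun y => hv ⟨B, .inl (a, y)⟩,
      (MonoidHom.pi fun k => (R k B).ιx).codRestrict _ fun y => hv ⟨B, .inr (.inl y)⟩,
      fun r => ⟨fun k => (R k B).gr r, hv ⟨B, .inr (.inr r)⟩⟩⟩)
    (fun k => (Pi.evalMonoidHom H k).comp (Subgroup.subtype _))
    (fun x y hxy => Subtype.ext (funext hxy)) hR
  exact ⟨_, inferInstance, N, hN, (FreeGroup.lift v).rangeRestrict_surjective.countable, h'⟩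

theorem chain (P : Par) (Γ : Gad) (B0 : ℕ) (h : P.Good Γ B0) :
    ∃ (G : Type) (_ : Group G) (N : ℕ → Subgroup G) (_ : ∀ i, (N i).Normal),
      N 0 = ⊤ ∧ Antitone N ∧ ⨅ i, N i = ⊥ ∧ ∃ x : MonoidAlgebra ℚ G,
        (∀ i, 1 ≤ i → nulq (MonoidAlgebra.mapDomain (QuotientGroup.mk' (N i)) x) ≤ 1 / 4) ∧
          3 / 4 ≤ nulq x := by
  obtain ⟨G, _, N, hN, -, h'⟩ := chain_cnt P Γ B0 h
  exact ⟨G, inferInstance, N, hN, h'⟩

end Pool.Agent.MP_c6eade_gt.H41
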